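import Mathlib
import Pool.Agent.H39.Q1.Sides

set_option autoImplicit false
open Finset

/-! # Invariants of the environments reached by an exploration

* `bridge` : an open edge both sides of which are on one interface is a bridge.
* `Inv X` : back contour (the contour from `β` to the tip `α` meets no free label and meets all wired
  labels) and connectedness of the closed boundary seen from the inside.
* `Inv.after` : the invariants are preserved by every adapted stopping rule.
* `Inv.no_wired` : if `vx α` and `vx β` are joined by open free labels then the exploration meets no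
  wired label.
* `Inv.one_type` : a piece of the exploration which does not meet the labels of a set `P` of free
  labels joining `vx α` to `vx β` does not meet both wired labels and closed boundary labels. -/

namespace Pool.Agent.H28.Q1

open Pool.Agent.H75.Perc Pool.Agent.H75.TwoArm Pool.Agent.H75.Four Pool.Agent.H99.NC
open Pool.Agent.H69.Q1 Pool.Agent.H39.Q1
open Pool.Agent.H75.TwoArm.StrandAux hiding vx_nxC

/-- two corners with the same `plab` -/
lemma plab_eq {L : Finset (ℤ × ℤ)} {x y : ℤ × ℤ} (h : plab x = plab y) :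
    x = y ∨ pv L x = opc (pv L y) := by
  have h1 : lab (pv L x) = lab (pv L y) := by rw [lab_pv, lab_pv, h]
  rcases lab_eq_iff.1 h1 with h2 | h2
  · exact Or.inl (pv_inj L h2)
  · exact Or.inr h2

/-- the vertex before an open step -/
lemma vx_of_open {L : Finset (ℤ × ℤ)} {x : ℤ × ℤ} (h : plab x ∈ L) :
    vx x = vx (opc (pv L x)) ∧ fi x = fi (pv L x) := by
  have h2 : nxO (pv L x) = x := (nx_pv_aux L x).1 h
  have h3 := nxO_opc (pv L x)
  rwa [h2] at h3

/-- the face before a closed step -/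
lemma fi_of_closed {L : Finset (ℤ × ℤ)} {x : ℤ × ℤ} (h : plab x ∉ L) :
    vx x = vx (pv L x) ∧ fi x = fi (opc (pv L x)) := by
  have h2 : nxC (pv L x) = x := (nx_pv_aux L x).2 h
  have h3 := nxC_opc (pv L x)
  rwa [h2] at h3

/-- two corners with the same open `plab` -/
lemma open_twin {L : Finset (ℤ × ℤ)} {x y : ℤ × ℤ} (h : plab x = plab y) (hL : plab y ∈ L) :
    vx x = vx y ∨ vx x = vx (pv L y) := by
  rcases plab_eq (L := L) h with h1 | h1
  · left; rw [h1]
  · right
    have h2 := (vx_of_open (L := L) (x := x) (by rw [h]; exact hL)).1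
    rw [h1, opc_opc] at h2
    exact h2

/-- two corners with the same closed `plab` -/
lemma closed_twin {L : Finset (ℤ × ℤ)} {x y : ℤ × ℤ} (h : plab x = plab y) (hL : plab y ∉ L) :
    fi x = fi y ∨ fi x = fi (pv L y) := by
  rcases plab_eq (L := L) h with h1 | h1
  · left; rw [h1]
  · right
    have h2 := (fi_of_closed (L := L) (x := x) (by rw [h]; exact hL)).2
    rw [h1, opc_opc] at h2
    exact h2

/-- **Bridge.** If both sides of an open edge are on one interface then its ends are not joined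
otherwise. -/
theorem bridge {L : Finset (ℤ × ℤ)} {c : ℤ × ℤ} {a b : ℕ} (hab : a ≤ b)
    (he : plab ((pv L)^[a] c) = plab ((pv L)^[b] c)) (hL : plab ((pv L)^[a] c) ∈ L)
    (hne : (pv L)^[a] c ≠ (pv L)^[b] c) :
    ¬ Co (L.erase (plab ((pv L)^[a] c))) (vx ((pv L)^[a] c)) (vx ((pv L)^[a + 1] c)) := by
  intro hco
  set e := plab ((pv L)^[a] c) with hedef
  have hodd : (e.1 + e.2) % 2 = 1 := odd_plab _
  have hd := Pool.Agent.H39.Q1.side_dual L c (i := a + 1) (j := b + 1) (by omega)
  have hins : insert e L = L := insert_eq_self.2 hL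
  have hv := (vx_of_open (L := L) (x := (pv L)^[a] c) hL).1
  have hs : ∀ t, (pv L)^[t + 1] c = pv L ((pv L)^[t] c) := fun t =>
    Function.iterate_succ_apply' _ _ _
  rcases plab_eq (L := L) he with h1 | h1
  · exact hne h1
  · rw [← hs a, ← hs b] at h1
    rw [← hs a] at hv
    have hl : lab ((pv L)^[a + 1] c) = e := by rw [hs a, lab_pv]
    obtain ⟨o1, o2, -, -, -, -⟩ := opc_zu hodd
    have h1' : (pv L)^[b + 1] c = opc ((pv L)^[a + 1] c) := by rw [h1, opc_opc]
    rw [h1'] at hd
    rcases eq_zu_or_zv hodd hl with h2 | h2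
    · rw [h2, o1] at hd
      rw [h2, o1] at hv
      refine Pool.Agent.H81.NC.sep_of_dual hodd (ω := L) (by rw [hins]; exact hd) ?_
      rw [h2, hv] at hco
      exact hco.symm
    · rw [h2, o2] at hd
      rw [h2, o2] at hv
      refine Pool.Agent.H81.NC.sep_of_dual hodd (ω := L) (by rw [hins]; exact hd.symm) ?_
      rw [h2, hv] at hco
      exact hco

/-- Faces joined by labels outside `E ∪ W`. -/
def ClJ (X : DEnv) (f g : ℤ × ℤ) : Prop := ∃ F : Finset (ℤ × ℤ), Co (du F (X.E ∪ X.W)) f g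

lemma ClJ.refl (X : DEnv) (f : ℤ × ℤ) : ClJ X f f := ⟨∅, Co.refl _ _⟩

lemma ClJ.symm {X : DEnv} {f g : ℤ × ℤ} (h : ClJ X f g) : ClJ X g f := by
  obtain ⟨F, hF⟩ := h
  exact ⟨F, hF.symm⟩

lemma ClJ.trans {X : DEnv} {f g k : ℤ × ℤ} (h : ClJ X f g) (h' : ClJ X g k) : ClJ X f k := by
  obtain ⟨F, hF⟩ := h
  obtain ⟨F', hF'⟩ := h'
  exact ⟨F ∪ F', (hF.mono (du_mono_left subset_union_left)).trans
    (hF'.mono (du_mono_left subset_union_right))⟩

/-- **The invariants.** -/
structure Inv (X : DEnv) : Prop where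
  /-- the back contour meets no free label and meets every wired label -/
  back : ∃ m : ℕ, 0 < m ∧ (pv X.W)^[m] X.β = X.α ∧
    (∀ k, 0 < k → k < m → (pv X.W)^[k] X.β ≠ X.α) ∧
    (∀ k < m, plab ((pv X.W)^[k] X.β) ∉ X.E) ∧
    (∀ w ∈ X.W, ∃ k < m, plab ((pv X.W)^[k] X.β) = w)
  /-- closed boundary labels met by an exploration are on the boundary of one dual cluster -/
  cl : ∀ ω, ω ⊆ X.E → ∀ i < X.len ω, plab (X.cor ω i) ∉ X.E → plab (X.cor ω i) ∉ X.W →
    ClJ X (Pool.Agent.H75.TwoArm.fi X.α) (Pool.Agent.H75.TwoArm.fi (X.cor ω i))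

/-- the labels closed in a configuration met by a piece -/
lemma du_sub_of {M L L' : Finset (ℤ × ℤ)} (h : ∀ e ∈ M, e ∉ L → e ∉ L') : du M L ⊆ du M L' := by
  unfold du
  refine map_subset_map.2 fun e he => ?_
  rw [mem_sdiff] at he ⊢
  exact ⟨he.1, h e he.1 he.2⟩

/-- the contour is the same in all configurations which agree on the labels met -/
lemma iter_congr {L L' : Finset (ℤ × ℤ)} {c : ℤ × ℤ} {m : ℕ}
    (h : ∀ k < m, (plab ((pv L)^[k] c) ∈ L' ↔ plab ((pv L)^[k] c) ∈ L)) :
    ∀ k ≤ m, (pv L')^[k] c = (pv L)^[k] c := by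
  intro k
  induction k with
  | zero => intro _; rfl
  | succ k ih =>
    intro hk
    rw [Function.iterate_succ_apply', Function.iterate_succ_apply', ih (by omega)]
    exact pv_eq_of (h k (by omega))

section

variable {X : DEnv}

/-- The back contour of a configuration. -/
lemma Inv.back' (hI : Inv X) : ∃ m : ℕ, 0 < m ∧ ∀ ω, ω ⊆ X.E →
    (∀ k ≤ m, (pv (ω ∪ X.W))^[k] X.β = (pv X.W)^[k] X.β) ∧
    (pv (ω ∪ X.W))^[m] X.β = X.α ∧
    (∀ k, 0 < k → k < m → (pv (ω ∪ X.W))^[k] X.β ≠ X.α) ∧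
    (∀ k < m, plab ((pv (ω ∪ X.W))^[k] X.β) ∉ X.E) ∧
    (∀ w ∈ X.W, ∃ k < m, plab ((pv (ω ∪ X.W))^[k] X.β) = w) := by
  obtain ⟨m, h0, h1, h2, h3, h4⟩ := hI.back
  refine ⟨m, h0, fun ω hω => ?_⟩
  have hc : ∀ k ≤ m, (pv (ω ∪ X.W))^[k] X.β = (pv X.W)^[k] X.β := by
    refine iter_congr fun k hk => ?_
    rw [mem_union]
    exact ⟨fun h => h.resolve_left fun h5 => h3 k hk (hω h5), Or.inr⟩
  refine ⟨hc, ?_, ?_, ?_, ?_⟩
  · rw [hc m le_rfl, h1]
  · intro k hk hk'
    rw [hc k hk'.le]
    exact h2 k hk hk'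
  · intro k hk
    rw [hc k hk.le]
    exact h3 k hk
  · intro w hw
    obtain ⟨k, hk, h5⟩ := h4 w hw
    exact ⟨k, hk, by rw [hc k hk.le, h5]⟩

/-- the wired labels join `vx β` to `vx α` -/
lemma Inv.co_W (hI : Inv X) : Co X.W (vx X.β) (vx X.α) := by
  obtain ⟨m, -, h1, -, -, -⟩ := hI.back
  have h := Pool.Agent.H39.Q1.side_open X.W X.β (Nat.zero_le m)
  rw [h1] at h
  exact h.mono inter_subset_left

/-- every wired label is joined to `vx β` by wired labels -/
lemma Inv.co_of_mem (hI : Inv X) {c : ℤ × ℤ} (hc : plab c ∈ X.W) : Co X.W (vx X.β) (vx c) := by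
  obtain ⟨m, -, -, -, -, h4⟩ := hI.back
  obtain ⟨k, -, h5⟩ := h4 _ hc
  have h6 := (Pool.Agent.H39.Q1.side_open X.W X.β (Nat.zero_le k)).mono inter_subset_left
  have h7 := (Pool.Agent.H39.Q1.side_open X.W X.β (Nat.zero_le (k + 1))).mono inter_subset_left
  rw [Function.iterate_succ_apply'] at h7
  rcases open_twin (L := X.W) h5.symm (by rw [h5]; exact hc) with h8 | h8
  · rw [h8]; exact h6
  · rw [h8]; exact h7

/-- the faces of `β` and `α` are joined by closed boundary labels -/
lemma Inv.clJ (hI : Inv X) : ClJ X (fi X.β) (fi X.α) := by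
  obtain ⟨m, -, h1, -, h3, -⟩ := hI.back
  have h := Pool.Agent.H39.Q1.side_dual X.W X.β (Nat.zero_le m)
  rw [h1] at h
  refine ⟨_, h.mono (du_sub_of fun e he hW => ?_)⟩
  obtain ⟨k, ⟨-, hk⟩, rfl⟩ := mem_met.1 he
  rw [mem_union, not_or]
  exact ⟨h3 k hk, hW⟩

/-- **No wired label.** If `vx α` and `vx β` are joined by open free labels then the exploration meets
no wired label. -/
theorem Inv.no_wired (hI : Inv X) {ω : Finset (ℤ × ℤ)} (hω : ω ⊆ X.E)
    (hco : Co ω (vx X.α) (vx X.β)) {i : ℕ} (hi : i < X.len ω) : plab (X.cor ω i) ∉ X.W := by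
  intro hw
  obtain ⟨m, hm0, hm⟩ := hI.back'
  obtain ⟨-, h1, h2, h3, h4⟩ := hm ω hω
  obtain ⟨k, hk, hk'⟩ := h4 _ hw
  set L := ω ∪ X.W with hL
  set w := plab (X.cor ω i) with hwdef
  have hwL : w ∈ L := mem_union_right _ hw
  have hcor : ∀ t, X.cor ω t = (pv L)^[t + m] X.β := by
    intro t
    rw [Function.iterate_add_apply, h1]
    rfl
  -- the corners are different
  have hne : ∀ k' < m, (pv L)^[k'] X.β ≠ X.cor ω i := by
    intro k' hk' h5
    rw [hcor i] at h5
    have h6 : (pv L)^[k'] X.β = (pv L)^[k'] ((pv L)^[i + m - k'] X.β) := by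
      rw [← Function.iterate_add_apply, h5]
      congr 1
      omega
    have h7 : X.β = (pv L)^[i + m - k'] X.β := (pv_inj L).iterate k' h6
    by_cases h8 : k' ≤ i
    · have h9 : i + m - k' = (i - k') + m := by omega
      rw [h9, ← hcor] at h7
      exact X.cor_ne (by omega) h7.symm
    · push Not at h8
      have h9 : (pv L)^[k' - i] X.β = X.α := by
        conv_lhs => rw [h7]
        rw [← Function.iterate_add_apply, ← h1]
        congr 1
        omega
      exact h2 (k' - i) (by omega) (by omega) h9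
  -- all labels met by the back contour apart from the time `k` are different from `w`
  have hoff : ∀ k' < m, k' ≠ k → plab ((pv L)^[k'] X.β) ≠ w := by
    intro k' hk'm hkk h5
    have e1 := plab_eq (L := L) (x := (pv L)^[k'] X.β) (y := X.cor ω i) h5
    have e2 := plab_eq (L := L) (x := (pv L)^[k] X.β) (y := X.cor ω i) hk'
    have h6 := e1.resolve_left (hne k' hk'm)
    have h7 := e2.resolve_left (hne k hk)
    have h8 : (pv L)^[k'] X.β = (pv L)^[k] X.β := pv_inj L (h6.trans h7.symm)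
    -- two equal corners at different times of the back contour
    have key : ∀ a b : ℕ, a < b → b < m → (pv L)^[a] X.β ≠ (pv L)^[b] X.β := by
      intro a b hab hb h9
      have h10 : (pv L)^[a] X.β = (pv L)^[a] ((pv L)^[b - a] X.β) := by
        rw [← Function.iterate_add_apply, h9]
        congr 1
        omega
      have h11 : X.β = (pv L)^[b - a] X.β := (pv_inj L).iterate a h10
      have h12 : (pv L)^[m - (b - a)] X.β = X.α := by
        conv_lhs => rw [h11]
        rw [← Function.iterate_add_apply, ← h1]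
        congr 1
        omega
      exact h2 (m - (b - a)) (by omega) (by omega) h12
    rcases lt_or_gt_of_ne hkk with h9 | h9
    · exact key k' k h9 hk h8
    · exact key k k' h9 hk'm h8.symm
  -- the ends of `w` are joined off `w`
  have s1 : Co (L.erase w) (vx X.β) (vx ((pv L)^[k] X.β)) := by
    refine (Pool.Agent.H39.Q1.side_open L X.β (Nat.zero_le k)).mono fun e he => ?_
    rw [mem_inter] at he
    obtain ⟨k', ⟨-, h5⟩, h6⟩ := mem_met.1 he.2
    rw [mem_erase]
    exact ⟨by rw [← h6]; exact hoff k' (by omega) (by omega), he.1⟩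
  have s2 : Co (L.erase w) (vx ((pv L)^[k + 1] X.β)) (vx X.α) := by
    have h0 := Pool.Agent.H39.Q1.side_open L X.β (i := k + 1) (j := m) (by omega)
    rw [h1] at h0
    refine h0.mono fun e he => ?_
    rw [mem_inter] at he
    obtain ⟨k', ⟨h5', h5⟩, h6⟩ := mem_met.1 he.2
    rw [mem_erase]
    exact ⟨by rw [← h6]; exact hoff k' (by omega) (by omega), he.1⟩
  have s3 : Co (L.erase w) (vx X.α) (vx X.β) := by
    refine hco.mono fun e he => ?_
    rw [mem_erase]
    refine ⟨fun h5 => ?_, mem_union_left _ he⟩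
    rw [h5] at he
    exact (disjoint_left.1 X.disj) (hω he) hw
  have hb := bridge (L := L) (c := X.β) (a := k) (b := i + m) (by omega)
    (by rw [hk', ← hcor]) (by rw [hk']; exact hwL) (by rw [← hcor]; exact hne k hk)
  rw [hk'] at hb
  exact hb ((s2.trans (s3.trans s1)).symm)

/-- the back part is the same in all configurations -/
lemma Inv.back_iff (hI : Inv X) {ω : Finset (ℤ × ℤ)} (hω : ω ⊆ X.E) {c : ℤ × ℤ} :
    Back (ω ∪ X.W) X.α X.β c ↔ Back X.W X.α X.β c := by
  obtain ⟨m, hm0, hm⟩ := hI.back'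
  obtain ⟨h0, h1, -, -, -⟩ := hm ω hω
  have h1' := h1
  rw [h0 m le_rfl] at h1'
  constructor
  · rintro ⟨j, hj, h5, h6⟩
    have hjm : j < m := by
      by_contra hcon
      push Not at hcon
      exact h6 m hm0 hcon h1
    refine ⟨j, hj, by rw [← h0 j hjm.le, h5], fun k hk hk' => ?_⟩
    rw [← h0 k (by omega)]
    exact h6 k hk hk'
  · rintro ⟨j, hj, h5, h6⟩
    have hjm : j < m := by
      by_contra hcon
      push Not at hcon
      exact h6 m hm0 hcon h1'
    refine ⟨j, hj, by rw [h0 j hjm.le, h5], fun k hk hk' => ?_⟩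
    rw [h0 k (by omega)]
    exact h6 k hk hk'

/-- **One type.** A piece of the exploration which meets no label of a set `P` of free labels joining
`vx α` to `vx β` does not meet both a wired label and a closed boundary label. -/
theorem Inv.one_type (hI : Inv X) {ω P : Finset (ℤ × ℤ)} (hω : ω ⊆ X.E) (hP : P ⊆ X.E)
    (hco : Co P (vx X.α) (vx X.β)) {i0 j0 : ℕ} (hj0 : j0 ≤ X.len ω)
    (hav : ∀ t, i0 ≤ t → t < j0 → plab (X.cor ω t) ∉ P)
    {i j : ℕ} (hi : i0 ≤ i) (hi' : i < j0) (hj : i0 ≤ j) (hj' : j < j0)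
    (hiW : plab (X.cor ω i) ∈ X.W) :
    plab (X.cor ω j) ∈ X.E ∪ X.W := by
  by_contra hjB
  rw [mem_union, not_or] at hjB
  have hωP : ω ∪ P ⊆ X.E := union_subset hω hP
  have hne : X.α ≠ X.β := by
    have := X.cor_ne (ω := ω) (i := 0) (by omega)
    simpa using this
  -- the faces
  have hmet : ∀ a b : ℕ, i0 ≤ a → b ≤ j0 →
      du (X.metE ω a b) (ω ∪ X.W) ⊆ du (X.metE ω a b) (ω ∪ P ∪ X.W) := by
    intro a b ha hb
    refine du_sub_of fun e he h1 => ?_
    obtain ⟨k, hk, rfl⟩ := X.mem_metE.1 he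
    rw [mem_union, not_or] at h1
    rw [mem_union, mem_union, not_or, not_or]
    exact ⟨⟨h1.1, hav k (by omega) (by omega)⟩, h1.2⟩
  have hf1 : ∃ F : Finset (ℤ × ℤ), Co (du F (ω ∪ P ∪ X.W)) (fi (X.cor ω j)) (fi (X.cor ω i)) := by
    rcases le_total i j with h | h
    · exact ⟨_, ((X.side_dual ω h).mono (hmet i j hi hj'.le)).symm⟩
    · exact ⟨_, (X.side_dual ω h).mono (hmet j i hj hi'.le)⟩
  obtain ⟨F1, hF1⟩ := hf1
  obtain ⟨F2, hF2⟩ := hI.cl ω hω j (by omega) hjB.1 hjB.2
  have hF2' : Co (du F2 (ω ∪ P ∪ X.W)) (fi X.α) (fi (X.cor ω j)) :=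
    hF2.mono (du_anti (union_subset_union_left hωP))
  have hf : Co (du (F1 ∪ F2) (ω ∪ P ∪ X.W)) (fi X.α) (fi (X.cor ω i)) :=
    (hF2'.mono (du_mono_left subset_union_right)).trans (hF1.mono (du_mono_left subset_union_left))
  -- the vertices
  have hv : Co (ω ∪ P ∪ X.W) (vx X.α) (vx (X.cor ω i)) :=
    (hI.co_W.symm.trans (hI.co_of_mem hiW)).mono subset_union_right
  have hO : InOrb (pv (ω ∪ P ∪ X.W)) X.α (X.cor ω i) := inOrb_pv_iff.2 (inOrb_of_co _ hv hf)
  have hvis : X.Visited ω (X.cor ω i) := ⟨i, by omega, rfl⟩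
  have hB := ((X.visited_iff hω hne).1 hvis).2
  have hB' : ¬ Back (ω ∪ P ∪ X.W) X.α X.β (X.cor ω i) := by
    rw [hI.back_iff hωP, ← hI.back_iff hω]
    exact hB
  obtain ⟨i', hi1, hi2⟩ := (X.visited_iff hωP hne).2 ⟨hO, hB'⟩
  have hi3 : i' < X.len (ω ∪ P) := by
    refine lt_of_le_of_ne hi1 fun h => ?_
    rw [h, X.cor_len hωP] at hi2
    exact X.cor_ne (ω := ω) (i := i) (by omega) hi2.symm
  refine hI.no_wired hωP (hco.mono subset_union_right) hi3 ?_
  rw [hi2]
  exact hiW

/-! ### The invariants are preserved -/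

lemma ClJ.after {Q : ℕ → (ℕ → ℤ × ℤ) → Prop} (hQ : DEnv.Adapted Q) {ω : Finset (ℤ × ℤ)}
    (hω : ω ⊆ X.E) {f g : ℤ × ℤ} (h : ClJ X f g) : ClJ (X.after Q hQ ω hω) f g := by
  obtain ⟨F, hF⟩ := h
  refine ⟨F, hF.mono (du_anti ?_)⟩
  intro e he
  rw [mem_union, DEnv.after_E, DEnv.after_W, mem_sdiff, mem_union, mem_inter] at he
  rw [mem_union]
  rcases he with h1 | h1 | h1
  · exact Or.inl h1.1
  · exact Or.inr h1
  · exact Or.inl (hω h1.1)

/-- the left side of the explored path -/
lemma clJ_explored {Q : ℕ → (ℕ → ℤ × ℤ) → Prop} (hQ : DEnv.Adapted Q) {ω : Finset (ℤ × ℤ)}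
    (hω : ω ⊆ X.E) {a b : ℕ} (hab : a ≤ b) (hb : b ≤ X.tau Q ω) :
    ClJ (X.after Q hQ ω hω) (fi (X.cor ω a)) (fi (X.cor ω b)) := by
  refine ⟨_, (X.side_dual ω hab).mono (du_sub_of fun e he h1 => ?_)⟩
  obtain ⟨k, hk, rfl⟩ := X.mem_metE.1 he
  rw [mem_union, not_or] at h1
  rw [mem_union, DEnv.after_E, DEnv.after_W, mem_sdiff, mem_union, mem_inter]
  rintro (h2 | h2 | h2)
  · exact h2.2 (X.mem_exset.2 ⟨h2.1, k, by omega, rfl⟩)
  · exact h1.2 h2
  · exact h1.1 h2.1

/-- **The invariants are preserved by every stopping rule.** -/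
theorem Inv.after (hI : Inv X) {Q : ℕ → (ℕ → ℤ × ℤ) → Prop} (hQ : DEnv.Adapted Q)
    {ω : Finset (ℤ × ℤ)} (hω : ω ⊆ X.E) : Inv (X.after Q hQ ω hω) := by
  have hτ := X.tau_le_len (Q := Q) hω
  constructor
  · obtain ⟨m, hm0, hm⟩ := hI.back'
    obtain ⟨h0, h1, h2, h3, h4⟩ := hm ω hω
    set L := ω ∪ X.W with hL
    set W' := (X.after Q hQ ω hω).W with hW'
    have hcor : ∀ t, X.cor ω t = (pv L)^[t + m] X.β := by
      intro t
      rw [Function.iterate_add_apply, h1]
      rfl
    have hmem : ∀ e, e ∈ W' ↔ e ∈ X.W ∨ (e ∈ ω ∧ e ∈ X.exset Q ω) := by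
      intro e
      rw [hW', DEnv.after_W, mem_union, mem_inter]
    have hc : ∀ k ≤ X.tau Q ω + m, (pv W')^[k] X.β = (pv L)^[k] X.β := by
      refine iter_congr fun k hk => ?_
      rw [hmem, hL, mem_union]
      by_cases hkm : k < m
      · have h5 := h3 k hkm
        constructor
        · rintro (h6 | h6)
          · exact Or.inr h6
          · exact Or.inl h6.1
        · rintro (h6 | h6)
          · exact absurd (hω h6) h5
          · exact Or.inl h6
      · have h6 : (pv L)^[k] X.β = X.cor ω (k - m) := by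
          rw [hcor, Nat.sub_add_cancel (by omega)]
        rw [← hL, h6]
        constructor
        · rintro (h7 | h7)
          · exact Or.inr h7
          · exact Or.inl h7.1
        · rintro (h7 | h7)
          · exact Or.inr ⟨h7, X.mem_exset.2 ⟨hω h7, k - m, by omega, rfl⟩⟩
          · exact Or.inl h7
    refine ⟨X.tau Q ω + m, by omega, ?_, ?_, ?_, ?_⟩
    · rw [DEnv.after_β, DEnv.after_α, hc _ le_rfl, ← hcor]
    · intro k hk hk' h5
      rw [DEnv.after_β, DEnv.after_α, hc k hk'.le] at h5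
      by_cases hkm : k < m
      · rw [hcor] at h5
        have h6 : (pv L)^[k] X.β = (pv L)^[k] ((pv L)^[X.tau Q ω + m - k] X.β) := by
          rw [← Function.iterate_add_apply, h5]
          congr 1
          omega
        have h7 : X.β = (pv L)^[X.tau Q ω + m - k] X.β := (pv_inj L).iterate k h6
        by_cases h8 : k ≤ X.tau Q ω
        · have h9 : X.tau Q ω + m - k = (X.tau Q ω - k) + m := by omega
          rw [h9, ← hcor] at h7
          exact X.cor_ne (by omega) h7.symm
        · push Not at h8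
          have h9 : (pv L)^[k - X.tau Q ω] X.β = X.α := by
            conv_lhs => rw [h7]
            rw [← Function.iterate_add_apply, ← h1]
            congr 1
            omega
          exact h2 (k - X.tau Q ω) (by omega) (by omega) h9
      · have h6 : (pv L)^[k] X.β = X.cor ω (k - m) := by
          rw [hcor, Nat.sub_add_cancel (by omega)]
        rw [h6] at h5
        have h7 := X.cor_inj hω (by omega) hτ h5
        omega
    · intro k hk
      rw [DEnv.after_β, hc k hk.le, DEnv.after_E, mem_sdiff]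
      rintro ⟨h5, h6⟩
      by_cases hkm : k < m
      · exact h3 k hkm h5
      · have h7 : (pv L)^[k] X.β = X.cor ω (k - m) := by
          rw [hcor, Nat.sub_add_cancel (by omega)]
        rw [h7] at h5 h6
        exact h6 (X.mem_exset.2 ⟨h5, k - m, by omega, rfl⟩)
    · intro w hw
      rcases (hmem w).1 hw with h5 | h5
      · obtain ⟨k, hk, h6⟩ := h4 w h5
        exact ⟨k, by omega, by rw [DEnv.after_β, hc k (by omega), h6]⟩
      · obtain ⟨-, k, hk, h6⟩ := X.mem_exset.1 h5.2
        exact ⟨k + m, by omega, by rw [DEnv.after_β, hc (k + m) (by omega), ← hcor, h6]⟩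
  · intro η hη i hi hE hW
    have hη' : η ⊆ X.E := hη.trans sdiff_subset
    have hηU : η \ X.exset Q ω = η := by
      ext e
      rw [mem_sdiff]
      exact ⟨fun h => h.1, fun h => ⟨h, (mem_sdiff.1 (hη h)).2⟩⟩
    have hcor := X.after_cor hQ hω hη' i
    have hlen := X.after_len hQ hω hη'
    rw [hηU] at hcor hlen
    rw [hcor] at hE hW ⊢
    obtain ⟨ht1, ht2⟩ := X.tau_mix hQ hω hη'
    set ζ := mix (X.exset Q ω) ω η with hζ
    have hζE : ζ ⊆ X.E := mix_subset hω hη'
    rw [DEnv.after_α]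
    rw [DEnv.after_E, mem_sdiff, not_and_or, not_not] at hE
    rw [DEnv.after_W, mem_union, mem_inter, not_or] at hW
    by_cases hlE : plab (X.cor ζ (i + X.tau Q ω)) ∈ X.E
    · have hU : plab (X.cor ζ (i + X.tau Q ω)) ∈ X.exset Q ω :=
        hE.resolve_left (fun h => h hlE)
      obtain ⟨-, k, hk, hk'⟩ := X.mem_exset.1 hU
      have hcl : plab (X.cor ω k) ∉ ω ∪ X.W := by
        rw [hk', mem_union, not_or]
        exact ⟨fun h => hW.2 ⟨h, hU⟩, hW.1⟩
      rcases closed_twin (L := ω ∪ X.W) hk'.symm hcl with h5 | h5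
      · rw [h5]
        exact (clJ_explored hQ hω hk.le le_rfl).symm
      · rw [h5, ← X.cor_succ]
        exact (clJ_explored hQ hω hk le_rfl).symm
    · have h5 := hI.cl ζ hζE (i + X.tau Q ω) (by omega) hlE hW.1
      exact (clJ_explored hQ hω (Nat.zero_le _) le_rfl).symm.trans (ClJ.after hQ hω h5)

end

end Pool.Agent.H28.Q1
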