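import Mathlib
import Pool.Agent.H28.Q1.Inv

set_option autoImplicit false
open Finset

/-! # Sets of free and wired labels which join the two ends

Variants of `Inv.no_wired` and `Inv.one_type` for a set `P` of free and wired labels which joins
`vx α` to `vx β`: the exploration in a configuration which contains the free labels of `P` meets no
wired label outside `P`; a piece which meets no label of `P` meets at most one type of boundary
labels. -/

namespace Pool.Agent.H28.Q1

open Pool.Agent.H75.Perc Pool.Agent.H75.TwoArm Pool.Agent.H75.Four Pool.Agent.H99.NC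
open Pool.Agent.H69.Q1 Pool.Agent.H39.Q1
open Pool.Agent.H75.TwoArm.StrandAux hiding vx_nxC

section

variable {X : DEnv}

/-- **No wired label outside `P`.** -/
theorem Inv.no_wired' (hI : Inv X) {ω P : Finset (ℤ × ℤ)} (hω : ω ⊆ X.E) (hP : P ⊆ ω ∪ X.W)
    (hco : Co P (vx X.α) (vx X.β)) {i : ℕ} (hi : i < X.len ω) (hw : plab (X.cor ω i) ∈ X.W) :
    plab (X.cor ω i) ∈ P := by
  by_contra hwP
  obtain ⟨m, hm0, hm⟩ := hI.back'
  obtain ⟨-, h1, h2, h3, h4⟩ := hm ω hω
  obtain ⟨k, hk, hk'⟩ := h4 _ hw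
  set L := ω ∪ X.W with hL
  set w := plab (X.cor ω i) with hwdef
  have hwL : w ∈ L := mem_union_right _ hw
  have hcor : ∀ t, X.cor ω t = (pv L)^[t + m] X.β := by
    intro t
    rw [Function.iterate_add_apply, h1]
    rfl
  -- the corners are different
  have hne : ∀ k' < m, (pv L)^[k'] X.β ≠ X.cor ω i := by
    intro k' hk' h5
    rw [hcor i] at h5
    have h6 : (pv L)^[k'] X.β = (pv L)^[k'] ((pv L)^[i + m - k'] X.β) := by
      rw [← Function.iterate_add_apply, h5]
      congr 1
      omega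
    have h7 : X.β = (pv L)^[i + m - k'] X.β := (pv_inj L).iterate k' h6
    by_cases h8 : k' ≤ i
    · have h9 : i + m - k' = (i - k') + m := by omega
      rw [h9, ← hcor] at h7
      exact X.cor_ne (by omega) h7.symm
    · push Not at h8
      have h9 : (pv L)^[k' - i] X.β = X.α := by
        conv_lhs => rw [h7]
        rw [← Function.iterate_add_apply, ← h1]
        congr 1
        omega
      exact h2 (k' - i) (by omega) (by omega) h9
  have hoff : ∀ k' < m, k' ≠ k → plab ((pv L)^[k'] X.β) ≠ w := by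
    intro k' hk'm hkk h5
    have e1 := plab_eq (L := L) (x := (pv L)^[k'] X.β) (y := X.cor ω i) h5
    have e2 := plab_eq (L := L) (x := (pv L)^[k] X.β) (y := X.cor ω i) hk'
    have h6 := e1.resolve_left (hne k' hk'm)
    have h7 := e2.resolve_left (hne k hk)
    have h8 : (pv L)^[k'] X.β = (pv L)^[k] X.β := pv_inj L (h6.trans h7.symm)
    have key : ∀ a b : ℕ, a < b → b < m → (pv L)^[a] X.β ≠ (pv L)^[b] X.β := by
      intro a b hab hb h9
      have h10 : (pv L)^[a] X.β = (pv L)^[a] ((pv L)^[b - a] X.β) := by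
        rw [← Function.iterate_add_apply, h9]
        congr 1
        omega
      have h11 : X.β = (pv L)^[b - a] X.β := (pv_inj L).iterate a h10
      have h12 : (pv L)^[m - (b - a)] X.β = X.α := by
        conv_lhs => rw [h11]
        rw [← Function.iterate_add_apply, ← h1]
        congr 1
        omega
      exact h2 (m - (b - a)) (by omega) (by omega) h12
    rcases lt_or_gt_of_ne hkk with h9 | h9
    · exact key k' k h9 hk h8
    · exact key k k' h9 hk'm h8.symm
  have s1 : Co (L.erase w) (vx X.β) (vx ((pv L)^[k] X.β)) := by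
    refine (Pool.Agent.H39.Q1.side_open L X.β (Nat.zero_le k)).mono fun e he => ?_
    rw [mem_inter] at he
    obtain ⟨k', ⟨-, h5⟩, h6⟩ := mem_met.1 he.2
    rw [mem_erase]
    exact ⟨by rw [← h6]; exact hoff k' (by omega) (by omega), he.1⟩
  have s2 : Co (L.erase w) (vx ((pv L)^[k + 1] X.β)) (vx X.α) := by
    have h0 := Pool.Agent.H39.Q1.side_open L X.β (i := k + 1) (j := m) (by omega)
    rw [h1] at h0
    refine h0.mono fun e he => ?_
    rw [mem_inter] at he
    obtain ⟨k', ⟨h5', h5⟩, h6⟩ := mem_met.1 he.2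
    rw [mem_erase]
    exact ⟨by rw [← h6]; exact hoff k' (by omega) (by omega), he.1⟩
  have s3 : Co (L.erase w) (vx X.α) (vx X.β) := by
    refine hco.mono fun e he => ?_
    rw [mem_erase]
    exact ⟨fun h5 => hwP (h5 ▸ he), hP he⟩
  have hb := bridge (L := L) (c := X.β) (a := k) (b := i + m) (by omega)
    (by rw [hk', ← hcor]) (by rw [hk']; exact hwL) (by rw [← hcor]; exact hne k hk)
  rw [hk'] at hb
  exact hb ((s2.trans (s3.trans s1)).symm)

/-- **One type.** A piece of the exploration which meets no label of a set `P` of free and wired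
labels joining `vx α` to `vx β` does not meet both a wired label and a closed boundary label. -/
theorem Inv.one_type' (hI : Inv X) {ω P : Finset (ℤ × ℤ)} (hω : ω ⊆ X.E) (hP : P ⊆ X.E ∪ X.W)
    (hco : Co P (vx X.α) (vx X.β)) {i0 j0 : ℕ} (hj0 : j0 ≤ X.len ω)
    (hav : ∀ t, i0 ≤ t → t < j0 → plab (X.cor ω t) ∉ P)
    {i j : ℕ} (hi : i0 ≤ i) (hi' : i < j0) (hj : i0 ≤ j) (hj' : j < j0)
    (hiW : plab (X.cor ω i) ∈ X.W) :
    plab (X.cor ω j) ∈ X.E ∪ X.W := by
  by_contra hjB
  rw [mem_union, not_or] at hjB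
  set P' := P ∩ X.E with hP'
  have hωP : ω ∪ P' ⊆ X.E := union_subset hω inter_subset_right
  have hPω : P ⊆ (ω ∪ P') ∪ X.W := by
    intro e he
    rcases mem_union.1 (hP he) with h | h
    · exact mem_union_left _ (mem_union_right _ (mem_inter.2 ⟨he, h⟩))
    · exact mem_union_right _ h
  have hne : X.α ≠ X.β := by
    have := X.cor_ne (ω := ω) (i := 0) (by omega)
    simpa using this
  -- the faces
  have hmet : ∀ a b : ℕ, i0 ≤ a → b ≤ j0 →
      du (X.metE ω a b) (ω ∪ X.W) ⊆ du (X.metE ω a b) (ω ∪ P' ∪ X.W) := by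
    intro a b ha hb
    refine du_sub_of fun e he h1 => ?_
    obtain ⟨k, hk, rfl⟩ := X.mem_metE.1 he
    rw [mem_union, not_or] at h1
    rw [mem_union, mem_union, not_or, not_or]
    exact ⟨⟨h1.1, fun h2 => hav k (by omega) (by omega) (mem_inter.1 h2).1⟩, h1.2⟩
  have hf1 : ∃ F : Finset (ℤ × ℤ), Co (du F (ω ∪ P' ∪ X.W)) (fi (X.cor ω j)) (fi (X.cor ω i)) := by
    rcases le_total i j with h | h
    · exact ⟨_, ((X.side_dual ω h).mono (hmet i j hi hj'.le)).symm⟩
    · exact ⟨_, (X.side_dual ω h).mono (hmet j i hj hi'.le)⟩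
  obtain ⟨F1, hF1⟩ := hf1
  obtain ⟨F2, hF2⟩ := hI.cl ω hω j (by omega) hjB.1 hjB.2
  have hF2' : Co (du F2 (ω ∪ P' ∪ X.W)) (fi X.α) (fi (X.cor ω j)) :=
    hF2.mono (du_anti (union_subset_union_left hωP))
  have hf : Co (du (F1 ∪ F2) (ω ∪ P' ∪ X.W)) (fi X.α) (fi (X.cor ω i)) :=
    (hF2'.mono (du_mono_left subset_union_right)).trans (hF1.mono (du_mono_left subset_union_left))
  -- the vertices
  have hv : Co (ω ∪ P' ∪ X.W) (vx X.α) (vx (X.cor ω i)) :=
    (hI.co_W.symm.trans (hI.co_of_mem hiW)).mono subset_union_right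
  have hO : InOrb (pv (ω ∪ P' ∪ X.W)) X.α (X.cor ω i) := inOrb_pv_iff.2 (inOrb_of_co _ hv hf)
  have hvis : X.Visited ω (X.cor ω i) := ⟨i, by omega, rfl⟩
  have hB := ((X.visited_iff hω hne).1 hvis).2
  have hB' : ¬ Back (ω ∪ P' ∪ X.W) X.α X.β (X.cor ω i) := by
    rw [hI.back_iff hωP, ← hI.back_iff hω]
    exact hB
  obtain ⟨i', hi1, hi2⟩ := (X.visited_iff hωP hne).2 ⟨hO, hB'⟩
  have hi3 : i' < X.len (ω ∪ P') := by
    refine lt_of_le_of_ne hi1 fun h => ?_
    rw [h, X.cor_len hωP] at hi2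
    exact X.cor_ne (ω := ω) (i := i) (by omega) hi2.symm
  have h6 := hI.no_wired' hωP hPω hco hi3 (by rw [hi2]; exact hiW)
  rw [hi2] at h6
  exact hav i hi hi' h6

end

end Pool.Agent.H28.Q1
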