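import Mathlib
import Pool.Agent.H28.Q1.Inv
import Pool.Agent.H81.Q1.Term

set_option autoImplicit false
open Finset

/-! # The invariants hold for discrete domains -/

namespace Pool.Agent.H28.Q1

open Pool.Agent.H75.Perc Pool.Agent.H75.TwoArm Pool.Agent.H75.Four Pool.Agent.H99.NC
open Pool.Agent.H69.Q1 Pool.Agent.H39.Q1

/-- The invariants for a domain given by labels. -/
theorem inv_of_LDom (Y : LDom)
    (hcl : ∀ ω, ω ⊆ Y.Fr → ∀ i < Y.toDEnv.len ω, plab (Y.toDEnv.cor ω i) ∉ Y.G →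
      ∃ F : Finset (ℤ × ℤ), Co (du F Y.G) (fi Y.α) (fi (Y.toDEnv.cor ω i))) : Inv Y.toDEnv := by
  have hG : Y.Fr ∪ Y.Wd = Y.G := by
    ext e
    unfold LDom.Fr
    rw [mem_union, mem_sdiff]
    constructor
    · rintro (h | h)
      · exact h.1
      · exact (Y.mem_Wd.1 h).1
    · intro h
      by_cases h1 : e ∈ Y.Wd
      · exact Or.inr h1
      · exact Or.inl ⟨h, h1⟩
  have hc : ∀ k ≤ Y.m, (pv Y.Wd)^[k] Y.β = (pv Y.G)^[k] Y.β := by
    intro k hk
    have h := Y.contour_eq (ω := ∅) (empty_subset _) hk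
    rwa [empty_union] at h
  constructor
  · refine ⟨Y.m, Y.m_pos, ?_, ?_, ?_, ?_⟩
    · rw [LDom.toDEnv_W, LDom.toDEnv_β, LDom.toDEnv_α, hc _ le_rfl, Y.contour_m]
    · intro k _ hk
      rw [LDom.toDEnv_W, LDom.toDEnv_β, LDom.toDEnv_α, hc k hk.le]
      exact Y.contour_ne hk
    · intro k hk
      rw [LDom.toDEnv_W, LDom.toDEnv_β, LDom.toDEnv_E, hc k hk.le]
      unfold LDom.Fr
      rw [mem_sdiff]
      rintro ⟨h1, h2⟩
      exact h2 (Y.mem_Wd.2 ⟨h1, k, Y.lt_m_iff.1 hk, rfl⟩)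
    · intro w hw
      rw [LDom.toDEnv_W] at hw
      obtain ⟨-, i, h1, h2⟩ := Y.mem_Wd.1 hw
      have h3 := Y.lt_m_iff.2 h1
      exact ⟨i, h3, by rw [LDom.toDEnv_W, LDom.toDEnv_β, hc i h3.le, h2]⟩
  · intro ω hω i hi h1 h2
    rw [LDom.toDEnv_E] at h1
    rw [LDom.toDEnv_W] at h2
    have h3 : plab (Y.toDEnv.cor ω i) ∉ Y.G := by
      rw [← hG, mem_union, not_or]
      exact ⟨h1, h2⟩
    obtain ⟨F, hF⟩ := hcl ω hω i hi h3
    refine ⟨F, ?_⟩
    rw [LDom.toDEnv_E, LDom.toDEnv_W, hG]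
    exact hF

open Pool.Agent.H81.Q1

/-- vertices joined inside a discrete domain belong to it -/
lemma mem_V_of_co (X : DDomain) {u v : ℤ × ℤ} (hu : u ∈ X.V) (h : Co (LabE X) u v) : v ∈ X.V := by
  induction h with
  | refl => exact hu
  | @tail b c _ hbc ih =>
    obtain ⟨e, he, h1⟩ := (mem_LabE X).1 hbc.2
    have h2 : s(b, c) ∈ Z2.edgeSet := by
      refine adj_iff_isUnit.2 ?_
      have h5 := hbc.1
      unfold IsUnit4 at h5
      simp only [Prod.ext_iff, Prod.fst_sub, Prod.snd_sub, Prod.fst_add, Prod.snd_add] at h5 ⊢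
      omega
    have h3 : e = s(b, c) := lb_injOn (subZ2 X he) h2 h1
    have h4 := X.subE he
    rw [h3] at h4
    exact h4.2 c (by simp)

/-- the vertices of the exploration path are in the domain -/
lemma vx_cor_mem (X : DDomain) {ω : Finset (ℤ × ℤ)} (hω : ω ⊆ X.toDEnv.E) (i : ℕ) :
    vx (X.toDEnv.cor ω i) ∈ X.V := by
  refine mem_V_of_co X (u := vx X.toDEnv.α) ?_ ?_
  · rw [toDEnv_α, vx_cor]
    exact X.memα
  · refine (X.toDEnv.side_open ω (Nat.zero_le i)).mono fun e he => ?_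
    rw [mem_inter, mem_union] at he
    rcases he.1 with h | h
    · have h1 := hω h
      have h2 : e ∈ X.toLDom.Fr := h1
      exact (mem_sdiff.1 h2).1
    · have h2 : e ∈ X.toLDom.Wd := h
      exact (X.toLDom.mem_Wd.1 h2).1

/-- **The invariants for discrete domains.** -/
theorem inv_toDEnv (X : DDomain) : Inv X.toDEnv := by
  refine inv_of_LDom X.toLDom fun ω hω i _ h => ?_
  obtain ⟨c, hc⟩ := cor_surjective (X.toLDom.toDEnv.cor ω i)
  have hV : c.1 ∈ X.V := by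
    have := vx_cor_mem X hω i
    rw [show X.toDEnv.cor ω i = X.toLDom.toDEnv.cor ω i from rfl, ← hc, vx_cor] at this
    exact this
  rw [← hc] at h ⊢
  rw [plab_cor] at h
  have hE : c.edge ∉ X.E := fun h1 => h ((lb_mem_LabE X (corner_edge_mem c)).2 h1)
  exact exists_du_of_dCo (dCo_outer X X.outα (X.noHole c hV hE))

/-- the labels of a discrete domain are odd -/
lemma odd_toDEnv (X : DDomain) : ∀ e ∈ X.toDEnv.E, (e.1 + e.2) % 2 = 1 := by
  intro e he
  rw [toDEnv_E] at he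
  exact odd_EL X he

end Pool.Agent.H28.Q1
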