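import Mathlib
import Pool.Agent.H28.Q1.Inv
import Pool.Agent.H65.Dom.Dec

set_option autoImplicit false
open Finset

/-! # Crossings of annuli by a piece of the exploration which meets one type of boundary

* `arm_open`, `arm_dual` : a piece from `Near r x` to `Far s x` (or back) which meets no wired label
  (no closed boundary label) gives an open (dual) arm of free labels.
* `one_type_prob` : probability of such a crossing.
* `large_step` : if `vx α` is joined near `x` to a set `κ` of free labels leading to `vx β` then the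
  exploration meets `κ` before leaving a large ball around `x`, except with probability
  `2 (1-δ)^k`; `large_step_at` : the same at a stopping time. -/

namespace Pool.Agent.H28.Q1

open Pool.Agent.H75.Perc Pool.Agent.H75.TwoArm Pool.Agent.H75.Four Pool.Agent.H99.NC
open Pool.Agent.H69.Q1 Pool.Agent.H39.Q1 Pool.Agent.H65.Dom
open Pool.Agent.H75.TwoArm.StrandAux hiding vx_nxC

/-- `v` is in the square of radius `r` around `x` -/
def Near (r : ℤ) (x v : ℤ × ℤ) : Prop := |v.1 - x.1| ≤ r ∧ |v.2 - x.2| ≤ r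

/-- `v` is at distance at least `R` from `x` -/
def Far (R : ℤ) (x v : ℤ × ℤ) : Prop := R ≤ |v.1 - x.1| ∨ R ≤ |v.2 - x.2|

lemma Near.mono {r r' : ℤ} {x v : ℤ × ℤ} (h : Near r x v) (hr : r ≤ r') : Near r' x v :=
  ⟨h.1.trans hr, h.2.trans hr⟩

lemma Far.mono {R R' : ℤ} {x v : ℤ × ℤ} (h : Far R x v) (hR : R' ≤ R) : Far R' x v :=
  h.imp (fun h => hR.trans h) (fun h => hR.trans h)

lemma not_near {r : ℤ} {x v : ℤ × ℤ} : ¬ Near r x v ↔ Far (r + 1) x v := by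
  unfold Near Far
  rw [not_and_or]
  constructor
  · rintro (h | h)
    · left; omega
    · right; omega
  · rintro (h | h)
    · left; omega
    · right; omega

/-- vertex and face of a corner -/
lemma fi_vx (c : ℤ × ℤ) : (fi c).1 - (vx c).1 ∈ Set.Icc (0 : ℤ) 1 ∧
    (fi c).2 - (vx c).2 ∈ Set.Icc (0 : ℤ) 1 := by
  unfold fi vx
  simp only [Set.mem_Icc]
  omega

lemma near_fi {r : ℤ} {x c : ℤ × ℤ} (h : Near r x (vx c)) : Near (r + 1) x (fi c) := by
  obtain ⟨⟨h1, h2⟩, h3, h4⟩ := fi_vx c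
  unfold Near at h ⊢
  rw [abs_le, abs_le] at h ⊢
  omega

lemma far_fi {R : ℤ} {x c : ℤ × ℤ} (h : Far (R + 1) x (vx c)) : Far R x (fi c) := by
  obtain ⟨⟨h1, h2⟩, h3, h4⟩ := fi_vx c
  unfold Far at h ⊢
  rw [le_abs, le_abs] at h ⊢
  omega

/-- one step moves the vertex by at most one -/
lemma step_near {L : Finset (ℤ × ℤ)} {c x : ℤ × ℤ} {r : ℤ} (h : Near r x (vx c)) :
    Near (r + 1) x (vx (pv L c)) := by
  by_cases hl : plab c ∈ L
  · have h2 : nxO (pv L c) = c := (nx_pv_aux L c).1 hl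
    have h3 := (vx_nxO (pv L c)).1
    rw [h2] at h3
    have h4 := unit_cases h3
    unfold Near at h ⊢
    rw [abs_le, abs_le] at h ⊢
    omega
  · have h2 := (fi_of_closed (L := L) hl).1
    rw [← h2]
    exact h.mono (by omega)

section

variable (X : DEnv)

/-- **Open arm**: the piece meets no wired label. -/
lemma co_open {ω : Finset (ℤ × ℤ)} {i j : ℕ} (hij : i ≤ j)
    (hW : ∀ t, i ≤ t → t < j → plab (X.cor ω t) ∉ X.W) :
    Co ω (vx (X.cor ω i)) (vx (X.cor ω j)) := by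
  refine (X.side_open ω hij).mono fun e he => ?_
  rw [mem_inter, mem_union] at he
  obtain ⟨k, hk, h1⟩ := X.mem_metE.1 he.2
  rcases he.1 with h2 | h2
  · exact h2
  · rw [← h1] at h2
    exact absurd h2 (hW k hk.1 hk.2)

/-- **Dual arm**: the piece meets no closed boundary label. -/
lemma co_dual {ω : Finset (ℤ × ℤ)} {i j : ℕ} (hij : i ≤ j)
    (hB : ∀ t, i ≤ t → t < j → plab (X.cor ω t) ∈ X.E ∪ X.W) :
    Co (du X.E ω) (fi (X.cor ω i)) (fi (X.cor ω j)) := by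
  refine (X.side_dual ω hij).mono ?_
  unfold du
  refine map_subset_map.2 fun e he => ?_
  rw [mem_sdiff, mem_union, not_or] at he
  rw [mem_sdiff]
  obtain ⟨k, hk, h1⟩ := X.mem_metE.1 he.1
  have h2 := hB k hk.1 hk.2
  rw [h1, mem_union] at h2
  exact ⟨h2.resolve_right he.2.2, he.2.1⟩

/-- The piece of the exploration between the times `i` and `j` meets at most one type of boundary
labels. -/
def OneType (ω : Finset (ℤ × ℤ)) (i j : ℕ) : Prop :=
  (∀ t, i ≤ t → t < j → plab (X.cor ω t) ∉ X.W) ∨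
    (∀ t, i ≤ t → t < j → plab (X.cor ω t) ∈ X.E ∪ X.W)

/-- The piece between the times `i` and `j` joins the square of radius `r` to distance `s`. -/
def Crs (ω : Finset (ℤ × ℤ)) (x : ℤ × ℤ) (r s : ℤ) (i j : ℕ) : Prop :=
  (Near r x (vx (X.cor ω i)) ∧ Far s x (vx (X.cor ω j))) ∨
    (Far s x (vx (X.cor ω i)) ∧ Near r x (vx (X.cor ω j)))

lemma arm_of_crs {ω : Finset (ℤ × ℤ)} {x : ℤ × ℤ} {r s : ℤ} {i j : ℕ} (hij : i ≤ j)
    (hc : Crs X ω x r (s + 1) i j) (ho : OneType X ω i j) :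
    Arm x (r + 1) s ω ∨ Arm x (r + 1) s (du X.E ω) := by
  rcases ho with ho | ho
  · left
    have h := co_open X hij ho
    rcases hc with ⟨h1, h2⟩ | ⟨h1, h2⟩
    · exact ⟨_, _, (h1.mono (by omega)).1, (h1.mono (by omega)).2, h2.mono (by omega), h⟩
    · exact ⟨_, _, (h2.mono (by omega)).1, (h2.mono (by omega)).2, h1.mono (by omega), h.symm⟩
  · right
    have h := co_dual X hij ho
    rcases hc with ⟨h1, h2⟩ | ⟨h1, h2⟩
    · exact ⟨_, _, (near_fi h1).1, (near_fi h1).2, far_fi h2, h⟩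
    · exact ⟨_, _, (near_fi h2).1, (near_fi h2).2, far_fi h1, h.symm⟩

/-- probability that there is an arm of one of the two colours -/
lemma two_arms_prob {δ : ℝ} {q : ℤ × ℤ → ℝ} {N : ℤ} (hD : Dec q δ N) {E : Finset (ℤ × ℤ)}
    (hE : ∀ e ∈ E, (e.1 + e.2) % 2 = 1) (x : ℤ × ℤ) {ρ : ℤ} (hρ : 1 ≤ ρ) {k : ℕ}
    (hN : 4 ^ k * ρ ≤ N) :
    PrP q E (fun ω => Arm x ρ (4 ^ k * ρ) ω ∨ Arm x ρ (4 ^ k * ρ) (du E ω)) ≤
      2 * (1 - δ) ^ k := by
  have h := hD.2.2.2 E hE x ρ hρ k hN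
  have := PrP_or_le hD.1 E (fun ω => Arm x ρ (4 ^ k * ρ) ω)
    (fun ω => Arm x ρ (4 ^ k * ρ) (du E ω))
  linarith

/-- **Crossings which meet one type of boundary.** -/
theorem one_type_prob {δ : ℝ} {q : ℤ × ℤ → ℝ} {N : ℤ} (hD : Dec q δ N)
    (hE : ∀ e ∈ X.E, (e.1 + e.2) % 2 = 1) (x : ℤ × ℤ) {r s : ℤ} (hr : 0 ≤ r) {k : ℕ}
    (hN : 4 ^ k * (r + 1) ≤ N) (hs : 4 ^ k * (r + 1) + 1 ≤ s) :
    PrP q X.E (fun ω => ∃ i j, i ≤ j ∧ Crs X ω x r s i j ∧ OneType X ω i j) ≤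
      2 * (1 - δ) ^ k := by
  refine (PrP_mono hD.1 fun ω _ h => ?_).trans (two_arms_prob hD hE x (by omega) hN)
  obtain ⟨i, j, hij, hc, ho⟩ := h
  have hc' : Crs X ω x r (4 ^ k * (r + 1) + 1) i j :=
    hc.imp (fun h => ⟨h.1, h.2.mono hs⟩) (fun h => ⟨h.1.mono hs, h.2⟩)
  exact arm_of_crs X hij hc' ho

/-- **Large step lemma, deterministic part.** -/
theorem large_step_arm (hI : Inv X) {κ σ ω : Finset (ℤ × ℤ)} (hω : ω ⊆ X.E) (hκ : κ ⊆ X.E)
    (hσ : σ ⊆ X.E) (hco : Co (σ ∪ κ) (vx X.α) (vx X.β)) {x : ℤ × ℤ} {r s : ℤ}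
    (hx : Near r x (vx X.α)) (hσr : ∀ c, plab c ∈ σ → Near r x (vx c)) {n : ℕ}
    (hn : n ≤ X.len ω) (hfar : Far (s + 1) x (vx (X.cor ω n)))
    (hav : ∀ t < n, plab (X.cor ω t) ∉ κ) (hrs : r < s + 1) :
    Arm x (r + 2) s ω ∨ Arm x (r + 2) s (du X.E ω) := by
  classical
  -- last time in the square of radius `r`
  set S := (range (n + 1)).filter fun t => Near r x (vx (X.cor ω t)) with hS
  have hSne : S.Nonempty := ⟨0, by rw [hS, mem_filter, mem_range]; exact ⟨by omega, hx⟩⟩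
  obtain ⟨t0, ht0, hmax⟩ := S.exists_max_image id hSne
  rw [hS, mem_filter, mem_range] at ht0
  have hlast : ∀ t, t0 < t → t ≤ n → ¬ Near r x (vx (X.cor ω t)) := by
    intro t h1 h2 h3
    have := hmax t (by rw [hS, mem_filter, mem_range]; exact ⟨by omega, h3⟩)
    simp only [id] at this
    omega
  have ht0n : t0 < n := by
    refine lt_of_le_of_ne (by omega) fun h => ?_
    subst h
    have h1 := ht0.2
    unfold Near at h1
    unfold Far at hfar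
    omega
  have h1 : Near (r + 1) x (vx (X.cor ω (t0 + 1))) := by
    rw [X.cor_succ]
    exact step_near ht0.2
  have hP : ∀ t, t0 + 1 ≤ t → t < n → plab (X.cor ω t) ∉ σ ∪ κ := by
    intro t h2 h3
    rw [mem_union, not_or]
    exact ⟨fun h4 => hlast t (by omega) h3.le (hσr _ h4), hav t h3⟩
  have ho : OneType X ω (t0 + 1) n := by
    unfold OneType
    by_contra hcon
    rw [not_or] at hcon
    push Not at hcon
    obtain ⟨⟨i, hi, hi', hi2⟩, j, hj, hj', hj2⟩ := hcon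
    exact hj2 (hI.one_type hω (union_subset hσ hκ) hco hn hP hi hi' hj hj' hi2)
  have := arm_of_crs X (r := r + 1) (s := s) (i := t0 + 1) (j := n) (by omega)
    (Or.inl ⟨h1, hfar⟩) ho
  rwa [show r + 1 + 1 = r + 2 by ring] at this

/-- **LARGE STEP.** If the tip is joined inside the square of radius `r` around `x` to the set `κ` of
free labels which leads to `vx β` then the exploration meets `κ` before it reaches distance `s` from
`x`, except with probability `2 (1-δ)^k`. -/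
theorem large_step {δ : ℝ} {q : ℤ × ℤ → ℝ} {N : ℤ} (hD : Dec q δ N) (hI : Inv X)
    (hE : ∀ e ∈ X.E, (e.1 + e.2) % 2 = 1) {κ σ : Finset (ℤ × ℤ)} (hκ : κ ⊆ X.E) (hσ : σ ⊆ X.E)
    (hco : Co (σ ∪ κ) (vx X.α) (vx X.β)) {x : ℤ × ℤ} {r s : ℤ} (hr : 0 ≤ r)
    (hx : Near r x (vx X.α)) (hσr : ∀ c, plab c ∈ σ → Near r x (vx c)) {k : ℕ}
    (hN : 4 ^ k * (r + 2) ≤ N) (hs : 4 ^ k * (r + 2) + 1 ≤ s) :
    PrP q X.E (fun ω => ∃ n ≤ X.len ω, Far s x (vx (X.cor ω n)) ∧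
      ∀ t < n, plab (X.cor ω t) ∉ κ) ≤ 2 * (1 - δ) ^ k := by
  refine (PrP_mono hD.1 fun ω hω h => ?_).trans (two_arms_prob hD hE x (by omega) hN)
  obtain ⟨n, hn, hfar, hav⟩ := h
  refine large_step_arm X hI hω hκ hσ hco hx hσr hn (hfar.mono hs) hav ?_
  have h1 : (1 : ℤ) ≤ 4 ^ k := one_le_pow₀ (by norm_num)
  nlinarith

/-- `f` only depends on the explored part. -/
def Loc {α : Type} (Q : ℕ → (ℕ → ℤ × ℤ) → Prop) (f : Finset (ℤ × ℤ) → α) : Prop :=
  ∀ ω ω', ω ⊆ X.E → ω' ⊆ X.E → f (mix (X.exset Q ω) ω ω') = f ω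

/-- **LARGE STEP at a stopping time.** The event `B` and the functions `κ`, `x` only depend on the
explored part. -/
theorem large_step_at {δ : ℝ} {q : ℤ × ℤ → ℝ} {N : ℤ} (hD : Dec q δ N) (hI : Inv X)
    (hE : ∀ e ∈ X.E, (e.1 + e.2) % 2 = 1) {Q : ℕ → (ℕ → ℤ × ℤ) → Prop} (hQ : DEnv.Adapted Q)
    (B : Finset (ℤ × ℤ) → Prop) (κ : Finset (ℤ × ℤ) → Finset (ℤ × ℤ))
    (x : Finset (ℤ × ℤ) → ℤ × ℤ) (hB : Loc X Q B) (hκ : Loc X Q κ) (hx : Loc X Q x)
    {r s : ℤ} (hr : 0 ≤ r) {k : ℕ} (hN : 4 ^ k * (r + 2) ≤ N) (hs : 4 ^ k * (r + 2) + 1 ≤ s)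
    (hyp : ∀ ω, ω ⊆ X.E → B ω → κ ω ⊆ X.E \ X.exset Q ω ∧
      Near r (x ω) (vx (X.cor ω (X.tau Q ω))) ∧ ∃ σ ⊆ X.E \ X.exset Q ω,
        (∀ c, plab c ∈ σ → Near r (x ω) (vx c)) ∧
        Co (σ ∪ κ ω) (vx (X.cor ω (X.tau Q ω))) (vx X.β)) :
    PrP q X.E (fun ω => (∃ n ≤ X.len ω, X.tau Q ω ≤ n ∧ Far s (x ω) (vx (X.cor ω n)) ∧
      ∀ t, X.tau Q ω ≤ t → t < n → plab (X.cor ω t) ∉ κ ω) ∧ B ω) ≤
      PrP q X.E B * (2 * (1 - δ) ^ k) := by
  classical
  refine X.markov_le hD.1 hQ _ B (fun ω η => ∀ hω : ω ⊆ X.E, ∃ n ≤ (X.after Q hQ ω hω).len η,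
      Far s (x ω) (vx ((X.after Q hQ ω hω).cor η n)) ∧
      ∀ t < n, plab ((X.after Q hQ ω hω).cor η t) ∉ κ ω) _
    (fun ω ω' h h' h2 => by rwa [hB ω ω' h h'] at h2) ?_ ?_
  · intro ω hω hBω
    obtain ⟨h1, h2, σ, h3, h4, h5⟩ := hyp ω hω hBω
    have h6 := large_step (X := X.after Q hQ ω hω) hD (hI.after hQ hω)
      (fun e he => hE e (mem_sdiff.1 he).1) (κ := κ ω) (σ := σ) h1 h3 h5 hr h2 h4 hN hs
    refine (PrP_mono hD.1 fun η _ h => ?_).trans h6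
    exact h hω
  · intro ω ω' hω hω' _ hA _
    obtain ⟨n, hn, hn1, hn2, hn3⟩ := hA
    obtain ⟨ht1, -⟩ := X.tau_mix hQ hω hω'
    have hlen := X.after_len hQ hω hω'
    rw [ht1] at hn1 hn3
    rw [hκ ω ω' hω hω'] at hn3
    rw [hx ω ω' hω hω'] at hn2
    refine ⟨n - X.tau Q ω, by omega, ?_, ?_⟩
    · rw [X.after_cor hQ hω hω', Nat.sub_add_cancel hn1]
      exact hn2
    · intro t ht
      rw [X.after_cor hQ hω hω']
      exact hn3 _ (by omega) (by omega)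

end

end Pool.Agent.H28.Q1
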