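import Mathlib

set_option autoImplicit false
open Set Filter Topology

/-! # Long pieces near a Jordan curve pass near one of finitely many points

`layer_points` : let `C` be the image of a Jordan curve and `a`, `b` two points. For every `ε > 0`
there is a finite set `T ⊆ C` which does not contain `a` and `b` such that every sequence with small
steps which stays close to `C` and has diameter at least `ε` comes close to a point of `T`. -/

namespace Pool.Agent.H28.Q1

/-- finitely many small closed pieces which only meet in the finite set `T` -/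
lemma chain_in_piece {N : ℕ} {K : ℕ → Set ℂ} (hK : ∀ i < N, IsCompact (K i)) {C : Set ℂ}
    (hC : ∀ z ∈ C, ∃ i < N, z ∈ K i) (T : Finset ℂ)
    (hT : ∀ i < N, ∀ j < N, i ≠ j → K i ∩ K j ⊆ T) {ε : ℝ} (hε : 0 < ε)
    (hd : ∀ i < N, ∀ x ∈ K i, ∀ y ∈ K i, dist x y ≤ ε / 2) {η : ℝ} (hη : 0 < η) :
    ∃ δ > 0, ∀ (p : ℕ → ℂ) (u v : ℕ), u ≤ v →
      (∀ w, u ≤ w → w < v → dist (p w) (p (w + 1)) ≤ δ) →
      (∀ w, u ≤ w → w ≤ v → ∃ y ∈ C, dist (p w) y ≤ δ) → ε ≤ dist (p u) (p v) →
      ∃ w, u ≤ w ∧ w ≤ v ∧ ∃ t ∈ T, dist (p w) t ≤ η := by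
  classical
  -- distance between the parts of different pieces away from `T`
  have hsep : ∃ d > 0, ∀ i < N, ∀ j < N, i ≠ j → ∀ x ∈ K i, ∀ y ∈ K j,
      (∀ t ∈ T, η / 2 ≤ dist x t) → (∀ t ∈ T, η / 2 ≤ dist y t) → d ≤ dist x y := by
    have h1 : ∀ i j : ℕ, ∃ d > 0, i < N → j < N → i ≠ j → ∀ x ∈ K i, ∀ y ∈ K j,
        (∀ t ∈ T, η / 2 ≤ dist x t) → (∀ t ∈ T, η / 2 ≤ dist y t) → d ≤ dist x y := by
      intro i j
      by_cases hi : i < N
      swap
      · exact ⟨1, one_pos, fun h => absurd h hi⟩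
      by_cases hj : j < N
      swap
      · exact ⟨1, one_pos, fun _ h => absurd h hj⟩
      by_cases hij : i = j
      · exact ⟨1, one_pos, fun _ _ h => absurd hij h⟩
      set O : Set ℂ := {x | ∀ t ∈ T, η / 2 ≤ dist x t} with hO
      have hOc : IsClosed O := by
        have : O = ⋂ t ∈ T, {x | η / 2 ≤ dist x t} := by
          ext x
          simp [hO]
        rw [this]
        exact isClosed_biInter fun t _ =>
          isClosed_le continuous_const (continuous_id.dist continuous_const)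
      have hA : IsCompact (K i ∩ O) := (hK i hi).inter_right hOc
      have hB : IsCompact (K j ∩ O) := (hK j hj).inter_right hOc
      have hdisj : Disjoint (K i ∩ O) (K j ∩ O) := by
        rw [Set.disjoint_left]
        rintro x ⟨h2, h3⟩ ⟨h4, -⟩
        have h5 := hT i hi j hj hij ⟨h2, h4⟩
        have h6 := h3 x h5
        rw [dist_self] at h6
        linarith
      obtain ⟨d, hd0, hd1⟩ := Metric.exists_pos_forall_lt_edist hA hB.isClosed hdisj
      refine ⟨d, by exact_mod_cast hd0, fun _ _ _ x hx y hy hxO hyO => ?_⟩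
      have h7 := hd1 x ⟨hx, hxO⟩ y ⟨hy, hyO⟩
      rw [edist_dist] at h7
      have h8 : (d : ℝ) < dist x y := by
        have := (ENNReal.ofReal_lt_ofReal_iff_of_nonneg (p := (d : ℝ)) (q := dist x y)
          (by positivity)).1 (by rwa [ENNReal.ofReal_coe_nnreal])
        exact this
      exact h8.le
    choose d hd0 hd1 using h1
    rcases Nat.eq_zero_or_pos N with hN | hN
    · exact ⟨1, one_pos, fun i hi => by omega⟩
    · have hne : (Finset.range N ×ˢ Finset.range N).Nonempty :=
        ⟨(0, 0), by simp [hN]⟩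
      obtain ⟨q, hq, hmin⟩ := (Finset.range N ×ˢ Finset.range N).exists_min_image
        (fun q => d q.1 q.2) hne
      refine ⟨d q.1 q.2, hd0 _ _, fun i hi j hj hij x hx y hy h2 h3 => ?_⟩
      have h4 := hmin (i, j) (by simp [hi, hj])
      exact h4.trans (hd1 i j hi hj hij x hx y hy h2 h3)
  obtain ⟨d, hd0, hd1⟩ := hsep
  refine ⟨min (min (η / 2) (d / 4)) (ε / 8), by positivity, fun p u v huv hstep hnear hfar => ?_⟩
  set δ := min (min (η / 2) (d / 4)) (ε / 8) with hδ
  have hδ1 : δ ≤ η / 2 := (min_le_left _ _).trans (min_le_left _ _)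
  have hδ2 : δ ≤ d / 4 := (min_le_left _ _).trans (min_le_right _ _)
  have hδ3 : δ ≤ ε / 8 := min_le_right _ _
  by_contra hcon
  push Not at hcon
  -- nearest points and pieces
  have h1 : ∀ w, ∃ y i, u ≤ w → w ≤ v → i < N ∧ y ∈ K i ∧ dist (p w) y ≤ δ := by
    intro w
    by_cases hw : u ≤ w ∧ w ≤ v
    · obtain ⟨y, hy, hy'⟩ := hnear w hw.1 hw.2
      obtain ⟨i, hi, hi'⟩ := hC y hy
      exact ⟨y, i, fun _ _ => ⟨hi, hi', hy'⟩⟩
    · exact ⟨0, 0, fun h h' => absurd ⟨h, h'⟩ hw⟩
  choose y i hy using h1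
  have hyT : ∀ w, u ≤ w → w ≤ v → ∀ t ∈ T, η / 2 ≤ dist (y w) t := by
    intro w hw hw' t ht
    have h2 := hcon w hw hw' t ht
    have h3 := (hy w hw hw').2.2
    have h4 := dist_triangle (p w) (y w) t
    linarith
  have hsame : ∀ w, u ≤ w → w ≤ v → i w = i u := by
    intro w hw
    induction w, hw using Nat.le_induction with
    | base => intro _; rfl
    | succ w hw ih =>
      intro hw'
      have h2 := ih (by omega)
      by_contra hne
      have h3 : i w ≠ i (w + 1) := fun h => hne (by rw [← h, h2])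
      have h4 := hy w hw (by omega)
      have h5 := hy (w + 1) (by omega) hw'
      have h6 := hd1 (i w) h4.1 (i (w + 1)) h5.1 h3 (y w) h4.2.1 (y (w + 1)) h5.2.1
        (hyT w hw (by omega)) (hyT (w + 1) (by omega) hw')
      have h7 := hstep w hw (by omega)
      have h8 := dist_triangle4 (y w) (p w) (p (w + 1)) (y (w + 1))
      rw [dist_comm (y w) (p w)] at h8
      have := h4.2.2
      have := h5.2.2
      linarith
  have h2 := hy u le_rfl huv
  have h3 := hy v huv le_rfl
  rw [hsame v huv le_rfl] at h3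
  have h4 := hd (i u) h2.1 (y u) h2.2.1 (y v) h3.2.1
  have h5 := dist_triangle4 (p u) (y u) (y v) (p v)
  rw [dist_comm (y v) (p v)] at h5
  have := h2.2.2
  have := h3.2.2
  linarith

/-- **Points of a Jordan curve near which every long piece close to the curve passes.** -/
theorem layer_points {C : Set ℂ} (hJ : ∃ J : Circle → ℂ, Continuous J ∧ Function.Injective J ∧
    C = Set.range J) (a b : ℂ) {ε : ℝ} (hε : 0 < ε) :
    ∃ T : Finset ℂ, (∀ t ∈ T, t ∈ C ∧ t ≠ a ∧ t ≠ b) ∧ ∀ η > 0, ∃ δ > 0,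
      ∀ (p : ℕ → ℂ) (u v : ℕ), u ≤ v →
      (∀ w, u ≤ w → w < v → dist (p w) (p (w + 1)) ≤ δ) →
      (∀ w, u ≤ w → w ≤ v → ∃ y ∈ C, dist (p w) y ≤ δ) → ε ≤ dist (p u) (p v) →
      ∃ w, u ≤ w ∧ w ≤ v ∧ ∃ t ∈ T, dist (p w) t ≤ η := by
  classical
  obtain ⟨J, hJc, hJi, rfl⟩ := hJ
  set g : ℝ → ℂ := fun θ => J (Circle.exp θ) with hg
  have hgc : Continuous g := hJc.comp Circle.exp.continuous
  -- uniform continuity of `J`
  have huc : UniformContinuous J := CompactSpace.uniformContinuous_of_continuous hJc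
  obtain ⟨ρ, hρ, hρ'⟩ := Metric.uniformContinuous_iff.1 huc (ε / 2) (by positivity)
  -- number of pieces
  obtain ⟨N0, hN0⟩ := exists_nat_gt (2 * Real.pi / ρ)
  set N : ℕ := N0 + 1 with hN
  have hNpos : (0 : ℝ) < N := by positivity
  set h : ℝ := 2 * Real.pi / N with hh
  have hpi := Real.pi_pos
  have hhpos : 0 < h := by positivity
  have hNh : (N : ℝ) * h = 2 * Real.pi := by rw [hh]; field_simp
  have hhρ : h < ρ := by
    rw [hh, div_lt_iff₀ hNpos]
    rw [div_lt_iff₀ hρ] at hN0
    have : (N0 : ℝ) < N := by rw [hN]; push_cast; linarith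
    nlinarith
  have hclose : ∀ s t : ℝ, |s - t| ≤ h → dist (g s) (g t) ≤ ε / 2 := by
    intro s t hst
    refine (hρ' ?_).le
    have h1 : dist (Circle.exp s) (Circle.exp t) ≤ |s - t| := by
      change dist ((Circle.exp s : Circle) : ℂ) ((Circle.exp t : Circle) : ℂ) ≤ |s - t|
      rw [Circle.coe_exp, Circle.coe_exp, dist_eq_norm]
      have h2 : Complex.exp (s * Complex.I) - Complex.exp (t * Complex.I) =
          Complex.exp (t * Complex.I) * (Complex.exp (Complex.I * (s - t : ℝ)) - 1) := by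
        rw [mul_sub, ← Complex.exp_add, mul_one]
        congr 2
        push_cast
        ring
      rw [h2, norm_mul, Complex.norm_exp_ofReal_mul_I, one_mul]
      have h3 := Real.norm_exp_I_mul_ofReal_sub_one_le (x := s - t)
      rwa [Real.norm_eq_abs] at h3
    linarith
  have hinj : ∀ s t : ℝ, g s = g t → ∃ m : ℤ, s = t + m * (N * h) := by
    intro s t hst
    obtain ⟨m, hm⟩ := Circle.exp_eq_exp.1 (hJi hst)
    exact ⟨m, by rw [hNh]; exact hm⟩
  -- offset
  have hbad : ∀ (c : ℂ) (s t : ℝ), (∃ k : ℤ, g (s + k * h) = c) → (∃ k : ℤ, g (t + k * h) = c) →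
      ∃ j : ℤ, s - t = j * h := by
    rintro c s t ⟨k, hk⟩ ⟨l, hl⟩
    obtain ⟨m, hm⟩ := hinj _ _ (hk.trans hl.symm)
    refine ⟨l - k + m * N, ?_⟩
    push_cast
    linarith
  have hnot : ∀ j : ℤ, (1 / 3 : ℝ) * h ≠ j * h ∧ (2 / 3 : ℝ) * h ≠ j * h ∧
      (-(1 / 3) : ℝ) * h ≠ j * h ∧ (-(2 / 3) : ℝ) * h ≠ j * h := by
    intro j
    have key : ∀ x : ℝ, x * h = j * h → x = j := fun x hx => mul_right_cancel₀ hhpos.ne' hx
    refine ⟨fun h1 => ?_, fun h1 => ?_, fun h1 => ?_, fun h1 => ?_⟩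
    · have h2 := key _ h1
      have h3 : (1 : ℝ) = ((3 * j : ℤ) : ℝ) := by push_cast; linarith
      have h4 : (1 : ℤ) = 3 * j := by exact_mod_cast h3
      omega
    · have h2 := key _ h1
      have h3 : (2 : ℝ) = ((3 * j : ℤ) : ℝ) := by push_cast; linarith
      have h4 : (2 : ℤ) = 3 * j := by exact_mod_cast h3
      omega
    · have h2 := key _ h1
      have h3 : (-1 : ℝ) = ((3 * j : ℤ) : ℝ) := by push_cast; linarith
      have h4 : (-1 : ℤ) = 3 * j := by exact_mod_cast h3
      omega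
    · have h2 := key _ h1
      have h3 : (-2 : ℝ) = ((3 * j : ℤ) : ℝ) := by push_cast; linarith
      have h4 : (-2 : ℤ) = 3 * j := by exact_mod_cast h3
      omega
  obtain ⟨θ0, hθa, hθb⟩ : ∃ θ0 : ℝ, (∀ k : ℤ, g (θ0 + k * h) ≠ a) ∧
      ∀ k : ℤ, g (θ0 + k * h) ≠ b := by
    by_contra hcon
    push Not at hcon
    have h0 := hcon 0
    have h1 := hcon (1 / 3 * h)
    have h2 := hcon (2 / 3 * h)
    by_cases a0 : ∀ k : ℤ, g (0 + k * h) ≠ a
    · have b0 := h0 a0
      by_cases a1 : ∀ k : ℤ, g (1 / 3 * h + k * h) ≠ a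
      · obtain ⟨j, hj⟩ := hbad b _ _ (h1 a1) b0
        exact (hnot j).1 (by linarith)
      · push Not at a1
        by_cases a2 : ∀ k : ℤ, g (2 / 3 * h + k * h) ≠ a
        · obtain ⟨j, hj⟩ := hbad b _ _ (h2 a2) b0
          exact (hnot j).2.1 (by linarith)
        · push Not at a2
          obtain ⟨j, hj⟩ := hbad a _ _ a2 a1
          exact (hnot j).1 (by linarith)
    · push Not at a0
      by_cases a1 : ∀ k : ℤ, g (1 / 3 * h + k * h) ≠ a
      · have b1 := h1 a1
        by_cases a2 : ∀ k : ℤ, g (2 / 3 * h + k * h) ≠ a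
        · obtain ⟨j, hj⟩ := hbad b _ _ (h2 a2) b1
          exact (hnot j).1 (by linarith)
        · push Not at a2
          obtain ⟨j, hj⟩ := hbad a _ _ a2 a0
          exact (hnot j).2.1 (by linarith)
      · push Not at a1
        obtain ⟨j, hj⟩ := hbad a _ _ a1 a0
        exact (hnot j).1 (by linarith)
  set T : Finset ℂ := (Finset.range N).image fun k : ℕ => g (θ0 + k * h) with hT
  set K : ℕ → Set ℂ := fun i => g '' Icc (θ0 + i * h) (θ0 + (i + 1) * h) with hK
  refine ⟨T, ?_, fun η hη => ?_⟩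
  · intro t ht
    rw [hT, Finset.mem_image] at ht
    obtain ⟨k, -, rfl⟩ := ht
    refine ⟨⟨_, rfl⟩, ?_, ?_⟩
    · have := hθa k
      simpa using this
    · have := hθb k
      simpa using this
  · refine chain_in_piece (N := N) (K := K) ?_ ?_ T ?_ hε ?_ hη
    · intro i _
      exact isCompact_Icc.image hgc
    · rintro z ⟨c, rfl⟩
      obtain ⟨θ, rfl⟩ := Circle.exp_surjective c
      have h2pi : (0 : ℝ) < 2 * Real.pi := by positivity
      set θ' := toIcoMod h2pi θ0 θ with hθ'
      have h1 : θ' ∈ Ico θ0 (θ0 + 2 * Real.pi) := toIcoMod_mem_Ico h2pi θ0 θ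
      have h2 : Circle.exp θ' = Circle.exp θ := by
        rw [Circle.exp_eq_exp]
        refine ⟨-toIcoDiv h2pi θ0 θ, ?_⟩
        have h3 := toIcoMod_add_toIcoDiv_zsmul h2pi θ0 θ
        rw [zsmul_eq_mul] at h3
        push_cast
        linarith
      set i := ⌊(θ' - θ0) / h⌋₊ with hi
      have h3 : 0 ≤ (θ' - θ0) / h := div_nonneg (by linarith [h1.1]) hhpos.le
      have h4 : (i : ℝ) ≤ (θ' - θ0) / h := Nat.floor_le h3
      have h5 : (θ' - θ0) / h < i + 1 := Nat.lt_floor_add_one _
      rw [le_div_iff₀ hhpos] at h4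
      rw [div_lt_iff₀ hhpos] at h5
      refine ⟨i, ?_, θ', ⟨by linarith, by linarith⟩, by rw [hg]; simp only; rw [h2]⟩
      have h6 : (i : ℝ) * h < N * h := by rw [hNh]; linarith [h1.2]
      have h7 : (i : ℝ) < N := lt_of_mul_lt_mul_right h6 hhpos.le
      exact_mod_cast h7
    · have key : ∀ i < N, ∀ j < N, i < j → K i ∩ K j ⊆ T := by
        rintro i hi j hj hij x ⟨⟨s, hs, rfl⟩, t, ht, hst⟩
        rw [hT, Finset.coe_image]
        obtain ⟨m, hm⟩ := hinj t s hst
        have hij' : (i : ℝ) + 1 ≤ j := by exact_mod_cast hij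
        have hj' : (j : ℝ) + 1 ≤ N := by exact_mod_cast hj
        have hi0 : (0 : ℝ) ≤ i := by positivity
        have e1 : ((i : ℝ) + 1) * h ≤ j * h := mul_le_mul_of_nonneg_right hij' hhpos.le
        have e2 : ((j : ℝ) + 1) * h ≤ N * h := mul_le_mul_of_nonneg_right hj' hhpos.le
        have e3 : 0 ≤ (i : ℝ) * h := by positivity
        have hst0 : s ≤ t := by linarith [hs.2, ht.1]
        have hNh0 : 0 < (N : ℝ) * h := by positivity
        rcases hst0.eq_or_lt with h1 | h1
        · refine ⟨j, by simpa using hj, ?_⟩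
          have h2 : s = θ0 + j * h := by linarith [hs.2, ht.1]
          rw [h2]
        · refine ⟨0, by simp; omega, ?_⟩
          have hm1 : (1 : ℝ) ≤ m := by
            have h2 : (0 : ℝ) < m * (N * h) := by linarith
            have h3 : (0 : ℝ) < m := by
              by_contra h4
              push Not at h4
              nlinarith
            have h4 : (0 : ℤ) < m := by exact_mod_cast h3
            exact_mod_cast h4
          have h2 : (N : ℝ) * h ≤ t - s := by nlinarith
          have h3 : s = θ0 := by linarith [hs.1, ht.2]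
          simp [h3]
      intro i hi j hj hij
      rcases lt_or_gt_of_ne hij with h1 | h1
      · exact key i hi j hj h1
      · rw [inter_comm]
        exact key j hj i hi h1
    · rintro i - x ⟨s, hs, rfl⟩ y ⟨t, ht, rfl⟩
      refine hclose s t ?_
      rw [abs_le]
      constructor <;> nlinarith [hs.1, hs.2, ht.1, ht.2]

end Pool.Agent.H28.Q1
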