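import Mathlib
import Pool.Agent.H28.Q1.Layer
import Pool.Agent.H28.Q1.InvD
import Pool.Agent.H28.Q1.Large
import Pool.Agent.H57.Q1.Visit

set_option autoImplicit false
open Set Filter Topology

/-! # The exploration path does not come near fixed points and does not follow the boundary

* `reach_prob` : for a fixed point `p ≠ a, b` the probability that the exploration path comes within
  distance `η` of `p` is small when `η` is small, uniformly along an approximating sequence.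
* `layer_prob` : the probability that a piece of diameter `ε` of the exploration path stays within
  distance `δ'` of the boundary of `D` is small when `δ'` is small. -/

namespace Pool.Agent.H28.Q1

open Pool.Agent.H81.Q1
open Pool.Agent.H69.Q1 (lb EL WL mem_EL mem_WL edges_sub arc_sub free_sub cor_injective plab_cor
  corner_edge_mem lb_injOn vx_cor cor_surjective odd_EL DEnv)
open Pool.Agent.H75.Perc (pv Pr vx IsUnit4)
open Pool.Agent.H75.TwoArm (plab fi)
open Pool.Agent.H99.NC (PrP PrP_half PrP_mono)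
open Pool.Agent.H65.Dom (Dec dec_half Arm)

/-! ### Label form of the visited boundary labels -/

section labels

variable (X : DDomain)

/-- the set of edges with given labels -/
lemma exists_conf {S : Finset (ℤ × ℤ)} (hS : S ⊆ EL X) :
    ∃ ω : Set (Sym2 (ℤ × ℤ)), ω ⊆ X.free ∧ (S : Set (ℤ × ℤ)) = lb '' ω := by
  refine ⟨{e | e ∈ X.free ∧ lb e ∈ S}, fun e he => he.1, ?_⟩
  ext l
  constructor
  · intro hl
    obtain ⟨e, he, rfl⟩ := (mem_EL X).1 (hS hl)
    exact ⟨e, ⟨he, hl⟩, rfl⟩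
  · rintro ⟨e, ⟨-, he⟩, rfl⟩
    exact he

lemma cor_eq {S : Finset (ℤ × ℤ)} {ω : Set (Sym2 (ℤ × ℤ))} (hω : ω ⊆ X.free)
    (hS : (S : Set (ℤ × ℤ)) = lb '' ω) (i : ℕ) :
    X.toDEnv.cor S i = Pool.Agent.H69.Q1.cor (X.corner ω i) := by
  rw [Pool.Agent.H57.Q1.cor_corner X hω hS i]
  unfold DEnv.cor
  rw [toDEnv_W, toDEnv_α]

/-- a label outside the domain is met at a corner of the dual contour -/
lemma dual_met' {S : Finset (ℤ × ℤ)} (hS : S ⊆ EL X) {i : ℕ} (hi : i ≤ X.toDEnv.len S)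
    (h : plab (X.toDEnv.cor S i) ∉ X.toDEnv.E ∪ X.toDEnv.W) :
    ∃ c ∈ X.dual, c.1 = vx (X.toDEnv.cor S i) := by
  obtain ⟨ω, hω, hSω⟩ := exists_conf X hS
  rw [cor_eq X hω hSω] at h ⊢
  rw [Pool.Agent.H57.Q1.len_eq X hω hSω] at hi
  rw [toDEnv_E, toDEnv_W, plab_cor, Finset.mem_union, not_or, mem_EL, mem_WL] at h
  refine ⟨_, Pool.Agent.H57.Q1.dual_met X hω hi fun hE => ?_, by rw [vx_cor]⟩
  by_cases ha : (X.corner ω i).edge ∈ X.arc
  · exact h.2 ⟨_, ha, rfl⟩
  · exact h.1 ⟨_, ⟨hE, ha⟩, rfl⟩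

/-- a wired label is met near a corner of the wired contour -/
lemma wired_met' {S : Finset (ℤ × ℤ)} {i : ℕ}
    (h : plab (X.toDEnv.cor S i) ∈ X.toDEnv.W) {δ : ℝ} (hδ : 0 < δ) :
    ∃ c ∈ X.wired, dist (pt δ (vx (X.toDEnv.cor S i))) (pt δ c.1) ≤ δ := by
  obtain ⟨c', hc'⟩ := cor_surjective (X.toDEnv.cor S i)
  rw [← hc', plab_cor, toDEnv_W, mem_WL] at h
  obtain ⟨e, he, h1⟩ := h
  obtain ⟨c, hc, -, h2⟩ := he.2
  have h3 : e = c'.edge := lb_injOn (edges_sub _ (X.subE he.1)) (corner_edge_mem c') h1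
  refine ⟨c, hc, ?_⟩
  rw [← hc', vx_cor]
  have h4 : c'.1 ∈ c.edge := by
    rw [← h2, h3]
    unfold Corner.edge
    exact Sym2.mem_mk_left _ _
  unfold Corner.edge at h4
  rw [Sym2.mem_iff] at h4
  rcases h4 with h4 | h4
  · rw [h4, dist_self]
    exact hδ.le
  · rw [h4, Pool.Agent.H57.Q1.pt_add, dist_eq_norm, add_sub_cancel_left,
      Pool.Agent.H57.Q1.norm_pt_dir δ hδ]

end labels

lemma Pr_exists_le {ι α : Type*} [DecidableEq α] (E : Finset α) (Y : Finset ι)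
    (P : ι → Finset α → Prop) : Pr E (fun ω => ∃ y ∈ Y, P y ω) ≤ ∑ y ∈ Y, Pr E (P y) := by
  classical
  induction Y using Finset.induction_on with
  | empty =>
    rw [Finset.sum_empty]
    have : Pr E (fun ω => ∃ y ∈ (∅ : Finset ι), P y ω) = Pr E (fun _ => False) :=
      Pool.Agent.H75.Perc.Pr_congr fun ω _ => by simp
    rw [this, Pool.Agent.H75.Perc.Pr_eq]
    simp
  | insert y Y hy ih =>
    rw [Finset.sum_insert hy]
    refine le_trans (Pool.Agent.H75.Perc.Pr_mono fun ω _ h => ?_)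
      ((Pool.Agent.H75.Perc.Pr_or_le E (P y) (fun ω => ∃ y ∈ Y, P y ω)).trans
        (add_le_add_right ih _))
    obtain ⟨z, hz, hz'⟩ := h
    rcases Finset.mem_insert.1 hz with rfl | hz
    · exact Or.inl hz'
    · exact Or.inr ⟨z, hz, hz'⟩

/-! ### From the plane to the lattice -/

/-- the lattice vertex near `p` -/
noncomputable def ctr (δ : ℝ) (p : ℂ) : ℤ × ℤ := (⌊p.re / δ⌋, ⌊p.im / δ⌋)

lemma near_of_dist {δ : ℝ} (hδ : 0 < δ) {p : ℂ} {v : ℤ × ℤ} {η : ℝ} (h : dist (pt δ v) p ≤ η)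
    {r : ℤ} (hr : η / δ + 1 ≤ r) : Near r (ctr δ p) v := by
  have e1 : ((⌊p.re / δ⌋ : ℤ) : ℝ) ≤ p.re / δ := Int.floor_le _
  have e2 : p.re / δ < (⌊p.re / δ⌋ : ℤ) + 1 := Int.lt_floor_add_one _
  have e3 : ((⌊p.im / δ⌋ : ℤ) : ℝ) ≤ p.im / δ := Int.floor_le _
  have e4 : p.im / δ < (⌊p.im / δ⌋ : ℤ) + 1 := Int.lt_floor_add_one _
  have hre : |(pt δ v - p).re| ≤ η := by
    refine (Complex.abs_re_le_norm _).trans ?_
    rwa [← dist_eq_norm]
  have him : |(pt δ v - p).im| ≤ η := by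
    refine (Complex.abs_im_le_norm _).trans ?_
    rwa [← dist_eq_norm]
  have k1 : |(v.1 : ℝ) - p.re / δ| ≤ η / δ := by
    have : (pt δ v - p).re = δ * ((v.1 : ℝ) - p.re / δ) := by
      simp only [pt, Complex.sub_re]; field_simp
    rw [this, abs_mul, abs_of_pos hδ] at hre
    rw [le_div_iff₀ hδ]; linarith
  have k2 : |(v.2 : ℝ) - p.im / δ| ≤ η / δ := by
    have : (pt δ v - p).im = δ * ((v.2 : ℝ) - p.im / δ) := by
      simp only [pt, Complex.sub_im]; field_simp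
    rw [this, abs_mul, abs_of_pos hδ] at him
    rw [le_div_iff₀ hδ]; linarith
  rw [abs_le] at k1 k2
  constructor
  · have h1 : |((v.1 - (ctr δ p).1 : ℤ) : ℝ)| ≤ (r : ℝ) := by
      unfold ctr
      push_cast
      rw [abs_le]
      constructor <;> linarith
    exact_mod_cast h1
  · have h1 : |((v.2 - (ctr δ p).2 : ℤ) : ℝ)| ≤ (r : ℝ) := by
      unfold ctr
      push_cast
      rw [abs_le]
      constructor <;> linarith
    exact_mod_cast h1

lemma far_of_dist {δ : ℝ} (hδ : 0 < δ) {p : ℂ} {v : ℤ × ℤ} {R : ℝ} (h : R ≤ dist (pt δ v) p)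
    {s : ℤ} (hs : 2 * δ * (s + 1) < R) : Far s (ctr δ p) v := by
  by_contra hcon
  unfold Far at hcon
  push Not at hcon
  have e1 : ((⌊p.re / δ⌋ : ℤ) : ℝ) ≤ p.re / δ := Int.floor_le _
  have e2 : p.re / δ < (⌊p.re / δ⌋ : ℤ) + 1 := Int.lt_floor_add_one _
  have e3 : ((⌊p.im / δ⌋ : ℤ) : ℝ) ≤ p.im / δ := Int.floor_le _
  have e4 : p.im / δ < (⌊p.im / δ⌋ : ℤ) + 1 := Int.lt_floor_add_one _
  obtain ⟨h1, h2⟩ := hcon
  have h1' : |((v.1 - (ctr δ p).1 : ℤ) : ℝ)| ≤ (s : ℝ) := by exact_mod_cast h1.le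
  have h2' : |((v.2 - (ctr δ p).2 : ℤ) : ℝ)| ≤ (s : ℝ) := by exact_mod_cast h2.le
  unfold ctr at h1' h2'
  push_cast at h1' h2'
  rw [abs_le] at h1' h2'
  have k1 : |(v.1 : ℝ) - p.re / δ| ≤ s + 1 := by
    rw [abs_le]
    constructor <;> linarith
  have k2 : |(v.2 : ℝ) - p.im / δ| ≤ s + 1 := by
    rw [abs_le]
    constructor <;> linarith
  have k3 : |(pt δ v - p).re| ≤ δ * (s + 1) := by
    have : (pt δ v - p).re = δ * ((v.1 : ℝ) - p.re / δ) := by
      simp only [pt, Complex.sub_re]; field_simp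
    rw [this, abs_mul, abs_of_pos hδ]
    exact mul_le_mul_of_nonneg_left k1 hδ.le
  have k4 : |(pt δ v - p).im| ≤ δ * (s + 1) := by
    have : (pt δ v - p).im = δ * ((v.2 : ℝ) - p.im / δ) := by
      simp only [pt, Complex.sub_im]; field_simp
    rw [this, abs_mul, abs_of_pos hδ]
    exact mul_le_mul_of_nonneg_left k2 hδ.le
  have k5 : dist (pt δ v) p ≤ δ * (s + 1) + δ * (s + 1) := by
    rw [dist_eq_norm]
    exact (Complex.norm_le_abs_re_add_abs_im _).trans (add_le_add k3 k4)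
  linarith

/-- neighbouring vertices -/
lemma dist_pt_of_near {δ : ℝ} (hδ : 0 < δ) {u v : ℤ × ℤ} (h : Near 1 u v) :
    dist (pt δ u) (pt δ v) ≤ 2 * δ := by
  obtain ⟨h1, h2⟩ := h
  have h1' : |((v.1 - u.1 : ℤ) : ℝ)| ≤ 1 := by exact_mod_cast h1
  have h2' : |((v.2 - u.2 : ℤ) : ℝ)| ≤ 1 := by exact_mod_cast h2
  push_cast at h1' h2'
  have k3 : |(pt δ u - pt δ v).re| ≤ δ * 1 := by
    have : (pt δ u - pt δ v).re = -(δ * ((v.1 : ℝ) - u.1)) := by
      simp only [pt, Complex.sub_re]; ring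
    rw [this, abs_neg, abs_mul, abs_of_pos hδ]
    exact mul_le_mul_of_nonneg_left h1' hδ.le
  have k4 : |(pt δ u - pt δ v).im| ≤ δ * 1 := by
    have : (pt δ u - pt δ v).im = -(δ * ((v.2 : ℝ) - u.2)) := by
      simp only [pt, Complex.sub_im]; ring
    rw [this, abs_neg, abs_mul, abs_of_pos hδ]
    exact mul_le_mul_of_nonneg_left h2' hδ.le
  rw [dist_eq_norm]
  have := (Complex.norm_le_abs_re_add_abs_im (pt δ u - pt δ v)).trans (add_le_add k3 k4)
  linarith

/-- consecutive vertices of the exploration -/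
lemma dist_cor_succ (X : DEnv) {δ : ℝ} (hδ : 0 < δ) (S : Finset (ℤ × ℤ)) (t : ℕ) :
    dist (pt δ (vx (X.cor S t))) (pt δ (vx (X.cor S (t + 1)))) ≤ 2 * δ := by
  refine dist_pt_of_near hδ ?_
  rw [X.cor_succ]
  have h := step_near (L := S ∪ X.W) (c := X.cor S t) (x := vx (X.cor S t)) (r := 0)
    ⟨by simp, by simp⟩
  simpa using h

/-- **Crossing from a large circle to a small one around `p` while meeting one type of boundary.** -/
theorem reach_type {X : DEnv} (hE : ∀ e ∈ X.E, (e.1 + e.2) % 2 = 1) {δ0 : ℝ}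
    (hD : ∀ N : ℤ, Dec (fun _ => 1 / 2) δ0 N) {δ : ℝ} (hδ : 0 < δ) (p : ℂ) {d : ℝ} {k : ℕ}
    (hd : 10000 * (4 ^ k * δ) ≤ d) (hα : d / 2 ≤ dist (pt δ (vx X.α)) p)
    (B : Finset (ℤ × ℤ) → Prop)
    (hB : ∀ S, S ⊆ X.E → ((∀ i < X.len S, dist (pt δ (vx (X.cor S i))) p < d / 2 →
      plab (X.cor S i) ∉ X.W) ∨ (∀ i < X.len S, dist (pt δ (vx (X.cor S i))) p < d / 2 →
      plab (X.cor S i) ∈ X.E ∪ X.W))) :
    Pr X.E (fun S => ∃ w ≤ X.len S, dist (pt δ (vx (X.cor S w))) p ≤ d / (1000 * 4 ^ k)) ≤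
      2 * (1 - δ0) ^ k := by
  classical
  set η := d / (1000 * 4 ^ k) with hη
  have h4 : (1 : ℝ) ≤ 4 ^ k := one_le_pow₀ (by norm_num)
  have hd0 : 0 < d := by nlinarith
  have hηd : 1000 * (4 ^ k * η) = d := by rw [hη]; field_simp
  have hη0 : 0 < η := by positivity
  have hηδ : 10 * δ ≤ η := by
    rw [hη, le_div_iff₀ (by positivity)]
    nlinarith
  have hη1 : η ≤ d / 1000 := by
    rw [hη]
    exact div_le_div_of_nonneg_left hd0.le (by norm_num) (by nlinarith)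
  set r : ℤ := ⌈η / δ⌉ + 1 with hr
  set s : ℤ := ⌊d / (10 * δ)⌋ with hs
  have hr1 : η / δ + 1 ≤ (r : ℝ) := by
    rw [hr]; push_cast
    linarith [Int.le_ceil (η / δ)]
  have hr2 : (r : ℝ) < η / δ + 2 := by
    rw [hr]; push_cast
    linarith [Int.ceil_lt_add_one (η / δ)]
  have hs1 : (s : ℝ) ≤ d / (10 * δ) := Int.floor_le _
  have hs2 : d / (10 * δ) < s + 1 := Int.lt_floor_add_one _
  have hr0 : 0 ≤ r := by
    have : (0 : ℝ) ≤ (r : ℝ) := le_trans (by positivity) hr1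
    exact_mod_cast this
  have hηδ' : 10 ≤ η / δ := by rw [le_div_iff₀ hδ]; exact hηδ
  have hsr : 4 ^ k * (r + 1) + 1 ≤ s := by
    have h1 : (4 : ℝ) ^ k * ((r : ℝ) + 1) + 1 + 1 ≤ d / (10 * δ) := by
      have h2 : (4 : ℝ) ^ k * ((r : ℝ) + 1) ≤ 4 ^ k * (2 * (η / δ)) :=
        mul_le_mul_of_nonneg_left (by linarith) (by positivity)
      have h3 : (4 : ℝ) ^ k * (2 * (η / δ)) = d / (500 * δ) := by
        rw [← hηd]; field_simp; ring
      have h5 : (2 : ℝ) ≤ d / (500 * δ) := by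
        rw [le_div_iff₀ (by positivity)]
        nlinarith
      have h6 : d / (10 * δ) = 50 * (d / (500 * δ)) := by field_simp; ring
      rw [h6]
      linarith
    have h2 : ((4 ^ k * (r + 1) + 1 : ℤ) : ℝ) < ((s : ℤ) : ℝ) := by
      push_cast
      linarith
    exact (by exact_mod_cast h2 : (4 ^ k * (r + 1) + 1 : ℤ) < s).le
  have key := one_type_prob X (q := fun _ => 1 / 2) (hD (4 ^ k * (r + 1))) hE (ctr δ p) (r := r)
    (s := s) hr0 (k := k) le_rfl hsr
  rw [PrP_half] at key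
  refine (Pool.Agent.H75.Perc.Pr_mono (fun S hS h => ?_)).trans key
  obtain ⟨w, hw, hwd⟩ := h
  -- last time outside the large circle
  set P : ℕ → Prop := fun t => d / 2 ≤ dist (pt δ (vx (X.cor S t))) p with hP
  have hP0 : P 0 := hα
  set u := Nat.findGreatest P w with hu
  have hPu : P u := Nat.findGreatest_spec (Nat.zero_le _) hP0
  have huw : u ≤ w := Nat.findGreatest_le w
  have huw' : u < w := by
    refine lt_of_le_of_ne huw fun h => ?_
    have h1 : d / 2 ≤ dist (pt δ (vx (X.cor S u))) p := hPu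
    rw [h] at h1
    linarith
  have hin : ∀ t, u < t → t ≤ w → dist (pt δ (vx (X.cor S t))) p < d / 2 := by
    intro t h1 h2
    have h3 : ¬ P t := Nat.findGreatest_is_greatest h1 h2
    rw [hP] at h3
    exact not_le.1 h3
  have hstep := dist_cor_succ X hδ S u
  have hfar : d / 4 ≤ dist (pt δ (vx (X.cor S (u + 1)))) p := by
    have h1 : d / 2 ≤ dist (pt δ (vx (X.cor S u))) p := hPu
    have h2 := dist_triangle (pt δ (vx (X.cor S u))) (pt δ (vx (X.cor S (u + 1)))) p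
    linarith
  refine ⟨u + 1, w, huw', Or.inr ⟨?_, ?_⟩, ?_⟩
  · refine far_of_dist hδ hfar ?_
    have h1 : 2 * δ * (d / (10 * δ)) = d / 5 := by field_simp; ring
    nlinarith
  · exact near_of_dist hδ hwd hr1
  · rcases hB S hS with h | h
    · exact Or.inl fun t h1 h2 => h t (by omega) (hin t (by omega) h2.le)
    · exact Or.inr fun t h1 h2 => h t (by omega) (hin t (by omega) h2.le)

/-- **The exploration path does not come near a fixed point.** -/
theorem reach_prob {D : Set ℂ} {a b : ℂ} {A₁ A₂ : Set ℂ} (hA : IsArcs D a b A₁ A₂)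
    (A : Approx D a b A₁ A₂) {p : ℂ} (hpa : p ≠ a) (hpb : p ≠ b) {θ : ℝ} (hθ : 0 < θ) :
    ∃ η > 0, ∀ᶠ n in atTop, Pr (EL (A.X n)) (fun S => ∃ w ≤ (A.X n).toDEnv.len S,
      dist (pt (A.δ n) (vx ((A.X n).toDEnv.cor S w))) p ≤ η) ≤ θ := by
  obtain ⟨δ0, hD⟩ := dec_half
  have hδ0 := (hD 0).2.1
  have hδ1 := (hD 0).2.2.1
  obtain ⟨k, hk⟩ : ∃ k : ℕ, 2 * (1 - δ0) ^ k ≤ θ := by
    obtain ⟨k, hk⟩ := exists_pow_lt_of_lt_one (half_pos hθ) (by linarith : 1 - δ0 < 1)
    exact ⟨k, by linarith⟩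
  have ha : a ∈ A₁ ∩ A₂ := by rw [hA.inter]; exact Set.mem_insert _ _
  have h4 : (0 : ℝ) < 4 ^ k := by positivity
  by_cases hp2 : p ∈ A₂
  · -- near `p` there is no wired label
    have hp1 : p ∉ A₁ := fun h => by
      have : p ∈ ({a, b} : Set ℂ) := by rw [← hA.inter]; exact ⟨h, hp2⟩
      rcases this with h1 | h1
      · exact hpa h1
      · exact hpb h1
    have hd : 0 < Metric.infDist p A₁ :=
      (hA.closed₁.notMem_iff_infDist_pos hA.conn₁.nonempty).1 hp1
    set d := Metric.infDist p A₁ with hd'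
    refine ⟨d / (1000 * 4 ^ k), by positivity, ?_⟩
    have e1 := A.wired (d / 4) (by positivity)
    have e2 : ∀ᶠ n in atTop, A.δ n < d / (10000 * 4 ^ k) :=
      A.lim.eventually_lt_const (by positivity)
    have e3 : ∀ᶠ n in atTop, dist (pt (A.δ n) (A.X n).α.1) a < d / 4 :=
      (Metric.tendsto_nhds.1 A.limα) _ (by positivity)
    filter_upwards [e1, e2, e3] with n h1 h2 h3
    have hδ := A.pos n
    have h2' : 10000 * (4 ^ k * A.δ n) ≤ d := by
      rw [lt_div_iff₀ (by positivity)] at h2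
      linarith
    have hδd : 10000 * A.δ n ≤ d := by
      have : A.δ n ≤ 4 ^ k * A.δ n := le_mul_of_one_le_left hδ.le (one_le_pow₀ (by norm_num))
      linarith
    have hα : d / 2 ≤ dist (pt (A.δ n) (vx (A.X n).toDEnv.α)) p := by
      rw [toDEnv_α, vx_cor]
      have h5 : d ≤ dist p a := Metric.infDist_le_dist_of_mem ha.1
      have h6 := dist_triangle p (pt (A.δ n) (A.X n).α.1) a
      rw [dist_comm p (pt (A.δ n) (A.X n).α.1)] at h6
      linarith
    refine le_trans ?_ (le_trans (reach_type (X := (A.X n).toDEnv) (odd_toDEnv _) hD hδ p h2' hα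
      (fun _ => True) (fun S hS => Or.inl fun i hi hdist hW => ?_)) hk)
    · rw [toDEnv_E]
    · obtain ⟨c, hc, hc'⟩ := wired_met' (A.X n) hW hδ
      have h7 := h1 c hc
      have h8 : Metric.infDist p A₁ ≤ dist p (pt (A.δ n) c.1) +
          Metric.infDist (pt (A.δ n) c.1) A₁ := by
        rw [add_comm]
        exact Metric.infDist_le_infDist_add_dist.trans (by rw [dist_comm])
      have h9 := dist_triangle p (pt (A.δ n) (vx ((A.X n).toDEnv.cor S i))) (pt (A.δ n) c.1)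
      rw [dist_comm p (pt (A.δ n) (vx ((A.X n).toDEnv.cor S i)))] at h9
      linarith
  · -- near `p` there is no closed boundary label
    have hd : 0 < Metric.infDist p A₂ :=
      (hA.closed₂.notMem_iff_infDist_pos hA.conn₂.nonempty).1 hp2
    set d := Metric.infDist p A₂ with hd'
    refine ⟨d / (1000 * 4 ^ k), by positivity, ?_⟩
    have e1 := A.dual (d / 4) (by positivity)
    have e2 : ∀ᶠ n in atTop, A.δ n < d / (10000 * 4 ^ k) :=
      A.lim.eventually_lt_const (by positivity)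
    have e3 : ∀ᶠ n in atTop, dist (pt (A.δ n) (A.X n).α.1) a < d / 4 :=
      (Metric.tendsto_nhds.1 A.limα) _ (by positivity)
    filter_upwards [e1, e2, e3] with n h1 h2 h3
    have hδ := A.pos n
    have h2' : 10000 * (4 ^ k * A.δ n) ≤ d := by
      rw [lt_div_iff₀ (by positivity)] at h2
      linarith
    have hα : d / 2 ≤ dist (pt (A.δ n) (vx (A.X n).toDEnv.α)) p := by
      rw [toDEnv_α, vx_cor]
      have h5 : d ≤ dist p a := Metric.infDist_le_dist_of_mem ha.2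
      have h6 := dist_triangle p (pt (A.δ n) (A.X n).α.1) a
      rw [dist_comm p (pt (A.δ n) (A.X n).α.1)] at h6
      linarith
    refine le_trans ?_ (le_trans (reach_type (X := (A.X n).toDEnv) (odd_toDEnv _) hD hδ p h2' hα
      (fun _ => True) (fun S hS => Or.inr fun i hi hdist => ?_)) hk)
    · rw [toDEnv_E]
    · by_contra hcon
      rw [toDEnv_E] at hS
      obtain ⟨c, hc, hc'⟩ := dual_met' (A.X n) hS hi.le hcon
      have h7 := h1 c hc
      rw [hc'] at h7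
      have h8 : Metric.infDist p A₂ ≤
          dist p (pt (A.δ n) (vx ((A.X n).toDEnv.cor S i))) +
          Metric.infDist (pt (A.δ n) (vx ((A.X n).toDEnv.cor S i))) A₂ := by
        rw [add_comm]
        exact Metric.infDist_le_infDist_add_dist.trans (by rw [dist_comm])
      rw [dist_comm p] at h8
      linarith

/-- **The exploration path does not follow the boundary.** -/
theorem layer_prob {D : Set ℂ} {a b : ℂ} {A₁ A₂ : Set ℂ} (hD : IsJordanDomain D)
    (hA : IsArcs D a b A₁ A₂) (A : Approx D a b A₁ A₂) {ε θ : ℝ} (hε : 0 < ε) (hθ : 0 < θ) :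
    ∃ δ' > 0, ∀ᶠ n in atTop, Pr (EL (A.X n)) (fun S => ∃ u v, u ≤ v ∧
      v ≤ (A.X n).toDEnv.len S ∧ ε ≤ dist (pt (A.δ n) (vx ((A.X n).toDEnv.cor S u)))
        (pt (A.δ n) (vx ((A.X n).toDEnv.cor S v))) ∧
      ∀ w, u ≤ w → w < v →
        Metric.infDist (pt (A.δ n) (vx ((A.X n).toDEnv.cor S w))) (frontier D) < δ') ≤ θ := by
  classical
  obtain ⟨-, -, -, J, hJc, hJi, hJ⟩ := hD
  obtain ⟨T, hT1, hT2⟩ := layer_points ⟨J, hJc, hJi, hJ⟩ a b hε
  have hne : (frontier D).Nonempty := by rw [hJ]; exact Set.range_nonempty J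
  set θ' := θ / (T.card + 1) with hθ'
  have hθ'0 : 0 < θ' := by positivity
  have h1 : ∀ t : ℂ, ∃ η > 0, t ∈ T → ∀ᶠ n in atTop, Pr (EL (A.X n))
      (fun S => ∃ w ≤ (A.X n).toDEnv.len S,
        dist (pt (A.δ n) (vx ((A.X n).toDEnv.cor S w))) t ≤ η) ≤ θ' := by
    intro t
    by_cases ht : t ∈ T
    · obtain ⟨η, h2, h3⟩ := reach_prob hA A (hT1 t ht).2.1 (hT1 t ht).2.2 hθ'0
      exact ⟨η, h2, fun _ => h3⟩
    · exact ⟨1, one_pos, fun h => absurd h ht⟩
  choose η hη0 hη using h1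
  obtain ⟨η0, hη00, hη0T⟩ : ∃ η0 > 0, ∀ t ∈ T, η0 ≤ η t := by
    rcases T.eq_empty_or_nonempty with h | h
    · exact ⟨1, one_pos, fun t ht => by rw [h] at ht; exact absurd ht (Finset.notMem_empty _)⟩
    · obtain ⟨t, ht, hmin⟩ := T.exists_min_image η h
      exact ⟨η t, hη0 t, fun t' ht' => hmin t' ht'⟩
  obtain ⟨δ1, hδ1, hL⟩ := hT2 η0 hη00
  refine ⟨δ1 / 2, by positivity, ?_⟩
  have e1 : ∀ᶠ n in atTop, ∀ t ∈ T, Pr (EL (A.X n))
      (fun S => ∃ w ≤ (A.X n).toDEnv.len S,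
        dist (pt (A.δ n) (vx ((A.X n).toDEnv.cor S w))) t ≤ η t) ≤ θ' :=
    (Finset.eventually_all T).2 fun t ht => hη t ht
  have e2 : ∀ᶠ n in atTop, A.δ n < δ1 / 4 := A.lim.eventually_lt_const (by positivity)
  filter_upwards [e1, e2] with n h2 h3
  have hδ := A.pos n
  have hsub : ∀ S, S ⊆ EL (A.X n) → (∃ u v, u ≤ v ∧
      v ≤ (A.X n).toDEnv.len S ∧ ε ≤ dist (pt (A.δ n) (vx ((A.X n).toDEnv.cor S u)))
        (pt (A.δ n) (vx ((A.X n).toDEnv.cor S v))) ∧
      ∀ w, u ≤ w → w < v →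
        Metric.infDist (pt (A.δ n) (vx ((A.X n).toDEnv.cor S w))) (frontier D) < δ1 / 2) →
      ∃ t ∈ T, ∃ w ≤ (A.X n).toDEnv.len S,
        dist (pt (A.δ n) (vx ((A.X n).toDEnv.cor S w))) t ≤ η t := by
    rintro S - ⟨u, v, huv, hv, hfar, hnear⟩
    have hnear' : ∀ w, u ≤ w → w ≤ v → ∃ y ∈ frontier D,
        dist (pt (A.δ n) (vx ((A.X n).toDEnv.cor S w))) y ≤ δ1 := by
      intro w hw1 hw2
      rcases hw2.lt_or_eq with h4 | h4
      · obtain ⟨y, hy, hy'⟩ := (Metric.infDist_lt_iff hne).1 (hnear w hw1 h4)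
        exact ⟨y, hy, by linarith⟩
      · rcases hw1.lt_or_eq with h5 | h5
        · obtain ⟨y, hy, hy'⟩ := (Metric.infDist_lt_iff hne).1 (hnear (w - 1) (by omega) (by omega))
          have h6 := dist_cor_succ (A.X n).toDEnv hδ S (w - 1)
          rw [Nat.sub_add_cancel (by omega)] at h6
          have h7 := dist_triangle (pt (A.δ n) (vx ((A.X n).toDEnv.cor S w)))
            (pt (A.δ n) (vx ((A.X n).toDEnv.cor S (w - 1)))) y
          rw [dist_comm (pt (A.δ n) (vx ((A.X n).toDEnv.cor S w)))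
            (pt (A.δ n) (vx ((A.X n).toDEnv.cor S (w - 1))))] at h7
          exact ⟨y, hy, by linarith⟩
        · exfalso
          have : u = v := by omega
          subst this
          rw [dist_self] at hfar
          linarith
    obtain ⟨w, hw1, hw2, t, ht, hd⟩ := hL
      (fun i => pt (A.δ n) (vx ((A.X n).toDEnv.cor S i))) u v huv
      (fun w _ _ => (dist_cor_succ _ hδ S w).trans (by linarith)) hnear' hfar
    exact ⟨t, ht, w, hw2.trans hv, hd.trans (hη0T t ht)⟩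
  refine (Pool.Agent.H75.Perc.Pr_mono hsub).trans ?_
  refine (Pr_exists_le (EL (A.X n)) T _).trans ?_
  refine (Finset.sum_le_sum fun t ht => h2 t ht).trans ?_
  rw [Finset.sum_const, nsmul_eq_mul, hθ']
  rw [mul_div_assoc']
  rw [div_le_iff₀ (by positivity)]
  nlinarith [(Nat.cast_nonneg T.card : (0 : ℝ) ≤ T.card)]

end Pool.Agent.H28.Q1
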