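import Mathlib
import Pool.Agent.H28.Q1.LayerP
import Pool.Agent.H57.Q1.M2

set_option autoImplicit false
open Set Filter Topology

/-! # Crossings of small annuli pass through the bulk

* `exists_hull` : a compact subset of a connected open set is contained in a compact connected subset.
* `cross_bulk` : with high probability every crossing of an annulus by the exploration path visits a
  fixed compact subset of the domain, if the marked points are not in the annulus. -/

namespace Pool.Agent.H28.Q1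

open Pool.Agent.H81.Q1
open Pool.Agent.H69.Q1 (lb EL WL mem_EL mem_WL edges_sub arc_sub free_sub cor_injective plab_cor
  corner_edge_mem lb_injOn vx_cor cor_surjective odd_EL DEnv)
open Pool.Agent.H75.Perc (pv Pr vx IsUnit4)
open Pool.Agent.H75.TwoArm (plab fi)
open Pool.Agent.H99.NC (PrP PrP_half PrP_mono)
open Pool.Agent.H65.Dom (Dec dec_half Arm)

/-! ### Topology of the plane -/

/-- compact connected hull -/
lemma exists_hull {D : Set ℂ} (hDo : IsOpen D) (hDc : IsConnected D) {G : Set ℂ} (hG : IsCompact G)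
    (hGD : G ⊆ D) : ∃ K : Set ℂ, IsCompact K ∧ IsPreconnected K ∧ G ⊆ K ∧ K ⊆ D := by
  classical
  have hpc : IsPathConnected D := hDo.isConnected_iff_isPathConnected.1 hDc
  obtain ⟨x0, hx0⟩ := hDc.nonempty
  have h1 : ∀ x ∈ G, ∃ r > 0, Metric.closedBall x r ⊆ D := fun x hx =>
    Metric.nhds_basis_closedBall.mem_iff.1 (hDo.mem_nhds (hGD hx))
  choose! r hr0 hr using h1
  obtain ⟨t, ht, hcov⟩ := hG.elim_nhds_subcover (fun x => Metric.ball x (r x))
    (fun x hx => Metric.ball_mem_nhds x (hr0 x hx))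
  have h3 : ∀ x, ∃ K : Set ℂ, x ∈ t → IsCompact K ∧ IsPreconnected K ∧ Metric.ball x (r x) ⊆ K ∧
      K ⊆ D ∧ x0 ∈ K := by
    intro x
    by_cases hx : x ∈ t
    · have hxG : x ∈ G := ht x hx
      obtain ⟨γ, hγ⟩ := hpc.joinedIn x0 hx0 x (hGD hxG)
      refine ⟨Metric.closedBall x (r x) ∪ range γ, fun _ => ⟨?_, ?_, ?_, ?_, ?_⟩⟩
      · exact (isCompact_closedBall _ _).union (isCompact_range γ.continuous)
      · refine IsPreconnected.union x (Metric.mem_closedBall_self (hr0 x hxG).le) ⟨1, γ.target⟩ ?_ ?_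
        · exact (convex_closedBall x (r x)).isPreconnected
        · exact isPreconnected_range γ.continuous
      · exact Metric.ball_subset_closedBall.trans subset_union_left
      · refine union_subset (hr x hxG) ?_
        rintro _ ⟨s, rfl⟩
        exact hγ s
      · exact Or.inr ⟨0, γ.source⟩
    · exact ⟨∅, fun h => absurd h hx⟩
  choose K hK using h3
  refine ⟨⋃ x ∈ t, K x, t.isCompact_biUnion fun x hx => (hK x hx).1, ?_, ?_, ?_⟩
  · have e : (⋃ x ∈ t, K x) = ⋃₀ {s | ∃ x ∈ t, s = K x} := by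
      ext z
      simp only [mem_iUnion, mem_sUnion, mem_ofPred_eq]
      constructor
      · rintro ⟨x, hx, hz⟩
        exact ⟨K x, ⟨x, hx, rfl⟩, hz⟩
      · rintro ⟨s, ⟨x, hx, rfl⟩, hz⟩
        exact ⟨x, hx, hz⟩
    rw [e]
    refine isPreconnected_sUnion x0 _ ?_ ?_
    · rintro s ⟨x, hx, rfl⟩
      exact (hK x hx).2.2.2.2
    · rintro s ⟨x, hx, rfl⟩
      exact (hK x hx).2.1
  · intro z hz
    obtain ⟨x, hx, hz'⟩ := mem_iUnion₂.1 (hcov hz)
    exact mem_iUnion₂.2 ⟨x, hx, (hK x hx).2.2.1 hz'⟩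
  · exact iUnion₂_subset fun x hx => (hK x hx).2.2.2.1

/-- a point of the boundary between a point outside and a point inside -/
lemma dist_frontier {D : Set ℂ} {x y : ℂ} (hx : x ∉ D) (hy : y ∈ D) :
    ∃ z ∈ frontier D, dist x z ≤ dist x y := by
  by_contra hcon
  push Not at hcon
  have hS : IsPreconnected (segment ℝ x y) := (convex_segment x y).isPreconnected
  have hd : ∀ z ∈ segment ℝ x y, dist x z ≤ dist x y := by
    rintro z ⟨a, b, ha, hb, hab, rfl⟩
    have : x - (a • x + b • y) = b • (x - y) := by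
      have : a = 1 - b := by linarith
      subst this
      simp only [Complex.real_smul, Complex.ofReal_sub, Complex.ofReal_one]
      ring
    rw [dist_eq_norm, this, norm_smul, Real.norm_of_nonneg hb, dist_eq_norm]
    have h1 : b ≤ 1 := by linarith
    exact mul_le_of_le_one_left (norm_nonneg _) h1
  have hcov : segment ℝ x y ⊆ interior D ∪ interior Dᶜ := by
    intro z hz
    by_contra h
    rw [mem_union, not_or] at h
    have hz' : z ∈ frontier D := by
      rw [frontier_eq_closure_inter_closure, closure_compl]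
      refine ⟨?_, h.1⟩
      by_contra h1
      exact h.2 (by rw [interior_compl]; exact h1)
    exact absurd (hd z hz) (not_le.2 (hcon z hz'))
  have hdisj : Disjoint (interior D) (interior Dᶜ) := by
    rw [Set.disjoint_left]
    intro z h1 h2
    exact (interior_subset h2) (interior_subset h1)
  rcases IsPreconnected.subset_or_subset isOpen_interior isOpen_interior hdisj hcov hS with h | h
  · exact hx (interior_subset (h (left_mem_segment ℝ x y)))
  · exact (interior_subset (h (right_mem_segment ℝ x y))) hy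

/-! ### Pieces of sequences -/

/-- restrict a crossing of an interval by a sequence with small steps to a minimal one -/
lemma refine_real {f : ℕ → ℝ} {δ : ℝ} (hf : ∀ t, |f (t + 1) - f t| ≤ δ) {s s' : ℝ} (hs : s < s')
    {a b : ℕ} (hab : a ≤ b) (ha : f a ≤ s) (hb : s' ≤ f b) :
    ∃ a' b', a ≤ a' ∧ a' < b' ∧ b' ≤ b ∧ f a' ≤ s ∧ s' ≤ f b' ∧
      ∀ t, a' ≤ t → t ≤ b' → s - δ ≤ f t ∧ f t ≤ s' + δ := by
  classical
  have hδ : 0 ≤ δ := (abs_nonneg _).trans (hf 0)
  set P : ℕ → Prop := fun t => f t ≤ s with hP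
  set a' := Nat.findGreatest P b with ha'
  have h1 : P a' := Nat.findGreatest_spec hab ha
  have h2 : a ≤ a' := Nat.le_findGreatest hab ha
  have h3 : a' ≤ b := Nat.findGreatest_le b
  have h3' : a' < b := by
    rcases h3.lt_or_eq with h | h
    · exact h
    · rw [h] at h1
      exact absurd (hb.trans h1) (not_le.2 hs)
  have h4 : ∀ t, a' < t → t ≤ b → s < f t := fun t ht htb =>
    not_le.1 (Nat.findGreatest_is_greatest ht htb)
  have hex : ∃ t, a' < t ∧ s' ≤ f t := ⟨b, h3', hb⟩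
  set b' := Nat.find hex with hb'
  obtain ⟨h5, h6⟩ : a' < b' ∧ s' ≤ f b' := Nat.find_spec hex
  have h7 : ∀ t, a' < t → t < b' → f t < s' := by
    intro t h8 h9
    by_contra h10
    exact Nat.find_min hex h9 ⟨h8, not_lt.1 h10⟩
  have h8 : b' ≤ b := Nat.find_min' hex ⟨h3', hb⟩
  refine ⟨a', b', h2, h5, h8, h1, h6, ?_⟩
  intro t h9 h10
  have hta : f a' ≤ s := h1
  have hta' : s - δ ≤ f a' := by
    have h11 := h4 (a' + 1) (by omega) (by omega)
    have h12 := abs_le.1 (hf a')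
    linarith
  have htb : f b' ≤ s' + δ := by
    obtain ⟨u, hu⟩ : ∃ u, b' = u + 1 := ⟨b' - 1, by omega⟩
    have h12 := abs_le.1 (hf u)
    rw [hu]
    rcases Nat.eq_or_lt_of_le (show a' ≤ u by omega) with h13 | h13
    · rw [← h13] at h12 ⊢; linarith
    · have h14 := h7 u h13 (by omega)
      linarith
  rcases Nat.eq_or_lt_of_le h9 with h11 | h11
  · rw [← h11]; exact ⟨hta', by linarith⟩
  · rcases Nat.eq_or_lt_of_le h10 with h12 | h12
    · rw [h12]; exact ⟨by linarith, htb⟩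
    · exact ⟨by linarith [h4 t h11 (by omega)], by linarith [h7 t h11 h12]⟩

/-- crossings in both directions -/
lemma refine_both {f : ℕ → ℝ} {δ : ℝ} (hf : ∀ t, |f (t + 1) - f t| ≤ δ) {s s' : ℝ} (hs : s < s')
    {a b : ℕ} (hab : a ≤ b) (h : (f a ≤ s ∧ s' ≤ f b) ∨ (s' ≤ f a ∧ f b ≤ s)) :
    ∃ a' b', a ≤ a' ∧ a' < b' ∧ b' ≤ b ∧ ((f a' ≤ s ∧ s' ≤ f b') ∨ (s' ≤ f a' ∧ f b' ≤ s)) ∧
      ∀ t, a' ≤ t → t ≤ b' → s - δ ≤ f t ∧ f t ≤ s' + δ := by
  rcases h with ⟨h1, h2⟩ | ⟨h1, h2⟩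
  · obtain ⟨a', b', e1, e2, e3, e4, e5, e6⟩ := refine_real hf hs hab h1 h2
    exact ⟨a', b', e1, e2, e3, Or.inl ⟨e4, e5⟩, e6⟩
  · obtain ⟨a', b', e1, e2, e3, e4, e5, e6⟩ := refine_real (f := fun t => - f t) (δ := δ)
      (fun t => by
        have : -f (t + 1) - -f t = -(f (t + 1) - f t) := by ring
        rw [this, abs_neg]
        exact hf t) (s := -s') (s' := -s) (by linarith) hab (by linarith) (by linarith)
    refine ⟨a', b', e1, e2, e3, Or.inr ⟨by linarith, by linarith⟩, fun t h3 h4 => ?_⟩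
    obtain ⟨g1, g2⟩ := e6 t h3 h4
    constructor <;> linarith

/-! ### Crossings with one type of boundary, in the plane -/

/-- **Crossings of an annulus in the plane which meet one type of boundary.** -/
theorem one_type_dist {X : DEnv} (hE : ∀ e ∈ X.E, (e.1 + e.2) % 2 = 1) {δ0 : ℝ}
    (hD : ∀ N : ℤ, Dec (fun _ => 1 / 2) δ0 N) {δ : ℝ} (hδ : 0 < δ) (p : ℂ) {d : ℝ} {k : ℕ}
    (hd : 10000 * (4 ^ k * δ) ≤ d) :
    Pr X.E (fun S => ∃ i j, i ≤ j ∧
      ((dist (pt δ (vx (X.cor S i))) p ≤ d / (1000 * 4 ^ k) ∧ d ≤ dist (pt δ (vx (X.cor S j))) p) ∨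
      (d ≤ dist (pt δ (vx (X.cor S i))) p ∧ dist (pt δ (vx (X.cor S j))) p ≤ d / (1000 * 4 ^ k))) ∧
      OneType X S i j) ≤ 2 * (1 - δ0) ^ k := by
  classical
  set η := d / (1000 * 4 ^ k) with hη
  have h4 : (1 : ℝ) ≤ 4 ^ k := one_le_pow₀ (by norm_num)
  have hd0 : 0 < d := by nlinarith
  have hηd : 1000 * (4 ^ k * η) = d := by rw [hη]; field_simp
  have hη0 : 0 < η := by positivity
  have hηδ : 10 * δ ≤ η := by
    rw [hη, le_div_iff₀ (by positivity)]
    nlinarith
  set r : ℤ := ⌈η / δ⌉ + 1 with hr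
  set s : ℤ := ⌊d / (10 * δ)⌋ with hs
  have hr1 : η / δ + 1 ≤ (r : ℝ) := by
    rw [hr]; push_cast
    linarith [Int.le_ceil (η / δ)]
  have hr2 : (r : ℝ) < η / δ + 2 := by
    rw [hr]; push_cast
    linarith [Int.ceil_lt_add_one (η / δ)]
  have hs1 : (s : ℝ) ≤ d / (10 * δ) := Int.floor_le _
  have hs2 : d / (10 * δ) < s + 1 := Int.lt_floor_add_one _
  have hr0 : 0 ≤ r := by
    have : (0 : ℝ) ≤ (r : ℝ) := le_trans (by positivity) hr1
    exact_mod_cast this
  have hηδ' : 10 ≤ η / δ := by rw [le_div_iff₀ hδ]; exact hηδ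
  have hsr : 4 ^ k * (r + 1) + 1 ≤ s := by
    have h1 : (4 : ℝ) ^ k * ((r : ℝ) + 1) + 1 + 1 ≤ d / (10 * δ) := by
      have h2 : (4 : ℝ) ^ k * ((r : ℝ) + 1) ≤ 4 ^ k * (2 * (η / δ)) :=
        mul_le_mul_of_nonneg_left (by linarith) (by positivity)
      have h3 : (4 : ℝ) ^ k * (2 * (η / δ)) = d / (500 * δ) := by
        rw [← hηd]; field_simp; ring
      have h5 : (2 : ℝ) ≤ d / (500 * δ) := by
        rw [le_div_iff₀ (by positivity)]
        nlinarith
      have h6 : d / (10 * δ) = 50 * (d / (500 * δ)) := by field_simp; ring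
      rw [h6]
      linarith
    have h2 : ((4 ^ k * (r + 1) + 1 : ℤ) : ℝ) < ((s : ℤ) : ℝ) := by
      push_cast
      linarith
    exact (by exact_mod_cast h2 : (4 ^ k * (r + 1) + 1 : ℤ) < s).le
  have key := one_type_prob X (q := fun _ => 1 / 2) (hD (4 ^ k * (r + 1))) hE (ctr δ p) (r := r)
    (s := s) hr0 (k := k) le_rfl hsr
  rw [PrP_half] at key
  have hfar : ∀ v : ℤ × ℤ, d ≤ dist (pt δ v) p → Far s (ctr δ p) v := by
    intro v hv
    refine far_of_dist hδ hv ?_
    have h1 : 2 * δ * (d / (10 * δ)) = d / 5 := by field_simp; ring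
    nlinarith
  refine (Pool.Agent.H75.Perc.Pr_mono (fun S hS h => ?_)).trans key
  obtain ⟨i, j, hij, hc, ho⟩ := h
  refine ⟨i, j, hij, ?_, ho⟩
  rcases hc with ⟨h1, h2⟩ | ⟨h1, h2⟩
  · exact Or.inl ⟨near_of_dist hδ h1 hr1, hfar _ h2⟩
  · exact Or.inr ⟨hfar _ h1, near_of_dist hδ h2 hr1⟩

/-! ### Crossings and the bulk -/

/-- **A piece in an annulus which meets both types of boundary visits a fixed compact set.** -/
theorem ann_data {D : Set ℂ} {a b : ℂ} {A₁ A₂ : Set ℂ} (hDo : IsOpen D)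
    (hDb : Bornology.IsBounded D) (hDn : D.Nonempty) (hA : IsArcs D a b A₁ A₂)
    (A : Approx D a b A₁ A₂) {p : ℂ} {s s' : ℝ}
    (ha : ¬ (s / 2 ≤ dist a p ∧ dist a p ≤ 2 * s')) (hb : ¬ (s / 2 ≤ dist b p ∧ dist b p ≤ 2 * s')) :
    ∃ G : Set ℂ, IsCompact G ∧ G ⊆ D ∧ ∀ᶠ n in atTop, ∀ S, S ⊆ EL (A.X n) → ∀ u v : ℕ,
      v ≤ (A.X n).toDEnv.len S →
      (∀ t, u ≤ t → t ≤ v → s / 2 ≤ dist (pt (A.δ n) (vx ((A.X n).toDEnv.cor S t))) p ∧
        dist (pt (A.δ n) (vx ((A.X n).toDEnv.cor S t))) p ≤ 2 * s') →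
      ¬ OneType (A.X n).toDEnv S u v →
      ∃ t, u ≤ t ∧ t < v ∧ pt (A.δ n) (vx ((A.X n).toDEnv.cor S t)) ∈ G := by
  classical
  set K : Set ℂ := {z | s / 2 ≤ dist z p ∧ dist z p ≤ 2 * s'} with hK
  have hcx : Continuous fun z : ℂ => dist z p := continuous_id.dist continuous_const
  have hKc : IsCompact K := by
    refine Metric.isCompact_of_isClosed_isBounded ?_ ?_
    · exact (isClosed_le continuous_const hcx).inter (isClosed_le hcx continuous_const)
    · exact (Metric.isBounded_closedBall (x := p) (r := 2 * s')).subset fun z hz => hz.2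
  have hc1 : Continuous fun z => Metric.infDist z A₁ := Metric.continuous_infDist_pt A₁
  have hc2 : Continuous fun z => Metric.infDist z A₂ := Metric.continuous_infDist_pt A₂
  obtain ⟨d, hd0, hd⟩ : ∃ d : ℝ, 0 < d ∧
      ∀ z ∈ K, 4 * d ≤ Metric.infDist z A₁ + Metric.infDist z A₂ := by
    rcases K.eq_empty_or_nonempty with h | h
    · exact ⟨1, one_pos, fun z hz => by rw [h] at hz; exact absurd hz (notMem_empty _)⟩
    · obtain ⟨z0, hz0, hmin⟩ := hKc.exists_isMinOn h (hc1.add hc2).continuousOn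
      have hpos : 0 < Metric.infDist z0 A₁ + Metric.infDist z0 A₂ := by
        have e1 : 0 ≤ Metric.infDist z0 A₁ := Metric.infDist_nonneg
        have e2 : 0 ≤ Metric.infDist z0 A₂ := Metric.infDist_nonneg
        rcases (add_nonneg e1 e2).lt_or_eq with h1 | h1
        · exact h1
        · exfalso
          have e3 : Metric.infDist z0 A₁ = 0 := by linarith
          have e4 : Metric.infDist z0 A₂ = 0 := by linarith
          have e5 : z0 ∈ A₁ := (hA.closed₁.mem_iff_infDist_zero hA.conn₁.nonempty).2 e3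
          have e6 : z0 ∈ A₂ := (hA.closed₂.mem_iff_infDist_zero hA.conn₂.nonempty).2 e4
          have e7 : z0 ∈ ({a, b} : Set ℂ) := by rw [← hA.inter]; exact ⟨e5, e6⟩
          rcases e7 with e8 | e8
          · rw [e8] at hz0; exact ha hz0
          · rw [mem_singleton_iff.1 e8] at hz0; exact hb hz0
      refine ⟨(Metric.infDist z0 A₁ + Metric.infDist z0 A₂) / 4, by positivity, fun z hz => ?_⟩
      have : Metric.infDist z0 A₁ + Metric.infDist z0 A₂ ≤
        Metric.infDist z A₁ + Metric.infDist z A₂ := hmin hz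
      linarith
  set G : Set ℂ := closure D ∩ {z | d ≤ Metric.infDist z A₁ ∧ d ≤ Metric.infDist z A₂} with hG
  have hGcl : IsClosed {z : ℂ | d ≤ Metric.infDist z A₁ ∧ d ≤ Metric.infDist z A₂} :=
    (isClosed_le continuous_const hc1).inter (isClosed_le continuous_const hc2)
  have hGc : IsCompact G := (hDb.isCompact_closure).inter_right hGcl
  have hfr : ∀ z : ℂ, d ≤ Metric.infDist z A₁ → d ≤ Metric.infDist z A₂ → ∀ y ∈ frontier D,
      d ≤ dist z y := by
    intro z h1 h2 y hy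
    rw [← hA.union] at hy
    rcases hy with h3 | h3
    · exact h1.trans (Metric.infDist_le_dist_of_mem h3)
    · exact h2.trans (Metric.infDist_le_dist_of_mem h3)
  refine ⟨G, hGc, ?_, ?_⟩
  · rintro z ⟨h1, h2, h3⟩
    by_contra hz
    have h4 : z ∈ frontier D := by
      rw [hDo.frontier_eq]
      exact ⟨h1, hz⟩
    have h5 := hfr z h2 h3 z h4
    rw [dist_self] at h5
    linarith
  · have e1 := A.wired (d / 8) (by positivity)
    have e2 := A.dual (d / 4) (by positivity)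
    have e3 : ∀ᶠ n in atTop, A.δ n < d / 100 := A.lim.eventually_lt_const (by positivity)
    have e4 := A.sub (d / 2) (by positivity)
    filter_upwards [e1, e2, e3, e4] with n h1 h2 h3 h4
    intro S hS u v hv hin hno
    have hδ := A.pos n
    set X := (A.X n).toDEnv with hX
    set q : ℕ → ℂ := fun t => pt (A.δ n) (vx (X.cor S t)) with hq
    have hstep : ∀ t, dist (q t) (q (t + 1)) ≤ 2 * A.δ n := fun t => dist_cor_succ X hδ S t
    unfold OneType at hno
    rw [not_or] at hno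
    push Not at hno
    obtain ⟨⟨t1, u1, u2, u3⟩, t2, v1, v2, v3⟩ := hno
    have f1 : Metric.infDist (q t1) A₁ ≤ d / 4 := by
      obtain ⟨c, hc, hc'⟩ := wired_met' (A.X n) u3 hδ
      have g1 := h1 c hc
      have g2 := Metric.infDist_le_infDist_add_dist (s := A₁) (x := q t1) (y := pt (A.δ n) c.1)
      have g3 : dist (q t1) (pt (A.δ n) c.1) ≤ A.δ n := hc'
      linarith
    have f2 : Metric.infDist (q t2) A₂ ≤ d / 4 := by
      obtain ⟨c, hc, hc'⟩ := dual_met' (A.X n) hS (le_trans v2.le hv) v3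
      have g1 := h2 c hc
      rw [hc'] at g1
      exact g1.le
    have g1 := hd _ (hin t1 u1 u2.le)
    have g2 := hd _ (hin t2 v1 v2.le)
    set f : ℕ → ℝ := fun t => Metric.infDist (q t) A₁ - Metric.infDist (q t) A₂ with hf
    have hf1 : f t1 ≤ 0 := by simp only [hf]; linarith
    have hf2 : 0 ≤ f t2 := by simp only [hf]; linarith
    have hfs : ∀ t, |f (t + 1) - f t| ≤ 4 * A.δ n := by
      intro t
      have e1 := Metric.infDist_le_infDist_add_dist (s := A₁) (x := q (t + 1)) (y := q t)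
      have e2 := Metric.infDist_le_infDist_add_dist (s := A₁) (x := q t) (y := q (t + 1))
      have e3 := Metric.infDist_le_infDist_add_dist (s := A₂) (x := q (t + 1)) (y := q t)
      have e4 := Metric.infDist_le_infDist_add_dist (s := A₂) (x := q t) (y := q (t + 1))
      have e5 := hstep t
      rw [dist_comm (q (t + 1)) (q t)] at e1 e3
      rw [abs_le]
      simp only [hf]
      constructor <;> linarith
    obtain ⟨t3, w1, w2, w3⟩ : ∃ t, u ≤ t ∧ t < v ∧ |f t| ≤ 4 * A.δ n := by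
      rcases le_total t1 t2 with h | h
      · obtain ⟨t, e1, e2, e3⟩ := Pool.Agent.H57.Q1.exists_small hfs h (Or.inl ⟨hf1, hf2⟩)
        exact ⟨t, by omega, by omega, e3⟩
      · obtain ⟨t, e1, e2, e3⟩ := Pool.Agent.H57.Q1.exists_small hfs h (Or.inr ⟨hf2, hf1⟩)
        exact ⟨t, by omega, by omega, e3⟩
    have g3 := hd _ (hin t3 w1 w2.le)
    have g4 := abs_le.1 w3
    simp only [hf] at g4
    refine ⟨t3, w1, w2, ?_, ?_, ?_⟩
    · -- the vertex is in `D`
      by_contra hcl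
      have hnD : q t3 ∉ D := fun h => hcl (subset_closure h)
      have hV := vx_cor_mem (A.X n) (ω := S) (by rw [toDEnv_E]; exact hS) t3
      obtain ⟨y, hy, hy'⟩ := (Metric.infDist_lt_iff hDn).1 (h4 _ hV)
      obtain ⟨z, hz, hz'⟩ := dist_frontier hnD hy
      have := hfr (q t3) (by linarith) (by linarith) z hz
      have h5 : dist (q t3) y < d / 2 := hy'
      linarith
    · change d ≤ Metric.infDist (q t3) A₁
      linarith
    · change d ≤ Metric.infDist (q t3) A₂
      linarith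

/-- **Crossings of an annulus visit the bulk.** -/
theorem cross_bulk {D : Set ℂ} {a b : ℂ} {A₁ A₂ : Set ℂ} (hDo : IsOpen D)
    (hDb : Bornology.IsBounded D) (hDn : D.Nonempty) (hA : IsArcs D a b A₁ A₂)
    (A : Approx D a b A₁ A₂) {p : ℂ} {s' : ℝ} (hs' : 0 < s') (ha : a = p ∨ 2 * s' < dist a p)
    (hb : b = p ∨ 2 * s' < dist b p) {θ : ℝ} (hθ : 0 < θ) :
    ∃ s, 0 < s ∧ s < s' ∧ ∃ G : Set ℂ, IsCompact G ∧ G ⊆ D ∧ ∀ᶠ n in atTop,
      Pr (EL (A.X n)) (fun S => ∃ u v, u ≤ v ∧ v ≤ (A.X n).toDEnv.len S ∧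
        ((dist (pt (A.δ n) (vx ((A.X n).toDEnv.cor S u))) p ≤ s ∧
          s' ≤ dist (pt (A.δ n) (vx ((A.X n).toDEnv.cor S v))) p) ∨
        (s' ≤ dist (pt (A.δ n) (vx ((A.X n).toDEnv.cor S u))) p ∧
          dist (pt (A.δ n) (vx ((A.X n).toDEnv.cor S v))) p ≤ s)) ∧
        ∀ t, u ≤ t → t ≤ v → pt (A.δ n) (vx ((A.X n).toDEnv.cor S t)) ∉ G) ≤ θ := by
  obtain ⟨δ0, hD⟩ := dec_half
  have hδ0 := (hD 0).2.1
  have hδ1 := (hD 0).2.2.1
  obtain ⟨k, hk⟩ : ∃ k : ℕ, 2 * (1 - δ0) ^ k ≤ θ := by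
    obtain ⟨k, hk⟩ := exists_pow_lt_of_lt_one (half_pos hθ) (by linarith : 1 - δ0 < 1)
    exact ⟨k, by linarith⟩
  have h4 : (1 : ℝ) ≤ 4 ^ k := one_le_pow₀ (by norm_num)
  set s := s' / (1000 * 4 ^ k) with hs
  have hs0 : 0 < s := by positivity
  have hss : s < s' := by
    rw [hs, div_lt_iff₀ (by positivity)]
    nlinarith
  have hnot : ∀ z : ℂ, (z = p ∨ 2 * s' < dist z p) → ¬ (s / 2 ≤ dist z p ∧ dist z p ≤ 2 * s') := by
    rintro z (rfl | h) ⟨h1, h2⟩
    · rw [dist_self] at h1; linarith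
    · linarith
  obtain ⟨G, hG1, hG2, hG3⟩ := ann_data hDo hDb hDn hA A (p := p) (s := s) (s' := s')
    (hnot a ha) (hnot b hb)
  refine ⟨s, hs0, hss, G, hG1, hG2, ?_⟩
  have e2 : ∀ᶠ n in atTop, A.δ n < s' / (10000 * 4 ^ k) :=
    A.lim.eventually_lt_const (by positivity)
  filter_upwards [hG3, e2] with n h1 h2
  have hδ := A.pos n
  have h2' : 10000 * (4 ^ k * A.δ n) ≤ s' := by
    rw [lt_div_iff₀ (by positivity)] at h2
    linarith
  have hδs : 10 * A.δ n ≤ s := by
    rw [hs, le_div_iff₀ (by positivity)]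
    nlinarith
  have key := one_type_dist (X := (A.X n).toDEnv) (odd_toDEnv _) hD hδ p (d := s') (k := k) h2'
  rw [toDEnv_E] at key
  refine (Pool.Agent.H75.Perc.Pr_mono (fun S hS h => ?_)).trans (key.trans hk)
  obtain ⟨u, v, huv, hv, hc, hav⟩ := h
  set q : ℕ → ℂ := fun t => pt (A.δ n) (vx ((A.X n).toDEnv.cor S t)) with hq
  have hstep : ∀ t, |dist (q (t + 1)) p - dist (q t) p| ≤ 2 * A.δ n := fun t => by
    refine (abs_dist_sub_le _ _ _).trans ?_
    rw [dist_comm]
    exact dist_cor_succ _ hδ S t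
  obtain ⟨u', v', g1, g2, g3, g4, g5⟩ := refine_both (f := fun t => dist (q t) p) hstep hss huv hc
  refine ⟨u', v', g2.le, g4, ?_⟩
  by_contra hno
  obtain ⟨t, k1, k2, k3⟩ := h1 S hS u' v' (by omega) (fun t k1 k2 => by
    obtain ⟨l1, l2⟩ := g5 t k1 k2
    constructor
    · change s / 2 ≤ dist (q t) p
      linarith
    · change dist (q t) p ≤ 2 * s'
      linarith) hno
  exact hav t (by omega) (by omega) k3

end Pool.Agent.H28.Q1
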