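import Mathlib
import Pool.Agent.H28.Q1.Large

set_option autoImplicit false
open Finset

/-! # Macroscopic times of a path of corners

* `Mac R i t z` : `t` is the `i`-th macroscopic time of `z`: `0`, then the first time at which the
  vertex is at distance at least `R` from the vertex at the previous macroscopic time.
* `mac_last` : every time has a last macroscopic time.
* `mac_in_step` : a piece of the path of large diameter contains a macroscopic time near its start.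
* `mac_pigeon` : many macroscopic times give many crossings of an annulus around one of finitely many
  points.
* `macro_prob` : union bound for the large step lemma over the macroscopic times. -/

namespace Pool.Agent.H28.Q1

open Pool.Agent.H75.Perc Pool.Agent.H75.TwoArm Pool.Agent.H75.Four Pool.Agent.H99.NC
open Pool.Agent.H69.Q1 Pool.Agent.H39.Q1 Pool.Agent.H65.Dom
open Pool.Agent.H75.TwoArm.StrandAux hiding vx_nxC

/-- `t` is the `i`-th macroscopic time of the path `z`. -/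
def Mac (R : ℤ) : ℕ → ℕ → (ℕ → ℤ × ℤ) → Prop
  | 0, t, _ => t = 0
  | i + 1, t, z => ∃ u < t, Mac R i u z ∧ Far R (vx (z u)) (vx (z t)) ∧
      ∀ v, u < v → v < t → ¬ Far R (vx (z u)) (vx (z v))

lemma mac_congr {R : ℤ} : ∀ (i t : ℕ) {z z' : ℕ → ℤ × ℤ}, (∀ j ≤ t, z j = z' j) →
    Mac R i t z → Mac R i t z' := by
  intro i
  induction i with
  | zero => intro t z z' _ h; exact h
  | succ i ih =>
    intro t z z' hz h
    obtain ⟨u, hu, h1, h2, h3⟩ := h
    refine ⟨u, hu, ih u (fun j hj => hz j (by omega)) h1, ?_, ?_⟩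
    · rw [← hz u hu.le, ← hz t le_rfl]; exact h2
    · intro v hv hv'
      rw [← hz u hu.le, ← hz v hv'.le]
      exact h3 v hv hv'

lemma adapted_mac (R : ℤ) (i : ℕ) : DEnv.Adapted (fun t z => Mac R i t z) := fun t z z' h =>
  ⟨mac_congr i t h, mac_congr i t fun j hj => (h j hj).symm⟩

lemma mac_unique {R : ℤ} {z : ℕ → ℤ × ℤ} : ∀ (i : ℕ) {t t' : ℕ}, Mac R i t z → Mac R i t' z →
    t = t' := by
  intro i
  induction i with
  | zero => intro t t' h h'; exact h.trans h'.symm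
  | succ i ih =>
    intro t t' h h'
    obtain ⟨u, hu, h1, h2, h3⟩ := h
    obtain ⟨u', hu', h1', h2', h3'⟩ := h'
    have := ih h1 h1'
    subst this
    rcases lt_trichotomy t t' with h4 | h4 | h4
    · exact absurd h2 (h3' t hu h4)
    · exact h4
    · exact absurd h2' (h3 t' hu' h4)

lemma mac_lt {R : ℤ} {z : ℕ → ℤ × ℤ} {i t u : ℕ} (h : Mac R (i + 1) t z) (h' : Mac R i u z) :
    u < t := by
  obtain ⟨u', hu', h1, -, -⟩ := h
  rw [mac_unique i h' h1]
  exact hu'

/-- the macroscopic times before a given one -/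
lemma mac_chain {R : ℤ} {z : ℕ → ℤ × ℤ} : ∀ (i : ℕ) {t : ℕ}, Mac R i t z →
    ∃ u : ℕ → ℕ, u i = t ∧ (∀ j ≤ i, Mac R j (u j) z) ∧ (∀ j < i, u j < u (j + 1)) := by
  intro i
  induction i with
  | zero =>
    intro t h
    refine ⟨fun _ => t, rfl, fun j hj => ?_, fun j hj => by omega⟩
    have : j = 0 := by omega
    subst this
    exact h
  | succ i ih =>
    intro t h
    obtain ⟨s, hs, h1, h2, h3⟩ := h
    obtain ⟨u, hu1, hu2, hu3⟩ := ih h1
    refine ⟨fun j => if j ≤ i then u j else t, ?_, ?_, ?_⟩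
    · simp
    · intro j hj
      by_cases h4 : j ≤ i
      · simp only [h4, if_true]; exact hu2 j h4
      · have : j = i + 1 := by omega
        subst this
        simp only [h4, if_false]
        exact ⟨s, hs, h1, h2, h3⟩
    · intro j hj
      by_cases h4 : j + 1 ≤ i
      · simp only [h4, if_true, (show j ≤ i by omega)]; exact hu3 j (by omega)
      · have h5 : j = i := by omega
        subst h5
        simp only [le_refl, if_true, h4, if_false, hu1]
        exact hs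

/-- **The last macroscopic time.** -/
lemma mac_last {R : ℤ} (hR : 0 < R) (z : ℕ → ℤ × ℤ) (n : ℕ) : ∃ i u, u ≤ n ∧ Mac R i u z ∧
    ∀ v, u ≤ v → v ≤ n → ¬ Far R (vx (z u)) (vx (z v)) := by
  induction n with
  | zero =>
    refine ⟨0, 0, le_rfl, rfl, fun v _ hv h => ?_⟩
    have : v = 0 := by omega
    subst this
    unfold Far at h
    simp only [sub_self, abs_zero] at h
    omega
  | succ n ih =>
    obtain ⟨i, u, hu, h1, h2⟩ := ih
    by_cases hf : Far R (vx (z u)) (vx (z (n + 1)))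
    · refine ⟨i + 1, n + 1, le_rfl, ⟨u, by omega, h1, hf, fun v hv hv' => h2 v hv.le (by omega)⟩,
        fun v hv hv' h => ?_⟩
      have : v = n + 1 := by omega
      subst this
      unfold Far at h
      simp only [sub_self, abs_zero] at h
      omega
    · refine ⟨i, u, by omega, h1, fun v hv hv' => ?_⟩
      rcases Nat.lt_or_ge n v with h3 | h3
      · have : v = n + 1 := by omega
        subst this
        exact hf
      · exact h2 v hv h3

/-- **A large piece contains a macroscopic time near its start.** If the path `z` reaches distance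
`D ≥ 2 R` from `z a` at the time `n ≥ a` then there is a macroscopic time `t`, `a < t ≤ n`, at which
the path is at distance less than `2 R + 1` from `z a`, and from which it reaches distance at least
`D - 2 R` until `n`; the vertices move by at most one in each step. -/
lemma mac_in_step {R : ℤ} (hR : 0 < R) {z : ℕ → ℤ × ℤ} {a n : ℕ} (han : a ≤ n)
    (hstep : ∀ t, a ≤ t → t < n → Near 1 (vx (z t)) (vx (z (t + 1)))) {D : ℤ} (hD : 2 * R ≤ D)
    (hfar : Far D (vx (z a)) (vx (z n))) :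
    ∃ i t, a < t ∧ t ≤ n ∧ Mac R i t z ∧ Near (2 * R) (vx (z a)) (vx (z t)) ∧
      Far (D - 2 * R) (vx (z t)) (vx (z n)) := by
  classical
  obtain ⟨i, u, hu, h1, h2⟩ := mac_last hR z a
  have hua : Near (R - 1) (vx (z u)) (vx (z a)) := by
    have h3 := h2 a hu le_rfl
    by_contra hcon
    rw [not_near] at hcon
    rw [show R - 1 + 1 = R by ring] at hcon
    exact h3 hcon
  have hex : ∃ t, a < t ∧ t ≤ n ∧ Far R (vx (z u)) (vx (z t)) := by
    refine ⟨n, lt_of_le_of_ne han fun h => ?_, le_rfl, ?_⟩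
    · subst h
      unfold Far at hfar
      simp only [sub_self, abs_zero] at hfar
      omega
    · unfold Near at hua
      unfold Far at hfar ⊢
      rw [abs_le, abs_le] at hua
      rw [le_abs, le_abs] at hfar ⊢
      omega
  set t := Nat.find hex with ht
  obtain ⟨ha, hn, hf⟩ := Nat.find_spec hex
  have hmin : ∀ v, a < v → v < t → ¬ Far R (vx (z u)) (vx (z v)) := fun v hv hv' h =>
    Nat.find_min hex hv' ⟨hv, by omega, h⟩
  have hnf : ¬ Far R (vx (z u)) (vx (z (t - 1))) := by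
    by_cases h3 : a < t - 1
    · exact hmin _ h3 (by omega)
    · have h4 : t - 1 = a := by omega
      rw [h4]
      exact h2 a hu le_rfl
  have h5 := hstep (t - 1) (by omega) (by omega)
  rw [Nat.sub_add_cancel (by omega)] at h5
  have hnear : Near (2 * R) (vx (z a)) (vx (z t)) := by
    unfold Near at hua h5 ⊢
    unfold Far at hnf
    rw [abs_le, abs_le] at hua h5 ⊢
    rw [le_abs, le_abs] at hnf
    omega
  refine ⟨i + 1, t, ha, hn, ⟨u, by omega, h1, hf, fun v hv hv' => ?_⟩, hnear, ?_⟩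
  · rcases Nat.lt_or_ge a v with h6 | h6
    · exact hmin v h6 hv'
    · exact h2 v hv.le h6
  · unfold Near at hnear
    unfold Far at hfar ⊢
    rw [abs_le, abs_le] at hnear
    rw [le_abs, le_abs] at hfar ⊢
    omega

/-- **Pigeonhole.** Many macroscopic times give many crossings of an annulus around one of the points
of a finite set `P`. -/
theorem mac_pigeon {R : ℤ} {z : ℕ → ℤ × ℤ} {i t n : ℕ} (h : Mac R i t z) (htn : t ≤ n)
    (g : ℤ × ℤ → ℂ) {d r : ℝ} (hg : ∀ u v, Far R u v → d ≤ dist (g v) (g u)) (P : Finset ℂ)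
    (hP : ∀ j ≤ n, ∃ p ∈ P, dist (g (vx (z j))) p ≤ r) {k : ℕ} (hk : P.card * k ≤ i)
    (hi : 0 < i) :
    ∃ p ∈ P, ∃ a b : ℕ → ℕ, (∀ j < k, a j < b j ∧ b j ≤ n ∧ dist (g (vx (z (a j)))) p ≤ r ∧
      d - r ≤ dist (g (vx (z (b j)))) p) ∧ ∀ j, j + 1 < k → b j ≤ a (j + 1) := by
  classical
  obtain ⟨u, hu0, hu1, hu2⟩ := mac_chain i h
  have hmono : ∀ a b, a ≤ b → b ≤ i → u a ≤ u b := by
    intro a b hab hb
    induction b, hab using Nat.le_induction with
    | base => exact le_rfl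
    | succ b hab ih => exact (ih (by omega)).trans (hu2 b (by omega)).le
  have hun : ∀ j ≤ i, u j ≤ n := fun j hj => (hmono j i hj le_rfl).trans (hu0.le.trans htn)
  have hch : ∀ j, ∃ p ∈ P, j ≤ i → dist (g (vx (z (u j)))) p ≤ r := by
    intro j
    by_cases hj : j ≤ i
    · obtain ⟨p, hp, h1⟩ := hP (u j) (hun j hj)
      exact ⟨p, hp, fun _ => h1⟩
    · obtain ⟨p, hp, -⟩ := hP (u 0) (hun 0 (by omega))
      exact ⟨p, hp, fun h => absurd h hj⟩
  choose c hcP hc using hch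
  have hPne : P.Nonempty := ⟨c 0, hcP 0⟩
  obtain ⟨p, hp, hcard⟩ := Finset.exists_le_card_fiber_of_mul_le_card_of_maps_to
    (s := range i) (t := P) (f := c) (n := k) (fun j _ => hcP j) hPne
    (by rw [card_range]; exact hk)
  set S := (range i).filter fun j => c j = p with hS
  refine ⟨p, hp, ?_⟩
  have hem : ∃ e : ℕ → ℕ, (∀ j < k, e j ∈ S) ∧ ∀ j, j + 1 < k → e j < e (j + 1) := by
    refine ⟨fun j => if hj : j < S.card then S.orderEmbOfFin rfl ⟨j, hj⟩ else 0, fun j hj => ?_,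
      fun j hj => ?_⟩
    · have hj' : j < S.card := lt_of_lt_of_le hj hcard
      simp only [hj', dif_pos]
      exact S.orderEmbOfFin_mem rfl _
    · have hj' : j + 1 < S.card := lt_of_lt_of_le hj hcard
      have hj'' : j < S.card := by omega
      simp only [hj', hj'', dif_pos]
      exact (S.orderEmbOfFin rfl).strictMono (by simp [Fin.lt_def])
  obtain ⟨e, he1, he2⟩ := hem
  have heS : ∀ j < k, e j < i ∧ c (e j) = p := fun j hj => by
    have := he1 j hj
    rw [hS, mem_filter, mem_range] at this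
    exact this
  refine ⟨fun j => u (e j), fun j => u (e j + 1), fun j hj => ?_, fun j hj => ?_⟩
  · obtain ⟨h1, h2⟩ := heS j hj
    have h3 := hc (e j) (by omega)
    rw [h2] at h3
    refine ⟨hu2 _ h1, hun _ (by omega), h3, ?_⟩
    obtain ⟨w, hw, hw1, hw2, -⟩ := hu1 (e j + 1) (by omega)
    have hw3 := mac_unique _ hw1 (hu1 (e j) (by omega))
    subst hw3
    have h4 := hg _ _ hw2
    have h5 := dist_triangle (g (vx (z (u (e j + 1))))) p (g (vx (z (u (e j)))))
    rw [dist_comm p] at h5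
    linarith
  · exact hmono _ _ (he2 j hj) (heS (j + 1) hj).1.le

/-! ### Union bound -/

section

variable (X : DEnv)

/-- first time at or after the `i`-th macroscopic time at which the corner satisfies `P` -/
def MacP (R : ℤ) (P : ℤ × ℤ → Prop) (i : ℕ) : ℕ → (ℕ → ℤ × ℤ) → Prop :=
  fun t z => (∃ u ≤ t, Mac R i u z) ∧ P (z t)

lemma adapted_macP (R : ℤ) (P : ℤ × ℤ → Prop) (i : ℕ) : DEnv.Adapted (MacP R P i) :=
  fun t z z' h => by
    unfold MacP
    rw [h t le_rfl]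
    refine and_congr_left fun _ => ⟨?_, ?_⟩
    · rintro ⟨u, hu, h1⟩
      exact ⟨u, hu, mac_congr i u (fun j hj => h j (by omega)) h1⟩
    · rintro ⟨u, hu, h1⟩
      exact ⟨u, hu, mac_congr i u (fun j hj => (h j (by omega)).symm) h1⟩

/-- The free labels not met before the time `t`. -/
noncomputable def fresh (ω : Finset (ℤ × ℤ)) (t : ℕ) : Finset (ℤ × ℤ) := X.E \ X.metE ω 0 t

lemma mem_fresh {ω : Finset (ℤ × ℤ)} {t : ℕ} {e : ℤ × ℤ} :
    e ∈ fresh X ω t ↔ e ∈ X.E ∧ ∀ k < t, plab (X.cor ω k) ≠ e := by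
  unfold fresh
  rw [mem_sdiff, X.mem_metE]
  constructor
  · rintro ⟨h1, h2⟩
    exact ⟨h1, fun k hk h => h2 ⟨k, ⟨Nat.zero_le _, hk⟩, h⟩⟩
  · rintro ⟨h1, h2⟩
    refine ⟨h1, ?_⟩
    rintro ⟨k, hk, h⟩
    exact h2 k hk.2 h

lemma fresh_anti {ω : Finset (ℤ × ℤ)} {t t' : ℕ} (h : t ≤ t') : fresh X ω t' ⊆ fresh X ω t := by
  intro e he
  rw [mem_fresh] at he ⊢
  exact ⟨he.1, fun k hk => he.2 k (by omega)⟩

lemma sdiff_exset (Q : ℕ → (ℕ → ℤ × ℤ) → Prop) (ω : Finset (ℤ × ℤ)) :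
    X.E \ X.exset Q ω = fresh X ω (X.tau Q ω) := by
  ext e
  rw [mem_fresh, mem_sdiff, X.mem_exset]
  constructor
  · rintro ⟨h1, h2⟩
    exact ⟨h1, fun k hk h => h2 ⟨h1, k, hk, h⟩⟩
  · rintro ⟨h1, h2⟩
    refine ⟨h1, ?_⟩
    rintro ⟨-, k, hk, h⟩
    exact h2 k hk h

/-- The tip `c` is joined inside the square of radius `r` to the target labels `κ` by labels of `F`. -/
def Good (r : ℤ) (κ : Finset (ℤ × ℤ)) (F : Finset (ℤ × ℤ)) (c : ℤ × ℤ) : Prop :=
  κ ⊆ F ∧ ∃ σ ⊆ F, (∀ c', plab c' ∈ σ → Near r (vx c) (vx c')) ∧ Co (σ ∪ κ) (vx c) (vx X.β)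

/-- **Large step lemma at a stopping time, with target a function of the fresh labels.** -/
theorem step_prob {δ : ℝ} {q : ℤ × ℤ → ℝ} {N : ℤ} (hD : Dec q δ N) (hI : Inv X)
    (hE : ∀ e ∈ X.E, (e.1 + e.2) % 2 = 1) {Q : ℕ → (ℕ → ℤ × ℤ) → Prop} (hQ : DEnv.Adapted Q)
    (κ : Finset (ℤ × ℤ) → Finset (ℤ × ℤ)) {r s : ℤ} (hr : 0 ≤ r) {k : ℕ}
    (hN : 4 ^ k * (r + 2) ≤ N) (hs : 4 ^ k * (r + 2) + 1 ≤ s) :
    PrP q X.E (fun ω => Good X r (κ (fresh X ω (X.tau Q ω))) (fresh X ω (X.tau Q ω))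
        (X.cor ω (X.tau Q ω)) ∧ ∃ n ≤ X.len ω, X.tau Q ω ≤ n ∧
        Far s (vx (X.cor ω (X.tau Q ω))) (vx (X.cor ω n)) ∧
        ∀ t, X.tau Q ω ≤ t → t < n → plab (X.cor ω t) ∉ κ (fresh X ω (X.tau Q ω))) ≤
      2 * (1 - δ) ^ k := by
  have hcc : ∀ ω ω', ω ⊆ X.E → ω' ⊆ X.E →
      X.cor (mix (X.exset Q ω) ω ω') (X.tau Q (mix (X.exset Q ω) ω ω')) = X.cor ω (X.tau Q ω) := by
    intro ω ω' hω hω'
    obtain ⟨h1, h2⟩ := X.tau_mix hQ hω hω'
    rw [h1, h2 _ le_rfl]
  have hff : ∀ ω ω', ω ⊆ X.E → ω' ⊆ X.E →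
      X.E \ X.exset Q (mix (X.exset Q ω) ω ω') = X.E \ X.exset Q ω := by
    intro ω ω' hω hω'
    rw [X.exset_mix hQ hω hω']
  have h := large_step_at X hD hI hE hQ
    (B := fun ω => Good X r (κ (X.E \ X.exset Q ω)) (X.E \ X.exset Q ω) (X.cor ω (X.tau Q ω)))
    (κ := fun ω => κ (X.E \ X.exset Q ω)) (x := fun ω => vx (X.cor ω (X.tau Q ω)))
    (fun ω ω' h h' => by simp only [hcc ω ω' h h', hff ω ω' h h'])
    (fun ω ω' h h' => by simp only [hff ω ω' h h'])
    (fun ω ω' h h' => by simp only [hcc ω ω' h h']) hr hN hs ?_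
  · have h1 : PrP q X.E (fun ω => Good X r (κ (X.E \ X.exset Q ω)) (X.E \ X.exset Q ω)
        (X.cor ω (X.tau Q ω))) ≤ 1 := PrP_le_one hD.1 _ _
    have h2 : (0 : ℝ) ≤ (1 - δ) ^ k := pow_nonneg (by linarith [hD.2.2.1]) k
    refine le_trans (PrP_mono hD.1 fun ω _ h3 => ?_) (h.trans ?_)
    · rw [← sdiff_exset] at h3
      obtain ⟨h4, n, h5, h6, h7, h8⟩ := h3
      exact ⟨⟨n, h5, h6, h7, h8⟩, h4⟩
    · nlinarith
  · intro ω _ hB
    obtain ⟨h1, σ, h2, h3, h4⟩ := hB
    refine ⟨h1, ⟨?_, ?_⟩, σ, h2, h3, h4⟩ <;> simp [hr]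

/-- **Union bound over the macroscopic times.** -/
theorem macro_prob {δ : ℝ} {q : ℤ × ℤ → ℝ} {N : ℤ} (hD : Dec q δ N) (hI : Inv X)
    (hE : ∀ e ∈ X.E, (e.1 + e.2) % 2 = 1) (R : ℤ) (P : ℤ × ℤ → Prop)
    (κ : Finset (ℤ × ℤ) → Finset (ℤ × ℤ)) {r s : ℤ} (hr : 0 ≤ r) {k : ℕ}
    (hN : 4 ^ k * (r + 2) ≤ N) (hs : 4 ^ k * (r + 2) + 1 ≤ s) (m : ℕ) :
    PrP q X.E (fun ω => ∃ i ≤ m, Good X r (κ (fresh X ω (X.tau (MacP R P i) ω)))
        (fresh X ω (X.tau (MacP R P i) ω)) (X.cor ω (X.tau (MacP R P i) ω)) ∧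
        ∃ n ≤ X.len ω, X.tau (MacP R P i) ω ≤ n ∧
        Far s (vx (X.cor ω (X.tau (MacP R P i) ω))) (vx (X.cor ω n)) ∧
        ∀ t, X.tau (MacP R P i) ω ≤ t → t < n →
          plab (X.cor ω t) ∉ κ (fresh X ω (X.tau (MacP R P i) ω))) ≤
      (m + 1) * (2 * (1 - δ) ^ k) := by
  induction m with
  | zero =>
    have h := step_prob X hD hI hE (adapted_macP R P 0) κ hr hN hs
    refine (PrP_mono hD.1 fun ω _ h1 => ?_).trans (h.trans (by simp))
    obtain ⟨i, hi, h2⟩ := h1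
    have : i = 0 := by omega
    subst this
    exact h2
  | succ m ih =>
    have h := step_prob X hD hI hE (adapted_macP R P (m + 1)) κ hr hN hs
    have h3 := PrP_or_le hD.1 X.E
      (fun ω => ∃ i ≤ m, Good X r (κ (fresh X ω (X.tau (MacP R P i) ω)))
        (fresh X ω (X.tau (MacP R P i) ω)) (X.cor ω (X.tau (MacP R P i) ω)) ∧
        ∃ n ≤ X.len ω, X.tau (MacP R P i) ω ≤ n ∧
        Far s (vx (X.cor ω (X.tau (MacP R P i) ω))) (vx (X.cor ω n)) ∧
        ∀ t, X.tau (MacP R P i) ω ≤ t → t < n →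
          plab (X.cor ω t) ∉ κ (fresh X ω (X.tau (MacP R P i) ω)))
      (fun ω => Good X r (κ (fresh X ω (X.tau (MacP R P (m + 1)) ω)))
        (fresh X ω (X.tau (MacP R P (m + 1)) ω)) (X.cor ω (X.tau (MacP R P (m + 1)) ω)) ∧
        ∃ n ≤ X.len ω, X.tau (MacP R P (m + 1)) ω ≤ n ∧
        Far s (vx (X.cor ω (X.tau (MacP R P (m + 1)) ω))) (vx (X.cor ω n)) ∧
        ∀ t, X.tau (MacP R P (m + 1)) ω ≤ t → t < n →
          plab (X.cor ω t) ∉ κ (fresh X ω (X.tau (MacP R P (m + 1)) ω)))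
    refine (PrP_mono hD.1 fun ω _ h1 => ?_).trans (h3.trans ?_)
    · obtain ⟨i, hi, h2⟩ := h1
      rcases Nat.lt_or_ge m i with h4 | h4
      · have : i = m + 1 := by omega
        subst this
        exact Or.inr h2
      · exact Or.inl ⟨i, h4, h2⟩
    · push_cast
      linarith

end

end Pool.Agent.H28.Q1
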