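import Mathlib
import Pool.Agent.H43.Q1.Sperner

set_option autoImplicit false
open Finset

/-! # Walks around labels which are not free

`half_walk` : a path of vertices outside `K` from the end of a free label `e` to a vertex next to a
label which is not free gives a small set of free labels which joins `e` to a corner the previous
label of which is not free. -/

namespace Pool.Agent.H28.Q1

open Pool.Agent.H75.Perc Pool.Agent.H75.TwoArm Pool.Agent.H75.Four Pool.Agent.H99.NC
open Pool.Agent.H69.Q1 Pool.Agent.H39.Q1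
open Pool.Agent.H75.TwoArm.SymmAux (pvO pvC pv_eq)
open Pool.Agent.H43.Q1
open Pool.Agent.Q1.M3 (star star1 kap mem_star_iff mem_kap_iff)

section

variable {Y : DEnv} {K : Finset (ℤ × ℤ)} {s : ℤ} {c0 : ℤ × ℤ}

/-- the start of the walk -/
lemma half_start (hE : plab c0 ∈ Y.E) (hK : vx (oc c0) ∉ K) (hs : 0 ≤ s) :
    Half Y K (s + 2) (plab c0) {plab c0} (oc c0) where
  sub := singleton_subset_iff.2 hE
  mem := mem_singleton_self _
  off := by
    intro l hl h
    rw [mem_singleton.1 hl, mem_kap_plab] at h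
    exact hK h.2
  near := by
    intro c c' hc hc'
    rw [mem_singleton] at hc
    exact (near_of_plab (hc.trans hc'.symm)).mono (by omega)
  prim := by
    intro c c' hc hc'
    have h1 := mem_singleton.1 hc
    rcases eq_or_oc (c := c') (c' := c) (h1.trans hc'.symm) with h2 | h2
    · rw [h2]; exact Co.refl _ _
    · rw [h2]
      exact (co_step_v (by rw [hc']; exact mem_singleton_self _)).symm
  dual := by
    intro c' hc'
    rcases eq_or_oc (c := c0) (c' := c') hc' with h2 | h2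
    · rw [h2]; exact co_step_f (mem_singleton_self _)
    · rw [h2]; exact Co.refl _ _
  fr := Or.inr (by rw [plab_oc]; exact mem_singleton_self _)

/-- one more label -/
lemma half_insert {D : Finset (ℤ × ℤ)} {g : ℤ × ℤ} (h : Half Y K (s + 2) (plab c0) D g)
    (hg : vx g ∉ K) (hn : Near s (vx (oc c0)) (vx g)) (hE : plab g ∈ Y.E) {g' : ℤ × ℤ}
    (hf : fi g' = fi (oc g)) (hfr : lab g' = plab g ∨ plab g' = plab g) :
    Half Y K (s + 2) (plab c0) (insert (plab g) D) g' := by
  have hvx : ∀ c', plab c' = plab c0 → Co D (vx g) (vx c') := fun c' hc' => (h.near_g hc').2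
  refine ⟨insert_subset hE h.sub, mem_insert_of_mem h.mem, ?_, ?_, ?_, ?_, ?_⟩
  · intro l hl h1
    rcases mem_insert.1 hl with h2 | h2
    · rw [h2, mem_kap_plab] at h1
      exact hg h1.1
    · exact h.off l h2 h1
  · intro c c' hc hc'
    rcases mem_insert.1 hc with h2 | h2
    · have h3 : Near 1 (vx c') (vx (oc c0)) := near_of_plab (by rw [plab_oc]; exact hc'.symm)
      exact (near_trans (near_trans h3 hn) (near_of_plab h2)).mono (by omega)
    · exact h.near c c' h2 hc'
  · intro c c' hc hc'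
    rcases mem_insert.1 hc with h2 | h2
    · have h3 := (hvx c' hc').mono (subset_insert (plab g) D)
      rcases eq_or_oc h2 with h4 | h4
      · rw [h4]; exact h3
      · rw [h4]
        exact (co_step_v (mem_insert_self _ _)).symm.trans h3
    · exact (h.prim c c' h2 hc').mono (subset_insert _ _)
  · intro c' hc'
    rw [hf]
    exact ((h.dual c' hc').mono (map_subset_map.2 (subset_insert _ _))).trans
      (co_step_f (mem_insert_self _ _))
  · rcases hfr with h1 | h1
    · exact Or.inl (by rw [h1]; exact mem_insert_self _ _)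
    · exact Or.inr (by rw [h1]; exact mem_insert_self _ _)

/-- The walk reaches a corner whose previous label is not free. -/
def Stop (Y : DEnv) (K : Finset (ℤ × ℤ)) (s : ℤ) (c0 : ℤ × ℤ) (S : ℤ × ℤ → Prop) : Prop :=
  ∃ D g, Half Y K (s + 2) (plab c0) D g ∧ plab g ∉ Y.E ∧ lab g ∈ Y.E ∧ S (vx g)

/-- rotation around a vertex -/
lemma half_rot {D : Finset (ℤ × ℤ)} {g : ℤ × ℤ} (h : Half Y K (s + 2) (plab c0) D g)
    (hg : vx g ∉ K) (hn : Near s (vx (oc c0)) (vx g)) {S : ℤ × ℤ → Prop} (hS : S (vx g)) :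
    Stop Y K s c0 S ∨ ∀ d, vx d = vx g → plab d ∈ Y.E ∧
      ∃ D', Half Y K (s + 2) (plab c0) D' d := by
  have hstop : ∀ D' g', Half Y K (s + 2) (plab c0) D' g' → vx g' = vx g → plab g' ∉ Y.E →
      Stop Y K s c0 S := by
    intro D' g' h1 h2 h3
    refine ⟨D', g', h1, h3, ?_, by rw [h2]; exact hS⟩
    rcases h1.fr with h4 | h4
    · exact h1.sub h4
    · exact absurd (h1.sub h4) h3
  by_cases e0 : plab g ∈ Y.E
  swap
  · exact Or.inl (hstop D g h rfl e0)
  have h1 := half_insert h hg hn e0 (g' := pvC g) (fi_pvC g) (Or.inl (lab_pvC g))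
  have v1 : vx (pvC g) = vx g := vx_pvC g
  by_cases e1 : plab (pvC g) ∈ Y.E
  swap
  · exact Or.inl (hstop _ _ h1 v1 e1)
  have h2 := half_insert h1 (by rw [v1]; exact hg) (by rw [v1]; exact hn) e1 (g' := pvC (pvC g))
    (fi_pvC _) (Or.inl (lab_pvC _))
  have v2 : vx (pvC (pvC g)) = vx g := by rw [vx_pvC, v1]
  by_cases e2 : plab (pvC (pvC g)) ∈ Y.E
  swap
  · exact Or.inl (hstop _ _ h2 v2 e2)
  have h3 := half_insert h2 (by rw [v2]; exact hg) (by rw [v2]; exact hn) e2
    (g' := pvC (pvC (pvC g))) (fi_pvC _) (Or.inl (lab_pvC _))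
  have v3 : vx (pvC (pvC (pvC g))) = vx g := by rw [vx_pvC, v2]
  by_cases e3 : plab (pvC (pvC (pvC g))) ∈ Y.E
  swap
  · exact Or.inl (hstop _ _ h3 v3 e3)
  right
  intro d hd
  rcases same_vx hd with h4 | h4 | h4 | h4
  · rw [h4]; exact ⟨e0, _, h⟩
  · rw [h4]; exact ⟨e1, _, h1⟩
  · rw [h4]; exact ⟨e2, _, h2⟩
  · rw [h4]; exact ⟨e3, _, h3⟩

/-- **The walk.** -/
theorem half_walk (hE : plab c0 ∈ Y.E) (hs : 0 ≤ s) {w : ℤ × ℤ} {S : ℤ × ℤ → Prop}
    (hS : ∀ v, S v → v ∉ K ∧ Near s (vx (oc c0)) v)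
    (hp : Relation.ReflTransGen (fun u v => IsUnit4 (v - u) ∧ S v) (vx (oc c0)) w)
    (h0 : S (vx (oc c0))) (hw : ∃ d, vx d = w ∧ plab d ∉ Y.E) : Stop Y K s c0 S := by
  have key : Stop Y K s c0 S ∨ S w ∧ ∃ D g, Half Y K (s + 2) (plab c0) D g ∧ vx g = w := by
    clear hw
    induction hp with
    | refl => exact Or.inr ⟨h0, _, _, half_start hE (hS _ h0).1 hs, rfl⟩
    | @tail u v _ huv ih =>
      rcases ih with h1 | ⟨hSu, D, g, h1, h2⟩
      · exact Or.inl h1
      · subst h2
        rcases half_rot h1 (hS _ hSu).1 (hS _ hSu).2 hSu with h3 | h3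
        · exact Or.inl h3
        · right
          refine ⟨huv.2, ?_⟩
          obtain ⟨d, hd1, -, hd3⟩ := exists_vx huv.1 rfl
          obtain ⟨h4, D', h5⟩ := h3 d hd1
          refine ⟨_, oc d, half_insert h5 (by rw [hd1]; exact (hS _ hSu).1)
            (by rw [hd1]; exact (hS _ hSu).2) h4 rfl (Or.inr (plab_oc d)), hd3⟩
  rcases key with h | ⟨hSw, D, g, h1, h2⟩
  · exact h
  · subst h2
    rcases half_rot h1 (hS _ hSw).1 (hS _ hSw).2 hSw with h3 | h3
    · exact h3
    · obtain ⟨d, hd1, hd2⟩ := hw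
      exact absurd (h3 d hd1).1 hd2

end

end Pool.Agent.H28.Q1
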