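import Mathlib
import Pool.Agent.H28.Q1.Walk
import Pool.Agent.H28.Q1.InvD
import Pool.Agent.H43.Q1.Gate

set_option autoImplicit false
open Finset

/-! # Types of the corners next to labels which are not free

In the environments of a discrete domain a corner of the domain the previous label of which is not
free has its vertex in the wired cluster or its face is joined to the face of the tip by closed
boundary labels (`type_t`). -/

namespace Pool.Agent.H28.Q1

open Pool.Agent.H75.Perc Pool.Agent.H75.TwoArm Pool.Agent.H75.Four Pool.Agent.H99.NC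
open Pool.Agent.H69.Q1 Pool.Agent.H39.Q1
open Pool.Agent.H75.TwoArm.SymmAux (pvO pvC pv_eq)
open Pool.Agent.H69.Q1.DEnv (steps adapted_steps)
open Pool.Agent.H43.Q1
open Pool.Agent.H81.Q1
open Pool.Agent.Q1.M3 (star star1 kap mem_star_iff mem_kap_iff)

/-- the vertex of a corner at a label of the domain -/
lemma vx_mem_V (X : DDomain) {c : ℤ × ℤ} (h : plab c ∈ LabE X) : vx c ∈ X.V := by
  obtain ⟨e, he, h1⟩ := (mem_LabE X).1 h
  have h5 := plab_ends c
  have h2 : s(vx c, vx (oc c)) ∈ Z2.edgeSet := by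
    refine adj_iff_isUnit.2 ?_
    have h6 := h5.1
    unfold IsUnit4 at h6
    simp only [Prod.ext_iff, Prod.fst_sub, Prod.snd_sub, Prod.fst_add, Prod.snd_add] at h6 ⊢
    omega
  have h3 : e = s(vx c, vx (oc c)) := by
    refine lb_injOn (subZ2 X he) h2 ?_
    rw [h1, ← h5.2]
    rfl
  have h4 := X.subE he
  rw [h3] at h4
  exact h4.2 (vx c) (by simp)

/-- the labels of a discrete domain are free or wired -/
lemma labE_eq (X : DDomain) : X.toDEnv.E ∪ X.toDEnv.W = LabE X := by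
  change X.toLDom.Fr ∪ X.toLDom.Wd = X.toLDom.G
  ext e
  unfold LDom.Fr
  rw [mem_union, mem_sdiff]
  constructor
  · rintro (h | h)
    · exact h.1
    · exact (X.toLDom.mem_Wd.1 h).1
  · intro h
    by_cases h1 : e ∈ X.toLDom.Wd
    · exact Or.inr h1
    · exact Or.inl ⟨h, h1⟩

/-- the type of a corner next to a label which is absent at the beginning -/
lemma type_0 (X : DDomain) {g : ℤ × ℤ} (hV : vx g ∈ X.V) (hg : plab g ∉ X.toDEnv.E)
    (hg' : plab g ∉ X.toDEnv.W) :
    Co X.toDEnv.W (vx X.toDEnv.β) (vx g) ∨ ClJ X.toDEnv (fi X.toDEnv.α) (fi g) := by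
  have hI : Inv X.toDEnv := inv_toDEnv X
  obtain ⟨c, hc⟩ := cor_surjective g
  have hL : plab g ∉ LabE X := by
    rw [← labE_eq, mem_union, not_or]
    exact ⟨hg, hg'⟩
  have hcV : c.1 ∈ X.V := by
    rw [← hc, vx_cor] at hV
    exact hV
  have hce : c.edge ∉ X.E := by
    intro h
    apply hL
    rw [← hc, plab_cor]
    exact (lb_mem_LabE X (corner_edge_mem c)).2 h
  have hO := inOrb_outer X X.memα hcV X.outα (X.noHole c hcV hce)
  rw [hc, ← labE_eq] at hO
  have hne : X.toDEnv.α ≠ X.toDEnv.β := fun h =>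
    X.ne (by rw [cor_injective (show Pool.Agent.H69.Q1.cor X.α = Pool.Agent.H69.Q1.cor X.β from h)])
  by_cases hB : Back (X.toDEnv.E ∪ X.toDEnv.W) X.toDEnv.α X.toDEnv.β g
  · left
    obtain ⟨j, -, h5, -⟩ := (hI.back_iff (subset_refl _)).1 hB
    have h6 := (Pool.Agent.H39.Q1.side_open X.toDEnv.W X.toDEnv.β (Nat.zero_le j)).mono
      inter_subset_left
    rw [h5] at h6
    exact h6
  · right
    obtain ⟨i, hi, hic⟩ := (X.toDEnv.visited_iff (subset_refl _) hne).2 ⟨hO, hB⟩
    rcases hi.lt_or_eq with h1 | h1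
    · rw [← hic]
      refine hI.cl _ (subset_refl _) i h1 ?_ ?_
      · rw [hic]; exact hg
      · rw [hic]; exact hg'
    · rw [h1, X.toDEnv.cor_len (subset_refl _)] at hic
      rw [← hic]
      exact hI.clJ.symm

/-- **The type of a corner next to a label which is not free.** -/
theorem type_t (X : DDomain) {ω : Finset (ℤ × ℤ)} (hω : ω ⊆ X.toDEnv.E) {t : ℕ}
    (ht : t ≤ X.toDEnv.len ω) {g : ℤ × ℤ} (hV : vx g ∈ X.V)
    (hg : plab g ∉ (env X.toDEnv ω hω t).E) :
    Co (env X.toDEnv ω hω t).W (vx X.toDEnv.β) (vx g) ∨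
      ClJ (env X.toDEnv ω hω t) (fi (env X.toDEnv ω hω t).α) (fi g) := by
  have hI : Inv X.toDEnv := inv_toDEnv X
  set Y := env X.toDEnv ω hω t with hY
  have hIY : Inv Y := hI.after (adapted_steps _) hω
  have hYα : Y.α = X.toDEnv.cor ω t := env_α hω ht
  by_cases hW : plab g ∈ Y.W
  · left
    exact hIY.co_of_mem hW
  by_cases hE0 : plab g ∈ X.toDEnv.E
  · -- explored and closed
    right
    have h1 : ∃ k < t, plab (X.toDEnv.cor ω k) = plab g := by
      by_contra hcon
      push Not at hcon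
      exact hg ((mem_env_E hω ht).2 ⟨hE0, hcon⟩)
    obtain ⟨k, hk, hkg⟩ := h1
    have h2 : plab g ∉ ω := fun h => hW ((mem_env_W hω ht).2 (Or.inr ⟨h, k, hk, hkg⟩))
    have h3 : plab g ∉ X.toDEnv.W := fun h => hW ((mem_env_W hω ht).2 (Or.inl h))
    have h4 : plab (X.toDEnv.cor ω k) ∉ ω ∪ X.toDEnv.W := by
      rw [hkg, mem_union, not_or]
      exact ⟨h2, h3⟩
    rw [hYα]
    rcases eq_or_oc hkg.symm with h5 | h5
    · rw [h5]
      exact (clJ_path hω hk.le ht).symm
    · have h6 : fi (X.toDEnv.cor ω (k + 1)) = fi (oc (X.toDEnv.cor ω k)) := by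
        rw [DEnv.cor_succ, pv_closed h4, fi_pvC]
      rw [h5, ← h6]
      exact (clJ_path hω (by omega) ht).symm
  · have h3 : plab g ∉ X.toDEnv.W := fun h => hW ((mem_env_W hω ht).2 (Or.inl h))
    rcases type_0 X hV hE0 h3 with h4 | h4
    · left
      exact h4.mono fun e he => (mem_env_W hω ht).2 (Or.inl he)
    · right
      have h5 : ClJ (env X.toDEnv ω hω 0) (fi X.toDEnv.α) (fi g) := by
        obtain ⟨F, hF⟩ := h4
        exact ⟨F, hF.mono (du_anti (env_EW_sub hω (Nat.zero_le _)))⟩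
      have h6 : ClJ Y (fi X.toDEnv.α) (fi g) := clJ_env_mono hω (Nat.zero_le t) ht h5
      have h7 := clJ_path hω (Nat.zero_le t) ht
      rw [DEnv.cor_zero] at h7
      rw [hYα]
      exact h7.symm.trans h6

/-- The end of a walk has a type. -/
theorem half_type (X : DDomain) {ω : Finset (ℤ × ℤ)} (hω : ω ⊆ X.toDEnv.E) {t : ℕ}
    (ht : t ≤ X.toDEnv.len ω) {K : Finset (ℤ × ℤ)} {s : ℤ} {c0 : ℤ × ℤ} {S : ℤ × ℤ → Prop}
    (hS : ∀ v, S v → v ∉ K) (h : Stop (env X.toDEnv ω hω t) K s c0 S) :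
    HalfA (env X.toDEnv ω hω t) K (s + 2) (plab c0) ∨
      HalfL (env X.toDEnv ω hω t) K (s + 2) (plab c0) := by
  obtain ⟨D, g, h1, h2, h3, h4⟩ := h
  have hV : vx g ∈ X.V := by
    obtain ⟨c, h5, h6⟩ := exists_plab_of_lab g
    rw [← h6]
    refine vx_mem_V X ?_
    rw [h5, ← labE_eq]
    exact mem_union_left _ ((mem_env_E hω ht).1 h3).1
  rcases type_t X hω ht hV h2 with h5 | h5
  · exact Or.inl ⟨D, g, h1, h5, hS _ h4⟩
  · exact Or.inr ⟨D, g, h1, h5⟩

end Pool.Agent.H28.Q1
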