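import Mathlib
import Pool.Agent.H28.Q1.InvW

set_option autoImplicit false
open Finset

/-! # One type, seen from a vertex of the path

`Inv.one_type_n` : if a set `P` of free and wired labels joins `vx α` to a vertex of the exploration
path at the time `n` then a piece of the path before `n` which meets no label of `P` does not meet
both a wired label and a closed boundary label. -/

namespace Pool.Agent.H28.Q1

open Pool.Agent.H75.Perc Pool.Agent.H75.TwoArm Pool.Agent.H75.Four Pool.Agent.H99.NC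
open Pool.Agent.H69.Q1 Pool.Agent.H39.Q1
open Pool.Agent.H75.TwoArm.StrandAux hiding vx_nxC

variable {X : DEnv}

/-- **One type, seen from the vertex at the time `n`.** -/
theorem Inv.one_type_n (hI : Inv X) {ω P : Finset (ℤ × ℤ)} (hω : ω ⊆ X.E) (hP : P ⊆ X.E ∪ X.W)
    {n : ℕ} (hn : n ≤ X.len ω) (hco : Co P (vx X.α) (vx (X.cor ω n))) {i0 j0 : ℕ} (hj0 : j0 ≤ n)
    (hav : ∀ t, i0 ≤ t → t < j0 → plab (X.cor ω t) ∉ P)
    {i j : ℕ} (hi : i0 ≤ i) (hi' : i < j0) (hj : i0 ≤ j) (hj' : j < j0)
    (hiW : plab (X.cor ω i) ∈ X.W) :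
    plab (X.cor ω j) ∈ X.E ∪ X.W := by
  by_contra hjB
  rw [mem_union, not_or] at hjB
  obtain ⟨m, hm0, hm⟩ := hI.back'
  obtain ⟨-, h1, h2, h3, h4⟩ := hm ω hω
  obtain ⟨k, hk, hk'⟩ := h4 _ hiW
  set L := ω ∪ X.W with hL
  set L' := L ∪ P with hL'
  set w := plab (X.cor ω i) with hwdef
  have hwL : w ∈ L := mem_union_right _ hiW
  have hwP : w ∉ P := hav i hi hi'
  have hodd : (w.1 + w.2) % 2 = 1 := odd_plab _
  -- the corner at which `w` is met by the back contour
  have hne : (pv L)^[k] X.β ≠ X.cor ω i := by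
    have hcor : ∀ t, X.cor ω t = (pv L)^[t + m] X.β := by
      intro t
      rw [Function.iterate_add_apply, h1]
      rfl
    intro h5
    rw [hcor i] at h5
    have h6 : (pv L)^[k] X.β = (pv L)^[k] ((pv L)^[i + m - k] X.β) := by
      rw [← Function.iterate_add_apply, h5]
      congr 1
      omega
    have h7 : X.β = (pv L)^[i + m - k] X.β := (pv_inj L).iterate k h6
    by_cases h8 : k ≤ i
    · have h9 : i + m - k = (i - k) + m := by omega
      rw [h9, ← hcor] at h7
      exact X.cor_ne (by omega) h7.symm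
    · push Not at h8
      have h9 : (pv L)^[k - i] X.β = X.α := by
        conv_lhs => rw [h7]
        rw [← Function.iterate_add_apply, ← h1]
        congr 1
        omega
      exact h2 (k - i) (by omega) (by omega) h9
  -- other corners of the path do not meet `w`
  have hoff : ∀ t ≤ X.len ω, t < X.len ω → t ≠ i → plab (X.cor ω t) ≠ w := by
    intro t _ ht hti h5
    have e1 := (plab_eq (L := L) (x := X.cor ω t) (y := X.cor ω i) h5).resolve_left
      (fun h => hti (X.cor_inj hω ht.le (by omega) h))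
    have e2 := (plab_eq (L := L) (x := (pv L)^[k] X.β) (y := X.cor ω i) hk').resolve_left hne
    have e3 : X.cor ω t = (pv L)^[k] X.β := pv_inj L (e1.trans e2.symm)
    have hcor : X.cor ω t = (pv L)^[t + m] X.β := by
      rw [Function.iterate_add_apply, h1]
      rfl
    -- the corner at the time `t` is not on the back contour
    rw [hcor] at e3
    have h6 : (pv L)^[k] X.β = (pv L)^[k] ((pv L)^[t + m - k] X.β) := by
      rw [← Function.iterate_add_apply, ← e3]
      congr 1
      omega
    have h7 : X.β = (pv L)^[t + m - k] X.β := (pv_inj L).iterate k h6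
    by_cases h8 : k ≤ t
    · have h9 : t + m - k = (t - k) + m := by omega
      rw [h9, Function.iterate_add_apply, h1] at h7
      exact X.cor_ne (ω := ω) (i := t - k) (by omega) h7.symm
    · push Not at h8
      have h9 : (pv L)^[k - t] X.β = X.α := by
        conv_lhs => rw [h7]
        rw [← Function.iterate_add_apply, ← h1]
        congr 1
        omega
      exact h2 (k - t) (by omega) (by omega) h9
  -- primal connection off `w`
  have s1 : Co (L'.erase w) (vx X.α) (vx (X.cor ω i)) := by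
    refine (X.side_open ω (Nat.zero_le i)).mono fun e he => ?_
    rw [mem_inter] at he
    obtain ⟨t, ⟨-, ht⟩, h6⟩ := X.mem_metE.1 he.2
    rw [mem_erase]
    exact ⟨by rw [← h6]; exact hoff t (by omega) (by omega) (by omega), mem_union_left _ he.1⟩
  have s2 : Co (L'.erase w) (vx (X.cor ω (i + 1))) (vx (X.cor ω n)) := by
    refine (X.side_open ω (show i + 1 ≤ n by omega)).mono fun e he => ?_
    rw [mem_inter] at he
    obtain ⟨t, ⟨ht0, ht⟩, h6⟩ := X.mem_metE.1 he.2
    rw [mem_erase]
    exact ⟨by rw [← h6]; exact hoff t (by omega) (by omega) (by omega), mem_union_left _ he.1⟩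
  have s3 : Co (L'.erase w) (vx X.α) (vx (X.cor ω n)) := by
    refine hco.mono fun e he => ?_
    rw [mem_erase]
    exact ⟨fun h5 => hwP (h5 ▸ he), mem_union_right _ he⟩
  have sv : Co (L'.erase w) (vx (X.cor ω i)) (vx (X.cor ω (i + 1))) :=
    s1.symm.trans (s3.trans s2.symm)
  -- dual connection between the two faces of `w`
  have hL'E : L' ⊆ X.E ∪ X.W := by
    refine union_subset (union_subset (hω.trans subset_union_left) subset_union_right) hP
  have hB : ∀ {F : Finset (ℤ × ℤ)} {f g : ℤ × ℤ}, Co (du F (X.E ∪ X.W)) f g →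
      Co (du F L') f g := fun h => h.mono (du_anti hL'E)
  obtain ⟨F1, hF1⟩ := hI.cl ω hω j (by omega) hjB.1 hjB.2
  obtain ⟨F2, hF2⟩ := hI.clJ
  -- between `i` and `j`
  have hmet : ∀ a b : ℕ, i0 ≤ a → b ≤ j0 →
      du (X.metE ω a b) (ω ∪ X.W) ⊆ du (X.metE ω a b) L' := by
    intro a b ha hb
    refine du_sub_of fun e he h1 => ?_
    obtain ⟨t, ht, rfl⟩ := X.mem_metE.1 he
    rw [hL', mem_union, not_or]
    exact ⟨h1, hav t (by omega) (by omega)⟩
  have hf3 : ∃ F : Finset (ℤ × ℤ), Co (du F L') (fi (X.cor ω j)) (fi (X.cor ω i)) := by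
    rcases le_total i j with h | h
    · exact ⟨_, ((X.side_dual ω h).mono (hmet i j hi hj'.le)).symm⟩
    · exact ⟨_, (X.side_dual ω h).mono (hmet j i hj hi'.le)⟩
  obtain ⟨F3, hF3⟩ := hf3
  -- the back contour
  have hf4 : Co (du (met L X.β 0 k) L') (fi X.β) (fi ((pv L)^[k] X.β)) := by
    refine (Pool.Agent.H39.Q1.side_dual L X.β (Nat.zero_le k)).mono (du_sub_of fun e he h5 => ?_)
    obtain ⟨k', ⟨-, hk''⟩, rfl⟩ := mem_met.1 he
    intro h6
    rcases mem_union.1 (hL'E h6) with h7 | h7
    · exact h3 k' (by omega) h7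
    · exact h5 (mem_union_right _ h7)
  -- the faces of `w`
  have hx := vx_of_open (L := L) (x := X.cor ω i) hwL
  have hy := vx_of_open (L := L) (x := (pv L)^[k] X.β) (by rw [hk']; exact hwL)
  have hopc := (plab_eq (L := L) (x := (pv L)^[k] X.β) (y := X.cor ω i) hk').resolve_left hne
  have hs : X.cor ω (i + 1) = pv L (X.cor ω i) := X.cor_succ ω i
  have hl : lab (X.cor ω (i + 1)) = w := by rw [hs, lab_pv]
  have hface : Co (du (F1 ∪ F2 ∪ F3 ∪ met L X.β 0 k) L') (fi (X.cor ω (i + 1)))
      (fi (opc (X.cor ω (i + 1)))) := by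
    have g1 : fi (X.cor ω (i + 1)) = fi (X.cor ω i) := by rw [hs, ← hx.2]
    have g2 : fi (opc (X.cor ω (i + 1))) = fi ((pv L)^[k] X.β) := by
      rw [hs, ← hopc, ← hy.2]
    rw [g1, g2]
    have a1 := (hB hF1).mono (du_mono_left (E := F1) (E' := F1 ∪ F2 ∪ F3 ∪ met L X.β 0 k)
      (by intro e he; simp only [mem_union]; tauto))
    have a2 := (hB hF2).mono (du_mono_left (E := F2) (E' := F1 ∪ F2 ∪ F3 ∪ met L X.β 0 k)
      (by intro e he; simp only [mem_union]; tauto))
    have a3 := hF3.mono (du_mono_left (E := F3) (E' := F1 ∪ F2 ∪ F3 ∪ met L X.β 0 k)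
      (by intro e he; simp only [mem_union]; tauto))
    have a4 := hf4.mono (du_mono_left (E := met L X.β 0 k)
      (E' := F1 ∪ F2 ∪ F3 ∪ met L X.β 0 k) (by intro e he; simp only [mem_union]; tauto))
    exact (((a4.symm.trans a2).trans a1).trans a3).symm
  have hins : insert w L' = L' := insert_eq_self.2 (mem_union_left _ hwL)
  obtain ⟨o1, o2, -, -, -, -⟩ := opc_zu hodd
  have hv : vx (X.cor ω i) = vx (opc (X.cor ω (i + 1))) := by rw [hs]; exact hx.1
  rcases eq_zu_or_zv hodd hl with h5 | h5
  · rw [h5, o1] at hface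
    rw [hv, h5, o1] at sv
    refine Pool.Agent.H81.NC.sep_of_dual hodd (ω := L') (by rw [hins]; exact hface) sv.symm
  · rw [h5, o2] at hface
    rw [hv, h5, o2] at sv
    refine Pool.Agent.H81.NC.sep_of_dual hodd (ω := L') (by rw [hins]; exact hface.symm) sv

end Pool.Agent.H28.Q1
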