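import Mathlib
import Pool.Agent.H28.Q1.Macro

set_option autoImplicit false
open Finset

/-! # Shadow of a fresh walk attached to the right contour

`cor ∅` = right contour of the environment (exploration when all free labels are closed). If a set `P`
of free labels joins the vertex of the right contour at position `a0` to `vx β` then the wired labels
of the right contour at positions `≥ a0` are in the shadow of `P`.

* `Inv.wired_idx` : open free labels join position `a0` to `vx β` : a wired label met by the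
  exploration at a corner of the right contour is met at a position `< a0`.
* `Inv.one_type_gen` : a piece which meets no label of `P` and meets a closed boundary label only
  meets wired labels at positions `< a0`.
* `large_step_gen`, `GoodAt`, `step_prob_gen`, `macro_prob_gen` : the large step lemma in this
  setting. -/

namespace Pool.Agent.H28.Q1

open Pool.Agent.H75.Perc Pool.Agent.H75.TwoArm Pool.Agent.H75.Four Pool.Agent.H99.NC
open Pool.Agent.H69.Q1 Pool.Agent.H39.Q1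
open Pool.Agent.H65.Dom hiding du_anti
open Pool.Agent.H75.TwoArm.StrandAux hiding vx_nxC

section

variable {X : DEnv}

/-- corners of the back contour are not on the exploration path -/
lemma back_ne {ω : Finset (ℤ × ℤ)} {m : ℕ} (h1 : (pv (ω ∪ X.W))^[m] X.β = X.α)
    (h2 : ∀ k, 0 < k → k < m → (pv (ω ∪ X.W))^[k] X.β ≠ X.α) {i : ℕ} (hi : i < X.len ω) {k : ℕ}
    (hk : k < m) : (pv (ω ∪ X.W))^[k] X.β ≠ X.cor ω i := by
  set L := ω ∪ X.W
  have hcor : ∀ t, X.cor ω t = (pv L)^[t + m] X.β := by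
    intro t
    rw [Function.iterate_add_apply, h1]
    rfl
  intro h5
  rw [hcor i] at h5
  have h6 : (pv L)^[k] X.β = (pv L)^[k] ((pv L)^[i + m - k] X.β) := by
    rw [← Function.iterate_add_apply, h5]
    congr 1
    omega
  have h7 : X.β = (pv L)^[i + m - k] X.β := (pv_inj L).iterate k h6
  by_cases h8 : k ≤ i
  · have h9 : i + m - k = (i - k) + m := by omega
    rw [h9, ← hcor] at h7
    exact X.cor_ne (by omega) h7.symm
  · push Not at h8
    have h9 : (pv L)^[k - i] X.β = X.α := by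
      conv_lhs => rw [h7]
      rw [← Function.iterate_add_apply, ← h1]
      congr 1
      omega
    exact h2 (k - i) (by omega) (by omega) h9

/-- the corners of the back contour are different -/
lemma back_inj {L : Finset (ℤ × ℤ)} {m : ℕ} {α β : ℤ × ℤ} (h1 : (pv L)^[m] β = α)
    (h2 : ∀ k, 0 < k → k < m → (pv L)^[k] β ≠ α) {a b : ℕ} (ha : a < m) (hb : b < m)
    (h : (pv L)^[a] β = (pv L)^[b] β) : a = b := by
  have key : ∀ a b : ℕ, a < b → b < m → (pv L)^[a] β ≠ (pv L)^[b] β := by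
    intro a b hab hb h9
    have h10 : (pv L)^[a] β = (pv L)^[a] ((pv L)^[b - a] β) := by
      rw [← Function.iterate_add_apply, h9]
      congr 1
      omega
    have h11 : β = (pv L)^[b - a] β := (pv_inj L).iterate a h10
    have h12 : (pv L)^[m - (b - a)] β = α := by
      conv_lhs => rw [h11]
      rw [← Function.iterate_add_apply, ← h1]
      congr 1
      omega
    exact h2 (m - (b - a)) (by omega) (by omega) h12
  rcases lt_trichotomy a b with h9 | h9 | h9
  · exact absurd h (key a b h9 hb)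
  · exact h9
  · exact absurd h.symm (key b a h9 ha)

/-- three corners with the same `plab`: two of them are equal -/
lemma three_corners {x y z : ℤ × ℤ} (h1 : plab x = plab y) (h2 : plab z = plab y) (h3 : x ≠ y)
    (h4 : z ≠ y) : x = z := by
  have e1 := (plab_eq (L := ∅) h1).resolve_left h3
  have e2 := (plab_eq (L := ∅) h2).resolve_left h4
  exact pv_inj ∅ (e1.trans e2.symm)

/-- **Position of the wired labels met.** Open free labels join the right contour at position `a0` to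
`vx β`. If the exploration meets a wired label at a corner which is at position `a` of the right
contour then `a < a0`. -/
theorem Inv.wired_idx (hI : Inv X) {ω : Finset (ℤ × ℤ)} (hω : ω ⊆ X.E) {a0 : ℕ}
    (ha0 : a0 ≤ X.len ∅) (hco : Co ω (vx (X.cor ∅ a0)) (vx X.β)) {i : ℕ} (hi : i < X.len ω)
    (hw : plab (X.cor ω i) ∈ X.W) {a : ℕ} (ha : a < X.len ∅) (hia : X.cor ∅ a = X.cor ω i) :
    a < a0 := by
  by_contra hcon
  push Not at hcon
  obtain ⟨m, hm0, hm⟩ := hI.back'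
  obtain ⟨h0, h1, h2, h3, h4⟩ := hm ω hω
  obtain ⟨h0', h1', h2', -, -⟩ := hm ∅ (empty_subset _)
  obtain ⟨k, hk, hk'⟩ := h4 _ hw
  set L := ω ∪ X.W with hL
  set w := plab (X.cor ω i) with hwdef
  have hwL : w ∈ L := mem_union_right _ hw
  have hcor : ∀ t, X.cor ω t = (pv L)^[t + m] X.β := by
    intro t
    rw [Function.iterate_add_apply, h1]
    rfl
  have hne : (pv L)^[k] X.β ≠ X.cor ω i := back_ne h1 h2 hi hk
  have hoff : ∀ k' < m, k' ≠ k → plab ((pv L)^[k'] X.β) ≠ w := by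
    intro k' hk'm hkk h5
    exact hkk (back_inj h1 h2 hk'm hk
      (three_corners (y := X.cor ω i) h5 hk' (back_ne h1 h2 hi hk'm) hne))
  have hoff2 : ∀ t < a0, plab (X.cor ∅ t) ≠ w := by
    intro t ht h5
    have h6 : X.cor ∅ t ≠ X.cor ω i := by
      rw [← hia]
      intro h7
      have := X.cor_inj (empty_subset _) (by omega) ha.le h7
      omega
    have h7 : X.cor ∅ t = (pv L)^[k] X.β := three_corners (y := X.cor ω i) h5 hk' h6 hne
    have h8 := back_ne (X := X) (ω := ∅) h1' h2' (i := t) (by omega) hk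
    rw [h0' k hk.le, ← h0 k hk.le] at h8
    exact h8 h7.symm
  have s1 : Co (L.erase w) (vx X.β) (vx ((pv L)^[k] X.β)) := by
    refine (Pool.Agent.H39.Q1.side_open L X.β (Nat.zero_le k)).mono fun e he => ?_
    rw [mem_inter] at he
    obtain ⟨k', ⟨-, h5⟩, h6⟩ := mem_met.1 he.2
    rw [mem_erase]
    exact ⟨by rw [← h6]; exact hoff k' (by omega) (by omega), he.1⟩
  have s2 : Co (L.erase w) (vx ((pv L)^[k + 1] X.β)) (vx X.α) := by
    have h5 := Pool.Agent.H39.Q1.side_open L X.β (i := k + 1) (j := m) (by omega)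
    rw [h1] at h5
    refine h5.mono fun e he => ?_
    rw [mem_inter] at he
    obtain ⟨k', ⟨h5', h5⟩, h6⟩ := mem_met.1 he.2
    rw [mem_erase]
    exact ⟨by rw [← h6]; exact hoff k' (by omega) (by omega), he.1⟩
  have s3 : Co (L.erase w) (vx (X.cor ∅ a0)) (vx X.β) := by
    refine hco.mono fun e he => ?_
    rw [mem_erase]
    refine ⟨fun h5 => ?_, mem_union_left _ he⟩
    rw [h5] at he
    exact (disjoint_left.1 X.disj) (hω he) hw
  have s4 : Co (L.erase w) (vx X.α) (vx (X.cor ∅ a0)) := by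
    have h5 := X.side_open ∅ (Nat.zero_le a0)
    refine h5.mono fun e he => ?_
    rw [mem_inter, mem_union] at he
    obtain ⟨t, ⟨-, h6⟩, h7⟩ := X.mem_metE.1 he.2
    rw [mem_erase]
    refine ⟨by rw [← h7]; exact hoff2 t h6, mem_union_right _ ?_⟩
    rcases he.1 with h8 | h8
    · exact absurd h8 (notMem_empty _)
    · exact h8
  have hb := bridge (L := L) (c := X.β) (a := k) (b := i + m) (by omega)
    (by rw [hk', ← hcor]) (by rw [hk']; exact hwL) (by rw [← hcor]; exact hne)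
  rw [hk'] at hb
  exact hb ((s2.trans (s4.trans (s3.trans s1))).symm)

/-- a corner at which a wired label is met by an exploration and whose face is joined to the face of
the tip is on the right contour -/
lemma Inv.on_right (hI : Inv X) {ω η : Finset (ℤ × ℤ)} (hω : ω ⊆ X.E) (hη : η ⊆ X.E) {i : ℕ}
    (hi : i < X.len ω) (hw : plab (X.cor ω i) ∈ X.W) {F : Finset (ℤ × ℤ)}
    (hf : Co (du F (η ∪ X.W)) (fi X.α) (fi (X.cor ω i))) :
    ∃ a < X.len η, X.cor η a = X.cor ω i := by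
  have hne : X.α ≠ X.β := by
    have := X.cor_ne (ω := ω) (i := 0) (by omega)
    simpa using this
  have hv : Co (η ∪ X.W) (vx X.α) (vx (X.cor ω i)) :=
    (hI.co_W.symm.trans (hI.co_of_mem hw)).mono subset_union_right
  have hO : InOrb (pv (η ∪ X.W)) X.α (X.cor ω i) := inOrb_pv_iff.2 (inOrb_of_co _ hv hf)
  have hvis : X.Visited ω (X.cor ω i) := ⟨i, hi.le, rfl⟩
  have hB := ((X.visited_iff hω hne).1 hvis).2
  have hB' : ¬ Back (η ∪ X.W) X.α X.β (X.cor ω i) := by
    rw [hI.back_iff hη, ← hI.back_iff hω]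
    exact hB
  obtain ⟨a, ha1, ha2⟩ := (X.visited_iff hη hne).2 ⟨hO, hB'⟩
  refine ⟨a, lt_of_le_of_ne ha1 fun h => ?_, ha2⟩
  rw [h, X.cor_len hη] at ha2
  exact X.cor_ne hi ha2.symm

/-- **One type, general form.** `P` = free labels joining position `a0` of the right contour to
`vx β`. A piece of the exploration which meets no label of `P` and meets a closed boundary label only
meets wired labels at positions `< a0` of the right contour. -/
theorem Inv.one_type_gen (hI : Inv X) {ω P : Finset (ℤ × ℤ)} (hω : ω ⊆ X.E) (hP : P ⊆ X.E)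
    {a0 : ℕ} (ha0 : a0 ≤ X.len ∅) (hco : Co P (vx (X.cor ∅ a0)) (vx X.β)) {i0 j0 : ℕ}
    (hj0 : j0 ≤ X.len ω) (hav : ∀ t, i0 ≤ t → t < j0 → plab (X.cor ω t) ∉ P)
    {i j : ℕ} (hi : i0 ≤ i) (hi' : i < j0) (hj : i0 ≤ j) (hj' : j < j0)
    (hiW : plab (X.cor ω i) ∈ X.W) (hjB : plab (X.cor ω j) ∉ X.E ∪ X.W) :
    ∃ a < a0, X.cor ∅ a = X.cor ω i := by
  rw [mem_union, not_or] at hjB
  have hωP : ω ∪ P ⊆ X.E := union_subset hω hP
  have hmet : ∀ a b : ℕ, i0 ≤ a → b ≤ j0 →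
      du (X.metE ω a b) (ω ∪ X.W) ⊆ du (X.metE ω a b) (ω ∪ P ∪ X.W) := by
    intro a b ha hb
    refine du_sub_of fun e he h1 => ?_
    obtain ⟨k, hk, rfl⟩ := X.mem_metE.1 he
    rw [mem_union, not_or] at h1
    rw [mem_union, mem_union, not_or, not_or]
    exact ⟨⟨h1.1, hav k (by omega) (by omega)⟩, h1.2⟩
  have hf1 : ∃ F : Finset (ℤ × ℤ), Co (du F (ω ∪ P ∪ X.W)) (fi (X.cor ω j)) (fi (X.cor ω i)) := by
    rcases le_total i j with h | h
    · exact ⟨_, ((X.side_dual ω h).mono (hmet i j hi hj'.le)).symm⟩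
    · exact ⟨_, (X.side_dual ω h).mono (hmet j i hj hi'.le)⟩
  obtain ⟨F1, hF1⟩ := hf1
  obtain ⟨F2, hF2⟩ := hI.cl ω hω j (by omega) hjB.1 hjB.2
  have hF2' : Co (du F2 (ω ∪ P ∪ X.W)) (fi X.α) (fi (X.cor ω j)) :=
    hF2.mono (du_anti (union_subset_union_left hωP))
  have hf : Co (du (F1 ∪ F2) (ω ∪ P ∪ X.W)) (fi X.α) (fi (X.cor ω i)) :=
    (hF2'.mono (du_mono_left subset_union_right)).trans (hF1.mono (du_mono_left subset_union_left))
  have hf0 : Co (du (F1 ∪ F2) (∅ ∪ X.W)) (fi X.α) (fi (X.cor ω i)) :=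
    hf.mono (du_anti (union_subset_union_left (empty_subset _)))
  obtain ⟨i', hi1, hi2⟩ := hI.on_right hω hωP (by omega) hiW hf
  obtain ⟨a, ha1, ha2⟩ := hI.on_right hω (empty_subset _) (by omega) hiW hf0
  refine ⟨a, ?_, ha2⟩
  refine hI.wired_idx hωP ha0 (hco.mono subset_union_right) hi1 ?_ ha1 (ha2.trans hi2.symm)
  rw [hi2]
  exact hiW

/-- **One colour.** Before the exploration meets a label of `P` it only meets wired labels at
positions `< a0` of the right contour. -/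
theorem Inv.before (hI : Inv X) {ω P : Finset (ℤ × ℤ)} (hω : ω ⊆ X.E) (hP : P ⊆ X.E)
    {a0 : ℕ} (ha0 : a0 ≤ X.len ∅) (hco : Co P (vx (X.cor ∅ a0)) (vx X.β)) {i : ℕ}
    (hi : i < X.len ω) (hav : ∀ t < i, plab (X.cor ω t) ∉ P) (hiW : plab (X.cor ω i) ∈ X.W) :
    ∃ a < a0, X.cor ∅ a = X.cor ω i := by
  have hωP : ω ∪ P ⊆ X.E := union_subset hω hP
  have hf : Co (du (X.metE ω 0 i) (ω ∪ P ∪ X.W)) (fi X.α) (fi (X.cor ω i)) := by
    refine (X.side_dual ω (Nat.zero_le i)).mono (du_sub_of fun e he h1 => ?_)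
    obtain ⟨k, hk, rfl⟩ := X.mem_metE.1 he
    rw [mem_union, not_or] at h1
    rw [mem_union, mem_union, not_or, not_or]
    exact ⟨⟨h1.1, hav k (by omega)⟩, h1.2⟩
  have hf0 : Co (du (X.metE ω 0 i) (∅ ∪ X.W)) (fi X.α) (fi (X.cor ω i)) :=
    hf.mono (du_anti (union_subset_union_left (empty_subset _)))
  obtain ⟨i', hi1, hi2⟩ := hI.on_right hω hωP (by omega) hiW hf
  obtain ⟨a, ha1, ha2⟩ := hI.on_right hω (empty_subset _) (by omega) hiW hf0
  refine ⟨a, ?_, ha2⟩
  refine hI.wired_idx hωP ha0 (hco.mono subset_union_right) hi1 ?_ ha1 (ha2.trans hi2.symm)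
  rw [hi2]
  exact hiW

end

section

variable (X : DEnv)

/-- **Large step lemma, deterministic part, general form.** -/
theorem large_step_arm_gen (hI : Inv X) {κ σ ω : Finset (ℤ × ℤ)} (hω : ω ⊆ X.E) (hκ : κ ⊆ X.E)
    (hσ : σ ⊆ X.E) {a0 : ℕ} (ha0 : a0 ≤ X.len ∅)
    (hco : Co (σ ∪ κ) (vx (X.cor ∅ a0)) (vx X.β)) {x : ℤ × ℤ} {r s : ℤ}
    (hx : Near r x (vx X.α)) (hxa : ∀ a < a0, Near r x (vx (X.cor ∅ a)))
    (hσr : ∀ c, plab c ∈ σ → Near r x (vx c)) {n : ℕ}
    (hn : n ≤ X.len ω) (hfar : Far (s + 1) x (vx (X.cor ω n)))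
    (hav : ∀ t < n, plab (X.cor ω t) ∉ κ) (hrs : r < s + 1) :
    Arm x (r + 2) s ω ∨ Arm x (r + 2) s (du X.E ω) := by
  classical
  set S := (range (n + 1)).filter fun t => Near r x (vx (X.cor ω t)) with hS
  have hSne : S.Nonempty := ⟨0, by rw [hS, mem_filter, mem_range]; exact ⟨by omega, hx⟩⟩
  obtain ⟨t0, ht0, hmax⟩ := S.exists_max_image id hSne
  rw [hS, mem_filter, mem_range] at ht0
  have hlast : ∀ t, t0 < t → t ≤ n → ¬ Near r x (vx (X.cor ω t)) := by
    intro t h1 h2 h3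
    have := hmax t (by rw [hS, mem_filter, mem_range]; exact ⟨by omega, h3⟩)
    simp only [id] at this
    omega
  have ht0n : t0 < n := by
    refine lt_of_le_of_ne (by omega) fun h => ?_
    subst h
    have h1 := ht0.2
    unfold Near at h1
    unfold Far at hfar
    omega
  have h1 : Near (r + 1) x (vx (X.cor ω (t0 + 1))) := by
    rw [X.cor_succ]
    exact step_near ht0.2
  have hP : ∀ t, t0 + 1 ≤ t → t < n → plab (X.cor ω t) ∉ σ ∪ κ := by
    intro t h2 h3
    rw [mem_union, not_or]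
    exact ⟨fun h4 => hlast t (by omega) h3.le (hσr _ h4), hav t h3⟩
  have ho : OneType X ω (t0 + 1) n := by
    unfold OneType
    by_contra hcon
    rw [not_or] at hcon
    push Not at hcon
    obtain ⟨⟨i, hi, hi', hi2⟩, j, hj, hj', hj2⟩ := hcon
    obtain ⟨a, ha1, ha2⟩ := hI.one_type_gen hω (union_subset hσ hκ) ha0 hco hn hP hi hi' hj hj' hi2
      hj2
    have h5 := hxa a ha1
    rw [ha2] at h5
    exact hlast i (by omega) hi'.le h5
  have := arm_of_crs X (r := r + 1) (s := s) (i := t0 + 1) (j := n) (by omega)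
    (Or.inl ⟨h1, hfar⟩) ho
  rwa [show r + 1 + 1 = r + 2 by ring] at this

/-- **LARGE STEP, general form.** The right contour stays near the tip up to the position `a0`, and
from this position free labels `σ` near the tip and `κ` lead to `vx β`. Then the exploration meets `κ`
before it reaches distance `s`, except with probability `2 (1-δ)^k`. -/
theorem large_step_gen {δ : ℝ} {q : ℤ × ℤ → ℝ} {N : ℤ} (hD : Dec q δ N) (hI : Inv X)
    (hE : ∀ e ∈ X.E, (e.1 + e.2) % 2 = 1) {κ σ : Finset (ℤ × ℤ)} (hκ : κ ⊆ X.E) (hσ : σ ⊆ X.E)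
    {a0 : ℕ} (ha0 : a0 ≤ X.len ∅) (hco : Co (σ ∪ κ) (vx (X.cor ∅ a0)) (vx X.β)) {x : ℤ × ℤ}
    {r s : ℤ} (hr : 0 ≤ r) (hx : Near r x (vx X.α))
    (hxa : ∀ a < a0, Near r x (vx (X.cor ∅ a)))
    (hσr : ∀ c, plab c ∈ σ → Near r x (vx c)) {k : ℕ}
    (hN : 4 ^ k * (r + 2) ≤ N) (hs : 4 ^ k * (r + 2) + 1 ≤ s) :
    PrP q X.E (fun ω => ∃ n ≤ X.len ω, Far s x (vx (X.cor ω n)) ∧
      ∀ t < n, plab (X.cor ω t) ∉ κ) ≤ 2 * (1 - δ) ^ k := by
  refine (PrP_mono hD.1 fun ω hω h => ?_).trans (two_arms_prob hD hE x (by omega) hN)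
  obtain ⟨n, hn, hfar, hav⟩ := h
  refine large_step_arm_gen X hI hω hκ hσ ha0 hco hx hxa hσr hn (hfar.mono hs) hav ?_
  have h1 : (1 : ℤ) ≤ 4 ^ k := one_le_pow₀ (by norm_num)
  nlinarith

/-- The explored open labels at the time `t`. -/
noncomputable def seen (ω : Finset (ℤ × ℤ)) (t : ℕ) : Finset (ℤ × ℤ) := ω ∩ X.metE ω 0 t

/-- At the time `t`: the right contour (path in the configuration `seen`) stays in the square of
radius `r` around the tip for `a0` steps, and from there labels `σ` not explored, in this square, lead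
together with `κ` to `vx β`. -/
def GoodAt (r : ℤ) (κ ω : Finset (ℤ × ℤ)) (t : ℕ) : Prop :=
  κ ⊆ fresh X ω t ∧ ∃ a0, t + a0 ≤ X.len (seen X ω t) ∧
    (∀ a < a0, Near r (vx (X.cor ω t)) (vx (X.cor (seen X ω t) (t + a)))) ∧
    ∃ σ ⊆ fresh X ω t, (∀ c, plab c ∈ σ → Near r (vx (X.cor ω t)) (vx c)) ∧
      Co (σ ∪ κ) (vx (X.cor (seen X ω t) (t + a0))) (vx X.β)

/-- The special case of a fresh walk which starts at the tip. -/
lemma goodAt_of_good {r : ℤ} {κ ω : Finset (ℤ × ℤ)} {t : ℕ} (hω : ω ⊆ X.E) (ht : t ≤ X.len ω)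
    (h : Good X r κ (fresh X ω t) (X.cor ω t)) : GoodAt X r κ ω t := by
  obtain ⟨h1, σ, h2, h3, h4⟩ := h
  have hsub : seen X ω t ⊆ X.E := inter_subset_left.trans hω
  have hc : ∀ k ≤ t, X.cor (seen X ω t) k = X.cor ω k := by
    refine X.cor_congr hω hsub fun k hk _ => ?_
    unfold seen
    rw [mem_inter]
    exact ⟨fun h => h.1, fun h => ⟨h, X.mem_metE.2 ⟨k, ⟨Nat.zero_le _, hk⟩, rfl⟩⟩⟩
  refine ⟨h1, 0, ?_, fun a ha => by omega, σ, h2, h3, ?_⟩
  · rw [add_zero]
    by_contra hcon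
    push Not at hcon
    have h5 := X.cor_len hsub
    rw [hc _ hcon.le] at h5
    exact X.cor_ne (by omega) h5
  · rw [add_zero, hc t le_rfl]
    exact h4

/-- **Large step lemma at a stopping time, general form.** -/
theorem step_prob_gen {δ : ℝ} {q : ℤ × ℤ → ℝ} {N : ℤ} (hD : Dec q δ N) (hI : Inv X)
    (hE : ∀ e ∈ X.E, (e.1 + e.2) % 2 = 1) {Q : ℕ → (ℕ → ℤ × ℤ) → Prop} (hQ : DEnv.Adapted Q)
    (κ : Finset (ℤ × ℤ) → Finset (ℤ × ℤ)) {r s : ℤ} (hr : 0 ≤ r) {k : ℕ}
    (hN : 4 ^ k * (r + 2) ≤ N) (hs : 4 ^ k * (r + 2) + 1 ≤ s) :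
    PrP q X.E (fun ω => GoodAt X r (κ (fresh X ω (X.tau Q ω))) ω (X.tau Q ω) ∧
        ∃ n ≤ X.len ω, X.tau Q ω ≤ n ∧
        Far s (vx (X.cor ω (X.tau Q ω))) (vx (X.cor ω n)) ∧
        ∀ t, X.tau Q ω ≤ t → t < n → plab (X.cor ω t) ∉ κ (fresh X ω (X.tau Q ω))) ≤
      2 * (1 - δ) ^ k := by
  classical
  -- the data at the stopping time only depend on the explored part
  have hseen : ∀ ω, ω ⊆ X.E → seen X ω (X.tau Q ω) = ω ∩ X.exset Q ω := by
    intro ω hω
    ext e
    unfold seen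
    rw [mem_inter, mem_inter, X.mem_metE, X.mem_exset]
    constructor
    · rintro ⟨h1, k, hk, h2⟩
      exact ⟨h1, hω h1, k, hk.2, h2⟩
    · rintro ⟨h1, -, k, hk, h2⟩
      exact ⟨h1, k, ⟨Nat.zero_le _, hk⟩, h2⟩
  have hseen' : ∀ ω ω', ω ⊆ X.E → ω' ⊆ X.E →
      seen X (mix (X.exset Q ω) ω ω') (X.tau Q (mix (X.exset Q ω) ω ω')) =
        seen X ω (X.tau Q ω) := by
    intro ω ω' hω hω'
    rw [hseen _ (mix_subset hω hω'), hseen _ hω, X.exset_mix hQ hω hω']
    ext e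
    rw [mem_inter, mem_inter, mem_mix]
    tauto
  have hcc : ∀ ω ω', ω ⊆ X.E → ω' ⊆ X.E →
      X.cor (mix (X.exset Q ω) ω ω') (X.tau Q (mix (X.exset Q ω) ω ω')) = X.cor ω (X.tau Q ω) := by
    intro ω ω' hω hω'
    obtain ⟨h1, h2⟩ := X.tau_mix hQ hω hω'
    rw [h1, h2 _ le_rfl]
  have hff : ∀ ω ω', ω ⊆ X.E → ω' ⊆ X.E →
      fresh X (mix (X.exset Q ω) ω ω') (X.tau Q (mix (X.exset Q ω) ω ω')) =
        fresh X ω (X.tau Q ω) := by
    intro ω ω' hω hω'
    rw [← sdiff_exset, ← sdiff_exset, X.exset_mix hQ hω hω']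
  have hgg : ∀ ω ω', ω ⊆ X.E → ω' ⊆ X.E →
      (GoodAt X r (κ (fresh X (mix (X.exset Q ω) ω ω') (X.tau Q (mix (X.exset Q ω) ω ω'))))
        (mix (X.exset Q ω) ω ω') (X.tau Q (mix (X.exset Q ω) ω ω')) =
      GoodAt X r (κ (fresh X ω (X.tau Q ω))) ω (X.tau Q ω)) := by
    intro ω ω' hω hω'
    unfold GoodAt
    rw [hseen' ω ω' hω hω', hcc ω ω' hω hω', hff ω ω' hω hω', (X.tau_mix hQ hω hω').1]
  have h2 : (0 : ℝ) ≤ (1 - δ) ^ k := pow_nonneg (by linarith [hD.2.2.1]) k
  set B : Finset (ℤ × ℤ) → Prop := fun ω => GoodAt X r (κ (fresh X ω (X.tau Q ω))) ω (X.tau Q ω)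
    with hBdef
  have key := X.markov_le hD.1 hQ
    (fun ω => ∃ n ≤ X.len ω, X.tau Q ω ≤ n ∧
        Far s (vx (X.cor ω (X.tau Q ω))) (vx (X.cor ω n)) ∧
        ∀ t, X.tau Q ω ≤ t → t < n → plab (X.cor ω t) ∉ κ (fresh X ω (X.tau Q ω))) B
    (fun ω η => ∀ hω : ω ⊆ X.E, ∃ n ≤ (X.after Q hQ ω hω).len η,
      Far s (vx (X.cor ω (X.tau Q ω))) (vx ((X.after Q hQ ω hω).cor η n)) ∧
      ∀ t < n, plab ((X.after Q hQ ω hω).cor η t) ∉ κ (fresh X ω (X.tau Q ω)))
    (2 * (1 - δ) ^ k) ?_ ?_ ?_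
  · refine le_trans (PrP_mono hD.1 fun ω _ h3 => ?_) (key.trans ?_)
    · exact ⟨h3.2, h3.1⟩
    · have h1 : PrP q X.E B ≤ 1 := PrP_le_one hD.1 _ _
      nlinarith
  · intro ω ω' hω hω' h
    rw [hBdef] at h ⊢
    simp only at h ⊢
    rwa [hgg ω ω' hω hω'] at h
  · intro ω hω hB
    obtain ⟨h3, a0, h4, h5, σ, h6, h7, h8⟩ := hB
    set X' := X.after Q hQ ω hω with hX'
    have hcorr : ∀ a, X'.cor ∅ a = X.cor (seen X ω (X.tau Q ω)) (X.tau Q ω + a) := by
      intro a
      have h9 := X.after_cor hQ hω (ω' := ∅) (empty_subset _) a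
      rw [empty_sdiff] at h9
      rw [hX', h9, hseen ω hω, add_comm]
      congr 1
      ext e
      rw [mem_mix, mem_inter]
      constructor
      · rintro (h | h)
        · exact h
        · exact absurd h.1 (notMem_empty _)
      · intro h
        exact Or.inl h
    have hlenr : X'.len ∅ + X.tau Q ω = X.len (seen X ω (X.tau Q ω)) := by
      have h9 := X.after_len hQ hω (ω' := ∅) (empty_subset _)
      rw [empty_sdiff] at h9
      rw [hX', h9, hseen ω hω]
      congr 1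
      ext e
      rw [mem_mix, mem_inter]
      constructor
      · rintro (h | h)
        · exact h
        · exact absurd h.1 (notMem_empty _)
      · intro h
        exact Or.inl h
    have hE' : X'.E = fresh X ω (X.tau Q ω) := by rw [hX', DEnv.after_E, sdiff_exset]
    have h9 := large_step_gen (X := X') hD (hI.after hQ hω)
      (fun e he => hE e (mem_sdiff.1 he).1) (κ := κ (fresh X ω (X.tau Q ω))) (σ := σ)
      (by rw [hE']; exact h3) (by rw [hE']; exact h6) (a0 := a0) (by omega)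
      (by rw [hcorr]; exact h8) (x := vx (X.cor ω (X.tau Q ω))) hr
      (by constructor <;> simp [hX', hr]) (fun a ha => by rw [hcorr]; exact h5 a ha) h7 hN hs
    exact (PrP_mono hD.1 fun η _ h => h hω).trans h9
  · intro ω ω' hω hω' _ hA _
    obtain ⟨n, hn, hn1, hn2, hn3⟩ := hA
    rw [hcc ω ω' hω hω'] at hn2
    rw [hff ω ω' hω hω'] at hn3
    obtain ⟨ht1, -⟩ := X.tau_mix hQ hω hω'
    have hlen := X.after_len hQ hω hω'
    rw [ht1] at hn1 hn3
    refine ⟨n - X.tau Q ω, by omega, ?_, ?_⟩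
    · rw [X.after_cor hQ hω hω', Nat.sub_add_cancel hn1]
      exact hn2
    · intro t ht
      rw [X.after_cor hQ hω hω']
      exact hn3 _ (by omega) (by omega)

/-- **Union bound over the macroscopic times, general form.** -/
theorem macro_prob_gen {δ : ℝ} {q : ℤ × ℤ → ℝ} {N : ℤ} (hD : Dec q δ N) (hI : Inv X)
    (hE : ∀ e ∈ X.E, (e.1 + e.2) % 2 = 1) (R : ℤ) (P : ℤ × ℤ → Prop)
    (κ : Finset (ℤ × ℤ) → Finset (ℤ × ℤ)) {r s : ℤ} (hr : 0 ≤ r) {k : ℕ}
    (hN : 4 ^ k * (r + 2) ≤ N) (hs : 4 ^ k * (r + 2) + 1 ≤ s) (m : ℕ) :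
    PrP q X.E (fun ω => ∃ i ≤ m, GoodAt X r (κ (fresh X ω (X.tau (MacP R P i) ω))) ω
          (X.tau (MacP R P i) ω) ∧
        ∃ n ≤ X.len ω, X.tau (MacP R P i) ω ≤ n ∧
        Far s (vx (X.cor ω (X.tau (MacP R P i) ω))) (vx (X.cor ω n)) ∧
        ∀ t, X.tau (MacP R P i) ω ≤ t → t < n →
          plab (X.cor ω t) ∉ κ (fresh X ω (X.tau (MacP R P i) ω))) ≤
      (m + 1) * (2 * (1 - δ) ^ k) := by
  have step : ∀ i, _ := fun i => step_prob_gen X hD hI hE (adapted_macP R P i) κ hr hN hs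
  induction m with
  | zero =>
    refine (PrP_mono hD.1 fun ω _ h1 => ?_).trans ((step 0).trans (by simp))
    obtain ⟨i, hi, h2⟩ := h1
    have : i = 0 := by omega
    subst this
    exact h2
  | succ m ih =>
    refine (PrP_mono hD.1 (B := fun ω => (∃ i ≤ m,
        GoodAt X r (κ (fresh X ω (X.tau (MacP R P i) ω))) ω (X.tau (MacP R P i) ω) ∧
        ∃ n ≤ X.len ω, X.tau (MacP R P i) ω ≤ n ∧
        Far s (vx (X.cor ω (X.tau (MacP R P i) ω))) (vx (X.cor ω n)) ∧
        ∀ t, X.tau (MacP R P i) ω ≤ t → t < n →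
          plab (X.cor ω t) ∉ κ (fresh X ω (X.tau (MacP R P i) ω))) ∨
        (GoodAt X r (κ (fresh X ω (X.tau (MacP R P (m + 1)) ω))) ω (X.tau (MacP R P (m + 1)) ω) ∧
        ∃ n ≤ X.len ω, X.tau (MacP R P (m + 1)) ω ≤ n ∧
        Far s (vx (X.cor ω (X.tau (MacP R P (m + 1)) ω))) (vx (X.cor ω n)) ∧
        ∀ t, X.tau (MacP R P (m + 1)) ω ≤ t → t < n →
          plab (X.cor ω t) ∉ κ (fresh X ω (X.tau (MacP R P (m + 1)) ω)))) fun ω _ h1 => ?_).trans
      ((PrP_or_le hD.1 X.E _ _).trans ?_)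
    · obtain ⟨i, hi, h2⟩ := h1
      rcases Nat.lt_or_ge m i with h4 | h4
      · have : i = m + 1 := by omega
        subst this
        exact Or.inr h2
      · exact Or.inl ⟨i, h4, h2⟩
    · have := step (m + 1)
      push_cast
      linarith

end

end Pool.Agent.H28.Q1
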