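import Mathlib
import Pool.Agent.H28.Q1.Shadow

set_option autoImplicit false
open Finset

/-! # Small steps

`S F` = labels at which a step started with fresh labels `F` ends, `κ F` = target labels of the large
step lemma. A long step gives a macroscopic time from which the path travels far without meeting the
target, or a long piece of the path on which `P` does not hold.

* `long_step` : deterministic part.
* `small_steps` : probability of a long step.
* `many_pieces` : many macroscopic times and crossings. -/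

namespace Pool.Agent.H28.Q1

open Pool.Agent.H75.Perc Pool.Agent.H75.TwoArm Pool.Agent.H75.Four Pool.Agent.H99.NC
open Pool.Agent.H69.Q1 Pool.Agent.H39.Q1
open Pool.Agent.H65.Dom hiding du_anti
open Pool.Agent.H75.TwoArm.StrandAux hiding vx_nxC

section

variable (X : DEnv)

/-- one step of the exploration moves the vertex by at most one -/
lemma near_succ (ω : Finset (ℤ × ℤ)) (t : ℕ) :
    Near 1 (vx (X.cor ω t)) (vx (X.cor ω (t + 1))) := by
  rw [X.cor_succ]
  have h := step_near (L := ω ∪ X.W) (c := X.cor ω t) (x := vx (X.cor ω t)) (r := 0)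
    ⟨by simp, by simp⟩
  simpa using h

lemma far_symm {R : ℤ} {u v : ℤ × ℤ} (h : Far R u v) : Far R v u := by
  unfold Far at h ⊢
  rw [abs_sub_comm v.1, abs_sub_comm v.2] at h
  exact h

/-- triangle inequality -/
lemma far_split {a b : ℤ} {u v w : ℤ × ℤ} (h : Far (a + b) u w) (h' : ¬ Far b v w) :
    Far a u v := by
  unfold Far at h h' ⊢
  rw [le_abs, le_abs] at h ⊢
  rw [not_or, not_le, not_le, abs_lt, abs_lt] at h'
  omega

/-- **A long step.** The path travels distance `D` between the times `a` and `n`. Then either from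
some `τ = X.tau (MacP R P i) ω` with `a < τ ≤ n` it still travels distance `s` until `n`, or a piece of
it of diameter `D1` between `a` and `n` meets no corner with `P`. -/
theorem long_step {ω : Finset (ℤ × ℤ)} {R : ℤ} (hR : 0 < R) (P : ℤ × ℤ → Prop) {a n : ℕ}
    (han : a ≤ n) (hn : n ≤ X.len ω) {D D1 s : ℤ} (hD1 : 0 ≤ D1) (hs : 0 ≤ s)
    (hD : 2 * R + D1 + s ≤ D) (hfar : Far D (vx (X.cor ω a)) (vx (X.cor ω n))) :
    (∃ i t, Mac R i t (X.cor ω) ∧ t ≤ X.tau (MacP R P i) ω ∧ t ≤ X.len ω ∧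
      a < X.tau (MacP R P i) ω ∧ X.tau (MacP R P i) ω ≤ n ∧
      P (X.cor ω (X.tau (MacP R P i) ω)) ∧
      Far s (vx (X.cor ω (X.tau (MacP R P i) ω))) (vx (X.cor ω n))) ∨
    (∃ u v, a < u ∧ u ≤ v ∧ v ≤ n ∧ Far D1 (vx (X.cor ω u)) (vx (X.cor ω v)) ∧
      ∀ w, u ≤ w → w < v → ¬ P (X.cor ω w)) := by
  classical
  obtain ⟨i, t, h1, h2, h3, -, h5⟩ := mac_in_step hR han
    (fun t _ _ => near_succ X ω t) (D := D) (by omega) hfar
  -- first time at or after `t` with `P`
  by_cases hex : ∃ w, t ≤ w ∧ w ≤ n ∧ P (X.cor ω w)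
  · set w := Nat.find hex with hw
    obtain ⟨h6, h7, h8⟩ := Nat.find_spec hex
    have hmin : ∀ w', t ≤ w' → w' < w → ¬ P (X.cor ω w') := fun w' h9 h10 h11 =>
      Nat.find_min hex h10 ⟨h9, by omega, h11⟩
    by_cases hf : Far s (vx (X.cor ω w)) (vx (X.cor ω n))
    · -- `w` is the stopping time
      have hτ : X.tau (MacP R P i) ω = w ∨ ∃ w' < w, X.cor ω w' = X.β := by
        by_cases hβ : ∃ w' < w, X.cor ω w' = X.β
        · exact Or.inr hβ
        · left
          push Not at hβ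
          apply le_antisymm
          · exact Nat.sInf_le (Or.inl ⟨⟨t, h6, h3⟩, h8⟩)
          · by_contra hcon
            push Not at hcon
            have hmem : (MacP R P i (X.tau (MacP R P i) ω) (X.cor ω)) ∨
                X.cor ω (X.tau (MacP R P i) ω) = X.β :=
              Nat.sInf_mem (s := {j | MacP R P i j (X.cor ω) ∨ X.cor ω j = X.β})
                ⟨w, Or.inl ⟨⟨t, h6, h3⟩, h8⟩⟩
            rcases hmem with ⟨⟨u, hu, hu1⟩, hu2⟩ | h9
            · have h10 := mac_unique i hu1 h3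
              subst h10
              exact hmin _ hu hcon hu2
            · exact hβ _ hcon h9
      rcases hτ with hτ | ⟨w', hw', hw2⟩
      · left
        refine ⟨i, t, h3, by rw [hτ]; exact h6, by omega, by rw [hτ]; omega,
          by rw [hτ]; exact h7, by rw [hτ]; exact h8, by rw [hτ]; exact hf⟩
      · exact absurd hw2 (X.cor_ne (by omega))
    · right
      refine ⟨t, w, h1, h6, h7, ?_, hmin⟩
      have h9 : Far (D1 + s) (vx (X.cor ω t)) (vx (X.cor ω n)) := h5.mono (by omega)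
      exact far_split h9 hf
  · right
    push Not at hex
    exact ⟨t, n, h1, h2, le_rfl, h5.mono (by omega), fun w h6 h7 => hex w h6 h7.le⟩

/-- **Small steps.** `S F` = labels which end a step started with fresh labels `F`, `κ` = target;
`A` = additional condition on the times considered (for instance: the barrier has not been met). The
probability that from some time `a` with `A` the path travels distance `D` before meeting
`S (fresh a)` is at most the sum of the probabilities that: there are more than `m` macroscopic times;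
a piece of diameter `D1` meets no corner with `P`; at some time with `P` and `A` the environment is not
good; and `(m + 1) * 2 (1-δ)^k`. -/
theorem small_steps {δ : ℝ} {q : ℤ × ℤ → ℝ} {N : ℤ} (hDec : Dec q δ N) (hI : Inv X)
    (hE : ∀ e ∈ X.E, (e.1 + e.2) % 2 = 1) {R : ℤ} (hR : 0 < R) (P : ℤ × ℤ → Prop)
    (S κ : Finset (ℤ × ℤ) → Finset (ℤ × ℤ)) (hS : ∀ F F', F' ⊆ F → κ F' ⊆ S F)
    (A : Finset (ℤ × ℤ) → ℕ → Prop)
    (hA : ∀ ω a n, ω ⊆ X.E → A ω a → a ≤ n →
      (∀ t, a ≤ t → t < n → plab (X.cor ω t) ∉ S (fresh X ω a)) → A ω n)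
    {r s D D1 : ℤ} (hr : 0 ≤ r) {k : ℕ} (hN : 4 ^ k * (r + 2) ≤ N)
    (hs : 4 ^ k * (r + 2) + 1 ≤ s) (hD1 : 0 ≤ D1) (hD : 2 * R + D1 + s ≤ D) (m : ℕ) :
    PrP q X.E (fun ω => ∃ a n, a ≤ n ∧ n ≤ X.len ω ∧ A ω a ∧
        (∀ t, a ≤ t → t < n → plab (X.cor ω t) ∉ S (fresh X ω a)) ∧
        Far D (vx (X.cor ω a)) (vx (X.cor ω n))) ≤
      PrP q X.E (fun ω => ∃ i t, m < i ∧ Mac R i t (X.cor ω) ∧ t ≤ X.len ω) +
      PrP q X.E (fun ω => ∃ u v, u ≤ v ∧ v ≤ X.len ω ∧
        Far D1 (vx (X.cor ω u)) (vx (X.cor ω v)) ∧ ∀ w, u ≤ w → w < v → ¬ P (X.cor ω w)) +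
      PrP q X.E (fun ω => ∃ t ≤ X.len ω, A ω t ∧ P (X.cor ω t) ∧
        ¬ GoodAt X r (κ (fresh X ω t)) ω t) + (m + 1) * (2 * (1 - δ) ^ k) := by
  have h4k : (1 : ℤ) ≤ 4 ^ k := one_le_pow₀ (by norm_num)
  have h0s : 0 ≤ s := by nlinarith
  have key := macro_prob_gen X hDec hI hE R P κ hr hN hs m
  set G1 : Finset (ℤ × ℤ) → Prop := fun ω => ∃ i t, m < i ∧ Mac R i t (X.cor ω) ∧ t ≤ X.len ω
    with hG1
  set G2 : Finset (ℤ × ℤ) → Prop := fun ω => ∃ u v, u ≤ v ∧ v ≤ X.len ω ∧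
        Far D1 (vx (X.cor ω u)) (vx (X.cor ω v)) ∧ ∀ w, u ≤ w → w < v → ¬ P (X.cor ω w) with hG2
  set G3 : Finset (ℤ × ℤ) → Prop := fun ω => ∃ t ≤ X.len ω, A ω t ∧ P (X.cor ω t) ∧
        ¬ GoodAt X r (κ (fresh X ω t)) ω t with hG3
  set G4 : Finset (ℤ × ℤ) → Prop := fun ω => ∃ i ≤ m,
        GoodAt X r (κ (fresh X ω (X.tau (MacP R P i) ω))) ω (X.tau (MacP R P i) ω) ∧
        ∃ n ≤ X.len ω, X.tau (MacP R P i) ω ≤ n ∧
        Far s (vx (X.cor ω (X.tau (MacP R P i) ω))) (vx (X.cor ω n)) ∧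
        ∀ t, X.tau (MacP R P i) ω ≤ t → t < n →
          plab (X.cor ω t) ∉ κ (fresh X ω (X.tau (MacP R P i) ω)) with hG4
  have hle : PrP q X.E (fun ω => ∃ a n, a ≤ n ∧ n ≤ X.len ω ∧ A ω a ∧
        (∀ t, a ≤ t → t < n → plab (X.cor ω t) ∉ S (fresh X ω a)) ∧
        Far D (vx (X.cor ω a)) (vx (X.cor ω n))) ≤
      PrP q X.E (fun ω => G1 ω ∨ (G2 ω ∨ (G3 ω ∨ G4 ω))) := by
    refine PrP_mono hDec.1 fun ω hω h => ?_
    obtain ⟨a, n, han, hn, hAa, hav, hfar⟩ := h
    rcases long_step X hR P han hn hD1 h0s hD hfar with h1 | h1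
    · obtain ⟨i, t, h2, h3, h4, h5, h6, h7, h8⟩ := h1
      set τ := X.tau (MacP R P i) ω with hτ
      by_cases him : m < i
      · exact Or.inl ⟨i, t, him, h2, h4⟩
      · right; right
        by_cases hg : GoodAt X r (κ (fresh X ω τ)) ω τ
        · right
          refine ⟨i, by omega, hg, n, hn, h6, h8, fun t' h9 h10 h11 => ?_⟩
          exact hav t' (by omega) h10 (hS _ _ (fresh_anti X (by omega)) h11)
        · left
          exact ⟨τ, by omega, hA ω a τ hω hAa h5.le (fun t' h9 h10 => hav t' h9 (by omega)), h7, hg⟩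
    · obtain ⟨u, v, h2, h3, h4, h5, h6⟩ := h1
      exact Or.inr (Or.inl ⟨u, v, h3, by omega, h5, h6⟩)
  have h1 := PrP_or_le hDec.1 X.E G1 (fun ω => G2 ω ∨ (G3 ω ∨ G4 ω))
  have h2 := PrP_or_le hDec.1 X.E G2 (fun ω => G3 ω ∨ G4 ω)
  have h3 := PrP_or_le hDec.1 X.E G3 G4
  linarith

/-- **Many macroscopic times give many crossings** of an annulus around a point of a finite set which
is dense near the path. -/
theorem many_pieces {ω : Finset (ℤ × ℤ)} {R : ℤ} (g : ℤ × ℤ → ℂ) {d r : ℝ}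
    (hg : ∀ u v, Far R u v → d ≤ dist (g v) (g u)) (T : Finset ℂ)
    (hT : ∀ j ≤ X.len ω, ∃ p ∈ T, dist (g (vx (X.cor ω j))) p ≤ r) {k : ℕ}
    (h : ∃ i t, T.card * k < i ∧ Mac R i t (X.cor ω) ∧ t ≤ X.len ω) :
    ∃ p ∈ T, ∃ a b : ℕ → ℕ, (∀ j < k, a j < b j ∧ b j ≤ X.len ω ∧
      dist (g (vx (X.cor ω (a j)))) p ≤ r ∧ d - r ≤ dist (g (vx (X.cor ω (b j)))) p) ∧
      ∀ j, j + 1 < k → b j ≤ a (j + 1) := by
  obtain ⟨i, t, h1, h2, h3⟩ := h
  exact mac_pigeon h2 h3 g hg T hT h1.le (by omega)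

end

end Pool.Agent.H28.Q1
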