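import Mathlib
import Pool.Agent.H28.Q1.InvW
import Pool.Agent.H28.Q1.Small

set_option autoImplicit false
open Finset

/-! # Environments from which the target is reached soon

* `Ok r T Y` : the tip of `Y` is joined near the tip to a set of labels of the target `T` leading to
  `vx β`, or it is in a pocket closed by a set `P` of free labels near the tip which is joined to the
  target, and in which the exploration meets far from the tip at most one type of boundary labels.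
* `ok_prob` : the exploration of an `Ok` environment meets the target before it travels far, except
  with probability `4 (1-δ)^k`.
* `envt` : the environment at a fixed time.
* `step_abs` : estimates for all environments give estimates at stopping times.
* `small_steps'` : probability of a long step. -/

namespace Pool.Agent.H28.Q1

open Pool.Agent.H75.Perc Pool.Agent.H75.TwoArm Pool.Agent.H75.Four Pool.Agent.H99.NC
open Pool.Agent.H69.Q1 Pool.Agent.H39.Q1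
open Pool.Agent.H65.Dom hiding du_anti
open Pool.Agent.H75.TwoArm.StrandAux hiding vx_nxC

/-! ### Abstract form of the estimates at stopping times -/

lemma denv_ext {X Y : DEnv} (hE : X.E = Y.E) (hW : X.W = Y.W) (hα : X.α = Y.α) (hβ : X.β = Y.β) :
    X = Y := by
  cases X
  cases Y
  simp only at hE hW hα hβ
  subst hE hW hα hβ
  rfl

/-- The exploration of `Y` travels distance `s` from `x` before it meets `T`. -/
def Esc (Y : DEnv) (T : Finset (ℤ × ℤ)) (x : ℤ × ℤ) (s : ℤ) (η : Finset (ℤ × ℤ)) : Prop :=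
  ∃ n ≤ Y.len η, Far s x (vx (Y.cor η n)) ∧ ∀ t < n, plab (Y.cor η t) ∉ T

section

variable (X : DEnv)

lemma after_mix {Q : ℕ → (ℕ → ℤ × ℤ) → Prop} (hQ : DEnv.Adapted Q) {ω ω' : Finset (ℤ × ℤ)}
    (hω : ω ⊆ X.E) (hω' : ω' ⊆ X.E) (hm : mix (X.exset Q ω) ω ω' ⊆ X.E) :
    X.after Q hQ (mix (X.exset Q ω) ω ω') hm = X.after Q hQ ω hω := by
  obtain ⟨h1, h2⟩ := X.tau_mix hQ hω hω'
  have h3 := X.exset_mix hQ hω hω'
  refine denv_ext ?_ ?_ ?_ rfl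
  · rw [DEnv.after_E, DEnv.after_E, h3]
  · rw [DEnv.after_W, DEnv.after_W, h3]
    congr 1
    ext e
    rw [mem_inter, mem_inter, mem_mix]
    tauto
  · rw [DEnv.after_α, DEnv.after_α, h1, h2 _ le_rfl]

/-- **Estimates at stopping times.** -/
theorem step_abs {q : ℤ × ℤ → ℝ} (hq : Pb q) (hI : Inv X) (hE : ∀ e ∈ X.E, (e.1 + e.2) % 2 = 1)
    {Q : ℕ → (ℕ → ℤ × ℤ) → Prop} (hQ : DEnv.Adapted Q) (G : DEnv → Prop)
    (T : DEnv → Finset (ℤ × ℤ)) (x : DEnv → ℤ × ℤ) {s : ℤ} {θ : ℝ} (h0 : 0 ≤ θ)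
    (hG : ∀ Y : DEnv, Inv Y → (∀ e ∈ Y.E, (e.1 + e.2) % 2 = 1) → G Y →
      PrP q Y.E (Esc Y (T Y) (x Y) s) ≤ θ) :
    PrP q X.E (fun ω => ∃ hω : ω ⊆ X.E, G (X.after Q hQ ω hω) ∧
      ∃ n ≤ X.len ω, X.tau Q ω ≤ n ∧ Far s (x (X.after Q hQ ω hω)) (vx (X.cor ω n)) ∧
        ∀ t, X.tau Q ω ≤ t → t < n → plab (X.cor ω t) ∉ T (X.after Q hQ ω hω)) ≤ θ := by
  classical
  set A : Finset (ℤ × ℤ) → Prop := fun ω => ∃ hω : ω ⊆ X.E,
      ∃ n ≤ X.len ω, X.tau Q ω ≤ n ∧ Far s (x (X.after Q hQ ω hω)) (vx (X.cor ω n)) ∧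
        ∀ t, X.tau Q ω ≤ t → t < n → plab (X.cor ω t) ∉ T (X.after Q hQ ω hω) with hA
  set B : Finset (ℤ × ℤ) → Prop := fun ω => ∃ hω : ω ⊆ X.E, G (X.after Q hQ ω hω) with hB
  have key := X.markov_le hq hQ A B
    (fun ω η => ∀ hω : ω ⊆ X.E, Esc (X.after Q hQ ω hω) (T (X.after Q hQ ω hω))
      (x (X.after Q hQ ω hω)) s η) θ ?_ ?_ ?_
  · refine le_trans (PrP_mono hq fun ω _ h => ?_) (key.trans ?_)
    · obtain ⟨hω, h1, h2⟩ := h
      exact ⟨⟨hω, h2⟩, ⟨hω, h1⟩⟩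
    · have h1 : PrP q X.E B ≤ 1 := PrP_le_one hq _ _
      nlinarith
  · rintro ω ω' hω hω' ⟨hm, h1⟩
    rw [after_mix X hQ hω hω' hm] at h1
    exact ⟨hω, h1⟩
  · rintro ω hω ⟨hω1, h1⟩
    have h2 := hG (X.after Q hQ ω hω) (hI.after hQ hω) (fun e he => hE e (mem_sdiff.1 he).1) h1
    exact (PrP_mono hq fun η _ h => h hω).trans h2
  · rintro ω ω' hω hω' - ⟨hm, n, hn, hn1, hn2, hn3⟩ _
    rw [after_mix X hQ hω hω' hm] at hn2 hn3
    obtain ⟨ht1, -⟩ := X.tau_mix hQ hω hω'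
    have hlen := X.after_len hQ hω hω'
    rw [ht1] at hn1 hn3
    refine ⟨n - X.tau Q ω, by omega, ?_, ?_⟩
    · rw [X.after_cor hQ hω hω', Nat.sub_add_cancel hn1]
      exact hn2
    · intro t ht
      rw [X.after_cor hQ hω hω']
      exact hn3 _ (by omega) (by omega)

end

/-! ### Environments near the target -/

section

variable (X : DEnv)

/-- the last visit of a square -/
lemma last_visit {ω : Finset (ℤ × ℤ)} {x : ℤ × ℤ} {r s : ℤ} {n : ℕ}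
    (hx : Near r x (vx X.α)) (hfar : Far (s + 1) x (vx (X.cor ω n))) (hrs : r < s + 1) :
    ∃ t0 < n, Near (r + 1) x (vx (X.cor ω (t0 + 1))) ∧
      ∀ t, t0 < t → t ≤ n → ¬ Near r x (vx (X.cor ω t)) := by
  classical
  set S := (range (n + 1)).filter fun t => Near r x (vx (X.cor ω t)) with hS
  have hSne : S.Nonempty := ⟨0, by rw [hS, mem_filter, mem_range]; exact ⟨by omega, hx⟩⟩
  obtain ⟨t0, ht0, hmax⟩ := S.exists_max_image id hSne
  rw [hS, mem_filter, mem_range] at ht0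
  have hlast : ∀ t, t0 < t → t ≤ n → ¬ Near r x (vx (X.cor ω t)) := by
    intro t h1 h2 h3
    have := hmax t (by rw [hS, mem_filter, mem_range]; exact ⟨by omega, h3⟩)
    simp only [id] at this
    omega
  have ht0n : t0 < n := by
    refine lt_of_le_of_ne (by omega) fun h => ?_
    subst h
    have h1 := ht0.2
    unfold Near at h1
    unfold Far at hfar
    omega
  refine ⟨t0, ht0n, ?_, hlast⟩
  rw [X.cor_succ]
  exact step_near ht0.2

/-- an arm from a piece of one type after the last visit -/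
lemma arm_of_last {ω : Finset (ℤ × ℤ)} {x : ℤ × ℤ} {r s : ℤ} {n : ℕ}
    (hx : Near r x (vx X.α)) (hfar : Far (s + 1) x (vx (X.cor ω n))) (hrs : r < s + 1)
    (ho : ∀ t0 < n, (∀ t, t0 < t → t ≤ n → ¬ Near r x (vx (X.cor ω t))) →
      OneType X ω (t0 + 1) n) :
    Arm x (r + 2) s ω ∨ Arm x (r + 2) s (du X.E ω) := by
  obtain ⟨t0, h0, h1, h2⟩ := last_visit X hx hfar hrs
  have := arm_of_crs X (r := r + 1) (s := s) (i := t0 + 1) (j := n) (by omega)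
    (Or.inl ⟨h1, hfar⟩) (ho t0 h0 h2)
  rwa [show r + 1 + 1 = r + 2 by ring] at this

/-- The tip is joined to the target by labels near the tip. -/
def OkG (r : ℤ) (κ : Finset (ℤ × ℤ)) (x : ℤ × ℤ) (Y : DEnv) : Prop :=
  ∃ σ ⊆ Y.E ∪ Y.W, (∀ c, plab c ∈ σ → Near r x (vx c)) ∧
    Co (σ ∪ κ) (vx Y.α) (vx Y.β)

/-- Before the exploration meets `P` it meets closed boundary labels only near `x`. -/
def LocL (r : ℤ) (P : Finset (ℤ × ℤ)) (x : ℤ × ℤ) (Y : DEnv) : Prop :=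
  ∀ η ⊆ Y.E, ∀ i < Y.len η, (∀ t ≤ i, plab (Y.cor η t) ∉ P) →
    plab (Y.cor η i) ∉ Y.E ∪ Y.W → Near r x (vx (Y.cor η i))

/-- Before the exploration meets `P` it meets wired labels only near `x`. -/
def LocA (r : ℤ) (P : Finset (ℤ × ℤ)) (x : ℤ × ℤ) (Y : DEnv) : Prop :=
  ∀ η ⊆ Y.E, ∀ i < Y.len η, (∀ t ≤ i, plab (Y.cor η t) ∉ P) →
    plab (Y.cor η i) ∈ Y.W → Near r x (vx (Y.cor η i))

/-- The tip is in a pocket closed by the set `P` of free labels near the tip, which is joined to the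
target; in the pocket, far from the tip, at most one type of boundary labels is met. -/
def OkP (r : ℤ) (κ : Finset (ℤ × ℤ)) (x : ℤ × ℤ) (Y : DEnv) : Prop :=
  ∃ P ⊆ Y.E, (∀ c, plab c ∈ P → Near r x (vx c) ∧ Co (P ∪ κ) (vx c) (vx Y.β)) ∧
    (LocL r (P ∪ κ) x Y ∨ LocA r (P ∪ κ) x Y)

/-- The target `T` is near in the environment `Y`. -/
def Ok (r : ℤ) (T : Finset (ℤ × ℤ)) (Y : DEnv) : Prop :=
  ∃ κ ⊆ T, κ ⊆ Y.E ∪ Y.W ∧ (OkG r κ (vx Y.α) Y ∨ OkP r κ (vx Y.α) Y)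

/-- **Large step**, the tip is joined to the target near `x`. -/
theorem okG_prob {δ : ℝ} {q : ℤ × ℤ → ℝ} {N : ℤ} (hD : Dec q δ N) (hI : Inv X)
    (hE : ∀ e ∈ X.E, (e.1 + e.2) % 2 = 1) {κ : Finset (ℤ × ℤ)} (hκ : κ ⊆ X.E ∪ X.W) {x : ℤ × ℤ}
    {r s : ℤ} (hG : OkG r κ x X) (hr : 0 ≤ r) (hx : Near r x (vx X.α)) {k : ℕ}
    (hN : 4 ^ k * (r + 2) ≤ N) (hs : 4 ^ k * (r + 2) + 1 ≤ s) :
    PrP q X.E (Esc X κ x s) ≤ 2 * (1 - δ) ^ k := by
  refine (PrP_mono hD.1 fun ω hω h => ?_).trans (two_arms_prob hD hE x (by omega) hN)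
  obtain ⟨n, hn, hfar, hav⟩ := h
  obtain ⟨σ, hσ, hσr, hco⟩ := hG
  have h1 : (1 : ℤ) ≤ 4 ^ k := one_le_pow₀ (by norm_num)
  refine arm_of_last X hx (hfar.mono hs) (by nlinarith) fun t0 h0 hlast => ?_
  have hP : ∀ t, t0 + 1 ≤ t → t < n → plab (X.cor ω t) ∉ σ ∪ κ := by
    intro t h2 h3
    rw [mem_union, not_or]
    exact ⟨fun h4 => hlast t (by omega) h3.le (hσr _ h4), hav t h3⟩
  unfold OneType
  by_contra hcon
  rw [not_or] at hcon
  push Not at hcon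
  obtain ⟨⟨i, hi, hi', hi2⟩, j, hj, hj', hj2⟩ := hcon
  exact hj2 (hI.one_type' hω (union_subset hσ hκ) hco hn hP hi hi' hj hj' hi2)

/-- **Large step**, the tip is in a pocket near `x`. -/
theorem okP_prob {δ : ℝ} {q : ℤ × ℤ → ℝ} {N : ℤ} (hD : Dec q δ N) (hI : Inv X)
    (hE : ∀ e ∈ X.E, (e.1 + e.2) % 2 = 1) {κ : Finset (ℤ × ℤ)} (hκ : κ ⊆ X.E ∪ X.W) {x : ℤ × ℤ}
    {r s : ℤ} (hG : OkP r κ x X) (hr : 0 ≤ r) (hx : Near r x (vx X.α)) {k : ℕ}
    (hN : 4 ^ k * (r + 2) ≤ N) (hs : 4 ^ k * (r + 2) + 1 ≤ s) :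
    PrP q X.E (Esc X κ x s) ≤ 4 * (1 - δ) ^ k := by
  classical
  obtain ⟨P, hPE, hPn, hL⟩ := hG
  have h1 : (1 : ℤ) ≤ 4 ^ k := one_le_pow₀ (by norm_num)
  have h2 : (0 : ℝ) ≤ (1 - δ) ^ k := pow_nonneg (by linarith [hD.2.2.1]) k
  set Q := DEnv.hit (fun z => plab z ∈ P) with hQdef
  have hQ : DEnv.Adapted Q := DEnv.adapted_hit _
  -- second stage: an estimate at the first label of `P`
  have key := step_abs X hD.1 hI hE hQ (fun Y => Y.β = X.β ∧ κ ⊆ Y.E ∪ Y.W ∧ OkG r κ x Y ∧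
    Near r x (vx Y.α)) (fun _ => κ) (fun _ => x) (s := s) (θ := 2 * (1 - δ) ^ k) (by positivity)
    (fun Y hY hYE hGY => okG_prob Y hD hY hYE hGY.2.1 hGY.2.2.1 hr hGY.2.2.2 hN hs)
  set B1 : Finset (ℤ × ℤ) → Prop := fun ω => Arm x (r + 2) (4 ^ k * (r + 2)) ω ∨
    Arm x (r + 2) (4 ^ k * (r + 2)) (du X.E ω) with hB1
  refine (PrP_mono hD.1 (B := fun ω => B1 ω ∨ _) fun ω hω h => ?_).trans
    ((PrP_or_le hD.1 X.E _ _).trans (le_of_le_of_eq (add_le_add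
      (two_arms_prob hD hE x (by omega) hN) key) (by ring)))
  obtain ⟨n, hn, hfar, hav⟩ := h
  by_cases hmet : ∃ t < n, plab (X.cor ω t) ∈ P
  · right
    refine ⟨hω, ?_⟩
    -- the stopping time
    obtain ⟨t1, ht1, hP1⟩ := hmet
    have hτ1 : X.tau Q ω ≤ t1 := Nat.sInf_le (Or.inl hP1)
    have hτP : plab (X.cor ω (X.tau Q ω)) ∈ P := by
      rcases X.tau_spec (Q := Q) hω with h3 | h3
      · exact h3
      · exact absurd h3 (X.cor_ne (by omega))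
    have hmin : ∀ t < X.tau Q ω, plab (X.cor ω t) ∉ P := fun t ht => (X.tau_min ht).1
    have hPafter : P ⊆ X.E \ X.exset Q ω := by
      intro e he
      rw [mem_sdiff, X.mem_exset]
      refine ⟨hPE he, ?_⟩
      rintro ⟨-, t, ht, hte⟩
      exact hmin t ht (hte ▸ he)
    refine ⟨⟨rfl, ?_, ⟨P, ?_, fun c hc => (hPn c hc).1, ?_⟩, ?_⟩, n, hn, by omega, hfar,
      fun t _ ht => hav t ht⟩
    · intro e he
      rw [DEnv.after_E, DEnv.after_W, mem_union, mem_sdiff, mem_union]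
      rcases mem_union.1 (hκ he) with h3 | h3
      · left
        refine ⟨h3, fun h4 => ?_⟩
        obtain ⟨-, t, ht, hte⟩ := X.mem_exset.1 h4
        exact hav t (by omega) (hte ▸ he)
      · exact Or.inr (Or.inl h3)
    · rw [DEnv.after_E]
      exact hPafter.trans subset_union_left
    · rw [DEnv.after_α, DEnv.after_β]
      exact (hPn _ hτP).2
    · rw [DEnv.after_α]
      exact (hPn _ hτP).1
  · left
    push Not at hmet
    refine arm_of_last X hx (hfar.mono hs) (by nlinarith) fun t0 h0 hlast => ?_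
    have hav' : ∀ i < n, ∀ t ≤ i, plab (X.cor ω t) ∉ P ∪ κ := by
      intro i hi t ht
      rw [mem_union, not_or]
      exact ⟨hmet t (by omega), hav t (by omega)⟩
    rcases hL with hL | hL
    · right
      intro t h3 h4
      by_contra hcon
      exact hlast t (by omega) h4.le (hL ω hω t (by omega) (hav' t h4) hcon)
    · left
      intro t h3 h4 hcon
      exact hlast t (by omega) h4.le (hL ω hω t (by omega) (hav' t h4) hcon)

/-- **Large step for `Ok` environments.** -/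
theorem ok_prob {δ : ℝ} {q : ℤ × ℤ → ℝ} {N : ℤ} (hD : Dec q δ N) (hI : Inv X)
    (hE : ∀ e ∈ X.E, (e.1 + e.2) % 2 = 1) {T : Finset (ℤ × ℤ)}
    {r s : ℤ} (hG : Ok r T X) (hr : 0 ≤ r) {k : ℕ}
    (hN : 4 ^ k * (r + 2) ≤ N) (hs : 4 ^ k * (r + 2) + 1 ≤ s) :
    PrP q X.E (Esc X T (vx X.α) s) ≤ 4 * (1 - δ) ^ k := by
  obtain ⟨κ, hκT, hκ, hG⟩ := hG
  have h2 : (0 : ℝ) ≤ (1 - δ) ^ k := pow_nonneg (by linarith [hD.2.2.1]) k
  have hx : Near r (vx X.α) (vx X.α) := by constructor <;> simp [hr]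
  have hmono : PrP q X.E (Esc X T (vx X.α) s) ≤ PrP q X.E (Esc X κ (vx X.α) s) := by
    refine PrP_mono hD.1 fun ω _ h => ?_
    obtain ⟨n, h3, h4, h5⟩ := h
    exact ⟨n, h3, h4, fun t ht h6 => h5 t ht (hκT h6)⟩
  refine hmono.trans ?_
  rcases hG with hG | hG
  · have := okG_prob X hD hI hE hκ hG hr hx hN hs
    linarith
  · exact okP_prob X hD hI hE hκ hG hr hx hN hs

end

/-! ### The environment at a fixed time -/

section

variable (X : DEnv)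

/-- The environment at the time `t`. -/
noncomputable def envt (ω : Finset (ℤ × ℤ)) (hω : ω ⊆ X.E) (t : ℕ) : DEnv :=
  X.after (DEnv.steps t) (DEnv.adapted_steps t) ω hω

variable {X}

lemma tau_steps {ω : Finset (ℤ × ℤ)} {t : ℕ} (ht : t ≤ X.len ω) (hω : ω ⊆ X.E) :
    X.tau (DEnv.steps t) ω = t := by
  apply le_antisymm (Nat.sInf_le (Or.inl rfl))
  rcases X.tau_spec (Q := DEnv.steps t) hω with h | h
  · exact h.ge
  · by_contra hcon
    push Not at hcon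
    exact X.cor_ne (lt_of_lt_of_le hcon ht) h

lemma envt_E {ω : Finset (ℤ × ℤ)} {t : ℕ} (ht : t ≤ X.len ω) (hω : ω ⊆ X.E) :
    (envt X ω hω t).E = fresh X ω t := by
  unfold envt
  rw [DEnv.after_E, sdiff_exset, tau_steps ht hω]

lemma envt_W {ω : Finset (ℤ × ℤ)} {t : ℕ} (ht : t ≤ X.len ω) (hω : ω ⊆ X.E) :
    (envt X ω hω t).W = X.W ∪ seen X ω t := by
  unfold envt seen
  rw [DEnv.after_W]
  congr 1
  ext e
  rw [mem_inter, mem_inter, X.mem_exset, X.mem_metE, tau_steps ht hω]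
  constructor
  · rintro ⟨h1, -, k, hk, h2⟩
    exact ⟨h1, k, ⟨Nat.zero_le _, hk⟩, h2⟩
  · rintro ⟨h1, k, hk, h2⟩
    exact ⟨h1, hω h1, k, hk.2, h2⟩

lemma envt_α {ω : Finset (ℤ × ℤ)} {t : ℕ} (ht : t ≤ X.len ω) (hω : ω ⊆ X.E) :
    (envt X ω hω t).α = X.cor ω t := by
  unfold envt
  rw [DEnv.after_α, tau_steps ht hω]

lemma envt_β {ω : Finset (ℤ × ℤ)} {t : ℕ} (hω : ω ⊆ X.E) : (envt X ω hω t).β = X.β := rfl

lemma after_eq_envt {Q : ℕ → (ℕ → ℤ × ℤ) → Prop} (hQ : DEnv.Adapted Q) {ω : Finset (ℤ × ℤ)}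
    (hω : ω ⊆ X.E) : X.after Q hQ ω hω = envt X ω hω (X.tau Q ω) := by
  have ht := X.tau_le_len (Q := Q) hω
  refine denv_ext ?_ ?_ ?_ rfl
  · rw [DEnv.after_E, envt_E ht hω, sdiff_exset]
  · rw [DEnv.after_W, envt_W ht hω]
    congr 1
    unfold seen
    ext e
    rw [mem_inter, mem_inter, X.mem_exset, X.mem_metE]
    constructor
    · rintro ⟨h1, -, k, hk, h2⟩
      exact ⟨h1, k, ⟨Nat.zero_le _, hk⟩, h2⟩
    · rintro ⟨h1, k, hk, h2⟩
      exact ⟨h1, hω h1, k, hk.2, h2⟩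
  · rw [DEnv.after_α, envt_α ht hω]

end

/-! ### Small steps -/

section

variable (X : DEnv)

/-- the stopping time of the `i`-th macroscopic time -/
lemma tau_mac {R : ℤ} {i t : ℕ} {ω : Finset (ℤ × ℤ)} (hω : ω ⊆ X.E) (h : Mac R i t (X.cor ω))
    (ht : t ≤ X.len ω) : X.tau (fun t z => Mac R i t z) ω = t := by
  apply le_antisymm (Nat.sInf_le (Or.inl h))
  rcases X.tau_spec (Q := fun t z => Mac R i t z) hω with h1 | h1
  · exact (mac_unique i h1 h).ge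
  · by_contra hcon
    push Not at hcon
    exact X.cor_ne (lt_of_lt_of_le hcon ht) h1

/-- **Estimates at the first macroscopic times.** -/
theorem macro_abs {q : ℤ × ℤ → ℝ} (hq : Pb q) (hI : Inv X) (hE : ∀ e ∈ X.E, (e.1 + e.2) % 2 = 1)
    (R : ℤ) (G : DEnv → Prop) (T : DEnv → Finset (ℤ × ℤ)) (x : DEnv → ℤ × ℤ) {s : ℤ} {θ : ℝ}
    (h0 : 0 ≤ θ) (hG : ∀ Y : DEnv, Inv Y → (∀ e ∈ Y.E, (e.1 + e.2) % 2 = 1) → G Y →
      PrP q Y.E (Esc Y (T Y) (x Y) s) ≤ θ) (m : ℕ) :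
    PrP q X.E (fun ω => ∃ hω : ω ⊆ X.E, ∃ i ≤ m, ∃ t ≤ X.len ω, Mac R i t (X.cor ω) ∧
      G (envt X ω hω t) ∧ ∃ n ≤ X.len ω, t ≤ n ∧ Far s (x (envt X ω hω t)) (vx (X.cor ω n)) ∧
        ∀ u, t ≤ u → u < n → plab (X.cor ω u) ∉ T (envt X ω hω t)) ≤ (m + 1) * θ := by
  have step : ∀ i, PrP q X.E (fun ω => ∃ hω : ω ⊆ X.E, ∃ t ≤ X.len ω, Mac R i t (X.cor ω) ∧
      G (envt X ω hω t) ∧ ∃ n ≤ X.len ω, t ≤ n ∧ Far s (x (envt X ω hω t)) (vx (X.cor ω n)) ∧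
        ∀ u, t ≤ u → u < n → plab (X.cor ω u) ∉ T (envt X ω hω t)) ≤ θ := by
    intro i
    refine (PrP_mono hq fun ω _ h => ?_).trans
      (step_abs X hq hI hE (adapted_mac R i) G T x h0 hG)
    obtain ⟨hω, t, ht, hM, h1, n, h2, h3, h4, h5⟩ := h
    have h6 := tau_mac X hω hM ht
    refine ⟨hω, ?_, n, h2, by rw [h6]; exact h3, ?_, ?_⟩
    · rw [after_eq_envt, h6]; exact h1
    · rw [after_eq_envt, h6]; exact h4
    · rw [after_eq_envt, h6]; exact h5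
  induction m with
  | zero =>
    refine (PrP_mono hq fun ω _ h => ?_).trans ((step 0).trans (by simp))
    obtain ⟨hω, i, hi, h1⟩ := h
    obtain rfl : i = 0 := by omega
    exact ⟨hω, h1⟩
  | succ m ih =>
    refine (PrP_mono hq (B := fun ω => (∃ hω : ω ⊆ X.E, ∃ i ≤ m, ∃ t ≤ X.len ω,
      Mac R i t (X.cor ω) ∧ G (envt X ω hω t) ∧
      ∃ n ≤ X.len ω, t ≤ n ∧ Far s (x (envt X ω hω t)) (vx (X.cor ω n)) ∧
        ∀ u, t ≤ u → u < n → plab (X.cor ω u) ∉ T (envt X ω hω t)) ∨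
      (∃ hω : ω ⊆ X.E, ∃ t ≤ X.len ω, Mac R (m + 1) t (X.cor ω) ∧
      G (envt X ω hω t) ∧ ∃ n ≤ X.len ω, t ≤ n ∧ Far s (x (envt X ω hω t)) (vx (X.cor ω n)) ∧
        ∀ u, t ≤ u → u < n → plab (X.cor ω u) ∉ T (envt X ω hω t))) fun ω _ h => ?_).trans
      ((PrP_or_le hq X.E _ _).trans ?_)
    · obtain ⟨hω, i, hi, h1⟩ := h
      rcases Nat.lt_or_ge m i with h4 | h4
      · obtain rfl : i = m + 1 := by omega
        exact Or.inr ⟨hω, h1⟩
      · exact Or.inl ⟨hω, i, h4, h1⟩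
    · have := step (m + 1)
      push_cast
      linarith

/-- **Small steps.** `T F` = labels which end a step started with the free labels `F`, `G` =
environments for which the estimate of probability `θ` holds, `A ω t` = additional condition.
If the exploration travels distance `D ≥ 2 R + s` from a time `a` with `A` before it meets
`T (fresh a)` then there are more than `m` macroscopic times, or one of the first `m` ones has `A` and
an environment without `G`, or an event of probability `(m + 1) θ` happens. -/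
theorem small_steps' {q : ℤ × ℤ → ℝ} (hq : Pb q) (hI : Inv X)
    (hE : ∀ e ∈ X.E, (e.1 + e.2) % 2 = 1) {R : ℤ} (hR : 0 < R)
    (T : Finset (ℤ × ℤ) → Finset (ℤ × ℤ)) (hT : ∀ F F', F' ⊆ F → T F' ⊆ T F)
    (G : DEnv → Prop) {s : ℤ} (hs : 0 ≤ s) {θ : ℝ} (h0 : 0 ≤ θ)
    (hG : ∀ Y : DEnv, Inv Y → (∀ e ∈ Y.E, (e.1 + e.2) % 2 = 1) → G Y →
      PrP q Y.E (Esc Y (T Y.E) (vx Y.α) s) ≤ θ)
    (A : Finset (ℤ × ℤ) → ℕ → Prop)
    (hA : ∀ ω a n, ω ⊆ X.E → A ω a → a ≤ n →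
      (∀ t, a ≤ t → t < n → plab (X.cor ω t) ∉ T (fresh X ω a)) → A ω n)
    {D : ℤ} (hD : 2 * R + s ≤ D) (m : ℕ) :
    PrP q X.E (fun ω => ∃ a n, a ≤ n ∧ n ≤ X.len ω ∧ A ω a ∧
        (∀ t, a ≤ t → t < n → plab (X.cor ω t) ∉ T (fresh X ω a)) ∧
        Far D (vx (X.cor ω a)) (vx (X.cor ω n))) ≤
      PrP q X.E (fun ω => ∃ i t, m < i ∧ Mac R i t (X.cor ω) ∧ t ≤ X.len ω) +
      PrP q X.E (fun ω => ∃ hω : ω ⊆ X.E, ∃ i ≤ m, ∃ t ≤ X.len ω, Mac R i t (X.cor ω) ∧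
        A ω t ∧ ¬ G (envt X ω hω t)) + (m + 1) * θ := by
  have key := macro_abs X hq hI hE R G (fun Y => T Y.E) (fun Y => vx Y.α) h0 hG m
  refine (PrP_mono hq (B := fun ω => (∃ i t, m < i ∧ Mac R i t (X.cor ω) ∧ t ≤ X.len ω) ∨
    ((∃ hω : ω ⊆ X.E, ∃ i ≤ m, ∃ t ≤ X.len ω, Mac R i t (X.cor ω) ∧
        A ω t ∧ ¬ G (envt X ω hω t)) ∨
    (∃ hω : ω ⊆ X.E, ∃ i ≤ m, ∃ t ≤ X.len ω, Mac R i t (X.cor ω) ∧
      G (envt X ω hω t) ∧ ∃ n ≤ X.len ω, t ≤ n ∧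
        Far s (vx (envt X ω hω t).α) (vx (X.cor ω n)) ∧
        ∀ u, t ≤ u → u < n → plab (X.cor ω u) ∉ T (envt X ω hω t).E))) fun ω hω h => ?_).trans ?_
  · obtain ⟨a, n, han, hn, hAa, hav, hfar⟩ := h
    obtain ⟨i, t, h1, h2, h3, -, h5⟩ := mac_in_step hR han
      (fun t _ _ => near_succ X ω t) (D := D) (by omega) hfar
    by_cases him : m < i
    · exact Or.inl ⟨i, t, him, h3, by omega⟩
    · right
      have ht : t ≤ X.len ω := by omega
      have hAt : A ω t := hA ω a t hω hAa h1.le fun u h6 h7 => hav u h6 (by omega)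
      by_cases hg : G (envt X ω hω t)
      · right
        refine ⟨hω, i, by omega, t, ht, h3, hg, n, hn, h2, ?_, fun u h6 h7 h8 => ?_⟩
        · rw [envt_α ht hω]
          exact h5.mono (by omega)
        · rw [envt_E ht hω] at h8
          exact hav u (by omega) h7 (hT _ _ (fresh_anti X h1.le) h8)
      · left
        exact ⟨hω, i, by omega, t, ht, h3, hAt, hg⟩
  · have h1 := PrP_or_le hq X.E (fun ω => ∃ i t, m < i ∧ Mac R i t (X.cor ω) ∧ t ≤ X.len ω)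
      (fun ω => (∃ hω : ω ⊆ X.E, ∃ i ≤ m, ∃ t ≤ X.len ω, Mac R i t (X.cor ω) ∧
        A ω t ∧ ¬ G (envt X ω hω t)) ∨
      (∃ hω : ω ⊆ X.E, ∃ i ≤ m, ∃ t ≤ X.len ω, Mac R i t (X.cor ω) ∧
      G (envt X ω hω t) ∧ ∃ n ≤ X.len ω, t ≤ n ∧
        Far s (vx (envt X ω hω t).α) (vx (X.cor ω n)) ∧
        ∀ u, t ≤ u → u < n → plab (X.cor ω u) ∉ T (envt X ω hω t).E))
    have h2 := PrP_or_le hq X.E (fun ω => ∃ hω : ω ⊆ X.E, ∃ i ≤ m, ∃ t ≤ X.len ω,
        Mac R i t (X.cor ω) ∧ A ω t ∧ ¬ G (envt X ω hω t))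
      (fun ω => ∃ hω : ω ⊆ X.E, ∃ i ≤ m, ∃ t ≤ X.len ω, Mac R i t (X.cor ω) ∧
      G (envt X ω hω t) ∧ ∃ n ≤ X.len ω, t ≤ n ∧
        Far s (vx (envt X ω hω t).α) (vx (X.cor ω n)) ∧
        ∀ u, t ≤ u → u < n → plab (X.cor ω u) ∉ T (envt X ω hω t).E)
    linarith

end

end Pool.Agent.H28.Q1
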