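import Mathlib
import Pool.Agent.H28.Q1.Bulk
import Pool.Agent.H28.Q1.OneN
import Pool.Agent.H28.Q1.StepOk

set_option autoImplicit false
open Set Filter Topology

/-! # The exploration path stays near `b` once it has come near `b`

`ret_b` : for `ε, θ > 0` there is `r > 0` such that the probability that the exploration path comes
within distance `r` of `b` and later goes to distance `ε` is at most `θ`, along every approximating
sequence. -/

namespace Pool.Agent.H28.Q1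

open Pool.Agent.H81.Q1
open Pool.Agent.H69.Q1 (lb EL WL mem_EL mem_WL edges_sub arc_sub free_sub cor_injective plab_cor
  corner_edge_mem lb_injOn vx_cor cor_surjective odd_EL DEnv adj_iff_isUnit lb_mk)
open Pool.Agent.H75.Perc (pv Pr vx IsUnit4 Co unit_cases lab isUnit4_neg)
open Pool.Agent.H75.TwoArm (plab fi)
open Pool.Agent.H99.NC (PrP PrP_half PrP_mono)
open Pool.Agent.H75.Perc (mix mem_mix)
open Pool.Agent.H65.Dom (Dec dec_half Arm)

/-! ### One type after a given time -/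

section

variable {X : DEnv}

lemma mix_self (U ω : Finset (ℤ × ℤ)) : mix U ω ω = ω := by
  ext e
  rw [mem_mix]
  tauto

lemma envt_cor {ω : Finset (ℤ × ℤ)} (hω : ω ⊆ X.E) {t : ℕ} (ht : t ≤ X.len ω) (i : ℕ) :
    (envt X ω hω t).cor (ω \ X.exset (DEnv.steps t) ω) i = X.cor ω (i + t) := by
  have h := X.after_cor (DEnv.adapted_steps t) hω hω i
  rw [mix_self, tau_steps ht hω] at h
  exact h

lemma envt_len {ω : Finset (ℤ × ℤ)} (hω : ω ⊆ X.E) {t : ℕ} (ht : t ≤ X.len ω) :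
    (envt X ω hω t).len (ω \ X.exset (DEnv.steps t) ω) + t = X.len ω := by
  have h := X.after_len (DEnv.adapted_steps t) hω hω
  rw [mix_self, tau_steps ht hω] at h
  exact h

/-- **One type after the time `t0`.** A set `P` of free and wired labels which is not met before `t0`
joins the vertices at the times `t0` and `n`. A piece of the path between `t0` and `n` which meets no
label of `P` does not meet both a wired label and a closed boundary label. -/
theorem Inv.one_type_t0 (hI : Inv X) {ω P : Finset (ℤ × ℤ)} (hω : ω ⊆ X.E) (hP : P ⊆ X.E ∪ X.W)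
    {t0 n : ℕ} (hn : n ≤ X.len ω) (h0 : ∀ t < t0, plab (X.cor ω t) ∉ P)
    (hco : Co P (vx (X.cor ω t0)) (vx (X.cor ω n))) {i0 j0 : ℕ} (hi0 : t0 ≤ i0) (hj0 : j0 ≤ n)
    (hav : ∀ t, i0 ≤ t → t < j0 → plab (X.cor ω t) ∉ P)
    {i j : ℕ} (hi : i0 ≤ i) (hi' : i < j0) (hj : i0 ≤ j) (hj' : j < j0)
    (hiW : plab (X.cor ω i) ∈ X.W) :
    plab (X.cor ω j) ∈ X.E ∪ X.W := by
  have ht0 : t0 ≤ X.len ω := by omega
  set X' := envt X ω hω t0 with hX'
  set ω' := ω \ X.exset (DEnv.steps t0) ω with hω'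
  have hI' : Inv X' := hI.after (DEnv.adapted_steps t0) hω
  have hsub : ω' ⊆ X'.E := Finset.sdiff_subset_sdiff hω (Finset.Subset.refl _)
  have hcor : ∀ i, X'.cor ω' i = X.cor ω (i + t0) := fun i => envt_cor hω ht0 i
  have hlen : X'.len ω' + t0 = X.len ω := envt_len hω ht0
  have hEE : X'.E = fresh X ω t0 := envt_E ht0 hω
  have hWW : X'.W = X.W ∪ seen X ω t0 := envt_W ht0 hω
  have hPE : P ⊆ X'.E ∪ X'.W := by
    intro e he
    rw [Finset.mem_union, hEE, hWW, mem_fresh, Finset.mem_union]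
    rcases Finset.mem_union.1 (hP he) with h | h
    · exact Or.inl ⟨h, fun k hk h1 => h0 k hk (h1 ▸ he)⟩
    · exact Or.inr (Or.inl h)
  have key := hI'.one_type_n (P := P) hsub hPE (n := n - t0) (by omega)
    (by
      rw [hcor, Nat.sub_add_cancel (by omega)]
      have : X'.α = X.cor ω t0 := envt_α ht0 hω
      rw [this]
      exact hco) (i0 := i0 - t0) (j0 := j0 - t0) (by omega)
    (fun t h1 h2 => by rw [hcor]; exact hav _ (by omega) (by omega))
    (i := i - t0) (j := j - t0) (by omega) (by omega) (by omega) (by omega)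
    (by rw [hcor, Nat.sub_add_cancel (by omega), hWW]; exact Finset.mem_union_left _ hiW)
  rw [hcor, Nat.sub_add_cancel (by omega), hEE, hWW, Finset.mem_union, mem_fresh,
    Finset.mem_union] at key
  rw [Finset.mem_union]
  rcases key with h | h | h
  · exact Or.inl h.1
  · exact Or.inr h
  · exact Or.inl (hω (Finset.mem_inter.1 h).1)

end

/-! ### Lattice paths along a compact connected set -/

lemma vx_end {u v c : ℤ × ℤ} (h : IsUnit4 (v - u)) (he : u + v = plab c) :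
    vx c = u ∨ vx c = v := by
  have h1 := unit_cases h
  obtain ⟨u1, u2⟩ := u
  obtain ⟨v1, v2⟩ := v
  unfold vx
  rcases Pool.Agent.H57.Q1.pr_cases c with ⟨h2, h3, h4, -⟩ | ⟨h2, h3, h4, -⟩ | ⟨h2, h3, h4, -⟩ |
    ⟨h2, h3, h4, -⟩ <;> rw [h4] at he <;>
    simp only [Prod.ext_iff, Prod.fst_add, Prod.snd_add] at he h1 ⊢ <;> omega

lemma exists_end (c : ℤ × ℤ) : ∃ w, IsUnit4 (w - vx c) ∧ vx c + w = plab c := by
  refine ⟨plab c - vx c, ?_, by abel⟩
  unfold vx IsUnit4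
  rcases Pool.Agent.H57.Q1.pr_cases c with ⟨h2, h3, h4, -⟩ | ⟨h2, h3, h4, -⟩ | ⟨h2, h3, h4, -⟩ |
    ⟨h2, h3, h4, -⟩ <;> rw [h4] <;>
    simp only [Prod.ext_iff, Prod.fst_sub, Prod.snd_sub] <;> omega

lemma dist_unit {δ : ℝ} (hδ : 0 < δ) {u v : ℤ × ℤ} (h : IsUnit4 (v - u)) :
    dist (pt δ u) (pt δ v) ≤ 2 * δ := by
  refine dist_pt_of_near hδ ?_
  have := unit_cases h
  unfold Near
  rw [abs_le, abs_le]
  omega

/-- the labels of the edges of `X` with both ends in `K` -/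
noncomputable def PK (X : DDomain) (δ : ℝ) (K : Set ℂ) : Finset (ℤ × ℤ) :=
  open Classical in
  (EL X ∪ WL X).filter fun e => ∃ u v : ℤ × ℤ, IsUnit4 (v - u) ∧ u + v = e ∧ pt δ u ∈ K ∧ pt δ v ∈ K

lemma mem_PK {X : DDomain} {δ : ℝ} {K : Set ℂ} {e : ℤ × ℤ} : e ∈ PK X δ K ↔
    e ∈ EL X ∪ WL X ∧ ∃ u v : ℤ × ℤ, IsUnit4 (v - u) ∧ u + v = e ∧ pt δ u ∈ K ∧ pt δ v ∈ K := by
  classical
  unfold PK
  exact Finset.mem_filter

lemma step_mem_PK {X : DDomain} {K : Set ℂ} {δ : ℝ} (hfill : edges {v | pt δ v ∈ K} ⊆ X.E)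
    {u v : ℤ × ℤ} (h : IsUnit4 (v - u)) (hu : pt δ u ∈ K) (hv : pt δ v ∈ K) :
    u + v ∈ PK X δ K := by
  rw [mem_PK]
  refine ⟨?_, u, v, h, rfl, hu, hv⟩
  have h1 : s(u, v) ∈ X.E := by
    refine hfill ⟨?_, ?_⟩
    · refine adj_iff_isUnit.2 ?_
      have := unit_cases h
      simp only [Prod.ext_iff, Prod.fst_add, Prod.snd_add]
      omega
    · intro w hw
      rw [Sym2.mem_iff] at hw
      rcases hw with rfl | rfl
      · exact hu
      · exact hv
  rw [Finset.mem_union, mem_EL, mem_WL]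
  by_cases ha : s(u, v) ∈ X.arc
  · exact Or.inr ⟨_, ha, rfl⟩
  · exact Or.inl ⟨_, ⟨h1, ha⟩, rfl⟩

/-- lattice vertices near two close points are joined -/
lemma co_PK_near {X : DDomain} {K : Set ℂ} {δ : ℝ} (hfill : edges {v | pt δ v ∈ K} ⊆ X.E)
    {u v : ℤ × ℤ} (h1 : |v.1 - u.1| ≤ 1) (h2 : |v.2 - u.2| ≤ 1) (hu : pt δ u ∈ K)
    (hv : pt δ v ∈ K) (hw : pt δ (v.1, u.2) ∈ K) : Co (PK X δ K) u v := by
  have e1 : Co (PK X δ K) u (v.1, u.2) := by
    by_cases h : v.1 = u.1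
    · rw [h]; exact Relation.ReflTransGen.refl
    · have hs : IsUnit4 ((v.1, u.2) - u) := by
        unfold IsUnit4
        rw [abs_le] at h1
        simp only [Prod.ext_iff, Prod.fst_sub, Prod.snd_sub]
        omega
      exact Relation.ReflTransGen.single ⟨hs, step_mem_PK hfill hs hu hw⟩
  have e2 : Co (PK X δ K) (v.1, u.2) v := by
    by_cases h : v.2 = u.2
    · rw [← h]; exact Relation.ReflTransGen.refl
    · have hs : IsUnit4 (v - (v.1, u.2)) := by
        unfold IsUnit4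
        rw [abs_le] at h2
        simp only [Prod.ext_iff, Prod.fst_sub, Prod.snd_sub]
        omega
      exact Relation.ReflTransGen.single ⟨hs, step_mem_PK hfill hs hw hv⟩
  exact e1.trans e2

lemma dist_of_coords {δ : ℝ} (hδ : 0 < δ) {w : ℤ × ℤ} {x : ℂ} (h1 : |(w.1 : ℝ) - x.re / δ| ≤ 2)
    (h2 : |(w.2 : ℝ) - x.im / δ| ≤ 2) : dist (pt δ w) x ≤ 4 * δ := by
  have k3 : |(pt δ w - x).re| ≤ δ * 2 := by
    have : (pt δ w - x).re = δ * ((w.1 : ℝ) - x.re / δ) := by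
      simp only [pt, Complex.sub_re]; field_simp
    rw [this, abs_mul, abs_of_pos hδ]
    exact mul_le_mul_of_nonneg_left h1 hδ.le
  have k4 : |(pt δ w - x).im| ≤ δ * 2 := by
    have : (pt δ w - x).im = δ * ((w.2 : ℝ) - x.im / δ) := by
      simp only [pt, Complex.sub_im]; field_simp
    rw [this, abs_mul, abs_of_pos hδ]
    exact mul_le_mul_of_nonneg_left h2 hδ.le
  rw [dist_eq_norm]
  have := (Complex.norm_le_abs_re_add_abs_im (pt δ w - x)).trans (add_le_add k3 k4)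
  linarith

/-- **Lattice paths along a connected set.** -/
lemma co_PK_conn {X : DDomain} {K0 : Set ℂ} (hK : IsPreconnected K0) {η δ : ℝ} (hδ : 0 < δ)
    (hη : 4 * δ ≤ η) (hfill : edges {v | pt δ v ∈ Metric.cthickening η K0} ⊆ X.E) {x y : ℂ}
    (hx : x ∈ K0) (hy : y ∈ K0) : Co (PK X δ (Metric.cthickening η K0)) (ctr δ x) (ctr δ y) := by
  have hin : ∀ z ∈ K0, ∀ w : ℤ × ℤ, |(w.1 : ℝ) - z.re / δ| ≤ 2 → |(w.2 : ℝ) - z.im / δ| ≤ 2 →
      pt δ w ∈ Metric.cthickening η K0 := by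
    intro z hz w h1 h2
    exact Metric.mem_cthickening_of_dist_le _ z _ _ hz ((dist_of_coords hδ h1 h2).trans hη)
  refine hK.induction₂ (fun x y => Co (PK X δ (Metric.cthickening η K0)) (ctr δ x) (ctr δ y))
    ?_ (fun _ _ _ _ _ _ h h' => h.trans h') (fun _ _ _ _ h => h.symm) hx hy
  intro z hz
  have hball : Metric.ball z δ ∈ 𝓝[K0] z := mem_nhdsWithin_of_mem_nhds (Metric.ball_mem_nhds z hδ)
  filter_upwards [hball, self_mem_nhdsWithin] with w hw hwK
  rw [Metric.mem_ball] at hw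
  have hre : |w.re / δ - z.re / δ| < 1 := by
    rw [← sub_div, abs_div, abs_of_pos hδ, div_lt_one hδ]
    have := Complex.abs_re_le_norm (w - z)
    rw [Complex.sub_re, ← dist_eq_norm] at this
    linarith
  have him : |w.im / δ - z.im / δ| < 1 := by
    rw [← sub_div, abs_div, abs_of_pos hδ, div_lt_one hδ]
    have := Complex.abs_im_le_norm (w - z)
    rw [Complex.sub_im, ← dist_eq_norm] at this
    linarith
  have hfl : ∀ s t : ℝ, |s - t| < 1 → |(⌊s⌋ : ℤ) - (⌊t⌋ : ℤ)| ≤ 1 := by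
    intro s t h
    have e1 := Int.floor_le s
    have e2 := Int.lt_floor_add_one s
    have e3 := Int.floor_le t
    have e4 := Int.lt_floor_add_one t
    rw [abs_lt] at h
    have h1 : ((⌊s⌋ : ℤ) : ℝ) - (⌊t⌋ : ℤ) < 2 := by linarith
    have h2 : (-2 : ℝ) < ((⌊s⌋ : ℤ) : ℝ) - (⌊t⌋ : ℤ) := by linarith
    have h1' : (⌊s⌋ : ℤ) - (⌊t⌋ : ℤ) < 2 := by exact_mod_cast h1
    have h2' : -2 < (⌊s⌋ : ℤ) - (⌊t⌋ : ℤ) := by exact_mod_cast h2
    rw [abs_le]
    omega
  have hfl0 : ∀ s : ℝ, |((⌊s⌋ : ℤ) : ℝ) - s| ≤ 2 := by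
    intro s
    have e1 := Int.floor_le s
    have e2 := Int.lt_floor_add_one s
    rw [abs_le]
    constructor <;> linarith
  have hfl1 : ∀ s t : ℝ, |s - t| < 1 → |((⌊s⌋ : ℤ) : ℝ) - t| ≤ 2 := by
    intro s t h
    have e1 := Int.floor_le s
    have e2 := Int.lt_floor_add_one s
    rw [abs_lt] at h
    rw [abs_le]
    constructor <;> linarith
  refine co_PK_near hfill (hfl _ _ hre) (hfl _ _ him) ?_ ?_ ?_
  · exact hin z hz _ (hfl0 _) (hfl0 _)
  · exact hin w hwK _ (hfl0 _) (hfl0 _)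
  · exact hin z hz _ (hfl1 _ _ hre) (hfl0 _)

/-- the labels of `P` joined to `z` by `P` -/
noncomputable def Pc (P : Finset (ℤ × ℤ)) (z : ℤ × ℤ) : Finset (ℤ × ℤ) :=
  open Classical in
  P.filter fun e => ∃ u v : ℤ × ℤ, IsUnit4 (v - u) ∧ u + v = e ∧ Co P z u

lemma mem_Pc {P : Finset (ℤ × ℤ)} {z e : ℤ × ℤ} : e ∈ Pc P z ↔
    e ∈ P ∧ ∃ u v : ℤ × ℤ, IsUnit4 (v - u) ∧ u + v = e ∧ Co P z u := by
  classical
  unfold Pc
  exact Finset.mem_filter

lemma co_Pc {P : Finset (ℤ × ℤ)} {z w : ℤ × ℤ} (h : Co P z w) : Co (Pc P z) z w := by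
  induction h with
  | refl => exact Relation.ReflTransGen.refl
  | @tail b c hb hbc ih =>
    exact ih.tail ⟨hbc.1, mem_Pc.2 ⟨hbc.2, b, c, hbc.1, rfl, hb⟩⟩

lemma co_Pc_vx {P : Finset (ℤ × ℤ)} {z c : ℤ × ℤ} (h : plab c ∈ Pc P z) :
    Co (Pc P z) z (vx c) := by
  obtain ⟨h1, u, v, h2, h3, h4⟩ := mem_Pc.1 h
  rcases vx_end h2 h3 with h5 | h5
  · rw [h5]; exact co_Pc h4
  · rw [h5]
    exact co_Pc (h4.tail ⟨h2, by rw [h3]; exact h1⟩)

lemma ctr_pt {δ : ℝ} (hδ : 0 < δ) (v : ℤ × ℤ) : ctr δ (pt δ v) = v := by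
  unfold ctr pt
  simp only
  rw [mul_div_cancel_left₀ _ hδ.ne', mul_div_cancel_left₀ _ hδ.ne', Int.floor_intCast,
    Int.floor_intCast]

/-! ### The return lemma -/

/-- **The exploration path stays near `b`.** -/
theorem ret_b {D : Set ℂ} {a b : ℂ} {A₁ A₂ : Set ℂ} (hDo : IsOpen D) (hDc : IsConnected D)
    (hDb : Bornology.IsBounded D) (hA : IsArcs D a b A₁ A₂) (A : Approx D a b A₁ A₂)
    (hab : a ≠ b) {ε θ : ℝ} (hε : 0 < ε) (hθ : 0 < θ) :
    ∃ r > 0, ∀ᶠ n in atTop, Pr (EL (A.X n)) (fun S => ∃ t1 t2, t1 ≤ t2 ∧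
      t2 ≤ (A.X n).toDEnv.len S ∧ dist (pt (A.δ n) (vx ((A.X n).toDEnv.cor S t1))) b ≤ r ∧
      ε ≤ dist (pt (A.δ n) (vx ((A.X n).toDEnv.cor S t2))) b) ≤ θ := by
  classical
  have hd : 0 < dist a b := dist_pos.2 hab
  set ε' := min ε (dist a b / 4) with hε'
  have hε0 : 0 < ε' := lt_min hε (by positivity)
  have hεε : ε' ≤ ε := min_le_left _ _
  have hεd : ε' ≤ dist a b / 4 := min_le_right _ _
  obtain ⟨s, hs0, hss, G, hGc, hGD, hG⟩ := cross_bulk hDo hDb hDc.nonempty hA A (p := b)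
    (s' := ε') hε0 (Or.inr (by linarith)) (Or.inl rfl) (half_pos hθ)
  obtain ⟨K0, hK0c, hK0p, hGK, hK0D⟩ := exists_hull hDo hDc hGc hGD
  obtain ⟨η, hη0, hηD⟩ := hK0c.exists_cthickening_subset_open hDo hK0D
  set K1 := Metric.cthickening η K0 with hK1
  have hK1c : IsCompact K1 := hK0c.cthickening
  have hbD : b ∉ D := by
    have h1 : b ∈ frontier D := by
      rw [← hA.union]
      left
      have : b ∈ A₁ ∩ A₂ := by rw [hA.inter]; exact Or.inr rfl
      exact this.1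
    rw [hDo.frontier_eq] at h1
    exact h1.2
  obtain ⟨r1, hr10, hr1⟩ : ∃ r1 > 0, ∀ z ∈ K1, r1 ≤ dist z b := by
    have h1 : K1ᶜ ∈ 𝓝 b := hK1c.isClosed.isOpen_compl.mem_nhds fun h => hbD (hηD h)
    obtain ⟨r1, h2, h3⟩ := Metric.mem_nhds_iff.1 h1
    refine ⟨r1, h2, fun z hz => ?_⟩
    by_contra h4
    push Not at h4
    exact h3 (Metric.mem_ball.2 h4) hz
  set s2 := min (r1 / 2) (s / 2) with hs2
  have hs20 : 0 < s2 := lt_min (by positivity) (by positivity)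
  have hs2r : s2 ≤ r1 / 2 := min_le_left _ _
  have hs2s : s2 ≤ s / 2 := min_le_right _ _
  obtain ⟨δ0, hDec⟩ := dec_half
  have hδ0 := (hDec 0).2.1
  have hδ1 := (hDec 0).2.2.1
  obtain ⟨k, hk⟩ : ∃ k : ℕ, 2 * (1 - δ0) ^ k ≤ θ / 2 := by
    obtain ⟨k, hk⟩ := exists_pow_lt_of_lt_one (show (0 : ℝ) < θ / 4 by positivity)
      (by linarith : 1 - δ0 < 1)
    exact ⟨k, by linarith⟩
  have h4 : (1 : ℝ) ≤ 4 ^ k := one_le_pow₀ (by norm_num)
  set r := s2 / (1000 * 4 ^ k) with hr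
  have hr0 : 0 < r := by positivity
  have hrs : r < s2 := by
    rw [hr, div_lt_iff₀ (by positivity)]
    nlinarith
  refine ⟨r, hr0, ?_⟩
  have e1 : ∀ᶠ n in atTop, A.δ n < s2 / (10000 * 4 ^ k) := A.lim.eventually_lt_const (by positivity)
  have e2 : ∀ᶠ n in atTop, A.δ n < η / 10 := A.lim.eventually_lt_const (by positivity)
  have e3 : ∀ᶠ n in atTop, dist (pt (A.δ n) (A.X n).α.1) a < dist a b / 4 :=
    (Metric.tendsto_nhds.1 A.limα) _ (by positivity)
  have e4 := A.fill K1 hK1c hηD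
  filter_upwards [hG, e1, e2, e3, e4] with n h1 h2 h3 h5 h6
  have hδ := A.pos n
  obtain ⟨-, hfill⟩ := h6
  have h2' : 10000 * (4 ^ k * A.δ n) ≤ s2 := by
    rw [lt_div_iff₀ (by positivity)] at h2
    linarith
  have hδs : 100 * A.δ n ≤ s2 := by nlinarith
  have key := one_type_dist (X := (A.X n).toDEnv) (odd_toDEnv _) hDec hδ b (d := s2) (k := k) h2'
  rw [toDEnv_E] at key
  refine (Pool.Agent.H75.Perc.Pr_mono (fun S hS h => ?_)).trans
    ((Pool.Agent.H75.Perc.Pr_or_le _ _ _).trans ((add_le_add h1 (key.trans hk)).trans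
      (le_of_eq (by ring))))
  -- the deterministic part
  by_contra hno
  rw [not_or] at hno
  obtain ⟨hno1, hno2⟩ := hno
  push Not at hno1 hno2
  obtain ⟨t1, t2, h12, ht2, hd1, hd2⟩ := h
  set X := (A.X n).toDEnv with hX
  have hS' : S ⊆ X.E := by rw [hX, toDEnv_E]; exact hS
  set q : ℕ → ℂ := fun t => pt (A.δ n) (vx (X.cor S t)) with hq
  have hstep : ∀ t, |dist (q (t + 1)) b - dist (q t) b| ≤ 2 * A.δ n := fun t => by
    refine (abs_dist_sub_le _ _ _).trans ?_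
    rw [dist_comm]
    exact dist_cor_succ _ hδ S t
  have hq0 : ε' ≤ dist (q 0) b := by
    have g1 : q 0 = pt (A.δ n) (A.X n).α.1 := by
      rw [hq]
      simp only [DEnv.cor_zero, hX, toDEnv_α, vx_cor]
    rw [g1]
    have g2 := dist_triangle a (pt (A.δ n) (A.X n).α.1) b
    rw [dist_comm a (pt (A.δ n) (A.X n).α.1)] at g2
    linarith
  -- first time near `b`
  have hex : ∃ t, dist (q t) b ≤ s := ⟨t1, hd1.trans (by linarith)⟩
  set b1 := Nat.find hex with hb1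
  have hb1s : dist (q b1) b ≤ s := Nat.find_spec hex
  have hb1t : b1 ≤ t1 := Nat.find_min' hex (hd1.trans (by linarith))
  have hb10 : 0 < b1 := by
    rcases Nat.eq_zero_or_pos b1 with h | h
    · rw [h] at hb1s
      linarith
    · exact h
  have hb1f : s2 ≤ dist (q b1) b := by
    have g1 : s < dist (q (b1 - 1)) b := not_le.1 (Nat.find_min hex (by omega))
    have g2 := abs_le.1 (hstep (b1 - 1))
    rw [Nat.sub_add_cancel hb10] at g2
    linarith
  -- first visit of the bulk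
  obtain ⟨τ1, g1, g2, g3⟩ := hno1 0 b1 (Nat.zero_le _) (by omega) (Or.inr ⟨hq0, hb1s⟩)
  -- second visit of the bulk
  obtain ⟨τ3, g4, g5, g6⟩ := hno1 t1 t2 h12 ht2 (Or.inl ⟨hd1.trans (by linarith),
    hεε.trans hd2⟩)
  -- the middle crossing
  obtain ⟨a2, b2, k1, k2, k3, k4, k5⟩ := refine_both (f := fun t => dist (q t) b) hstep hrs hb1t
    (Or.inr ⟨hb1f, hd1⟩)
  have hno3 := hno2 a2 b2 k2.le k4
  unfold OneType at hno3
  rw [not_or] at hno3
  push Not at hno3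
  obtain ⟨⟨i, i1, i2, i3⟩, j, j1, j2, j3⟩ := hno3
  -- the set of labels
  set z3 := vx (X.cor S τ3) with hz3
  set P := Pc (PK (A.X n) (A.δ n) K1) z3 with hP
  have hconn : Co (PK (A.X n) (A.δ n) K1) z3 (vx (X.cor S τ1)) := by
    have h7 := co_PK_conn (X := A.X n) hK0p hδ (show 4 * A.δ n ≤ η by linarith) hfill
      (hGK g6) (hGK g3)
    rw [ctr_pt hδ, ctr_pt hδ] at h7
    exact h7
  have hmet : plab (X.cor S τ1) ∈ P := by
    obtain ⟨w, w1, w2⟩ := exists_end (X.cor S τ1)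
    have hq1 : pt (A.δ n) (vx (X.cor S τ1)) ∈ K1 :=
      Metric.self_subset_cthickening _ (hGK g3)
    have hw1 : pt (A.δ n) w ∈ K1 := by
      refine Metric.mem_cthickening_of_dist_le _ _ _ _ (hGK g3) ?_
      have := dist_unit hδ w1
      rw [dist_comm] at this
      linarith
    rw [hP, mem_Pc]
    refine ⟨?_, _, w, w1, w2, hconn⟩
    rw [← w2]
    exact step_mem_PK hfill w1 hq1 hw1
  have hex0 : ∃ t, plab (X.cor S t) ∈ P := ⟨τ1, hmet⟩
  set t0 := Nat.find hex0 with ht0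
  have ht0P : plab (X.cor S t0) ∈ P := Nat.find_spec hex0
  have ht0τ : t0 ≤ τ1 := Nat.find_min' hex0 hmet
  have hPE : P ⊆ X.E ∪ X.W := by
    intro e he
    rw [hX, toDEnv_E, toDEnv_W]
    exact (mem_PK.1 (mem_Pc.1 he).1).1
  refine j3 ((inv_toDEnv (A.X n)).one_type_t0 hS' hPE (t0 := t0) (n := τ3) (le_trans g5 ht2)
    (fun t ht => Nat.find_min hex0 ht) ?_ (i0 := a2) (j0 := b2) (by omega) (by omega) ?_
    i1 i2 j1 j2 i3)
  · exact (co_Pc_vx ht0P).symm
  · intro t u1 u2 u3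
    obtain ⟨-, u, v, v1, v2, v3, v4⟩ := mem_PK.1 (mem_Pc.1 u3).1
    have h8 : q t ∈ K1 := by
      rcases vx_end v1 v2 with h9 | h9
      · change pt (A.δ n) (vx (X.cor S t)) ∈ K1
        rw [h9]; exact v3
      · change pt (A.δ n) (vx (X.cor S t)) ∈ K1
        rw [h9]; exact v4
    have h9 := hr1 _ h8
    have h10 := (k5 t u1 u2.le).2
    linarith

end Pool.Agent.H28.Q1
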