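import Mathlib
import Pool.Agent.H28.Q1.Ret
import Pool.Agent.Q1.M3.Step

set_option autoImplicit false
open Finset Filter Topology

/-! # The steps are small: assembly

`StOk` : outside an event of small probability the target of a step is near the tip (after the first
phase and before the barrier at `b` is met). `StRef` : refinement of families of cells.

`stSmall` : `StOk` and `StRef` imply `StSmall`. -/

namespace Pool.Agent.H28.Q1

open Pool.Agent.H75.Perc Pool.Agent.H75.TwoArm Pool.Agent.H75.Four Pool.Agent.H69.Q1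
open Pool.Agent.H99.NC (PrP PrP_half PrP_mono)
open Pool.Agent.H65.Dom (Dec dec_half)
open Pool.Agent.H81.Q1 (pt DDomain Approx IsJordanDomain IsArcs toDEnv_E toDEnv_W toDEnv_α)
open Pool.Agent.H75.TwoArm.StrandAux hiding vx_nxC
open Pool.Agent.Q1.M3

/-! ### From distances to the lattice -/

section lattice

variable {δ : ℝ}

lemma far_of_dist_pt (hδ : 0 < δ) {u v : ℤ × ℤ} {R : ℝ} (h : R ≤ dist (pt δ u) (pt δ v)) {s : ℤ}
    (hs : 2 * δ * s < R) : Far s u v := by
  by_contra hcon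
  unfold Far at hcon
  push Not at hcon
  obtain ⟨h1, h2⟩ := hcon
  have h1' : |((v.1 - u.1 : ℤ) : ℝ)| ≤ (s : ℝ) := by exact_mod_cast h1.le
  have h2' : |((v.2 - u.2 : ℤ) : ℝ)| ≤ (s : ℝ) := by exact_mod_cast h2.le
  push_cast at h1' h2'
  have k3 : |(pt δ u - pt δ v).re| ≤ δ * s := by
    have : (pt δ u - pt δ v).re = -(δ * ((v.1 : ℝ) - u.1)) := by
      simp only [pt, Complex.sub_re]; ring
    rw [this, abs_neg, abs_mul, abs_of_pos hδ]
    exact mul_le_mul_of_nonneg_left h1' hδ.le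
  have k4 : |(pt δ u - pt δ v).im| ≤ δ * s := by
    have : (pt δ u - pt δ v).im = -(δ * ((v.2 : ℝ) - u.2)) := by
      simp only [pt, Complex.sub_im]; ring
    rw [this, abs_neg, abs_mul, abs_of_pos hδ]
    exact mul_le_mul_of_nonneg_left h2' hδ.le
  have k5 := (Complex.norm_le_abs_re_add_abs_im (pt δ u - pt δ v)).trans (add_le_add k3 k4)
  rw [← dist_eq_norm] at k5
  linarith

lemma dist_pt_of_far (hδ : 0 < δ) {u v : ℤ × ℤ} {s : ℤ} (h : Far s u v) :
    δ * s ≤ dist (pt δ u) (pt δ v) := by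
  rw [dist_eq_norm]
  rcases h with h | h
  · have h1 : (s : ℝ) ≤ |((v.1 - u.1 : ℤ) : ℝ)| := by exact_mod_cast h
    push_cast at h1
    refine le_trans ?_ (Complex.abs_re_le_norm _)
    have : (pt δ u - pt δ v).re = -(δ * ((v.1 : ℝ) - u.1)) := by
      simp only [pt, Complex.sub_re]; ring
    rw [this, abs_neg, abs_mul, abs_of_pos hδ]
    exact mul_le_mul_of_nonneg_left h1 hδ.le
  · have h1 : (s : ℝ) ≤ |((v.2 - u.2 : ℤ) : ℝ)| := by exact_mod_cast h
    push_cast at h1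
    refine le_trans ?_ (Complex.abs_im_le_norm _)
    have : (pt δ u - pt δ v).im = -(δ * ((v.2 : ℝ) - u.2)) := by
      simp only [pt, Complex.sub_im]; ring
    rw [this, abs_neg, abs_mul, abs_of_pos hδ]
    exact mul_le_mul_of_nonneg_left h1 hδ.le

end lattice

/-! ### Macroscopic times -/

/-- macroscopic times give successive large pieces -/
lemma seq_of_mac {R : ℤ} {z : ℕ → ℤ × ℤ} {Q : ℕ → ℕ → Prop}
    (hQ : ∀ u t, u < t → Far R (vx (z u)) (vx (z t)) → Q u t) :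
    ∀ (i : ℕ) {t : ℕ}, Mac R i t z → Pool.Agent.H57.Q1.Seq Q i t := by
  intro i
  induction i with
  | zero => intro t _; trivial
  | succ i ih =>
    rintro t ⟨u, hu, h1, h2, -⟩
    exact ⟨u, t, hu, le_rfl, hQ u t hu h2, ih h1⟩

/-- **The number of macroscopic times is tight.** -/
theorem mac_prob {D : Set ℂ} {a b : ℂ} {A₁ A₂ : Set ℂ} (hD : Bornology.IsBounded D)
    (hne : D.Nonempty) (hA : IsArcs D a b A₁ A₂) (A : Approx D a b A₁ A₂) {ρ θ : ℝ} (hρ : 0 < ρ)
    (hθ : 0 < θ) : ∃ m : ℕ, ∀ᶠ n in atTop, Pr (X0 A n).E (fun ω => ∃ i t, m < i ∧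
      Mac ⌊ρ / A.δ n⌋ i t ((X0 A n).cor ω) ∧ t ≤ (X0 A n).len ω) ≤ θ := by
  obtain ⟨m, hm⟩ := Pool.Agent.H57.Q1.pieces_bound_Pr hD hne hA A (half_pos hρ) hθ
  refine ⟨m, ?_⟩
  have e1 : ∀ᶠ n in atTop, A.δ n < ρ / 2 := A.lim.eventually_lt_const (by positivity)
  filter_upwards [hm, e1] with n h1 h2
  have hδ := A.pos n
  have hE : (X0 A n).E = EL (A.X n) := toDEnv_E _
  rw [hE]
  refine (Pr_mono fun ω _ h => ?_).trans h1
  obtain ⟨i, t, h3, h4, h5⟩ := h
  have h6 := seq_of_mac (Q := fun a b => ρ / 2 ≤ dist (pt (A.δ n) (vx ((A.X n).toDEnv.cor ω b)))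
    (pt (A.δ n) (vx ((A.X n).toDEnv.cor ω a)))) (fun u v _ huv => by
      have h7 := dist_pt_of_far hδ huv
      have h8 : ρ / A.δ n < ⌊ρ / A.δ n⌋ + 1 := Int.lt_floor_add_one _
      rw [div_lt_iff₀ hδ] at h8
      rw [dist_comm]
      change ρ / 2 ≤ dist (pt (A.δ n) (vx ((X0 A n).cor ω u))) (pt (A.δ n) (vx ((X0 A n).cor ω v)))
      nlinarith) i h4
  exact Pool.Agent.H57.Q1.Seq.mono_N h5 (Pool.Agent.H57.Q1.Seq.le h3.le h6)

/-! ### Families of cells -/

section

variable {D : Set ℂ} {a b : ℂ} {A₁ A₂ : Set ℂ} {A : Approx D a b A₁ A₂} {r0 : ℝ}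

/-- Families of cells used in the first phase: cells of one level contained in `D`, joined to the
base cell. -/
structure Fam (B : Base A r0) (k1 : ℕ) (C : Finset Cell) : Prop where
  lev : ∀ q ∈ C, q.1 = k1
  sub : ∀ q ∈ C, cfat B.o q ⊆ D
  conn : Lev B.o B.qb C

/-- A base for a larger radius. -/
noncomputable def baseMono {r1 : ℝ} (h : r0 ≤ r1) (B : Base A r0) : Base A r1 where
  o := B.o
  gen := B.gen
  qb := B.qb
  Q := B.Q
  qb_mem := B.qb_mem
  mono := B.mono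
  connQ := B.connQ
  subQ := fun M q hq => (B.subQ M q hq).trans
    (Set.inter_subset_inter_right _ (Metric.ball_subset_ball h))
  r := B.r
  rlim := B.rlim
  rpos := B.rpos
  N := B.N
  hN := B.hN
  sub := B.sub.mono fun _ hn v hv => Metric.ball_subset_ball h (hn v hv)
  conn := B.conn
  beta := B.beta

end

/-- **[OK]** Outside an event of small probability the target is near the tip, at all times after the
first phase and before the barrier is met. -/
def StOk {D : Set ℂ} {a b : ℂ} {A₁ A₂ : Set ℂ} (A : Approx D a b A₁ A₂) : Prop :=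
  ∀ r > 0, ∀ θ > 0, ∃ r0 > 0, ∀ B : Base A r0, ∀ (k1 : ℕ) (C : Finset Cell), Fam B k1 C →
    ∃ k00, ∀ k0, k00 ≤ k0 → ∀ᶠ n in atTop,
      Pr (X0 A n).E (fun ω => ∃ hω : ω ⊆ (X0 A n).E, ∃ t ≤ (X0 A n).len ω,
        (∃ u < t, plab ((X0 A n).cor ω u) ∈ star (Vn (A.δ n) B.o C)) ∧
        (∀ u < t, plab ((X0 A n).cor ω u) ∉ star (B.N n)) ∧
        ¬ Ok ⌊r / A.δ n⌋ (star (B.F k0 n (envt (X0 A n) ω hω t).E)) (envt (X0 A n) ω hω t)) ≤ θ

/-- **[REF]** Refinement: if all labels at the cells of the family `C` are free then the vertices in a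
compact subset of the union of `C` belong to visible cells of every fine level. -/
def StRef {D : Set ℂ} {a b : ℂ} {A₁ A₂ : Set ℂ} (A : Approx D a b A₁ A₂) : Prop :=
  ∀ (r0 : ℝ) (B : Base A r0) (k1 : ℕ) (C : Finset Cell), Fam B k1 C → ∀ G : Set ℂ, IsCompact G →
    G ⊆ ⋃ q ∈ C, fat B.o q → ∃ k00, ∀ k0, k00 ≤ k0 → ∀ (δ : ℝ), 0 < δ → ∀ E : Finset (ℤ × ℤ),
      star (Vn δ B.o C) ⊆ E → ∀ v, pt δ v ∈ G → v ∈ Vn δ B.o (Uk D δ B.o B.qb k0 E)

/-- **[FAM]** Families which cover a compact set. -/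
def StFam {D : Set ℂ} {a b : ℂ} {A₁ A₂ : Set ℂ} (A : Approx D a b A₁ A₂) : Prop :=
  ∀ (r0 : ℝ) (B : Base A r0) (G : Set ℂ), IsCompact G → G ⊆ D →
    ∃ (k1 : ℕ) (C : Finset Cell), Fam B k1 C ∧ G ⊆ ⋃ q ∈ C, fat B.o q

/-! ### The chain of steps -/

section chain

variable {D : Set ℂ} {a b : ℂ} {A₁ A₂ : Set ℂ} {A : Approx D a b A₁ A₂} {r0 : ℝ} (B : Base A r0)
  {k0 n : ℕ} {ω : Finset (ℤ × ℤ)}

lemma chain_E (hω : ω ⊆ (X0 A n).E) (j : ℕ) :
    (B.X k0 n j ω).E = fresh (X0 A n) ω (B.T k0 n j ω) := by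
  unfold Base.X Base.T
  rw [Rules.st_E _ hω]
  ext e
  rw [mem_fresh, Finset.mem_sdiff, Rules.mem_metE]
  constructor
  · rintro ⟨h1, h2⟩
    exact ⟨h1, fun k hk h => h2 ⟨h1, k, hk, h⟩⟩
  · rintro ⟨h1, h2⟩
    exact ⟨h1, fun ⟨_, k, hk, h⟩ => h2 k hk h⟩

lemma chain_α (hω : ω ⊆ (X0 A n).E) (j : ℕ) :
    (B.X k0 n j ω).α = (X0 A n).cor ω (B.T k0 n j ω) := Rules.st_α _ hω j

lemma chain_T_le (hω : ω ⊆ (X0 A n).E) (j : ℕ) : B.T k0 n j ω ≤ (X0 A n).len ω :=
  Rules.tm_le_len _ hω j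

lemma chain_mono (j : ℕ) : B.T k0 n j ω ≤ B.T k0 n (j + 1) ω := Rules.tm_mono _ j _ _

/-- nothing happens in finished environments -/
lemma chain_fin {j : ℕ} (h : B.Fin n (B.X k0 n j ω)) :
    B.T k0 n (j + 1) ω = B.T k0 n j ω ∧ B.X k0 n (j + 1) ω = B.X k0 n j ω := by
  constructor
  · unfold Base.T
    rw [Rules.tm_last]
    have : (B.X k0 n j ω).tau ((B.rules k0 n).Q (B.X k0 n j ω))
        ((B.rules k0 n).cf j (X0 A n) ω ∩ (B.X k0 n j ω).E) = 0 := by
      unfold DEnv.tau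
      exact Nat.sInf_eq_zero.2 (Or.inl (Or.inl (Or.inl h)))
    change _ + (B.X k0 n j ω).tau ((B.rules k0 n).Q (B.X k0 n j ω))
        ((B.rules k0 n).cf j (X0 A n) ω ∩ (B.X k0 n j ω).E) = _
    rw [this, add_zero]
  · unfold Base.X
    rw [Rules.st_last]
    exact B.nenv_fin h

/-- labels met during a step -/
lemma chain_avoid (hω : ω ⊆ (X0 A n).E) {j u : ℕ} (h1 : B.T k0 n j ω ≤ u)
    (h2 : u + 1 < B.T k0 n (j + 1) ω) :
    plab ((X0 A n).cor ω u) ∉ star (B.F k0 n (fresh (X0 A n) ω (B.T k0 n j ω))) := by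
  intro h3
  have hcf := Rules.cf_sub (B.rules k0 n) hω j
  have h4 : B.T k0 n (j + 1) ω = B.T k0 n j ω + (B.X k0 n j ω).tau
      ((B.rules k0 n).Q (B.X k0 n j ω)) ((B.rules k0 n).cf j (X0 A n) ω) := by
    unfold Base.T
    rw [Rules.tm_last, inter_eq_left.2 hcf]
    rfl
  have h5 : u + 1 - B.T k0 n j ω < (B.X k0 n j ω).tau
      ((B.rules k0 n).Q (B.X k0 n j ω)) ((B.rules k0 n).cf j (X0 A n) ω) := by omega
  have h6 := ((B.X k0 n j ω).tau_min h5).1
  refine h6 (Or.inr ⟨u - B.T k0 n j ω, by omega, ?_⟩)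
  have h7 := Rules.st_cor (B.rules k0 n) hω j (u - B.T k0 n j ω)
  have h8 : u - B.T k0 n j ω + (B.rules k0 n).tm j (X0 A n) ω = u := by
    change u - B.T k0 n j ω + B.T k0 n j ω = u
    omega
  rw [h8] at h7
  change plab (((B.rules k0 n).st j (X0 A n) ω).cor ((B.rules k0 n).cf j (X0 A n) ω)
    (u - B.T k0 n j ω)) ∈ _
  rw [h7, chain_E B hω]
  exact h3

/-- before a state which is not finished the barrier has not been met -/
lemma chain_N (hω : ω ⊆ (X0 A n).E) : ∀ (j : ℕ), ¬ B.Fin n (B.X k0 n j ω) →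
    ∀ u < B.T k0 n j ω, plab ((X0 A n).cor ω u) ∉ star (B.N n) := by
  intro j
  induction j with
  | zero => intro _ u hu; exact absurd hu (Nat.not_lt_zero _)
  | succ j ih =>
    intro h u hu
    have hj : ¬ B.Fin n (B.X k0 n j ω) := fun h1 => h (by rw [(chain_fin B h1).2]; exact h1)
    rcases lt_or_ge u (B.T k0 n j ω) with h1 | h1
    · exact ih hj u h1
    · rcases Nat.lt_or_ge (u + 1) (B.T k0 n (j + 1) ω) with h2 | h2
      · intro h3
        refine chain_avoid B hω h1 h2 ?_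
        unfold Base.F
        rw [star_union]
        exact mem_union_right _ h3
      · have h3 : u + 1 = B.T k0 n (j + 1) ω := by omega
        intro h4
        refine h ?_
        unfold Base.Fin
        rw [chain_α B hω, ← h3, DEnv.cor_succ, lab_pv]
        exact h4

end chain

/-- monotonicity of the target -/
lemma star_F_mono {D : Set ℂ} {a b : ℂ} {A₁ A₂ : Set ℂ} {A : Approx D a b A₁ A₂} {r0 : ℝ}
    (hD : Bornology.IsBounded D) (B : Base A r0) (k0 n : ℕ) {F F' : Finset (ℤ × ℤ)} (h : F' ⊆ F) :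
    star (B.F k0 n F') ⊆ star (B.F k0 n F) := by
  refine star_mono (union_subset_union_left (Vn_mono ?_))
  intro q hq
  rw [mem_Uk hD] at hq ⊢
  exact hq.mono fun x => Free.mono h

/-- wired labels are at wired corners -/
lemma wired_end {X : DDomain} {u v : ℤ × ℤ} (h : IsUnit4 (v - u)) (hW : u + v ∈ WL X) :
    ∃ c ∈ X.wired, c.1 = u ∨ c.1 = v := by
  obtain ⟨e, he, h1⟩ := (mem_WL X).1 hW
  obtain ⟨hE, c, hc, -, h2⟩ := he
  have h3 : s(u, v) ∈ Pool.Agent.H81.Q1.Z2.edgeSet := by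
    refine adj_iff_isUnit.2 ?_
    have := unit_cases h
    simp only [Prod.ext_iff, Prod.fst_add, Prod.snd_add]
    omega
  have h4 : e = s(u, v) := lb_injOn (edges_sub _ (X.subE hE)) h3 h1
  refine ⟨c, hc, ?_⟩
  have h5 : c.1 ∈ s(u, v) := by
    rw [← h4, h2]
    unfold Pool.Agent.H81.Q1.Corner.edge
    exact Sym2.mem_mk_left _ _
  exact Sym2.mem_iff.1 h5

/-- **The labels at the cells of a family inside `D` are free at the beginning.** -/
theorem star_free {D : Set ℂ} {a b : ℂ} {A₁ A₂ : Set ℂ} (hDo : IsOpen D)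
    (hDb : Bornology.IsBounded D) (hA : IsArcs D a b A₁ A₂) (A : Approx D a b A₁ A₂) (o : ℂ)
    {C : Finset Cell} (hC : ∀ q ∈ C, cfat o q ⊆ D) :
    ∀ᶠ n in atTop, star (Vn (A.δ n) o C) ⊆ (X0 A n).E := by
  classical
  set K : Set ℂ := ⋃ q ∈ C, cfat o q with hK
  have hKD : K ⊆ D := Set.iUnion₂_subset hC
  have hKc : IsCompact K := by
    refine C.isCompact_biUnion fun q hq => ?_
    refine Metric.isCompact_of_isClosed_isBounded ?_ (hDb.subset (hC q hq))
    unfold cfat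
    exact (isClosed_le continuous_const Complex.continuous_re).inter
      ((isClosed_le Complex.continuous_re continuous_const).inter
        ((isClosed_le continuous_const Complex.continuous_im).inter
          (isClosed_le Complex.continuous_im continuous_const)))
  obtain ⟨η, hη0, hηD⟩ := hKc.exists_cthickening_subset_open hDo hKD
  set K1 := Metric.cthickening η K with hK1
  have hK1c : IsCompact K1 := hKc.cthickening
  -- distance to the wired arc
  obtain ⟨d, hd0, hd⟩ : ∃ d : ℝ, 0 < d ∧ ∀ z ∈ K1, d ≤ Metric.infDist z A₁ := by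
    rcases K1.eq_empty_or_nonempty with h | h
    · exact ⟨1, one_pos, fun z hz => by rw [h] at hz; exact absurd hz (Set.notMem_empty _)⟩
    · obtain ⟨z0, hz0, hmin⟩ := hK1c.exists_isMinOn h (Metric.continuous_infDist_pt A₁).continuousOn
      refine ⟨Metric.infDist z0 A₁, ?_, fun z hz => hmin hz⟩
      refine (hA.closed₁.notMem_iff_infDist_pos hA.conn₁.nonempty).1 fun h1 => ?_
      have h2 : z0 ∈ frontier D := by rw [← hA.union]; exact Or.inl h1
      rw [hDo.frontier_eq] at h2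
      exact h2.2 (hηD hz0)
  have e1 : ∀ᶠ n in atTop, A.δ n < η / 2 := A.lim.eventually_lt_const (by positivity)
  filter_upwards [e1, A.fill K1 hK1c hηD, A.wired d hd0] with n h1 h2 h3
  have hδ := A.pos n
  intro e he
  obtain ⟨v, hv, hev⟩ := mem_star.1 he
  obtain ⟨q, hq, hvq⟩ := mem_Vn.1 hv
  have hvK : pt (A.δ n) v ∈ K := by
    rw [mem_verts hδ] at hvq
    obtain ⟨k1, k2, k3, k4⟩ := hvq
    exact Set.mem_iUnion₂.2 ⟨q, hq, k1.le, k2.le, k3.le, k4.le⟩
  obtain ⟨w, hw, hvw⟩ : ∃ w, IsUnit4 (w - v) ∧ v + w = e := by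
    refine ⟨e - v, ?_, by abel⟩
    unfold star1 at hev
    simp only [mem_insert, mem_singleton] at hev
    unfold IsUnit4
    rcases hev with rfl | rfl | rfl | rfl <;>
      simp only [Prod.ext_iff, Prod.fst_sub, Prod.snd_sub] <;> omega
  have hwK : pt (A.δ n) w ∈ K1 := by
    refine Metric.mem_cthickening_of_dist_le _ _ _ _ hvK ?_
    have := dist_unit hδ hw
    rw [dist_comm] at this
    linarith
  have hvK1 : pt (A.δ n) v ∈ K1 := Metric.self_subset_cthickening _ hvK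
  have h4 := (mem_PK.1 (step_mem_PK h2.2 hw hvK1 hwK)).1
  have hE : (X0 A n).E = EL (A.X n) := toDEnv_E _
  rw [hE, ← hvw]
  rcases mem_union.1 h4 with h5 | h5
  · exact h5
  · exfalso
    obtain ⟨c, hc, h6⟩ := wired_end hw h5
    have h7 := h3 c hc
    rcases h6 with h6 | h6
    · rw [h6] at h7
      linarith [hd _ hvK1]
    · rw [h6] at h7
      linarith [hd _ hwK]

/-- **The steps are small.** -/
theorem stSmall {D : Set ℂ} {a b : ℂ} {A₁ A₂ : Set ℂ} (hDo : IsOpen D) (hDc : IsConnected D)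
    (hDb : Bornology.IsBounded D) (hA : IsArcs D a b A₁ A₂) (A : Approx D a b A₁ A₂)
    (hab : a ≠ b) (hOk : StOk A) (hRef : StRef A) (hFam : StFam A) : StSmall A := by
  classical
  intro ε hε
  have hd : 0 < dist a b := dist_pos.2 hab
  obtain ⟨δ0, hDec⟩ := dec_half
  have hδ0 := (hDec 0).2.1
  have hδ1 := (hDec 0).2.2.1
  -- macroscopic times
  set ρ := ε / 32 with hρ
  have hρ0 : 0 < ρ := by positivity
  obtain ⟨m, hm⟩ := mac_prob hDb hDc.nonempty hA A hρ0 (show (0 : ℝ) < ε / 8 by positivity)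
  obtain ⟨k, hk⟩ : ∃ k : ℕ, ((m : ℝ) + 1) * (4 * (1 - δ0) ^ k) ≤ ε / 8 := by
    obtain ⟨k, hk⟩ := exists_pow_lt_of_lt_one (show (0 : ℝ) < ε / (32 * (m + 1)) by positivity)
      (by linarith : 1 - δ0 < 1)
    refine ⟨k, ?_⟩
    rw [lt_div_iff₀ (by positivity)] at hk
    nlinarith
  have h4k : (1 : ℝ) ≤ 4 ^ k := one_le_pow₀ (by norm_num)
  set r := ε / (128 * 4 ^ k) with hr
  have hr0 : 0 < r := by positivity
  have hrk : 4 ^ k * r = ε / 128 := by rw [hr]; field_simp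
  -- the inputs
  obtain ⟨r1, hr1, hOk1⟩ := hOk r hr0 (ε / 8) (by positivity)
  obtain ⟨r2, hr2, hRet⟩ := ret_b hDo hDc hDb hA A hab (ε := ε) (θ := ε / 8) hε (by positivity)
  obtain ⟨s, hs0, hss, G, hGc, hGD, hG⟩ := cross_bulk hDo hDb hDc.nonempty hA A (p := a)
    (s' := min (ε / 8) (dist a b / 4)) (lt_min (by positivity) (by positivity)) (Or.inl rfl)
    (Or.inr (by
      have := min_le_right (ε / 8) (dist a b / 4)
      rw [dist_comm b a]; linarith)) (show (0 : ℝ) < ε / 8 by positivity)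
  set s' := min (ε / 8) (dist a b / 4) with hs'
  have hs'ε : s' ≤ ε / 8 := min_le_left _ _
  refine ⟨min r1 (r2 / 2), lt_min hr1 (by positivity), fun B => ?_⟩
  have hr1' : min r1 (r2 / 2) ≤ r1 := min_le_left _ _
  have hr2' : min r1 (r2 / 2) ≤ r2 / 2 := min_le_right _ _
  obtain ⟨k1, C, hC, hGC⟩ := hFam _ B G hGc hGD
  have hC1 : Fam (baseMono hr1' B) k1 C := ⟨hC.lev, hC.sub, hC.conn⟩
  obtain ⟨k00, hk00⟩ := hOk1 (baseMono hr1' B) k1 C hC1
  obtain ⟨k01, hk01⟩ := hRef _ B k1 C hC G hGc hGC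
  refine ⟨max k00 k01, fun k0 hk0 => ?_⟩
  have hOk2 := hk00 k0 (le_of_max_le_left hk0)
  have hRef2 := hk01 k0 (le_of_max_le_right hk0)
  -- large `n`
  have e1 : ∀ᶠ n in atTop, A.δ n < ε / (10000 * 4 ^ k) := A.lim.eventually_lt_const (by positivity)
  have e2 : ∀ᶠ n in atTop, A.δ n < s' / 100 := A.lim.eventually_lt_const
    (by have : 0 < s' := lt_min (by positivity) (by positivity)
        positivity)
  have e3 : ∀ᶠ n in atTop, A.δ n < r2 / 8 := A.lim.eventually_lt_const (by positivity)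
  have e4 : ∀ᶠ n in atTop, dist (pt (A.δ n) (A.X n).α.1) a < s :=
    (Metric.tendsto_nhds.1 A.limα) _ hs0
  filter_upwards [hm, hOk2, hRet, hG, star_free hDo hDb hA A B.o hC.sub, B.sub, e1, e2, e3, e4]
    with n hm' hOk3 hRet' hG' hfree hBsub hn1 hn2 hn3 hn4
  have hδ := A.pos n
  have hE0 : (X0 A n).E = EL (A.X n) := toDEnv_E _
  set X := X0 A n with hX
  have hI : Inv X := inv_toDEnv _
  have hodd : ∀ e ∈ X.E, (e.1 + e.2) % 2 = 1 := odd_toDEnv _
  -- integers
  set rz : ℤ := ⌊r / A.δ n⌋ with hrz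
  set R : ℤ := ⌊ρ / A.δ n⌋ with hRdef
  have hδk : 10000 * (4 ^ k * A.δ n) < ε := by
    rw [lt_div_iff₀ (by positivity)] at hn1
    linarith
  have hδε : 10000 * A.δ n < ε := by
    have : A.δ n ≤ 4 ^ k * A.δ n := le_mul_of_one_le_left hδ.le h4k
    linarith
  have hrz0 : 0 ≤ rz := Int.floor_nonneg.2 (by positivity)
  have hR0 : 0 < R := by
    rw [hRdef, Int.floor_pos, le_div_iff₀ hδ]
    rw [hρ]
    linarith
  have hRle : A.δ n * R ≤ ρ := by
    have := Int.floor_le (ρ / A.δ n)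
    rw [le_div_iff₀ hδ] at this
    linarith
  have hrle : A.δ n * rz ≤ r := by
    have := Int.floor_le (r / A.δ n)
    rw [le_div_iff₀ hδ] at this
    linarith
  set sz : ℤ := 4 ^ k * (rz + 2) + 1 with hsz
  have hsz0 : 0 ≤ sz := by
    have : (0 : ℤ) ≤ 4 ^ k := by positivity
    rw [hsz]; positivity
  have hszle : A.δ n * sz ≤ ε / 64 := by
    have e : A.δ n * ((sz : ℤ) : ℝ) = 4 ^ k * (A.δ n * rz) + 2 * (4 ^ k * A.δ n) + A.δ n := by
      rw [hsz]; push_cast; ring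
    rw [e]
    have : 4 ^ k * (A.δ n * rz) ≤ 4 ^ k * r := mul_le_mul_of_nonneg_left hrle (by positivity)
    linarith
  -- the general estimate
  have key := small_steps' X (q := fun _ => 1 / 2) (hDec 0).1 hI hodd (R := R) hR0
    (fun F => star (B.F k0 n F)) (fun F F' h => star_F_mono hDb B k0 n h)
    (fun Y => Ok rz (star (B.F k0 n Y.E)) Y) (s := sz) hsz0 (θ := 4 * (1 - δ0) ^ k)
    (by have : 0 ≤ (1 - δ0) ^ k := pow_nonneg (by linarith) k
        linarith)
    (fun Y hY hYE hYO => ok_prob Y (hDec (4 ^ k * (rz + 2))) hY hYE hYO hrz0 le_rfl le_rfl)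
    (fun ω t => (∃ u < t, plab (X.cor ω u) ∈ star (Vn (A.δ n) B.o C)) ∧
      ∀ u < t, plab (X.cor ω u) ∉ star (B.N n))
    (by
      rintro ω a' n' - ⟨⟨u, hu, hu'⟩, h2⟩ han h3
      refine ⟨⟨u, by omega, hu'⟩, fun v hv => ?_⟩
      rcases lt_or_ge v a' with h4 | h4
      · exact h2 v h4
      · intro h5
        refine h3 v h4 hv ?_
        unfold Base.F
        rw [star_union]
        exact mem_union_right _ h5)
    (D := 2 * R + sz) le_rfl m
  rw [PrP_half, PrP_half, PrP_half] at key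
  have hOk4 : Pr X.E (fun ω => ∃ hω : ω ⊆ X.E, ∃ i ≤ m, ∃ t ≤ X.len ω, Mac R i t (X.cor ω) ∧
      ((∃ u < t, plab (X.cor ω u) ∈ star (Vn (A.δ n) B.o C)) ∧
        ∀ u < t, plab (X.cor ω u) ∉ star (B.N n)) ∧
      ¬ Ok rz (star (B.F k0 n (envt X ω hω t).E)) (envt X ω hω t)) ≤ ε / 8 := by
    refine (Pr_mono fun ω _ h => ?_).trans hOk3
    obtain ⟨hω, i, -, t, ht, -, ⟨h1, h2⟩, h3⟩ := h
    exact ⟨hω, t, ht, h1, h2, h3⟩
  rw [← hE0] at hRet' hG'
  -- the events
  refine (Pr_mono fun ω hω h => ?_).trans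
    ((Pr_or_le X.E _ _).trans ((add_le_add (key.trans (add_le_add (add_le_add hm' hOk4) hk))
      ((Pr_or_le X.E _ _).trans (add_le_add hRet' hG'))).trans (by linarith)))
  rcases h with ⟨j, t, ht1, ht2, ht3⟩ | ⟨j, t, hfin, ht1, ht2, ht3⟩
  swap
  · -- after the last step
    right; left
    refine ⟨B.T k0 n j ω, t, ht1, ht2, ?_, ht3.le⟩
    unfold Base.Fin at hfin
    rw [chain_α B hω] at hfin
    obtain ⟨v, hv, hlab⟩ := mem_star.1 hfin
    have h1 := hBsub v hv
    rw [Metric.mem_ball] at h1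
    have h2 : dist (pt (A.δ n) (vx (X.cor ω (B.T k0 n j ω)))) (pt (A.δ n) v) ≤ 2 * A.δ n := by
      by_cases h3 : vx (X.cor ω (B.T k0 n j ω)) = v
      · rw [h3, dist_self]; positivity
      · obtain ⟨-, h4, -⟩ := star1_pair (lab_star1 (X.cor ω (B.T k0 n j ω))) hlab h3
        refine dist_pt_of_near hδ ?_
        simp only [dirs, mem_insert, mem_singleton] at h4
        unfold Near
        rw [abs_le, abs_le]
        rcases h4 with h4 | h4 | h4 | h4 <;>
          simp only [Prod.ext_iff, Prod.fst_sub, Prod.snd_sub] at h4 <;> omega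
    have h3 := dist_triangle (pt (A.δ n) (vx (X.cor ω (B.T k0 n j ω)))) (pt (A.δ n) v) b
    change dist (pt (A.δ n) (vx (X.cor ω (B.T k0 n j ω)))) b ≤ r2
    linarith
  -- during a step
  set q : ℕ → ℂ := fun t => pt (A.δ n) (vx (X.cor ω t)) with hq
  have hstep : ∀ t, dist (q t) (q (t + 1)) ≤ 2 * A.δ n := fun t => dist_cor_succ X hδ ω t
  have ht3' : ε < dist (q t) (q (B.T k0 n j ω)) := ht3
  have hTT : B.T k0 n j ω < B.T k0 n (j + 1) ω := by
    refine lt_of_le_of_ne (chain_mono B j) fun h => ?_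
    have : t = B.T k0 n j ω := by omega
    rw [this, dist_self] at ht3'
    linarith
  have hfin : ¬ B.Fin n (B.X k0 n j ω) := fun h => by
    have := (chain_fin B h).1
    omega
  obtain ⟨nn, hnn1, hnn2, hnn3, hnn4⟩ : ∃ nn, B.T k0 n j ω ≤ nn ∧ nn < B.T k0 n (j + 1) ω ∧
      nn ≤ t ∧ dist (q t) (q nn) ≤ 2 * A.δ n := by
    rcases Nat.lt_or_ge t (B.T k0 n (j + 1) ω) with h | h
    · exact ⟨t, ht1, h, le_rfl, by rw [dist_self]; positivity⟩
    · refine ⟨t - 1, by omega, by omega, by omega, ?_⟩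
      have := hstep (t - 1)
      rw [Nat.sub_add_cancel (by omega)] at this
      rwa [dist_comm]
  have hTlen := chain_T_le (k0 := k0) B hω (j + 1)
  have hnlen : nn ≤ X.len ω := by
    have : B.T k0 n (j + 1) ω ≤ X.len ω := hTlen
    omega
  have hfar : ε - 2 * A.δ n < dist (q (B.T k0 n j ω)) (q nn) := by
    have := dist_triangle (q t) (q nn) (q (B.T k0 n j ω))
    rw [dist_comm (q nn)] at this
    linarith
  have hne : B.T k0 n j ω ≠ nn := fun h => by
    rw [← h, dist_self] at hfar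
    linarith
  have hav : ∀ u, B.T k0 n j ω ≤ u → u < nn →
      plab (X.cor ω u) ∉ star (B.F k0 n (fresh X ω (B.T k0 n j ω))) := fun u h1 h2 =>
    chain_avoid B hω h1 (by omega)
  by_cases hph : ∃ u < B.T k0 n j ω, plab (X.cor ω u) ∈ star (Vn (A.δ n) B.o C)
  · -- second phase
    left
    refine ⟨B.T k0 n j ω, nn, hnn1, hnlen, ⟨hph, chain_N B hω j hfin⟩, hav, ?_⟩
    refine far_of_dist_pt hδ hfar.le ?_
    have e : 2 * A.δ n * ((2 * R + sz : ℤ) : ℝ) = 4 * (A.δ n * R) + 2 * (A.δ n * sz) := by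
      push_cast; ring
    rw [e, hρ] at *
    linarith
  · -- first phase
    right; right
    push Not at hph
    have hsub : star (Vn (A.δ n) B.o C) ⊆ fresh X ω (B.T k0 n j ω) := by
      intro e he
      rw [mem_fresh]
      exact ⟨hfree he, fun u hu h => hph u hu (h ▸ he)⟩
    have havG : ∀ u < nn, q u ∉ G := by
      intro u hu hG1
      rcases lt_or_ge u (B.T k0 n j ω) with h1 | h1
      · refine hph u h1 ?_
        obtain ⟨q', hq', h2⟩ := Set.mem_iUnion₂.1 (hGC hG1)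
        exact star1_sub_star (mem_Vn.2 ⟨q', hq', (mem_verts hδ).2 h2⟩) (plab_star1 _)
      · refine hav u h1 hu ?_
        have h2 := hRef2 (A.δ n) hδ _ hsub _ hG1
        exact star1_sub_star (mem_union_left _ h2) (plab_star1 _)
    have h0 : dist (q 0) a ≤ s := by
      have : q 0 = pt (A.δ n) (A.X n).α.1 := by
        rw [hq]
        simp only [DEnv.cor_zero]
        rw [hX]
        unfold X0
        rw [toDEnv_α, vx_cor]
      rw [this]
      exact hn4.le
    by_cases h1 : s' ≤ dist (q (B.T k0 n j ω)) a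
    · exact ⟨0, B.T k0 n j ω, Nat.zero_le _, le_trans hnn1 hnlen, Or.inl ⟨h0, h1⟩,
        fun u _ hu => havG u (by omega)⟩
    · push Not at h1
      refine ⟨0, nn - 1, Nat.zero_le _, le_trans (Nat.sub_le _ _) hnlen, Or.inl ⟨h0, ?_⟩,
        fun u _ hu => havG u (by omega)⟩
      have h2 := hstep (nn - 1)
      rw [Nat.sub_add_cancel (by omega)] at h2
      change s' ≤ dist (q (nn - 1)) a
      have h3 := dist_triangle (q (B.T k0 n j ω)) a (q nn)
      have h4 := dist_triangle (q nn) (q (nn - 1)) a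
      rw [dist_comm a (q nn)] at h3
      rw [dist_comm (q nn) (q (nn - 1))] at h4
      linarith

end Pool.Agent.H28.Q1
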