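import Mathlib
import Pool.Agent.H28.Q1.Asm

set_option autoImplicit false
open Finset Filter Topology

/-! # Families of cells which cover a compact set; refinement

* `stFam` : every compact subset of `D` is covered by the fat cells of a family joined to the base
  cell.
* `stRef` : refinement of a family. -/

namespace Pool.Agent.H28.Q1

open Pool.Agent.H75.Perc Pool.Agent.H75.TwoArm Pool.Agent.H75.Four Pool.Agent.H69.Q1
open Pool.Agent.H81.Q1 (pt DDomain Approx IsJordanDomain IsArcs)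
open Pool.Agent.Q1.M3

/-! ### Cells -/

lemma mesh_lt {ε : ℝ} (hε : 0 < ε) : ∃ k00, ∀ k, k00 ≤ k → mesh k < ε := by
  obtain ⟨k, hk⟩ := exists_pow_lt_of_lt_one hε (show (1 / 3 : ℝ) < 1 by norm_num)
  refine ⟨k, fun l hl => lt_of_le_of_lt ?_ hk⟩
  exact pow_le_pow_of_le_one (by norm_num) (by norm_num) hl

lemma fat_sub_cfat (o : ℂ) (q : Cell) : fat o q ⊆ cfat o q := by
  rintro z ⟨h1, h2, h3, h4⟩
  exact ⟨h1.le, h2.le, h3.le, h4.le⟩

lemma fat_isOpen (o : ℂ) (q : Cell) : IsOpen (fat o q) := by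
  unfold fat
  exact (isOpen_lt continuous_const Complex.continuous_re).inter
    ((isOpen_lt Complex.continuous_re continuous_const).inter
      ((isOpen_lt continuous_const Complex.continuous_im).inter
        (isOpen_lt Complex.continuous_im continuous_const)))

lemma cfat_small {o : ℂ} {q : Cell} {x y : ℂ} (hx : x ∈ cfat o q) (hy : y ∈ cfat o q) :
    dist x y ≤ 4 * mesh q.1 := by
  have hm := mesh_pos q.1
  obtain ⟨h1, h2, h3, h4⟩ := hx
  obtain ⟨g1, g2, g3, g4⟩ := hy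
  have k1 : |(x - y).re| ≤ 2 * mesh q.1 := by
    rw [Complex.sub_re, abs_le]
    constructor <;> linarith
  have k2 : |(x - y).im| ≤ 2 * mesh q.1 := by
    rw [Complex.sub_im, abs_le]
    constructor <;> linarith
  rw [dist_eq_norm]
  have := (Complex.norm_le_abs_re_add_abs_im (x - y)).trans (add_le_add k1 k2)
  linarith

/-- the cell of level `k` whose core contains `z` -/
noncomputable def core (o : ℂ) (k : ℕ) (z : ℂ) : Cell :=
  (k, (⌊(z.re - o.re) / mesh k⌋, ⌊(z.im - o.im) / mesh k⌋))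

lemma mem_core (o : ℂ) (k : ℕ) (z : ℂ) : z ∈ fat o (core o k z) := by
  have hm := mesh_pos k
  have key : ∀ t x0 : ℝ, x0 + (((⌊(t - x0) / mesh k⌋ : ℤ) : ℝ) - 1 / 3) * mesh k < t ∧
      t < x0 + (((⌊(t - x0) / mesh k⌋ : ℤ) : ℝ) + 4 / 3) * mesh k := by
    intro t x0
    have h1 := Int.floor_le ((t - x0) / mesh k)
    have h2 := Int.lt_floor_add_one ((t - x0) / mesh k)
    rw [le_div_iff₀ hm] at h1
    rw [div_lt_iff₀ hm] at h2
    constructor <;> nlinarith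
  exact ⟨(key _ _).1, (key _ _).2, (key _ _).1, (key _ _).2⟩

lemma core_sub_ball (o : ℂ) (k : ℕ) (z : ℂ) {ε : ℝ} (h : 4 * mesh k < ε) :
    cfat o (core o k z) ⊆ Metric.ball z ε := by
  intro w hw
  rw [Metric.mem_ball]
  exact lt_of_le_of_lt (cfat_small hw (fat_sub_cfat _ _ (mem_core o k z))) h

/-! ### Families which cover a compact set -/

/-- **[FAM]** -/
theorem stFam {D : Set ℂ} {a b : ℂ} {A₁ A₂ : Set ℂ} (hDo : IsOpen D) (hDc : IsConnected D)
    (hDb : Bornology.IsBounded D) (A : Approx D a b A₁ A₂) : StFam A := by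
  classical
  intro r0 B G hG hGD
  set z0 : ℂ := ⟨B.o.re + (B.qb.2.1 + 1 / 2) * mesh B.qb.1,
    B.o.im + (B.qb.2.2 + 1 / 2) * mesh B.qb.1⟩ with hz0
  have hz0f : z0 ∈ fat B.o B.qb := by
    have hm := mesh_pos B.qb.1
    refine ⟨?_, ?_, ?_, ?_⟩ <;> simp only [hz0] <;> nlinarith
  have hz0D : z0 ∈ D := (B.subQ 0 B.qb B.qb_mem (fat_sub_cfat _ _ hz0f)).1
  obtain ⟨K0, hK0c, hK0p, hGK, hK0D⟩ := exists_hull hDo hDc (hG.union (isCompact_singleton (x := z0)))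
    (Set.union_subset hGD (Set.singleton_subset_iff.2 hz0D))
  obtain ⟨η, hη0, hηD⟩ := hK0c.exists_cthickening_subset_open hDo hK0D
  obtain ⟨k1, hk1⟩ := mesh_lt (show (0 : ℝ) < η / 4 by positivity)
  have hm := hk1 k1 le_rfl
  set C : Finset Cell := (cells D B.o k1).filter fun q => (fat B.o q ∩ K0).Nonempty with hC
  have hmem : ∀ q : Cell, q.1 = k1 → ∀ x ∈ K0, x ∈ fat B.o q → q ∈ C := by
    intro q hq x hx hxq
    rw [hC, Finset.mem_filter, mem_cells hDb]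
    refine ⟨⟨hq, fun y hy => hηD ?_⟩, x, hxq, hx⟩
    refine Metric.mem_cthickening_of_dist_le _ x _ _ hx ?_
    have := cfat_small hy (fat_sub_cfat _ _ hxq)
    rw [hq] at this
    linarith
  have hCl : ∀ q ∈ C, q.1 = k1 ∧ cfat B.o q ⊆ D ∧ (fat B.o q ∩ K0).Nonempty := by
    intro q hq
    rw [hC, Finset.mem_filter, mem_cells hDb] at hq
    exact ⟨hq.1.1, hq.1.2, hq.2⟩
  refine ⟨k1, C, ⟨fun q hq => (hCl q hq).1, fun q hq => (hCl q hq).2.1, ?_⟩, ?_⟩
  · intro q hq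
    obtain ⟨hq1, -, x, hxq, hxK⟩ := hCl q hq
    rw [hq1]
    have key := hK0p.induction₂' (fun x y => ∀ q q' : Cell, q.1 = k1 → x ∈ fat B.o q →
      q'.1 = k1 → y ∈ fat B.o q' →
      Relation.ReflTransGen (fun u v : Cell => AdjC B.o u v ∧ u.1 = k1 ∧ u ∈ C) q q')
      (by
        intro x hx
        have hopen : fat B.o (core B.o k1 x) ∈ 𝓝[K0] x :=
          mem_nhdsWithin_of_mem_nhds ((fat_isOpen _ _).mem_nhds (mem_core _ _ _))
        filter_upwards [hopen, self_mem_nhdsWithin] with y hy hyK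
        have hc0 : core B.o k1 x ∈ C := hmem _ rfl x hx (mem_core _ _ _)
        constructor
        · intro q q' h1 h2 h3 h4
          exact (Relation.ReflTransGen.single ⟨⟨x, h2, mem_core _ _ _⟩, h1, hmem q h1 x hx h2⟩).tail
            ⟨⟨y, hy, h4⟩, rfl, hc0⟩
        · intro q q' h1 h2 h3 h4
          exact (Relation.ReflTransGen.single ⟨⟨y, h2, hy⟩, h1, hmem q h1 y hyK h2⟩).tail
            ⟨⟨x, mem_core _ _ _, h4⟩, rfl, hc0⟩)
      (by
        intro x y z _ hy _ h1 h2 q q' h3 h4 h5 h6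
        exact (h1 q (core B.o k1 y) h3 h4 rfl (mem_core _ _ _)).trans
          (h2 (core B.o k1 y) q' rfl (mem_core _ _ _) h5 h6))
      hxK (hGK (Or.inr rfl)) q (core B.o k1 z0) hq1 hxq rfl (mem_core _ _ _)
    exact ⟨core B.o k1 z0, key, rfl, hmem _ rfl z0 (hGK (Or.inr rfl)) (mem_core _ _ _),
      ⟨z0, mem_core _ _ _, hz0f⟩⟩
  · intro x hx
    have hxK : x ∈ K0 := hGK (Or.inl hx)
    exact Set.mem_iUnion₂.2 ⟨core B.o k1 x, hmem _ rfl x hxK (mem_core _ _ _), mem_core _ _ _⟩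

/-! ### Fine cells in a fat cell -/

lemma cfat_sub_iff {o : ℂ} {x q : Cell} : cfat o x ⊆ fat o q ↔
    ((q.2.1 - 1 / 3) * mesh q.1 < (x.2.1 - 1 / 3) * mesh x.1 ∧
      (x.2.1 + 4 / 3) * mesh x.1 < (q.2.1 + 4 / 3) * mesh q.1) ∧
    ((q.2.2 - 1 / 3) * mesh q.1 < (x.2.2 - 1 / 3) * mesh x.1 ∧
      (x.2.2 + 4 / 3) * mesh x.1 < (q.2.2 + 4 / 3) * mesh q.1) := by
  have hm := mesh_pos x.1
  constructor
  · intro h
    have h1 : (⟨o.re + (x.2.1 - 1 / 3) * mesh x.1, o.im + (x.2.2 - 1 / 3) * mesh x.1⟩ : ℂ) ∈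
        fat o q := h (by refine ⟨le_rfl, ?_, le_rfl, ?_⟩ <;> simp only <;> nlinarith)
    have h2 : (⟨o.re + (x.2.1 + 4 / 3) * mesh x.1, o.im + (x.2.2 + 4 / 3) * mesh x.1⟩ : ℂ) ∈
        fat o q := h (by refine ⟨?_, le_rfl, ?_, le_rfl⟩ <;> simp only <;> nlinarith)
    obtain ⟨a1, -, a3, -⟩ := h1
    obtain ⟨-, b2, -, b4⟩ := h2
    simp only at a1 a3 b2 b4
    exact ⟨⟨by linarith, by linarith⟩, by linarith, by linarith⟩
  · rintro ⟨⟨h1, h2⟩, h3, h4⟩ z ⟨g1, g2, g3, g4⟩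
    exact ⟨by linarith, by linarith, by linarith, by linarith⟩

/-- neighbouring cells of one level are adjacent -/
lemma adjC_of_near {o : ℂ} {k : ℕ} {i j i' j' : ℤ} (h1 : |i' - i| ≤ 1) (h2 : |j' - j| ≤ 1) :
    AdjC o (k, (i, j)) (k, (i', j')) := by
  have hm := mesh_pos k
  rw [abs_le] at h1 h2
  obtain ⟨a1, a2⟩ := h1
  obtain ⟨b1, b2⟩ := h2
  have a1' : (-1 : ℝ) ≤ (i' : ℝ) - i := by exact_mod_cast a1
  have a2' : (i' : ℝ) - i ≤ 1 := by exact_mod_cast a2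
  have b1' : (-1 : ℝ) ≤ (j' : ℝ) - j := by exact_mod_cast b1
  have b2' : (j' : ℝ) - j ≤ 1 := by exact_mod_cast b2
  refine ⟨⟨o.re + ((i : ℝ) + (i' - i) / 2 + 1 / 2) * mesh k,
    o.im + ((j : ℝ) + (j' - j) / 2 + 1 / 2) * mesh k⟩, ⟨?_, ?_, ?_, ?_⟩, ⟨?_, ?_, ?_, ?_⟩⟩ <;>
    simp only <;> nlinarith

/-- moving a coordinate inside an interval -/
lemma line_path {R : ℤ → ℤ → Prop} {P : ℤ → Prop} (hP : ∀ i j k, i ≤ j → j ≤ k → P i → P k → P j)
    (hR : ∀ i j, |j - i| ≤ 1 → P i → P j → R i j) {i j : ℤ} (hi : P i) (hj : P j) :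
    Relation.ReflTransGen R i j := by
  rcases le_total i j with h | h
  · obtain ⟨n, rfl⟩ : ∃ n : ℕ, j = i + n := ⟨(j - i).toNat, by omega⟩
    induction n with
    | zero => simp only [Nat.cast_zero, add_zero]; exact Relation.ReflTransGen.refl
    | succ n ih =>
      have h1 : P (i + n) := hP i _ _ (by omega) (by push_cast; omega) hi hj
      exact (ih h1 (by omega)).tail (hR _ _ (by push_cast; rw [abs_le]; omega) h1 hj)
  · obtain ⟨n, rfl⟩ : ∃ n : ℕ, i = j + n := ⟨(i - j).toNat, by omega⟩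
    induction n with
    | zero => simp only [Nat.cast_zero, add_zero]; exact Relation.ReflTransGen.refl
    | succ n ih =>
      have h1 : P (j + n) := hP j _ _ (by omega) (by push_cast; omega) hj hi
      exact Relation.ReflTransGen.head (hR _ _ (by push_cast; rw [abs_le]; omega) hi h1)
        (ih h1 (by omega))

/-- **Fine cells in a fat cell are joined.** -/
lemma fine_path {o : ℂ} {q : Cell} {k : ℕ} {x y : ℤ × ℤ} (hx : cfat o (k, x) ⊆ fat o q)
    (hy : cfat o (k, y) ⊆ fat o q) :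
    Relation.ReflTransGen (fun u v : Cell => AdjC o u v ∧ u.1 = k ∧ cfat o u ⊆ fat o q)
      (k, x) (k, y) := by
  have hm := mesh_pos k
  set I : ℤ → Prop := fun i => (q.2.1 - 1 / 3) * mesh q.1 < ((i : ℝ) - 1 / 3) * mesh k ∧
      ((i : ℝ) + 4 / 3) * mesh k < (q.2.1 + 4 / 3) * mesh q.1 with hI
  set J : ℤ → Prop := fun j => (q.2.2 - 1 / 3) * mesh q.1 < ((j : ℝ) - 1 / 3) * mesh k ∧
      ((j : ℝ) + 4 / 3) * mesh k < (q.2.2 + 4 / 3) * mesh q.1 with hJ
  have hiff : ∀ i j : ℤ, cfat o (k, (i, j)) ⊆ fat o q ↔ I i ∧ J j := fun i j => cfat_sub_iff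
  obtain ⟨x1, x2⟩ := x
  obtain ⟨y1, y2⟩ := y
  rw [hiff] at hx hy
  have hIc : ∀ i j l, i ≤ j → j ≤ l → I i → I l → I j := by
    intro i j l hij hjl h1 h2
    have e1 : (i : ℝ) ≤ j := by exact_mod_cast hij
    have e2 : (j : ℝ) ≤ l := by exact_mod_cast hjl
    exact ⟨lt_of_lt_of_le h1.1 (by nlinarith), lt_of_le_of_lt (by nlinarith) h2.2⟩
  have hJc : ∀ i j l, i ≤ j → j ≤ l → J i → J l → J j := by
    intro i j l hij hjl h1 h2
    have e1 : (i : ℝ) ≤ j := by exact_mod_cast hij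
    have e2 : (j : ℝ) ≤ l := by exact_mod_cast hjl
    exact ⟨lt_of_lt_of_le h1.1 (by nlinarith), lt_of_le_of_lt (by nlinarith) h2.2⟩
  have h1 : Relation.ReflTransGen (fun u v : Cell => AdjC o u v ∧ u.1 = k ∧ cfat o u ⊆ fat o q)
      (k, (x1, x2)) (k, (y1, x2)) := by
    have h := line_path (R := fun i j => I i ∧ |j - i| ≤ 1) (P := I) hIc
      (fun i j h h' _ => ⟨h', h⟩) hx.1 hy.1
    refine h.lift (fun i => ((k, (i, x2)) : Cell)) ?_
    rintro i j ⟨h2, h3⟩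
    exact ⟨adjC_of_near h3 (by simp), rfl, (hiff i x2).2 ⟨h2, hx.2⟩⟩
  have h2 : Relation.ReflTransGen (fun u v : Cell => AdjC o u v ∧ u.1 = k ∧ cfat o u ⊆ fat o q)
      (k, (y1, x2)) (k, (y1, y2)) := by
    have h := line_path (R := fun i j => J i ∧ |j - i| ≤ 1) (P := J) hJc
      (fun i j h h' _ => ⟨h', h⟩) hx.2 hy.2
    refine h.lift (fun j => ((k, (y1, j)) : Cell)) ?_
    rintro i j ⟨h2, h3⟩
    exact ⟨adjC_of_near (by simp) h3, rfl, (hiff y1 i).2 ⟨hy.1, h2⟩⟩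
  exact h1.trans h2

/-- **[REF]** -/
theorem stRef {D : Set ℂ} {a b : ℂ} {A₁ A₂ : Set ℂ} (hDb : Bornology.IsBounded D)
    (A : Approx D a b A₁ A₂) : StRef A := by
  classical
  intro r0 B k1 C hC G hG hGC
  -- fine cells in one of the cells of `C` are joined to the base cell
  set S : Cell → Prop := fun y => ∃ p ∈ C, cfat B.o y ⊆ fat B.o p with hS
  have key : ∀ q ∈ C, ∃ k00, ∀ k0, k00 ≤ k0 → ∀ x : ℤ × ℤ, cfat B.o (k0, x) ⊆ fat B.o q →
      ConnC B.o S B.qb k0 (k0, x) := by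
    intro q hq
    have hadd : ∀ (q : Cell), q ∈ C → ∀ (k0 : ℕ) (x y : ℤ × ℤ), cfat B.o (k0, x) ⊆ fat B.o q →
        cfat B.o (k0, y) ⊆ fat B.o q → ConnC B.o S B.qb k0 (k0, y) →
        ConnC B.o S B.qb k0 (k0, x) := by
      intro q hq k0 x y hx hy hcy
      have h1 := fine_path hx hy
      obtain ⟨q', h2, h3, h4, h5⟩ := hcy
      refine ⟨q', ?_, h3, h4, h5⟩
      refine (Relation.ReflTransGen.mono ?_ _ _ h1).trans h2
      rintro u v ⟨g1, g2, g3⟩
      exact ⟨g1, g2, q, hq, g3⟩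
    refine ConnC.induct (P := fun q => ∃ k00, ∀ k0, k00 ≤ k0 → ∀ x : ℤ × ℤ,
      cfat B.o (k0, x) ⊆ fat B.o q → ConnC B.o S B.qb k0 (k0, x)) ?_ ?_ (hC.conn q hq)
    · rintro q - hq ⟨z, hz1, hz2⟩
      obtain ⟨ε, hε, hball⟩ := Metric.isOpen_iff.1 (fat_isOpen B.o q) z hz1
      obtain ⟨k00, hk00⟩ := mesh_lt (show (0 : ℝ) < ε / 4 by positivity)
      refine ⟨k00, fun k0 hk0 x hx => ?_⟩
      have hsub : cfat B.o (core B.o k0 z) ⊆ fat B.o q :=
        (core_sub_ball B.o k0 z (by linarith [hk00 k0 hk0])).trans hball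
      refine hadd q hq k0 x (core B.o k0 z).2 hx hsub ?_
      exact ConnC.single rfl ⟨q, hq, hsub⟩ ⟨z, mem_core _ _ _, hz2⟩
    · rintro q q' - hq ⟨z, hz1, hz2⟩ - ⟨k01, hk01⟩
      obtain ⟨ε, hε, hball⟩ := Metric.isOpen_iff.1 (fat_isOpen B.o q) z hz1
      obtain ⟨ε', hε', hball'⟩ := Metric.isOpen_iff.1 (fat_isOpen B.o q') z hz2
      obtain ⟨k00, hk00⟩ := mesh_lt (show (0 : ℝ) < min ε ε' / 4 by positivity)
      refine ⟨max k00 k01, fun k0 hk0 x hx => ?_⟩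
      have hm := hk00 k0 (le_of_max_le_left hk0)
      have hm1 := min_le_left ε ε'
      have hm2 := min_le_right ε ε'
      have hsub : cfat B.o (core B.o k0 z) ⊆ fat B.o q :=
        (core_sub_ball B.o k0 z (by linarith)).trans hball
      have hsub' : cfat B.o (core B.o k0 z) ⊆ fat B.o q' :=
        (core_sub_ball B.o k0 z (by linarith)).trans hball'
      exact hadd q hq k0 x (core B.o k0 z).2 hx hsub
        (hk01 k0 (le_of_max_le_right hk0) (core B.o k0 z).2 hsub')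
  choose! kk hkk using key
  -- Lebesgue number
  obtain ⟨lam, hlam, hleb⟩ := lebesgue_number_lemma_of_metric (c := fun q : C => fat B.o q.1) hG
    (fun q => fat_isOpen _ _) (by
      intro x hx
      obtain ⟨q, hq, hxq⟩ := Set.mem_iUnion₂.1 (hGC hx)
      exact Set.mem_iUnion.2 ⟨⟨q, hq⟩, hxq⟩)
  obtain ⟨k02, hk02⟩ := mesh_lt (show (0 : ℝ) < lam / 4 by positivity)
  refine ⟨max k02 (C.sup kk), fun k0 hk0 δ hδ E hE v hv => ?_⟩
  obtain ⟨⟨q, hq⟩, hball⟩ := hleb _ hv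
  have hsub : cfat B.o (core B.o k0 (pt δ v)) ⊆ fat B.o q :=
    (core_sub_ball B.o k0 (pt δ v) (by linarith [hk02 k0 (le_of_max_le_left hk0)])).trans hball
  have hconn := hkk q hq k0 ((Finset.le_sup hq).trans (le_of_max_le_right hk0))
    (core B.o k0 (pt δ v)).2 hsub
  rw [mem_Vn]
  refine ⟨core B.o k0 (pt δ v), ?_, (mem_verts hδ).2 (mem_core _ _ _)⟩
  rw [mem_Uk hDb]
  refine hconn.mono ?_
  rintro y ⟨p, hp, hyp⟩
  refine ⟨(hyp.trans (fat_sub_cfat _ _)).trans (hC.sub p hp), (star_mono ?_).trans hE⟩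
  intro w hw
  rw [mem_verts hδ] at hw
  exact mem_Vn.2 ⟨p, hp, (mem_verts hδ).2 (hyp (fat_sub_cfat _ _ hw))⟩

/-- **The steps are small** in Jordan domains, from `StOk`. -/
theorem stSmall_of_ok {D : Set ℂ} {a b : ℂ} {A₁ A₂ : Set ℂ} (hD : IsJordanDomain D)
    (hA : IsArcs D a b A₁ A₂) (A : Approx D a b A₁ A₂) (hab : a ≠ b) (hOk : StOk A) :
    StSmall A :=
  stSmall hD.1 hD.2.1 hD.2.2.1 hA A hab hOk (stRef hD.2.2.1 A) (stFam hD.1 hD.2.1 hD.2.2.1 A)

end Pool.Agent.H28.Q1
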