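import Mathlib
import Pool.Agent.H28.Q1.Refine

set_option autoImplicit false
open Finset Filter Topology

/-! # The complement of the visible cells in a cell which is not visible

`path_mid` : in a fat cell `q` of level `k0` which is not visible, every lattice vertex outside the
visible cells and the base cell is joined to the centre by a lattice path outside them. -/

namespace Pool.Agent.H28.Q1

open Pool.Agent.H75.Perc Pool.Agent.H75.TwoArm Pool.Agent.H75.Four Pool.Agent.H69.Q1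
open Pool.Agent.H81.Q1 (pt DDomain Approx IsJordanDomain IsArcs)
open Pool.Agent.Q1.M3

/-! ### Lattice paths -/

/-- unit step inside `S` -/
def Rs (S : ℤ × ℤ → Prop) (u v : ℤ × ℤ) : Prop := IsUnit4 (v - u) ∧ S u ∧ S v

/-- `x` is between `a` and `m` -/
def Bt (a m x : ℤ) : Prop := (a ≤ x ∧ x ≤ m) ∨ (m ≤ x ∧ x ≤ a)

lemma Rs.symm {S : ℤ × ℤ → Prop} {u v : ℤ × ℤ} (h : Rs S u v) : Rs S v u := by
  refine ⟨?_, h.2.2, h.2.1⟩
  have := h.1
  unfold IsUnit4 at this ⊢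
  simp only [Prod.ext_iff, Prod.fst_sub, Prod.snd_sub] at this ⊢
  omega

lemma rs_symm {S : ℤ × ℤ → Prop} {u v : ℤ × ℤ} (h : Relation.ReflTransGen (Rs S) u v) :
    Relation.ReflTransGen (Rs S) v u := by
  induction h with
  | refl => exact Relation.ReflTransGen.refl
  | tail _ h ih => exact Relation.ReflTransGen.head h.symm ih

/-- a line -/
lemma line_up {Q : ℤ → ℤ → Prop} {a b : ℤ} (hab : a ≤ b)
    (h : ∀ x, a ≤ x → x + 1 ≤ b → Q x (x + 1)) : Relation.ReflTransGen Q a b := by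
  obtain ⟨n, rfl⟩ : ∃ n : ℕ, b = a + n := ⟨(b - a).toNat, by omega⟩
  induction n with
  | zero => simp only [Nat.cast_zero, add_zero]; exact Relation.ReflTransGen.refl
  | succ n ih =>
    have h1 := ih (by omega) (fun x h1 h2 => h x h1 (by push_cast; omega))
    refine h1.tail ?_
    have h2 := h (a + n) (by omega) (by push_cast; omega)
    rw [show a + ((n + 1 : ℕ) : ℤ) = a + n + 1 by push_cast; ring]
    exact h2

lemma rs_hor {S : ℤ × ℤ → Prop} {a m b : ℤ} (h : ∀ x, Bt a m x → S (x, b)) :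
    Relation.ReflTransGen (Rs S) (a, b) (m, b) := by
  have key : ∀ a m : ℤ, a ≤ m → (∀ x, Bt a m x → S (x, b)) →
      Relation.ReflTransGen (Rs S) (a, b) (m, b) := by
    intro a m ham h
    have h1 := line_up (Q := fun x y => Rs S (x, b) (y, b)) ham (fun x h1 h2 =>
      ⟨by unfold IsUnit4; simp [Prod.ext_iff], h x (Or.inl ⟨h1, by omega⟩),
        h (x + 1) (Or.inl ⟨by omega, h2⟩)⟩)
    exact h1.lift (fun x => (x, b)) fun x y h => h
  rcases le_total a m with h1 | h1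
  · exact key a m h1 h
  · exact rs_symm (key m a h1 fun x hx => h x (by unfold Bt at hx ⊢; tauto))

lemma rs_ver {S : ℤ × ℤ → Prop} {a m b : ℤ} (h : ∀ x, Bt a m x → S (b, x)) :
    Relation.ReflTransGen (Rs S) (b, a) (b, m) := by
  have key : ∀ a m : ℤ, a ≤ m → (∀ x, Bt a m x → S (b, x)) →
      Relation.ReflTransGen (Rs S) (b, a) (b, m) := by
    intro a m ham h
    have h1 := line_up (Q := fun x y => Rs S (b, x) (b, y)) ham (fun x h1 h2 =>
      ⟨by unfold IsUnit4; simp [Prod.ext_iff], h x (Or.inl ⟨h1, by omega⟩),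
        h (x + 1) (Or.inl ⟨by omega, h2⟩)⟩)
    exact h1.lift (fun x => (b, x)) fun x y h => h
  rcases le_total a m with h1 | h1
  · exact key a m h1 h
  · exact rs_symm (key m a h1 fun x hx => h x (by unfold Bt at hx ⊢; tauto))

/-- a path in a box -/
lemma rs_box {S : ℤ × ℤ → Prop} {u v : ℤ × ℤ} (h : ∀ x y, Bt u.1 v.1 x → Bt u.2 v.2 y → S (x, y)) :
    Relation.ReflTransGen (Rs S) u v := by
  obtain ⟨u1, u2⟩ := u
  obtain ⟨v1, v2⟩ := v
  have e1 : Bt u2 v2 u2 := by unfold Bt; omega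
  have e2 : Bt u1 v1 v1 := by unfold Bt; omega
  exact (rs_hor fun x hx => h x u2 hx e1).trans (rs_ver fun y hy => h v1 y e2 hy)

/-! ### Intervals -/

/-- the lattice coordinate `x` is in the fat interval -/
def In1 (o1 δ η : ℝ) (i x : ℤ) : Prop :=
  o1 + ((i : ℝ) - 1 / 3) * η < δ * x ∧ δ * x < o1 + ((i : ℝ) + 4 / 3) * η

/-- the lattice coordinate `x` is in the middle third -/
def Mid1 (o1 δ η : ℝ) (i x : ℤ) : Prop :=
  o1 + ((i : ℝ) + 1 / 3) * η < δ * x ∧ δ * x < o1 + ((i : ℝ) + 2 / 3) * η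

lemma mem_verts_in1 {δ : ℝ} (hδ : 0 < δ) {o : ℂ} {q : Cell} {v : ℤ × ℤ} :
    v ∈ verts δ o q ↔ In1 o.re δ (mesh q.1) q.2.1 v.1 ∧ In1 o.im δ (mesh q.1) q.2.2 v.2 := by
  rw [mem_verts hδ]
  unfold fat In1 pt
  simp only [Set.mem_ofPred_eq]
  tauto

section

variable {o1 δ η η' : ℝ} {i k a x m : ℤ}

lemma in1_same (hη : 0 < η) (hm : Mid1 o1 δ η i m) (h : In1 o1 δ η k m) : k = i := by
  obtain ⟨h1, h2⟩ := hm
  obtain ⟨h3, h4⟩ := h
  have e1 : ((k : ℝ) - 1 / 3) * η < ((i : ℝ) + 2 / 3) * η := by linarith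
  have e2 : ((i : ℝ) + 1 / 3) * η < ((k : ℝ) + 4 / 3) * η := by linarith
  have e3 := lt_of_mul_lt_mul_right e1 hη.le
  have e4 := lt_of_mul_lt_mul_right e2 hη.le
  have e5 : (k : ℝ) < (i : ℝ) + 1 := by linarith
  have e6 : (i : ℝ) < (k : ℝ) + 1 := by linarith
  have e7 : k < i + 1 := by exact_mod_cast e5
  have e8 : i < k + 1 := by exact_mod_cast e6
  omega

lemma in1_out (hδ : 0 < δ) (hle : η ≤ η') (hm : Mid1 o1 δ η i m)
    (ha : In1 o1 δ η i a) (hx : In1 o1 δ η' k x) (hb : Bt a m x) (hmn : ¬ In1 o1 δ η' k m) :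
    In1 o1 δ η' k a := by
  obtain ⟨h1, h2⟩ := hm
  obtain ⟨h3, h4⟩ := ha
  obtain ⟨h5, h6⟩ := hx
  have hw : ((k : ℝ) + 4 / 3) * η' = ((k : ℝ) - 1 / 3) * η' + 5 / 3 * η' := by ring
  have hi : ((i : ℝ) + 2 / 3) * η = ((i : ℝ) - 1 / 3) * η + η := by ring
  have hi2 : ((i : ℝ) + 4 / 3) * η = ((i : ℝ) + 1 / 3) * η + η := by ring
  have hm' : δ * m ≤ o1 + ((k : ℝ) - 1 / 3) * η' ∨ o1 + ((k : ℝ) + 4 / 3) * η' ≤ δ * m := by
    by_contra hcon
    push Not at hcon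
    exact hmn hcon
  rcases hb with ⟨b1, b2⟩ | ⟨b1, b2⟩
  · have c1 : δ * a ≤ δ * x := mul_le_mul_of_nonneg_left (by exact_mod_cast b1) hδ.le
    have c2 : δ * x ≤ δ * m := mul_le_mul_of_nonneg_left (by exact_mod_cast b2) hδ.le
    rcases hm' with h | h
    · linarith
    · constructor <;> linarith
  · have c1 : δ * m ≤ δ * x := mul_le_mul_of_nonneg_left (by exact_mod_cast b1) hδ.le
    have c2 : δ * x ≤ δ * a := mul_le_mul_of_nonneg_left (by exact_mod_cast b2) hδ.le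
    rcases hm' with h | h
    · constructor <;> linarith
    · linarith

lemma in1_mid (hη : 0 < η) (hm : Mid1 o1 δ η i m) : In1 o1 δ η i m := by
  obtain ⟨h1, h2⟩ := hm
  constructor <;> nlinarith

lemma in1_convex (hδ : 0 < δ) (ha : In1 o1 δ η i a) (hm : In1 o1 δ η i m) (hb : Bt a m x) :
    In1 o1 δ η i x := by
  obtain ⟨h1, h2⟩ := hm
  obtain ⟨h3, h4⟩ := ha
  rcases hb with ⟨b1, b2⟩ | ⟨b1, b2⟩
  · have c1 : δ * a ≤ δ * x := mul_le_mul_of_nonneg_left (by exact_mod_cast b1) hδ.le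
    have c2 : δ * x ≤ δ * m := mul_le_mul_of_nonneg_left (by exact_mod_cast b2) hδ.le
    constructor <;> linarith
  · have c1 : δ * m ≤ δ * x := mul_le_mul_of_nonneg_left (by exact_mod_cast b1) hδ.le
    have c2 : δ * x ≤ δ * a := mul_le_mul_of_nonneg_left (by exact_mod_cast b2) hδ.le
    constructor <;> linarith

/-- an interval of a coarser level which meets the middle third contains the core -/
lemma in1_core {k0 l : ℕ} (hl : l ≤ k0) (hm : Mid1 o1 δ (mesh k0) i m)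
    (hk : In1 o1 δ (mesh l) k m) (h1 : o1 + (i : ℝ) * mesh k0 ≤ δ * x)
    (h2 : δ * x < o1 + ((i : ℝ) + 1) * mesh k0) (hne : o1 + (i : ℝ) * mesh k0 ≠ δ * x) :
    In1 o1 δ (mesh l) k x := by
  have hη := mesh_pos k0
  have h1' : o1 + (i : ℝ) * mesh k0 < δ * x := lt_of_le_of_ne h1 hne
  rcases hl.eq_or_lt with he | hlt
  · subst he
    have h3 := in1_same hη hm hk
    subst h3
    constructor <;> nlinarith
  · obtain ⟨j, rfl⟩ : ∃ j, k0 = l + j + 1 := ⟨k0 - l - 1, by omega⟩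
    set e := mesh (l + j + 1) with he
    have hml : mesh l = 3 * 3 ^ j * e := by
      rw [he]
      unfold mesh
      rw [show l + j + 1 = l + (j + 1) by ring, pow_add, pow_succ]
      have : ((1 : ℝ) / 3) ^ j * 3 ^ j = 1 := by
        rw [← mul_pow]; norm_num
      linear_combination (-(1 / 3 : ℝ) ^ l) * this
    obtain ⟨g1, g2⟩ := hm
    obtain ⟨g3, g4⟩ := hk
    rw [hml] at g3 g4
    have e1 : ((k : ℝ) - 1 / 3) * (3 * 3 ^ j * e) = (((3 * k - 1) * 3 ^ j : ℤ) : ℝ) * e := by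
      push_cast; ring
    have e2 : ((k : ℝ) + 4 / 3) * (3 * 3 ^ j * e) = (((3 * k + 4) * 3 ^ j : ℤ) : ℝ) * e := by
      push_cast; ring
    rw [e1] at g3
    rw [e2] at g4
    have f1 : (((3 * k - 1) * 3 ^ j : ℤ) : ℝ) * e < ((i : ℝ) + 2 / 3) * e := by linarith
    have f2 : ((i : ℝ) + 1 / 3) * e < (((3 * k + 4) * 3 ^ j : ℤ) : ℝ) * e := by linarith
    have f3 := lt_of_mul_lt_mul_right f1 hη.le
    have f4 := lt_of_mul_lt_mul_right f2 hη.le
    have f5 : (3 * k - 1) * 3 ^ j < i + 1 := by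
      have : (((3 * k - 1) * 3 ^ j : ℤ) : ℝ) < ((i + 1 : ℤ) : ℝ) := by push_cast at f3 ⊢; linarith
      exact_mod_cast this
    have f6 : i < (3 * k + 4) * 3 ^ j := by
      have : ((i : ℤ) : ℝ) < (((3 * k + 4) * 3 ^ j : ℤ) : ℝ) := by push_cast at f4 ⊢; linarith
      exact_mod_cast this
    have f7 : (((3 * k - 1) * 3 ^ j : ℤ) : ℝ) ≤ (i : ℝ) := Int.cast_le.2 (Int.lt_add_one_iff.1 f5)
    have f8 : (i : ℝ) + 1 ≤ (((3 * k + 4) * 3 ^ j : ℤ) : ℝ) := by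
      have := (Int.cast_le (R := ℝ)).2 (Int.add_one_le_iff.2 f6)
      push_cast at this ⊢
      exact this
    unfold In1
    rw [hml, e1, e2]
    have k1 := mul_le_mul_of_nonneg_right f7 hη.le
    have k2 := mul_le_mul_of_nonneg_right f8 hη.le
    constructor <;> linarith

end

/-! ### The path to the centre -/

section

variable {δ : ℝ} {o : ℂ} {k0 : ℕ} {q qb : Cell} {U : Finset Cell} {m w : ℤ × ℤ}

/-- **Path to the centre.** -/
theorem path_mid (hδ : 0 < δ) (hq : q.1 = k0) (hqb : qb.1 ≤ k0) (hU : ∀ c ∈ U, c.1 = k0)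
    (hqU : q ∉ U) (hm1 : Mid1 o.re δ (mesh k0) q.2.1 m.1) (hm2 : Mid1 o.im δ (mesh k0) q.2.2 m.2)
    (hmb : m ∉ verts δ o qb) (hw : w ∈ verts δ o q) (hwU : w ∉ Vn δ o U ∪ verts δ o qb) :
    Relation.ReflTransGen (Rs fun v => v ∈ verts δ o q ∧ v ∉ Vn δ o U ∪ verts δ o qb) w m := by
  have hη := mesh_pos k0
  have hle : mesh k0 ≤ mesh qb.1 := by
    unfold mesh
    exact pow_le_pow_of_le_one (by norm_num) (by norm_num) hqb
  rw [mem_verts_in1 hδ, hq] at hw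
  rw [mem_verts_in1 hδ] at hmb
  have hUw : ∀ c ∈ U, ¬ (In1 o.re δ (mesh k0) c.2.1 w.1 ∧ In1 o.im δ (mesh k0) c.2.2 w.2) := by
    intro c hc h
    refine hwU (mem_union_left _ (mem_Vn.2 ⟨c, hc, ?_⟩))
    rw [mem_verts_in1 hδ, hU c hc]
    exact h
  have hbw : ¬ (In1 o.re δ (mesh qb.1) qb.2.1 w.1 ∧ In1 o.im δ (mesh qb.1) qb.2.2 w.2) := by
    intro h
    exact hwU (mem_union_right _ ((mem_verts_in1 hδ).2 h))
  have hne : ∀ c ∈ U, ¬ (c.2.1 = q.2.1 ∧ c.2.2 = q.2.2) := by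
    intro c hc h
    apply hqU
    rw [show q = c from Prod.ext (by rw [hU c hc, hq]) (Prod.ext h.1.symm h.2.symm)]
    exact hc
  have hI : ∀ c ∈ U, ∀ x, Bt w.1 m.1 x → In1 o.re δ (mesh k0) c.2.1 x →
      In1 o.re δ (mesh k0) c.2.1 w.1 := by
    intro c hc x hx h
    by_cases h1 : In1 o.re δ (mesh k0) c.2.1 m.1
    · rw [in1_same hη hm1 h1]; exact hw.1
    · exact in1_out hδ le_rfl hm1 hw.1 h hx h1
  have hJ : ∀ c ∈ U, ∀ y, Bt w.2 m.2 y → In1 o.im δ (mesh k0) c.2.2 y →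
      In1 o.im δ (mesh k0) c.2.2 w.2 := by
    intro c hc y hy h
    by_cases h1 : In1 o.im δ (mesh k0) c.2.2 m.2
    · rw [in1_same hη hm2 h1]; exact hw.2
    · exact in1_out hδ le_rfl hm2 hw.2 h hy h1
  have hin : ∀ x y, Bt w.1 m.1 x → Bt w.2 m.2 y → (x, y) ∈ verts δ o q := by
    intro x y hx hy
    rw [mem_verts_in1 hδ, hq]
    exact ⟨in1_convex hδ hw.1 (in1_mid hη hm1) hx, in1_convex hδ hw.2 (in1_mid hη hm2) hy⟩
  have hnot : ∀ x y, (∀ c ∈ U, ¬ (In1 o.re δ (mesh k0) c.2.1 x ∧ In1 o.im δ (mesh k0) c.2.2 y)) →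
      ¬ (In1 o.re δ (mesh qb.1) qb.2.1 x ∧ In1 o.im δ (mesh qb.1) qb.2.2 y) →
      (x, y) ∉ Vn δ o U ∪ verts δ o qb := by
    intro x y h1 h2 h3
    rcases mem_union.1 h3 with h4 | h4
    · obtain ⟨c, hc, h5⟩ := mem_Vn.1 h4
      rw [mem_verts_in1 hδ, hU c hc] at h5
      exact h1 c hc h5
    · rw [mem_verts_in1 hδ] at h4
      exact h2 h4
  have b1 : Bt w.1 m.1 w.1 := by unfold Bt; omega
  have b2 : Bt w.2 m.2 w.2 := by unfold Bt; omega
  have b3 : Bt w.1 m.1 m.1 := by unfold Bt; omega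
  have b4 : Bt w.2 m.2 m.2 := by unfold Bt; omega
  obtain ⟨w1, w2⟩ := w
  obtain ⟨m1, m2⟩ := m
  simp only at *
  by_cases hc : In1 o.re δ (mesh qb.1) qb.2.1 m1
  · have hc2 : ¬ In1 o.im δ (mesh qb.1) qb.2.2 m2 := fun h => hmb ⟨hc, h⟩
    have hJb : ∀ y, Bt w2 m2 y → In1 o.im δ (mesh qb.1) qb.2.2 y →
        In1 o.im δ (mesh qb.1) qb.2.2 w2 := fun y hy h =>
      in1_out hδ hle hm2 hw.2 h hy hc2
    have p1 : Relation.ReflTransGen (Rs fun v => v ∈ verts δ o q ∧ v ∉ Vn δ o U ∪ verts δ o qb)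
        (w1, w2) (w1, m2) := by
      refine rs_ver fun y hy => ⟨hin w1 y b1 hy, hnot _ _ ?_ ?_⟩
      · rintro c hcU ⟨h1, h2⟩
        exact hUw c hcU ⟨h1, hJ c hcU y hy h2⟩
      · rintro ⟨h1, h2⟩
        exact hbw ⟨h1, hJb y hy h2⟩
    refine p1.trans (rs_hor fun x hx => ⟨hin x m2 hx b4, hnot _ _ ?_ ?_⟩)
    · rintro c hcU ⟨h1, h2⟩
      refine hUw c hcU ⟨hI c hcU x hx h1, ?_⟩
      rw [in1_same hη hm2 h2]
      exact hw.2
    · rintro ⟨h1, h2⟩
      exact hc2 h2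
  · have hIb : ∀ x, Bt w1 m1 x → In1 o.re δ (mesh qb.1) qb.2.1 x →
        In1 o.re δ (mesh qb.1) qb.2.1 w1 := fun x hx h =>
      in1_out hδ hle hm1 hw.1 h hx hc
    have p1 : Relation.ReflTransGen (Rs fun v => v ∈ verts δ o q ∧ v ∉ Vn δ o U ∪ verts δ o qb)
        (w1, w2) (m1, w2) := by
      refine rs_hor fun x hx => ⟨hin x w2 hx b2, hnot _ _ ?_ ?_⟩
      · rintro c hcU ⟨h1, h2⟩
        exact hUw c hcU ⟨hI c hcU x hx h1, h2⟩
      · rintro ⟨h1, h2⟩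
        exact hbw ⟨hIb x hx h1, h2⟩
    refine p1.trans (rs_ver fun y hy => ⟨hin m1 y b3 hy, hnot _ _ ?_ ?_⟩)
    · rintro c hcU ⟨h1, h2⟩
      refine hUw c hcU ⟨?_, hJ c hcU y hy h2⟩
      rw [in1_same hη hm1 h1]
      exact hw.1
    · rintro ⟨h1, h2⟩
      exact hc h1

end

end Pool.Agent.H28.Q1
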