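import Mathlib
import Pool.Agent.H28.Q1.Typ1
import Pool.Agent.H14.Jordan.Ext

set_option autoImplicit false
open Finset Filter Topology

/-! # Cells which are not free

`core_new` : next to the visible cells there is a cell which is not free. `ext_path` : a cell not
contained in `D` is joined to lattice points outside the discrete domain. -/

namespace Pool.Agent.H28.Q1

open Pool.Agent.H75.Perc Pool.Agent.H75.TwoArm Pool.Agent.H75.Four Pool.Agent.H69.Q1
open Pool.Agent.H81.Q1 (pt DDomain Approx IsJordanDomain IsArcs)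
open Pool.Agent.Q1.M3

/-! ### Coordinates -/

lemma exists_coord {δ lo hi : ℝ} (hδ : 0 < δ) (h : lo + δ < hi) :
    ∃ m : ℤ, lo < δ * m ∧ δ * m < hi := by
  refine ⟨⌊lo / δ⌋ + 1, ?_, ?_⟩
  · have := Int.lt_floor_add_one (lo / δ)
    rw [div_lt_iff₀ hδ] at this
    push_cast
    linarith
  · have := Int.floor_le (lo / δ)
    rw [le_div_iff₀ hδ] at this
    push_cast
    linarith

lemma exists_coord_near {δ lo hi x : ℝ} (hδ : 0 < δ) (h : lo + 4 * δ < hi) (h1 : lo ≤ x)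
    (h2 : x ≤ hi) : ∃ m : ℤ, lo < δ * m ∧ δ * m < hi ∧ |δ * m - x| ≤ 2 * δ := by
  rcases le_or_gt (x + 2 * δ) hi with h3 | h3
  · obtain ⟨m, h4, h5⟩ := exists_coord (lo := x) (hi := x + 2 * δ) hδ (by linarith)
    exact ⟨m, by linarith, by linarith, by rw [abs_le]; constructor <;> linarith⟩
  · obtain ⟨m, h4, h5⟩ := exists_coord (lo := x - 2 * δ) (hi := x) hδ (by linarith)
    exact ⟨m, by linarith, by linarith, by rw [abs_le]; constructor <;> linarith⟩

lemma mem_core' (o : ℂ) (k : ℕ) (z : ℂ) :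
    (o.re + ((core o k z).2.1 : ℝ) * mesh k ≤ z.re ∧
      z.re < o.re + (((core o k z).2.1 : ℝ) + 1) * mesh k) ∧
    (o.im + ((core o k z).2.2 : ℝ) * mesh k ≤ z.im ∧
      z.im < o.im + (((core o k z).2.2 : ℝ) + 1) * mesh k) := by
  have hm := mesh_pos k
  have key : ∀ t x0 : ℝ, x0 + ((⌊(t - x0) / mesh k⌋ : ℤ) : ℝ) * mesh k ≤ t ∧
      t < x0 + (((⌊(t - x0) / mesh k⌋ : ℤ) : ℝ) + 1) * mesh k := by
    intro t x0
    have h1 := Int.floor_le ((t - x0) / mesh k)
    have h2 := Int.lt_floor_add_one ((t - x0) / mesh k)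
    rw [le_div_iff₀ hm] at h1
    rw [div_lt_iff₀ hm] at h2
    constructor <;> linarith
  exact ⟨key _ _, key _ _⟩

/-! ### The new cell -/

section

variable {D : Set ℂ} {δ : ℝ} {o : ℂ} {qb : Cell} {k0 : ℕ} {E : Finset (ℤ × ℤ)} {v v' : ℤ × ℤ}

/-- The cell of a vertex next to the visible cells is neither visible nor free. -/
lemma core_new (hDb : Bornology.IsBounded D) (hδ : 0 < δ) (hδ3 : 3 * δ < mesh k0)
    (hu : IsUnit4 (v' - v)) (hv : v ∈ Vn δ o (Uk D δ o qb k0 E) ∪ verts δ o qb)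
    (hv' : v' ∉ Vn δ o (Uk D δ o qb k0 E) ∪ verts δ o qb) :
    core o k0 (pt δ v') ∉ Uk D δ o qb k0 E ∧ ¬ Free D δ o E (core o k0 (pt δ v')) := by
  set q := core o k0 (pt δ v') with hq
  have hq1 : q.1 = k0 := rfl
  have h1 : q ∉ Uk D δ o qb k0 E := fun h =>
    hv' (mem_union_left _ (mem_Vn.2 ⟨q, h, (mem_verts hδ).2 (mem_core _ _ _)⟩))
  refine ⟨h1, fun hF => h1 ?_⟩
  have hm := mesh_pos k0
  have hvq : pt δ v ∈ fat o q := by
    obtain ⟨⟨g1, g2⟩, g3, g4⟩ := mem_core' o k0 (pt δ v')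
    rw [← hq] at g1 g2 g3 g4
    unfold pt at g1 g2 g3 g4 ⊢
    simp only at g1 g2 g3 g4
    have h4 := unit_cases hu
    have e1 : |(v.1 : ℝ) - v'.1| ≤ 1 := by
      have : |v.1 - v'.1| ≤ 1 := by rw [abs_le]; omega
      exact_mod_cast this
    have e2 : |(v.2 : ℝ) - v'.2| ≤ 1 := by
      have : |v.2 - v'.2| ≤ 1 := by rw [abs_le]; omega
      exact_mod_cast this
    rw [abs_le] at e1 e2
    have f1 : δ * v.1 - δ * v'.1 ≤ δ := by nlinarith
    have f2 : -δ ≤ δ * v.1 - δ * v'.1 := by nlinarith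
    have f3 : δ * v.2 - δ * v'.2 ≤ δ := by nlinarith
    have f4 : -δ ≤ δ * v.2 - δ * v'.2 := by nlinarith
    unfold fat
    rw [Set.mem_ofPred_eq, hq1]
    refine ⟨?_, ?_, ?_, ?_⟩ <;> simp only <;> linarith
  rw [mem_Uk hDb]
  rcases mem_union.1 hv with h2 | h2
  · obtain ⟨c, hc, h3⟩ := mem_Vn.1 h2
    rw [mem_Uk hDb] at hc
    exact ConnC.cons hq1 hF ⟨pt δ v, hvq, (mem_verts hδ).1 h3⟩ hc
  · exact ConnC.single hq1 hF ⟨pt δ v, hvq, (mem_verts hδ).1 h2⟩

/-- the centre of the new cell is not covered by the base cell -/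
lemma exists_centre (hδ : 0 < δ) (hδ3 : 3 * δ < mesh k0) (hqb : qb.1 ≤ k0)
    (hgen : ∀ m j : ℤ, o.re + m * mesh k0 ≠ δ * j ∧ o.im + m * mesh k0 ≠ δ * j)
    (hv' : v' ∉ verts δ o qb) :
    ∃ m : ℤ × ℤ, Mid1 o.re δ (mesh k0) (core o k0 (pt δ v')).2.1 m.1 ∧
      Mid1 o.im δ (mesh k0) (core o k0 (pt δ v')).2.2 m.2 ∧ m ∉ verts δ o qb := by
  have hm := mesh_pos k0
  obtain ⟨⟨g1, g2⟩, g3, g4⟩ := mem_core' o k0 (pt δ v')
  set q := core o k0 (pt δ v') with hq
  obtain ⟨m1, h1, h2⟩ := exists_coord (lo := o.re + ((q.2.1 : ℝ) + 1 / 3) * mesh k0)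
    (hi := o.re + ((q.2.1 : ℝ) + 2 / 3) * mesh k0) hδ (by linarith)
  obtain ⟨m2, h3, h4⟩ := exists_coord (lo := o.im + ((q.2.2 : ℝ) + 1 / 3) * mesh k0)
    (hi := o.im + ((q.2.2 : ℝ) + 2 / 3) * mesh k0) hδ (by linarith)
  refine ⟨(m1, m2), ⟨h1, h2⟩, ⟨h3, h4⟩, fun h => hv' ?_⟩
  rw [mem_verts_in1 hδ] at h ⊢
  exact ⟨in1_core hqb ⟨h1, h2⟩ h.1 g1 g2 (hgen _ _).1, in1_core hqb ⟨h3, h4⟩ h.2 g3 g4 (hgen _ _).2⟩

end

/-! ### Exterior points -/

/-- A point outside `D` has a neighbourhood disjoint from the cells in `D`, which contains points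
of the exterior. -/
lemma ext_data {D : Set ℂ} (hDb : Bornology.IsBounded D) (hDo : IsOpen D)
    (hJ : frontier D ⊆ closure (closure D)ᶜ) {o : ℂ} (k0 : ℕ) {qb : Cell} (hqb : cfat o qb ⊆ D)
    {z : ℂ} (hz : z ∉ D) {e : ℝ} (he : 0 < e) :
    ∃ d > 0, d ≤ e ∧ (∀ c : Cell, (c.1 = k0 ∧ cfat o c ⊆ D) ∨ c = qb → ∀ x, dist x z < d →
      x ∉ cfat o c) ∧ ∃ z', dist z' z < d / 8 ∧ z' ∉ closure D := by
  classical
  have hcl : ∀ q : Cell, IsClosed (cfat o q) := by
    intro q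
    unfold cfat
    exact (isClosed_le continuous_const Complex.continuous_re).inter
      ((isClosed_le Complex.continuous_re continuous_const).inter
        ((isClosed_le continuous_const Complex.continuous_im).inter
          (isClosed_le Complex.continuous_im continuous_const)))
  set C : Finset Cell := insert qb (cells D o k0) with hC
  set K : Set ℂ := ⋃ q ∈ C, cfat o q with hK
  have hKc : IsClosed K := by
    rw [hK]
    exact Set.Finite.isClosed_biUnion C.finite_toSet fun q _ => hcl q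
  have hzK : z ∈ Kᶜ := by
    intro h
    obtain ⟨q, hq, hzq⟩ := Set.mem_iUnion₂.1 h
    rcases mem_insert.1 hq with h1 | h1
    · rw [h1] at hzq
      exact hz (hqb hzq)
    · exact hz (((mem_cells hDb).1 h1).2 hzq)
  obtain ⟨d, hd, hball⟩ := Metric.isOpen_iff.1 hKc.isOpen_compl z hzK
  refine ⟨min d e, lt_min hd he, min_le_right _ _, ?_, ?_⟩
  · intro c hc x hx hxc
    refine hball (Metric.mem_ball.2 (lt_of_lt_of_le hx (min_le_left _ _))) ?_
    refine Set.mem_iUnion₂.2 ⟨c, ?_, hxc⟩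
    rcases hc with h1 | h1
    · exact mem_insert_of_mem ((mem_cells hDb).2 h1)
    · rw [h1]; exact mem_insert_self _ _
  · have hpos : 0 < min d e / 8 := by
      have := lt_min hd he
      positivity
    by_cases hzc : z ∈ closure D
    · have hzf : z ∈ frontier D := by
        rw [hDo.frontier_eq]
        exact ⟨hzc, hz⟩
      obtain ⟨z', h1, h2⟩ := Metric.mem_closure_iff.1 (hJ hzf) _ hpos
      exact ⟨z', by rw [dist_comm]; exact h2, h1⟩
    · exact ⟨z, by rw [dist_self]; exact hpos, hzc⟩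

/-- the distance from the coordinates -/
lemma dist_coord {x z : ℂ} {e : ℝ} (h1 : |x.re - z.re| < e) (h2 : |x.im - z.im| < e) :
    dist x z < 2 * e := by
  rw [dist_eq_norm]
  have := Complex.norm_le_abs_re_add_abs_im (x - z)
  rw [Complex.sub_re, Complex.sub_im] at this
  linarith

lemma coord_dist {x z : ℂ} : |x.re - z.re| ≤ dist x z ∧ |x.im - z.im| ≤ dist x z := by
  rw [dist_eq_norm]
  constructor
  · have := Complex.abs_re_le_norm (x - z)
    rwa [Complex.sub_re] at this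
  · have := Complex.abs_im_le_norm (x - z)
    rwa [Complex.sub_im] at this

/-- betweenness and distances -/
lemma bt_near {δ z e : ℝ} (hδ : 0 < δ) {a b x : ℤ} (ha : |δ * a - z| < e) (hb : |δ * b - z| < e)
    (hx : Bt a b x) : |δ * x - z| < e := by
  rw [abs_lt] at ha hb ⊢
  rcases hx with ⟨b1, b2⟩ | ⟨b1, b2⟩
  · have c1 : δ * a ≤ δ * x := mul_le_mul_of_nonneg_left (by exact_mod_cast b1) hδ.le
    have c2 : δ * x ≤ δ * b := mul_le_mul_of_nonneg_left (by exact_mod_cast b2) hδ.le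
    constructor <;> linarith
  · have c1 : δ * b ≤ δ * x := mul_le_mul_of_nonneg_left (by exact_mod_cast b1) hδ.le
    have c2 : δ * x ≤ δ * a := mul_le_mul_of_nonneg_left (by exact_mod_cast b2) hδ.le
    constructor <;> linarith

/-- the coordinates of a point of the closed fat cell and of a vertex of the cell -/
lemma fat_coord {o : ℂ} {q : Cell} {x z : ℂ} (hx : x ∈ cfat o q) (hz : z ∈ cfat o q) :
    |x.re - z.re| ≤ 5 / 3 * mesh q.1 ∧ |x.im - z.im| ≤ 5 / 3 * mesh q.1 := by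
  obtain ⟨h1, h2, h3, h4⟩ := hx
  obtain ⟨g1, g2, g3, g4⟩ := hz
  constructor <;> rw [abs_le] <;> constructor <;> linarith

/-- **Paths to the exterior.** -/
theorem ext_path {D : Set ℂ} {a b : ℂ} {A₁ A₂ : Set ℂ} (hDb : Bornology.IsBounded D)
    (hDo : IsOpen D) (hDn : D.Nonempty) (hJ : frontier D ⊆ closure (closure D)ᶜ)
    (A : Approx D a b A₁ A₂) {o : ℂ} (k0 : ℕ) {qb : Cell} (hqb : cfat o qb ⊆ D)
    {q : Cell} (hq : q.1 = k0) (hqD : ¬ cfat o q ⊆ D) :
    ∀ᶠ n in atTop, ∀ U : Finset Cell, (∀ c ∈ U, c.1 = k0 ∧ cfat o c ⊆ D) →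
      ∃ w w' : ℤ × ℤ, w ∈ verts (A.δ n) o q ∧
        w ∉ Vn (A.δ n) o U ∪ verts (A.δ n) o qb ∧ w' ∉ (A.X n).V ∧
        Relation.ReflTransGen (Rs fun v => v ∉ Vn (A.δ n) o U ∪ verts (A.δ n) o qb ∧
          ∀ x ∈ verts (A.δ n) o q, |A.δ n * v.1 - A.δ n * x.1| ≤ 3 * mesh k0 ∧
            |A.δ n * v.2 - A.δ n * x.2| ≤ 3 * mesh k0) w w' := by
  classical
  have hm := mesh_pos k0
  obtain ⟨z, hzq, hzD⟩ := Set.not_subset.1 hqD
  obtain ⟨d, hd, hde, hdc, z', hz', hzc⟩ := ext_data hDb hDo hJ k0 hqb hzD hm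
  have hinf : 0 < Metric.infDist z' D := by
    rw [← Metric.infDist_closure]
    exact (isClosed_closure.notMem_iff_infDist_pos hDn.closure).1 hzc
  have e1 : ∀ᶠ n in atTop, A.δ n < min (d / 32) (Metric.infDist z' D / 16) :=
    A.lim.eventually_lt_const (by positivity)
  filter_upwards [e1, A.sub (Metric.infDist z' D / 2) (by positivity)] with n h1 h2
  have hδ := A.pos n
  set δ := A.δ n with hδd
  have h1a : δ < d / 32 := lt_of_lt_of_le h1 (min_le_left _ _)
  have h1b : δ < Metric.infDist z' D / 16 := lt_of_lt_of_le h1 (min_le_right _ _)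
  intro U hU
  -- the vertex of the cell near `z`
  have hzq' := hzq
  obtain ⟨g1, g2, g3, g4⟩ := hzq'
  rw [hq] at g1 g2 g3 g4
  obtain ⟨w1, a1, a2, a3⟩ := exists_coord_near hδ (by linarith) g1 g2
  obtain ⟨w2, b1, b2, b3⟩ := exists_coord_near hδ (by linarith) g3 g4
  -- the lattice point near `z'`
  obtain ⟨u1, c1, c2⟩ := exists_coord (lo := z'.re) (hi := z'.re + 2 * δ) hδ (by linarith)
  obtain ⟨u2, c3, c4⟩ := exists_coord (lo := z'.im) (hi := z'.im + 2 * δ) hδ (by linarith)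
  obtain ⟨k1, k2⟩ := coord_dist (x := z') (z := z)
  rw [abs_le] at k1 k2
  have hw1 : |δ * w1 - z.re| < d / 4 := by linarith
  have hw2 : |δ * w2 - z.im| < d / 4 := by linarith
  have hu1 : |δ * u1 - z.re| < d / 4 := by rw [abs_lt]; constructor <;> linarith
  have hu2 : |δ * u2 - z.im| < d / 4 := by rw [abs_lt]; constructor <;> linarith
  have hgood : ∀ x y : ℤ, |δ * x - z.re| < d / 4 → |δ * y - z.im| < d / 4 →
      (x, y) ∉ Vn δ o U ∪ verts δ o qb ∧
        ∀ p ∈ verts δ o q, |δ * ((x, y) : ℤ × ℤ).1 - δ * p.1| ≤ 3 * mesh k0 ∧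
          |δ * ((x, y) : ℤ × ℤ).2 - δ * p.2| ≤ 3 * mesh k0 := by
    intro x y hx hy
    constructor
    · have hdist : dist (pt δ (x, y)) z < d := by
        have := dist_coord (x := pt δ (x, y)) (z := z) (e := d / 4) hx hy
        linarith
      intro h
      rcases mem_union.1 h with h3 | h3
      · obtain ⟨c, hc, h4⟩ := mem_Vn.1 h3
        exact hdc c (Or.inl (hU c hc)) _ hdist (fat_sub_cfat _ _ ((mem_verts hδ).1 h4))
      · exact hdc qb (Or.inr rfl) _ hdist (fat_sub_cfat _ _ ((mem_verts hδ).1 h3))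
    · intro p hp
      have h5 := fat_coord (fat_sub_cfat _ _ ((mem_verts hδ).1 hp)) hzq
      rw [hq] at h5
      obtain ⟨h6, h7⟩ := h5
      simp only [pt] at h6 h7
      rw [abs_lt] at hx hy
      rw [abs_le] at h6 h7
      simp only
      constructor <;> rw [abs_le] <;> constructor <;> linarith
  refine ⟨(w1, w2), (u1, u2), ?_, (hgood w1 w2 hw1 hw2).1, ?_, ?_⟩
  · rw [mem_verts_in1 hδ, hq]
    exact ⟨⟨a1, a2⟩, b1, b2⟩
  · intro h
    have h3 := h2 _ h
    have h4 : dist (pt δ (u1, u2)) z' < 2 * (2 * δ) := by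
      refine dist_coord ?_ ?_ <;> simp only [pt] <;> rw [abs_lt] <;> constructor <;> linarith
    have h5 := Metric.infDist_le_infDist_add_dist (s := D) (x := z') (y := pt δ (u1, u2))
    rw [dist_comm] at h5
    linarith
  · exact rs_box fun x y hx hy => hgood x y (bt_near hδ hw1 hu1 hx) (bt_near hδ hw2 hu2 hy)

end Pool.Agent.H28.Q1
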