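import Mathlib
import Pool.Agent.H28.Q1.Typ0
import Pool.Agent.H28.Q1.Typ2
import Pool.Agent.H43.Q1.Final

set_option autoImplicit false
open Finset Filter Topology

/-! # Types of the labels around the visible cells; the steps are small

`stTyp` : `StTyp` holds in Jordan domains. `stSmall_jordan` : `StSmall` holds in Jordan domains. -/

namespace Pool.Agent.H28.Q1

open Pool.Agent.H75.Perc Pool.Agent.H75.TwoArm Pool.Agent.H75.Four Pool.Agent.H99.NC
open Pool.Agent.H69.Q1 Pool.Agent.H39.Q1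
open Pool.Agent.H81.Q1 (pt DDomain Approx IsJordanDomain IsArcs toDEnv_E toDEnv_W toDEnv_β)
open Pool.Agent.H43.Q1
open Pool.Agent.Q1.M3

/-- the four labels at a vertex -/
lemma exists_corner_star1 {w e : ℤ × ℤ} (h : e ∈ star1 w) : ∃ d, vx d = w ∧ plab d = e := by
  obtain ⟨d, h1, h2, -⟩ := exists_vx (v := w) (v' := e - w) (e := e) (by
    unfold star1 at h
    simp only [mem_insert, mem_singleton] at h
    unfold IsUnit4
    rcases h with rfl | rfl | rfl | rfl <;>
      simp only [Prod.ext_iff, Prod.fst_sub, Prod.snd_sub] <;> omega) (by abel)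
  exact ⟨d, h1, h2⟩

/-- a corner at every vertex -/
lemma exists_vx' (w : ℤ × ℤ) : ∃ d, vx d = w := by
  obtain ⟨d, h, -⟩ := exists_corner_star1 (w := w) (e := (2 * w.1 + 1, 2 * w.2)) (by
    unfold star1; simp)
  exact ⟨d, h⟩

/-- **[TYP]** -/
theorem stTyp {D : Set ℂ} {a b : ℂ} {A₁ A₂ : Set ℂ} (hD : IsJordanDomain D)
    (hA : IsArcs D a b A₁ A₂) (A : Approx D a b A₁ A₂) : StTyp A := by
  classical
  obtain ⟨hDo, hDc, hDb, J, hJ, hJi, hJf⟩ := hD
  have hJF : frontier D ⊆ closure (closure D)ᶜ :=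
    (Pool.Agent.H14.Jordan.exists_isJD hDo hDc hDb hJ hJi hJf).frontier_subset_closure_exterior
  intro r0 B ρ1 hρ1
  obtain ⟨k01, hk01⟩ := mesh_lt (show (0 : ℝ) < ρ1 / 8 by positivity)
  refine ⟨max k01 B.qb.1, fun k0 hk0 => ?_⟩
  have hM := hk01 k0 (le_of_max_le_left hk0)
  have hkb : B.qb.1 ≤ k0 := le_of_max_le_right hk0
  have hm := mesh_pos k0
  have hqbD : cfat B.o B.qb ⊆ D := (B.subQ 0 _ B.qb_mem).trans Set.inter_subset_left
  -- the finite set of cells
  obtain ⟨R, hR⟩ := hDb.subset_closedBall 0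
  obtain ⟨M, hMb⟩ : ∃ M : ℤ, (|R| + 1 + ‖B.o‖) / mesh k0 + 1 ≤ M := ⟨_, Int.le_ceil _⟩
  set Qf : Finset Cell := {k0} ×ˢ (Icc (-M) M ×ˢ Icc (-M) M) with hQf
  have hext : ∀ᶠ n in atTop, ∀ q ∈ Qf, ¬ cfat B.o q ⊆ D → ∀ U : Finset Cell,
      (∀ c ∈ U, c.1 = k0 ∧ cfat B.o c ⊆ D) →
      ∃ w w' : ℤ × ℤ, w ∈ verts (A.δ n) B.o q ∧
        w ∉ Vn (A.δ n) B.o U ∪ verts (A.δ n) B.o B.qb ∧ w' ∉ (A.X n).V ∧
        Relation.ReflTransGen (Rs fun v => v ∉ Vn (A.δ n) B.o U ∪ verts (A.δ n) B.o B.qb ∧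
          ∀ x ∈ verts (A.δ n) B.o q, |A.δ n * v.1 - A.δ n * x.1| ≤ 3 * mesh k0 ∧
            |A.δ n * v.2 - A.δ n * x.2| ≤ 3 * mesh k0) w w' := by
    rw [Filter.eventually_all_finset]
    intro q hq
    have hq1 : q.1 = k0 := by
      rw [hQf, mem_product, mem_singleton] at hq
      exact hq.1
    by_cases hqD : cfat B.o q ⊆ D
    · exact Filter.Eventually.of_forall fun n h => absurd hqD h
    · filter_upwards [ext_path hDb hDo hDc.nonempty hJF A k0 hqbD hq1 hqD] with n h _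
      exact h
  have hfree : ∀ᶠ n in atTop, star (Vn (A.δ n) B.o {B.qb}) ⊆ (X0 A n).E :=
    star_free hDo hDb hA A B.o (C := {B.qb}) (fun q hq => by
      rw [mem_singleton.1 hq]; exact hqbD)
  have e1 : ∀ᶠ n in atTop, A.δ n < min (1 / 2) (mesh k0 / 8) := A.lim.eventually_lt_const (by positivity)
  filter_upwards [hext, hfree, e1, B.hN 0] with n h1 h2 h3 h4
  have hδ := A.pos n
  have hδ1 : A.δ n < 1 / 2 := lt_of_lt_of_le h3 (min_le_left _ _)
  have hδm : A.δ n < mesh k0 / 8 := lt_of_lt_of_le h3 (min_le_right _ _)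
  intro ω hω t ht hunm K hK1 hK2 c hc1 hc2 hc3
  set Y := env (X0 A n) ω hω t with hY
  set δ := A.δ n with hδd
  set U := Uk D δ B.o B.qb k0 Y.E with hU
  have hVU : Vn δ B.o (Ub B k0 n Y.E) = Vn δ B.o U ∪ verts δ B.o B.qb := by
    ext v
    unfold Ub
    rw [mem_Vn, mem_union, mem_Vn]
    constructor
    · rintro ⟨q, hq, h5⟩
      rcases mem_insert.1 hq with h6 | h6
      · rw [h6] at h5; exact Or.inr h5
      · exact Or.inl ⟨q, h6, h5⟩
    · rintro (⟨q, hq, h5⟩ | h5)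
      · exact ⟨q, mem_insert_of_mem hq, h5⟩
      · exact ⟨_, mem_insert_self _ _, h5⟩
  rw [hVU] at hK1 hK2
  -- the labels at the base cell are free
  have hqE : star (verts δ B.o B.qb) ⊆ Y.E := by
    intro e he
    rw [hY, mem_env_E hω ht]
    refine ⟨h2 ?_, fun k hk h5 => ?_⟩
    · refine star_mono ?_ he
      intro v hv
      exact mem_Vn.2 ⟨_, mem_singleton_self _, hv⟩
    · obtain ⟨N', hN', -⟩ := h4
      refine hunm k hk ?_
      rw [h5]
      refine star_mono ?_ he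
      rw [hN']
      intro v hv
      exact mem_union_left _ (mem_Vn.2 ⟨_, B.qb_mem, hv⟩)
  have hUfree : ∀ q ∈ U, q.1 = k0 ∧ Free D δ B.o Y.E q := by
    intro q hq
    rw [hU, mem_Uk hDb] at hq
    exact hq.head
  by_cases hbc : dist (pt δ (vx c)) b < 2 * ρ1
  · exact Or.inr (Or.inr hbc)
  push Not at hbc
  have hvVU : vx c ∈ Vn δ B.o U ∪ verts δ B.o B.qb := by
    rcases hK2 _ hc1 with h5 | h5
    · exact h5
    · linarith
  set v' := vx (oc c) with hv'd
  have hv'VU : v' ∉ Vn δ B.o U ∪ verts δ B.o B.qb := fun h => hc2 (hK1 h)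
  have hu := (plab_ends c).1
  rw [← hv'd] at hu
  obtain ⟨hqU, hqF⟩ := core_new hDb hδ (by linarith) hu hvVU hv'VU
  set q := core B.o k0 (pt δ v') with hq
  have hq1 : q.1 = k0 := rfl
  obtain ⟨m, hm1, hm2, hmb⟩ := exists_centre hδ (by linarith) hkb (B.gen n k0)
    (fun h => hv'VU (mem_union_right _ h))
  rw [← hq] at hm1 hm2
  have hv'q : v' ∈ verts δ B.o q := (mem_verts hδ).2 (mem_core _ _ _)
  have hpath : ∀ w, w ∈ verts δ B.o q → w ∉ Vn δ B.o U ∪ verts δ B.o B.qb →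
      Relation.ReflTransGen (Rs fun v => v ∈ verts δ B.o q ∧
        v ∉ Vn δ B.o U ∪ verts δ B.o B.qb) v' w := by
    intro w hw1 hw2
    have g1 := path_mid (U := U) hδ hq1 hkb (fun c hc => (hUfree c hc).1) hqU hm1 hm2 hmb hv'q hv'VU
    have g2 := path_mid (U := U) hδ hq1 hkb (fun c hc => (hUfree c hc).1) hqU hm1 hm2 hmb hw1 hw2
    exact g1.trans (rs_symm g2)
  -- the walk
  set S : ℤ × ℤ → Prop := fun v => v ∉ Vn δ B.o U ∪ verts δ B.o B.qb ∧
    |δ * v.1 - δ * v'.1| ≤ 3 * mesh k0 ∧ |δ * v.2 - δ * v'.2| ≤ 3 * mesh k0 with hSd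
  set s : ℤ := ⌈8 * mesh k0 / δ⌉ - 2 with hsd
  have hs8 : 8 * mesh k0 - 2 * δ ≤ δ * s := by
    have := mul_le_mul_of_nonneg_left (Int.le_ceil (8 * mesh k0 / δ)) hδ.le
    rw [mul_div_cancel₀ _ hδ.ne'] at this
    rw [hsd]
    push_cast
    linarith
  have hs0 : 0 ≤ s := by
    have : (0 : ℝ) < δ * s := by linarith
    have := (mul_pos_iff_of_pos_left hδ).1 this
    exact_mod_cast this.le
  have hnear : ∀ x y : ℤ, |δ * x - δ * y| ≤ 3 * mesh k0 → |x - y| ≤ s := by
    intro x y hxy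
    rw [← mul_sub, abs_mul, abs_of_pos hδ] at hxy
    have g1 : δ * |(x : ℝ) - y| ≤ δ * s := by linarith
    have g2 := le_of_mul_le_mul_left g1 hδ
    exact_mod_cast g2
  have hSK : ∀ v, S v → v ∉ K ∧ Near s v' v := by
    rintro v ⟨g1, g2, g3⟩
    refine ⟨fun hvK => ?_, hnear _ _ g2, hnear _ _ g3⟩
    rcases hK2 v hvK with g4 | g4
    · exact g1 g4
    · have h4 := unit_cases hu
      have f1 : |((vx c).1 : ℝ) - v'.1| ≤ 1 := by
        have : |(vx c).1 - v'.1| ≤ 1 := by rw [abs_le]; omega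
        exact_mod_cast this
      have f2 : |((vx c).2 : ℝ) - v'.2| ≤ 1 := by
        have : |(vx c).2 - v'.2| ≤ 1 := by rw [abs_le]; omega
        exact_mod_cast this
      rw [abs_le] at f1 f2 g2 g3
      have f3 : δ * ((vx c).1 : ℝ) - δ * v'.1 ≤ δ := by nlinarith
      have f4 : -δ ≤ δ * ((vx c).1 : ℝ) - δ * v'.1 := by nlinarith
      have f5 : δ * ((vx c).2 : ℝ) - δ * v'.2 ≤ δ := by nlinarith
      have f6 : -δ ≤ δ * ((vx c).2 : ℝ) - δ * v'.2 := by nlinarith
      have g5 : dist (pt δ (vx c)) (pt δ v) < 2 * (4 * mesh k0) := by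
        refine dist_coord ?_ ?_ <;> simp only [pt] <;> rw [abs_lt] <;> constructor <;> linarith
      have g6 := dist_triangle (pt δ (vx c)) (pt δ v) b
      linarith
  have hS0 : S v' := ⟨hv'VU, by rw [sub_self, abs_zero]; positivity,
    by rw [sub_self, abs_zero]; positivity⟩
  have hconv : ∀ v, v ∈ verts δ B.o q ∧ v ∉ Vn δ B.o U ∪ verts δ B.o B.qb → S v := by
    rintro v ⟨g1, g2⟩
    have g3 := fat_coord (fat_sub_cfat _ _ ((mem_verts hδ).1 g1))
      (fat_sub_cfat _ _ ((mem_verts hδ).1 hv'q))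
    rw [hq1] at g3
    simp only [pt] at g3
    exact ⟨g2, g3.1.trans (by linarith), g3.2.trans (by linarith)⟩
  have hmono : ∀ {S' : ℤ × ℤ → Prop}, (∀ v, S' v → S v) → ∀ {u w},
      Relation.ReflTransGen (Rs S') u w →
      Relation.ReflTransGen (fun u v => IsUnit4 (v - u) ∧ S v) u w := by
    intro S' hS' u w h
    exact Relation.ReflTransGen.mono (fun x y hxy => ⟨hxy.1, hS' _ hxy.2.2⟩) _ _ h
  have key : ∃ w, Relation.ReflTransGen (fun u v => IsUnit4 (v - u) ∧ S v) v' w ∧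
      ∃ d, vx d = w ∧ plab d ∉ Y.E := by
    by_cases hqD : cfat B.o q ⊆ D
    · have g1 : ¬ star (verts δ B.o q) ⊆ Y.E := fun h => hqF ⟨hqD, h⟩
      obtain ⟨e, he, heE⟩ := not_subset.1 g1
      obtain ⟨w, hw, hew⟩ := mem_star.1 he
      obtain ⟨d, hd1, hd2⟩ := exists_corner_star1 hew
      refine ⟨w, hmono hconv (hpath w hw fun hwU => heE ?_), d, hd1, by rw [hd2]; exact heE⟩
      rcases mem_union.1 hwU with g2 | g2
      · obtain ⟨c', hc', g3⟩ := mem_Vn.1 g2
        exact (hUfree c' hc').2.2 (mem_star.2 ⟨w, g3, hew⟩)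
      · exact hqE (mem_star.2 ⟨w, g2, hew⟩)
    · have hqQ : q ∈ Qf := by
        have hbd : ∀ x y : ℝ, |x| ≤ |R| + 1 → |y| ≤ ‖B.o‖ →
            ∀ i : ℤ, y + (i : ℝ) * mesh k0 ≤ x → x < y + ((i : ℝ) + 1) * mesh k0 →
            -M ≤ i ∧ i ≤ M := by
          intro x y hx hy i g1 g2
          rw [abs_le] at hx hy
          have g3 : (i : ℝ) ≤ M := by
            refine le_trans ?_ hMb
            have : (i : ℝ) ≤ (|R| + 1 + ‖B.o‖) / mesh k0 := by
              rw [le_div_iff₀ hm]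
              linarith
            linarith
          have g4 : -(M : ℝ) ≤ i := by
            have : -((|R| + 1 + ‖B.o‖) / mesh k0) ≤ (i : ℝ) + 1 := by
              rw [neg_le_iff_add_nonneg]
              have : 0 ≤ ((i : ℝ) + 1 + (|R| + 1 + ‖B.o‖) / mesh k0) * mesh k0 := by
                rw [add_mul, div_mul_cancel₀ _ hm.ne']
                linarith
              exact nonneg_of_mul_nonneg_left this hm
            linarith
          constructor
          · have : ((-M : ℤ) : ℝ) ≤ (i : ℝ) := by push_cast; exact g4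
            exact_mod_cast this
          · exact_mod_cast g3
        have hvD : pt δ (vx c) ∈ D := by
          rcases mem_union.1 hvVU with g1 | g1
          · obtain ⟨c', hc', g3⟩ := mem_Vn.1 g1
            exact (hUfree c' hc').2.1 (fat_sub_cfat _ _ ((mem_verts hδ).1 g3))
          · exact hqbD (fat_sub_cfat _ _ ((mem_verts hδ).1 g1))
        have hvR := hR hvD
        rw [Metric.mem_closedBall, dist_zero_right] at hvR
        have hv'R : ‖pt δ v'‖ ≤ |R| + 1 := by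
          have g1 : dist (pt δ v') (pt δ (vx c)) ≤ 2 * δ := by
            rw [dist_comm]
            exact dist_unit hδ hu
          have g2 := norm_le_norm_add_norm_sub' (pt δ v') (pt δ (vx c))
          rw [dist_eq_norm] at g1
          have g3 := le_abs_self R
          linarith
        obtain ⟨⟨g1, g2⟩, g3, g4⟩ := mem_core' B.o k0 (pt δ v')
        rw [← hq] at g1 g2 g3 g4
        rw [hQf, mem_product, mem_product, mem_singleton, mem_Icc, mem_Icc]
        exact ⟨hq1, hbd _ _ ((Complex.abs_re_le_norm _).trans hv'R) (Complex.abs_re_le_norm _) _ g1 g2,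
          hbd _ _ ((Complex.abs_im_le_norm _).trans hv'R) (Complex.abs_im_le_norm _) _ g3 g4⟩
      obtain ⟨w, w', g1, g2, g3, g4⟩ := h1 q hqQ hqD U fun c' hc' =>
        ⟨(hUfree c' hc').1, (hUfree c' hc').2.1⟩
      obtain ⟨d, hd⟩ := exists_vx' w'
      refine ⟨w', (hmono hconv (hpath w g1 g2)).trans (hmono (fun v hv => ?_) g4), d, hd, ?_⟩
      · exact ⟨hv.1, (hv.2 v' hv'q).1, (hv.2 v' hv'q).2⟩
      · intro hdE
        apply g3
        rw [← hd]
        refine vx_mem_V (A.X n) ?_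
        rw [← labE_eq]
        exact mem_union_left _ ((mem_env_E hω ht).1 hdE).1
  obtain ⟨w, hw1, hw2⟩ := key
  have hstop := half_walk (Y := Y) (K := K) (s := s) (c0 := c) hc3 hs0 (S := S) hSK hw1 hS0 hw2
  have hfin := half_type (A.X n) hω ht (fun v hv => (hSK v hv).1) hstop
  have hs2 : s + 2 = ⌈8 * mesh k0 / δ⌉ := by omega
  rw [hs2] at hfin
  rcases hfin with h5 | h5
  · exact Or.inl h5
  · exact Or.inr (Or.inl h5)

/-- **[SMALL]** The steps are small in Jordan domains. -/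
theorem stSmall_jordan {D : Set ℂ} {a b : ℂ} {A₁ A₂ : Set ℂ} (hD : IsJordanDomain D)
    (hA : IsArcs D a b A₁ A₂) (A : Approx D a b A₁ A₂) (hab : a ≠ b) : StSmall A :=
  stSmall_of_typ hD hA A hab (stTyp hD hA A)

end Pool.Agent.H28.Q1
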