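import Pool.Agent.Q1.M3.Pg.SDC
import Pool.Agent.Q1.M3.Pg.Ok
import Pool.Agent.Q1.M3.Pg.Zc
import Pool.Agent.H28.Q1.Typ0
import Pool.Agent.H28.Q1.Typ2
import Pool.Agent.Q1.M3.State
import Pool.Agent.H53.Q1.J20.Expl

set_option autoImplicit false
open Finset Filter Topology

/-! # Dead cells

`dead_cells` : a unit cell next to the visible fine cells and outside the filled region is joined
outside this region to a box with a vertex at which a label is not free. -/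

namespace Pool.Agent.H28.Q1

open Pool.Agent.H75.Perc Pool.Agent.H75.TwoArm Pool.Agent.H75.Four Pool.Agent.H69.Q1
open Pool.Agent.H81.Q1 (pt DDomain Approx IsJordanDomain IsArcs LabE)
open Pool.Agent.Q1.M3 Pool.Agent.Q1.M3.Pg
open Pool.Agent.Q1.M4 (Adj4 Conn4)

/-! ### Unit boxes and fat cells -/

lemma mesh_lo {k K : ℕ} (h : k ≤ K) (i : ℤ) :
    ((i : ℝ) - 1 / 3) * mesh k = ((lo (K - k) i : ℤ) : ℝ) * mesh (K + 1) ∧
      ((i : ℝ) + 4 / 3) * mesh k = ((hi (K - k) i : ℤ) : ℝ) * mesh (K + 1) := by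
  have hmesh : mesh k = 3 ^ (K - k) * (3 * mesh (K + 1)) := by
    unfold mesh
    have h1 : (1 / 3 : ℝ) ^ (K + 1) = (1 / 3) ^ k * ((1 / 3) ^ (K - k) * (1 / 3)) := by
      rw [← mul_assoc, ← pow_add, show k + (K - k) = K by omega, pow_succ]
    rw [h1]
    have h2 : (3 : ℝ) ^ (K - k) * (1 / 3) ^ (K - k) = 1 := by
      rw [← mul_pow]; norm_num
    calc (1 / 3 : ℝ) ^ k = (1 / 3) ^ k * 1 := by ring
      _ = (1 / 3) ^ k * (3 ^ (K - k) * (1 / 3) ^ (K - k)) := by rw [h2]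
      _ = _ := by ring
  rw [hmesh]
  unfold lo hi
  push_cast
  constructor <;> ring

/-- the closed unit box -/
def cbx (o : ℂ) (K : ℕ) (x : ℤ × ℤ) : Set ℂ :=
  {z | (o.re + x.1 * mesh (K + 1) ≤ z.re ∧ z.re ≤ o.re + (x.1 + 1) * mesh (K + 1)) ∧
    (o.im + x.2 * mesh (K + 1) ≤ z.im ∧ z.im ≤ o.im + (x.2 + 1) * mesh (K + 1))}

lemma cbx_sub {o : ℂ} {K : ℕ} {q : Cell} (hq : q.1 ≤ K) {x : ℤ × ℤ} (hx : x ∈ fc K q) :
    cbx o K x ⊆ cfat o q := by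
  rintro z ⟨⟨h1, h2⟩, h3, h4⟩
  rw [mem_fc] at hx
  obtain ⟨⟨g1, g2⟩, g3, g4⟩ := hx
  have hm := mesh_pos (K + 1)
  obtain ⟨e1, e2⟩ := mesh_lo hq q.2.1
  obtain ⟨e3, e4⟩ := mesh_lo hq q.2.2
  have k1 : ((lo (K - q.1) q.2.1 : ℤ) : ℝ) ≤ x.1 := by exact_mod_cast g1
  have k2 : (x.1 : ℝ) + 1 ≤ ((Pg.hi (K - q.1) q.2.1 : ℤ) : ℝ) := by exact_mod_cast g2
  have k3 : ((lo (K - q.1) q.2.2 : ℤ) : ℝ) ≤ x.2 := by exact_mod_cast g3
  have k4 : (x.2 : ℝ) + 1 ≤ ((Pg.hi (K - q.1) q.2.2 : ℤ) : ℝ) := by exact_mod_cast g4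
  have f1 := mul_le_mul_of_nonneg_right k1 hm.le
  have f2 := mul_le_mul_of_nonneg_right k2 hm.le
  have f3 := mul_le_mul_of_nonneg_right k3 hm.le
  have f4 := mul_le_mul_of_nonneg_right k4 hm.le
  unfold cfat
  rw [Set.mem_ofPred_eq, e1, e2, e3, e4]
  refine ⟨?_, ?_, ?_, ?_⟩ <;> linarith

/-- Cells with a common unit cell are adjacent. -/
lemma adjC_of_fc {o : ℂ} {K : ℕ} {q q' : Cell} (hq : q.1 ≤ K) (hq' : q'.1 ≤ K) {x : ℤ × ℤ}
    (hx : x ∈ fc K q) (hx' : x ∈ fc K q') : AdjC o q q' := by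
  have hm := mesh_pos (K + 1)
  have key : ∀ p : Cell, p.1 ≤ K → x ∈ fc K p →
      (⟨o.re + (x.1 + 1 / 2) * mesh (K + 1), o.im + (x.2 + 1 / 2) * mesh (K + 1)⟩ : ℂ) ∈
        fat o p := by
    intro p hp h
    rw [mem_fc] at h
    obtain ⟨⟨g1, g2⟩, g3, g4⟩ := h
    obtain ⟨e1, e2⟩ := mesh_lo hp p.2.1
    obtain ⟨e3, e4⟩ := mesh_lo hp p.2.2
    have k1 : ((lo (K - p.1) p.2.1 : ℤ) : ℝ) ≤ x.1 := by exact_mod_cast g1
    have k2 : (x.1 : ℝ) + 1 ≤ ((Pg.hi (K - p.1) p.2.1 : ℤ) : ℝ) := by exact_mod_cast g2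
    have k3 : ((lo (K - p.1) p.2.2 : ℤ) : ℝ) ≤ x.2 := by exact_mod_cast g3
    have k4 : (x.2 : ℝ) + 1 ≤ ((Pg.hi (K - p.1) p.2.2 : ℤ) : ℝ) := by exact_mod_cast g4
    have f1 := mul_le_mul_of_nonneg_right k1 hm.le
    have f2 := mul_le_mul_of_nonneg_right k2 hm.le
    have f3 := mul_le_mul_of_nonneg_right k3 hm.le
    have f4 := mul_le_mul_of_nonneg_right k4 hm.le
    unfold fat
    rw [Set.mem_ofPred_eq, e1, e2, e3, e4]
    refine ⟨?_, ?_, ?_, ?_⟩ <;> simp only <;> linarith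
  exact ⟨_, key q hq hx, key q' hq' hx'⟩

/-- The columns whose closure contains a point. -/
lemma exists_cols {μ : ℝ} (hμ : 0 < μ) (x0 t : ℝ) : ∃ a b : ℤ, ∃ e > 0,
    (∀ x : ℤ, a ≤ x → x < b → x0 + x * μ ≤ t ∧ t ≤ x0 + (x + 1) * μ) ∧
    (∀ s : ℝ, |s - t| < e → a ≤ ⌊(s - x0) / μ⌋ ∧ ⌊(s - x0) / μ⌋ < b) ∧
    (∀ l h : ℤ, l < h → x0 + l * μ ≤ t → t ≤ x0 + h * μ → ∃ x, a ≤ x ∧ x < b ∧ l ≤ x ∧ x < h) := by
  set f := ⌊(t - x0) / μ⌋ with hf
  have h1 : (f : ℝ) * μ ≤ t - x0 := by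
    have := Int.floor_le ((t - x0) / μ)
    rwa [le_div_iff₀ hμ] at this
  have h2 : t - x0 < ((f : ℝ) + 1) * μ := by
    have := Int.lt_floor_add_one ((t - x0) / μ)
    rwa [div_lt_iff₀ hμ] at this
  have hfl : ∀ l h : ℤ, x0 + l * μ ≤ t → t ≤ x0 + h * μ → l ≤ f ∧ f ≤ h := by
    intro l h g1 g2
    constructor
    · rw [hf, Int.le_floor, le_div_iff₀ hμ]; linarith
    · have : (f : ℝ) * μ ≤ h * μ := by linarith
      exact_mod_cast le_of_mul_le_mul_right this hμ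
  by_cases hc : t - x0 = f * μ
  · refine ⟨f - 1, f + 1, μ, hμ, ?_, ?_, ?_⟩
    · intro x g1 g2
      have k1 : (f : ℝ) ≤ x + 1 := by exact_mod_cast (by omega : f ≤ x + 1)
      have k2 : (x : ℝ) ≤ f := by exact_mod_cast (by omega : x ≤ f)
      have k3 := mul_le_mul_of_nonneg_right k1 hμ.le
      have k4 := mul_le_mul_of_nonneg_right k2 hμ.le
      constructor <;> linarith
    · intro s hs
      rw [abs_lt] at hs
      constructor
      · rw [Int.le_floor, le_div_iff₀ hμ]; push_cast; linarith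
      · rw [Int.floor_lt, div_lt_iff₀ hμ]; push_cast; linarith
    · intro l h hlh g1 g2
      obtain ⟨k1, k2⟩ := hfl l h g1 g2
      rcases k2.lt_or_eq with k3 | k3
      · exact ⟨f, by omega, by omega, k1, k3⟩
      · exact ⟨f - 1, by omega, by omega, by omega, by omega⟩
  · have h3 : (f : ℝ) * μ < t - x0 := lt_of_le_of_ne h1 fun h => hc h.symm
    refine ⟨f, f + 1, min (t - x0 - f * μ) ((f + 1) * μ - (t - x0)), lt_min (by linarith)
      (by linarith), ?_, ?_, ?_⟩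
    · intro x g1 g2
      have : x = f := by omega
      rw [this]
      constructor <;> linarith
    · intro s hs
      have k1 := lt_of_lt_of_le hs (min_le_left _ _)
      have k2 := lt_of_lt_of_le hs (min_le_right _ _)
      rw [abs_lt] at k1 k2
      constructor
      · rw [Int.le_floor, le_div_iff₀ hμ]; linarith
      · rw [Int.floor_lt, div_lt_iff₀ hμ]; push_cast; linarith
    · intro l h hlh g1 g2
      obtain ⟨k1, k2⟩ := hfl l h g1 g2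
      refine ⟨f, le_rfl, by omega, k1, ?_⟩
      refine lt_of_le_of_ne k2 fun k3 => ?_
      rw [← k3] at g2
      linarith

/-! ### A fine cell not contained in `D` -/

/-- **Boxes at a point outside `D`.** -/
theorem ext_boxes {D : Set ℂ} {a b : ℂ} {A₁ A₂ : Set ℂ} (hDb : Bornology.IsBounded D)
    (hDo : IsOpen D) (hDn : D.Nonempty) (hJ : frontier D ⊆ closure (closure D)ᶜ)
    (A : Approx D a b A₁ A₂) {o : ℂ} {qb : Cell} (hqb : cfat o qb ⊆ D)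
    {K : ℕ} {q : Cell} (hq : q.1 = K) (hqD : ¬ cfat o q ⊆ D) :
    ∃ R : Finset (ℤ × ℤ), Conn4 (R : Set (ℤ × ℤ)) ∧ (∃ x ∈ R, x ∈ fc K q) ∧
      (∀ x ∈ R, ¬ cbx o K x ⊆ D) ∧
      (∀ x ∈ R, (3 * q.2.1 - 2 ≤ x.1 ∧ x.1 ≤ 3 * q.2.1 + 4) ∧
        (3 * q.2.2 - 2 ≤ x.2 ∧ x.2 ≤ 3 * q.2.2 + 4)) ∧
      ∀ᶠ n in atTop, ∃ v : ℤ × ℤ, box (A.δ n) o K v ∈ R ∧ v ∉ (A.X n).V := by
  have hm := mesh_pos (K + 1)
  obtain ⟨z, hzq, hzD⟩ := Set.not_subset.1 hqD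
  obtain ⟨a1, b1, e1, he1, p1, p2, p3⟩ := exists_cols hm o.re z.re
  obtain ⟨a2, b2, e2, he2, r1, r2, r3⟩ := exists_cols hm o.im z.im
  obtain ⟨g1, g2, g3, g4⟩ := hzq
  obtain ⟨l1, l2⟩ := mesh_lo (k := q.1) (K := K) hq.le q.2.1
  obtain ⟨l3, l4⟩ := mesh_lo (k := q.1) (K := K) hq.le q.2.2
  rw [l1] at g1
  rw [l2] at g2
  rw [l3] at g3
  rw [l4] at g4
  have lo0 : ∀ i : ℤ, lo (K - q.1) i = 3 * i - 1 ∧ Pg.hi (K - q.1) i = 3 * i + 4 := by
    intro i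
    unfold lo Pg.hi
    rw [hq, Nat.sub_self, pow_zero]
    omega
  refine ⟨Ico a1 b1 ×ˢ Ico a2 b2, rect_conn4, ?_, ?_, ?_, ?_⟩
  · obtain ⟨x, k1, k2, k3, k4⟩ := p3 _ _ (lo_lt_hi _ _) g1 g2
    obtain ⟨y, k5, k6, k7, k8⟩ := r3 _ _ (lo_lt_hi _ _) g3 g4
    refine ⟨(x, y), ?_, ?_⟩
    · rw [mem_product, mem_Ico, mem_Ico]
      exact ⟨⟨k1, k2⟩, k5, k6⟩
    · rw [mem_fc]
      exact ⟨⟨k3, k4⟩, k7, k8⟩
  · intro x hx hxD
    rw [mem_product, mem_Ico, mem_Ico] at hx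
    exact hzD (hxD ⟨p1 _ hx.1.1 hx.1.2, r1 _ hx.2.1 hx.2.2⟩)
  · intro x hx
    rw [mem_product, mem_Ico, mem_Ico] at hx
    obtain ⟨k1, k2⟩ := p1 _ hx.1.1 hx.1.2
    obtain ⟨k3, k4⟩ := r1 _ hx.2.1 hx.2.2
    rw [(lo0 _).1] at g1 g3
    rw [(lo0 _).2] at g2 g4
    have key : ∀ {x0 t : ℝ} {u v : ℤ}, x0 + (u : ℝ) * mesh (K + 1) ≤ t →
        t ≤ x0 + (v : ℝ) * mesh (K + 1) → u ≤ v := by
      intro x0 t u v h1 h2
      have : (u : ℝ) * mesh (K + 1) ≤ v * mesh (K + 1) := by linarith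
      exact_mod_cast le_of_mul_le_mul_right this hm
    have f1 := key g1 (v := x.1 + 1) (by push_cast; linarith)
    have f2 := key k1 g2
    have f3 := key g3 (v := x.2 + 1) (by push_cast; linarith)
    have f4 := key k3 g4
    omega
  · obtain ⟨d, hd, hde, -, z', hz', hzc⟩ := ext_data hDb hDo hJ K hqb hzD (lt_min he1 he2)
    have hinf : 0 < Metric.infDist z' D := by
      rw [← Metric.infDist_closure]
      exact (isClosed_closure.notMem_iff_infDist_pos hDn.closure).1 hzc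
    have e1' : ∀ᶠ n in atTop, A.δ n < min (d / 32) (Metric.infDist z' D / 16) :=
      A.lim.eventually_lt_const (by positivity)
    filter_upwards [e1', A.sub (Metric.infDist z' D / 2) (by positivity)] with n h1 h2
    have hδ := A.pos n
    set δ := A.δ n with hδd
    have h1a : δ < d / 32 := lt_of_lt_of_le h1 (min_le_left _ _)
    have h1b : δ < Metric.infDist z' D / 16 := lt_of_lt_of_le h1 (min_le_right _ _)
    obtain ⟨u1, c1, c2⟩ := exists_coord (lo := z'.re) (hi := z'.re + 2 * δ) hδ (by linarith)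
    obtain ⟨u2, c3, c4⟩ := exists_coord (lo := z'.im) (hi := z'.im + 2 * δ) hδ (by linarith)
    obtain ⟨k1, k2⟩ := coord_dist (x := z') (z := z)
    rw [abs_le] at k1 k2
    have hu1 : |δ * u1 - z.re| < d := by rw [abs_lt]; constructor <;> linarith
    have hu2 : |δ * u2 - z.im| < d := by rw [abs_lt]; constructor <;> linarith
    refine ⟨(u1, u2), ?_, ?_⟩
    · rw [mem_product, mem_Ico, mem_Ico]
      exact ⟨p2 _ (lt_of_lt_of_le hu1 (hde.trans (min_le_left _ _))),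
        r2 _ (lt_of_lt_of_le hu2 (hde.trans (min_le_right _ _)))⟩
    · intro h
      have h3 := h2 _ h
      have h4 : dist (pt δ (u1, u2)) z' < 2 * (2 * δ) := by
        refine dist_coord ?_ ?_ <;> simp only [pt] <;> rw [abs_lt] <;> constructor <;> linarith
      have h5 := Metric.infDist_le_infDist_add_dist (s := D) (x := z') (y := pt δ (u1, u2))
      rw [dist_comm] at h5
      linarith

/-- a vertex outside the discrete domain has a label which is not free -/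
lemma not_star1_sub (X : DDomain) {v : ℤ × ℤ} (hv : v ∉ X.V) {E : Finset (ℤ × ℤ)}
    (hE : E ⊆ X.toDEnv.E) : ¬ star1 v ⊆ E := by
  intro h
  obtain ⟨d, h1, h2, -⟩ := Pool.Agent.H43.Q1.exists_vx (v := v) (v' := (2 * v.1 + 1, 2 * v.2) - v)
    (e := (2 * v.1 + 1, 2 * v.2)) (by
      unfold IsUnit4
      simp only [Prod.ext_iff, Prod.fst_sub, Prod.snd_sub]
      omega) (by abel)
  apply hv
  rw [← h1]
  refine vx_mem_V X ?_
  rw [← labE_eq]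
  refine mem_union_left _ (hE (h ?_))
  rw [h2]
  unfold star1
  simp

/-! ### The theorem -/

/-- Joined outside the flat set to a cell outside the filled set. -/
lemma not_mem_fill {F : Finset (ℤ × ℤ)} {Z : Set (ℤ × ℤ)} {c z : ℤ × ℤ} (h : J4 Z c z)
    (hc : c ∉ fill F) (hZ : ∀ x ∈ Z, x ∉ F) : z ∉ fill F := by
  rw [mem_fill, not_not] at hc ⊢
  exact h.induct (P := fun x => x ∈ Ext F) hc fun x y hx hxy hy => ext_adj hx hxy (hZ y hy)

/-- **Dead cells.** -/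
theorem dead_cells {D : Set ℂ} {a b : ℂ} {A₁ A₂ : Set ℂ} (hD : IsJordanDomain D)
    (A : Approx D a b A₁ A₂) {r0 : ℝ} (B : Base A r0) (K : ℕ) :
    ∀ᶠ n in atTop, ∀ E ⊆ (X0 A n).E, ∀ C : Finset Cell,
      (∀ q ∈ C, q.1 < K ∧ cfat B.o q ⊆ D ∧ star (verts (A.δ n) B.o q) ⊆ E) →
      ∀ c c' : ℤ × ℤ, c ∈ flat K (Uk D (A.δ n) B.o B.qb K E) → Adj4 c c' →
        c' ∉ PP K (Uk D (A.δ n) B.o B.qb K E) C →
        DeadAt K B.o (A.δ n) (PP K (Uk D (A.δ n) B.o B.qb K E) C) E c' := by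
  classical
  obtain ⟨hDo, hDc, hDb, J, hJ, hJi, hJf⟩ := hD
  have hJF : frontier D ⊆ closure (closure D)ᶜ :=
    (Pool.Agent.H14.Jordan.exists_isJD hDo hDc hDb hJ hJi hJf).frontier_subset_closure_exterior
  have hqbD : cfat B.o B.qb ⊆ D := (B.subQ 0 _ B.qb_mem).trans Set.inter_subset_left
  -- the finite set of cells
  set F0 := flat K (cells D B.o K) with hF0
  set F1 := F0.biUnion (fun c => ({c + dir 0, c + dir 1, c + dir 2, c + dir 3} :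
    Finset (ℤ × ℤ))) with hF1
  have hF1m : ∀ c c' : ℤ × ℤ, c ∈ F0 → Adj4 c c' → c' ∈ F1 := by
    intro c c' hc h
    rw [hF1, mem_biUnion]
    refine ⟨c, hc, ?_⟩
    obtain ⟨k, rfl⟩ := h
    have h0 : dir 0 = (1, 0) := by decide
    have h1 : dir 1 = (0, 1) := by decide
    have h2 : dir 2 = (-1, 0) := by decide
    have h3 : dir 3 = (0, -1) := by decide
    rw [h0, h1, h2, h3]
    rcases dir_cases k with ⟨-, e⟩ | ⟨-, e⟩ | ⟨-, e⟩ | ⟨-, e⟩ <;> rw [e] <;> simp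
  have hev : ∀ c' : ℤ × ℤ, ∃ R : Finset (ℤ × ℤ), ¬ cfat B.o (coreOf K c') ⊆ D →
      (Conn4 (R : Set (ℤ × ℤ)) ∧ (∃ x ∈ R, x ∈ fc K (coreOf K c')) ∧
      (∀ x ∈ R, ¬ cbx B.o K x ⊆ D) ∧
      (∀ x ∈ R, (3 * (coreOf K c').2.1 - 2 ≤ x.1 ∧ x.1 ≤ 3 * (coreOf K c').2.1 + 4) ∧
        (3 * (coreOf K c').2.2 - 2 ≤ x.2 ∧ x.2 ≤ 3 * (coreOf K c').2.2 + 4)) ∧
      ∀ᶠ n in atTop, ∃ v : ℤ × ℤ, box (A.δ n) B.o K v ∈ R ∧ v ∉ (A.X n).V) := by
    intro c'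
    by_cases h : cfat B.o (coreOf K c') ⊆ D
    · exact ⟨∅, fun h' => absurd h h'⟩
    · obtain ⟨R, hR⟩ := ext_boxes hDb hDo hDc.nonempty hJF A hqbD (K := K)
        (q := coreOf K c') rfl h
      exact ⟨R, fun _ => hR⟩
  choose R hR using hev
  have hevn : ∀ᶠ n in atTop, ∀ c' ∈ F1, ¬ cfat B.o (coreOf K c') ⊆ D →
      ∃ v : ℤ × ℤ, box (A.δ n) B.o K v ∈ R c' ∧ v ∉ (A.X n).V := by
    rw [Filter.eventually_all_finset]
    intro c' _
    by_cases h : cfat B.o (coreOf K c') ⊆ D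
    · exact Filter.Eventually.of_forall fun n h' => absurd h h'
    · filter_upwards [(hR c' h).2.2.2.2] with n hn _
      exact hn
  filter_upwards [hevn] with n hn
  intro E hE C hC c c' hc hcc' hc'
  have hδ := A.pos n
  have hg : Gen2 K B.o (A.δ n) := Pool.Agent.H53.Q1.Base_gen2 B K n
  set U := Uk D (A.δ n) B.o B.qb K E with hU
  have hUf : ∀ q ∈ U, q.1 = K ∧ Free D (A.δ n) B.o E q := by
    intro q hq
    rw [hU, mem_Uk hDb] at hq
    exact hq.head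
  have hUC : ∀ p ∈ U ∪ C, p.1 ≤ K ∧ cfat B.o p ⊆ D ∧ star (verts (A.δ n) B.o p) ⊆ E := by
    intro p hp
    rcases mem_union.1 hp with h | h
    · exact ⟨(hUf p h).1.le, (hUf p h).2.1, (hUf p h).2.2⟩
    · exact ⟨(hC p h).1.le, (hC p h).2.1, (hC p h).2.2⟩
  have hc'F : c' ∉ flat K (U ∪ C) := fun h => hc' (subset_fill _ h)
  set q' := coreOf K c' with hq'
  have hq'1 : q'.1 = K := rfl
  have hcore : InCore q' c' := inCore_coreOf K c'
  -- the new cell is not free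
  have hnF : ¬ Free D (A.δ n) B.o E q' := by
    intro hF
    apply hc'F
    refine mem_flat.2 ⟨q', mem_union_left _ ?_, inCore_fc hq'1 hcore⟩
    obtain ⟨q, hq, hcq⟩ := mem_flat.1 hc
    have hcq' : c ∈ fc K q' := by
      obtain ⟨h1, h2⟩ := NB.of_adj hcc'
      refine fc_of_adj_core hq'1 hcore ?_ ?_
      · rw [abs_sub_comm]; exact h1
      · rw [abs_sub_comm]; exact h2
    rw [hU, mem_Uk hDb] at hq ⊢
    exact ConnC.cons hq'1 hF (adjC_of_fc hq'1.le hq.head.1.le hcq' hcq) hq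
  set Z0 := fc K q' \ flat K (U ∪ C) with hZ0
  have hc'Z0 : c' ∈ Z0 := mem_sdiff.2 ⟨inCore_fc hq'1 hcore, hc'F⟩
  have hconn : Conn4 (Z0 : Set (ℤ × ℤ)) :=
    zconn (fun q hq => (hUf q hq).1) (fun q hq => (hC q hq).1) hq'1 hcore hc'F
  have hZ0F : ∀ x ∈ Z0, x ∉ flat K (U ∪ C) := fun x hx => (mem_sdiff.1 hx).2
  have hZ0N : ∀ x ∈ Z0, NB 8 c' x := by
    intro x hx
    have h1 := (mem_fc_fine hq'1).1 (mem_sdiff.1 hx).1
    unfold InCore at hcore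
    unfold NB
    rw [abs_le, abs_le]
    omega
  by_cases hqD : cfat B.o q' ⊆ D
  · have h1 : ¬ star (verts (A.δ n) B.o q') ⊆ E := fun h => hnF ⟨hqD, h⟩
    obtain ⟨e, he, heE⟩ := not_subset.1 h1
    obtain ⟨v, hv, hev⟩ := mem_star.1 he
    have hvb : box (A.δ n) B.o K v ∈ fc K q' := (mem_verts_iff hδ hg hq'1.le).1 hv
    have hvF : box (A.δ n) B.o K v ∉ flat K (U ∪ C) := by
      intro h
      obtain ⟨p, hp, h2⟩ := mem_flat.1 h
      obtain ⟨h3, -, h4⟩ := hUC p hp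
      exact heE (h4 (mem_star.2 ⟨v, (mem_verts_iff hδ hg h3).2 h2, hev⟩))
    have hvZ : box (A.δ n) B.o K v ∈ Z0 := mem_sdiff.2 ⟨hvb, hvF⟩
    refine ⟨Z0, hc'Z0, fun z hz => ⟨?_, hZ0N z hz⟩, _, hconn c' hc'Z0 _ hvZ, v, rfl, fun h => heE (h hev)⟩
    exact not_mem_fill (hconn c' hc'Z0 z hz) hc' hZ0F
  · obtain ⟨k1, ⟨x, hxR, hxq⟩, k2, k3, -⟩ := hR c' hqD
    obtain ⟨v, hvR, hvV⟩ := hn c' (hF1m c c' (by
      rw [hF0]
      obtain ⟨q, hq, hcq⟩ := mem_flat.1 hc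
      exact mem_flat.2 ⟨q, Uk_sub_cells hDb hq, hcq⟩) hcc') hqD
    have hRF : ∀ y ∈ R c', y ∉ flat K (U ∪ C) := by
      intro y hy h
      obtain ⟨p, hp, h2⟩ := mem_flat.1 h
      obtain ⟨h3, h4, -⟩ := hUC p hp
      exact k2 y hy ((cbx_sub h3 h2).trans h4)
    have hxZ0 : x ∈ Z0 := mem_sdiff.2 ⟨hxq, hRF x hxR⟩
    have hcn : Conn4 ((Z0 ∪ R c' : Finset (ℤ × ℤ)) : Set (ℤ × ℤ)) := by
      rw [coe_union]
      exact Conn4.union hconn k1 ⟨x, hxZ0, x, hxR, Or.inl rfl⟩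
    have hc'Z : c' ∈ Z0 ∪ R c' := mem_union_left _ hc'Z0
    have hZF : ∀ y ∈ Z0 ∪ R c', y ∉ flat K (U ∪ C) := by
      intro y hy
      rcases mem_union.1 hy with h | h
      · exact hZ0F y h
      · exact hRF y h
    refine ⟨Z0 ∪ R c', hc'Z, fun z hz => ⟨?_, ?_⟩, _, hcn c' hc'Z _ (mem_union_right _ hvR), v, rfl, ?_⟩
    · exact not_mem_fill (hcn c' hc'Z z hz) hc' hZF
    · rcases mem_union.1 hz with h | h
      · exact hZ0N z h
      · have h1 := k3 z h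
        rw [← hq'] at h1
        unfold InCore at hcore
        unfold NB
        rw [abs_le, abs_le]
        omega
    · exact not_star1_sub (A.X n) hvV hE

/-- **Dead cells at the sides of the region of a step.** -/
theorem dead_mk {D : Set ℂ} {a b : ℂ} {A₁ A₂ : Set ℂ} (hD : IsJordanDomain D)
    (A : Approx D a b A₁ A₂) {r0 : ℝ} (B : Base A r0) (K M : ℕ) (hQK : ∀ q ∈ B.Q M, q.1 < K) :
    ∀ᶠ n in atTop, ∀ E ⊆ (X0 A n).E, ∀ C : Finset Cell, (∀ q ∈ C, q.1 < K ∧ cfat B.o q ⊆ D) →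
      star (Vn (A.δ n) B.o (C ∪ B.Q M)) ⊆ E → ∀ (BB : Cell) (z : ℂ) (s : (ℤ × ℤ) × ℤ),
      (mkSD B K (A.δ n) E C M BB z s).Ok → ∀ i,
      (mkSD B K (A.δ n) E C M BB z s).oc' i ∉ (mkSD B K (A.δ n) E C M BB z s).P →
      DeadAt K B.o (A.δ n) (mkSD B K (A.δ n) E C M BB z s).P E
        ((mkSD B K (A.δ n) E C M BB z s).oc' i) := by
  filter_upwards [dead_cells hD A B K] with n hn
  intro E hE C hC hst BB z s hok i hi
  set d := mkSD B K (A.δ n) E C M BB z s with hd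
  have h1 := SD.isSide hok i
  have h2 := SD.R_sub h1.1
  obtain ⟨h3, h4⟩ := mem_sdiff.1 h2
  have hadj : Adj4 (d.sid i).1 (d.oc' i) := ⟨_, rfl⟩
  obtain ⟨q, hq, h5, -⟩ := exists_O h3 h4 hadj hi
  refine hn E hE (C ∪ B.Q M) (fun q hq => ?_) _ _ (mem_flat.2 ⟨q, hq, h5⟩) hadj hi
  have h6 : star (verts (A.δ n) B.o q) ⊆ E := fun e he => hst (star_mono (fun v hv =>
    mem_Vn.2 ⟨q, hq, hv⟩) he)
  rcases mem_union.1 hq with h | h
  · exact ⟨(hC q h).1, (hC q h).2, h6⟩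
  · exact ⟨hQK q h, (B.subQ M q h).trans Set.inter_subset_left, h6⟩

end Pool.Agent.H28.Q1
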