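import Mathlib
import Pool.Agent.H42.Q1.TipE
import Pool.Agent.H5.M7.OkC

set_option autoImplicit false
open Finset Filter Topology

/-! # Module M7: the ties of the states near the window

`tied_win` : the data of the state `j + 1` with target the barrier are regular and tied. -/

namespace Pool.Agent.H28.Q1

open Pool.Agent.H75.Perc Pool.Agent.H75.TwoArm Pool.Agent.H75.Four Pool.Agent.H99.NC
open Pool.Agent.H69.Q1 Pool.Agent.H39.Q1
open Pool.Agent.Q1.M3 hiding denv_ext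
open Pool.Agent.Q1.M3.Pg hiding ends_add Gen
open Pool.Agent.H81.Q1 (pt Approx IsJordanDomain IsArcs)
open Pool.Agent.H5.M7 (box_bounds adj_of_fc nfin reg_ev far_b arcs_facts core_state ok_state mem_Sbar
  exists_mesh mesh_anti exists_lev)
open Pool.Agent.H82.Q1.M7 (Sbar uv Win Par FarS Adm tside SDX SDj ucell)
open Pool.Agent.H21.Q1 (Sol Wt InvL Mn)
open Pool.Agent.H42.Q1 (StepD exists_stepD chain_state tip_v kapN_sub invL_X tsd tsd_dir dist_of_NB
  sol_state tied_state mn_succ far_tip pvf_step)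

section

variable {D : Set ℂ} {a b : ℂ} {A₁ A₂ : Set ℂ} {A : Approx D a b A₁ A₂} {r0 : ℝ}

/-- The facts on the data of the state `j + 1` : `Z` is the environment before the last label, `v`
the tip vertex, `dd` the direction of the exit. -/
structure TW (B : Base A r0) (P : Par B) (k0 K n j : ℕ) (ω : Finset (ℤ × ℤ)) (Z : DEnv)
    (v dd : ℤ × ℤ) (τ T : Finset (ℤ × ℤ)) : Prop where
  hv : v = tipv (B.F k0 n (B.X k0 n j ω).E) (lab (B.X k0 n (j + 1) ω).α)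
  hdd : dd = tipd (B.F k0 n (B.X k0 n j ω).E) (lab (B.X k0 n (j + 1) ω).α)
  step : StepD B k0 n (B.X k0 n j ω) Z (B.X k0 n (j + 1) ω) v
  tied : Tied (SDj B P k0 K n j ω) B.o (A.δ n) (B.X k0 n (j + 1) ω) Z (B.N n) τ T 2
  nearτ : ∀ u, Vl τ u → NB 3 (box (A.δ n) B.o K v) (box (A.δ n) B.o K u)
  nearT : ∀ e ∈ T, NB 3 (box (A.δ n) B.o K v) (box (A.δ n) B.o K (eu e)) ∧
    NB 3 (box (A.δ n) B.o K v) (box (A.δ n) B.o K (ev e))
  ZW : Z.W ⊆ (B.X k0 n (j + 1) ω).W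
  dir : dd ∈ dirs
  tip : v + dd = vx Z.α
  mn : ∀ g, Mn Z (B.N n) g → Mn (B.X k0 n (j + 1) ω) (B.N n) g
  kp : Pool.Agent.H21.Q1.kp (B.X k0 n (j + 1) ω) (B.N n) =
    kap (B.N n) ∩ ((X0 A n).E ∪ (X0 A n).W)
  beta : (B.X k0 n (j + 1) ω).β = (X0 A n).β
  ZE : Z.E ⊆ (X0 A n).E
  W0 : (X0 A n).W ⊆ Z.W
  inv : Inv (B.X k0 n (j + 1) ω)
  invL : InvL (B.X k0 n (j + 1) ω)
  alphaN : vx (B.X k0 n (j + 1) ω).α ∉ B.N n
  nfin : ¬ B.Fin n (B.X k0 n (j + 1) ω)
  s : (SDj B P k0 K n j ω).s = tside (box (A.δ n) B.o K v) dd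
  s1 : (SDj B P k0 K n j ω).s.1 = box (A.δ n) B.o K v - (2 : ℤ) • dd
  nears : NB 4 (box (A.δ n) B.o K v) (SDj B P k0 K n j ω).s.1
  core : (SDj B P k0 K n j ω).s.1 ∈ (SDj B P k0 K n j ω).P \ (SDj B P k0 K n j ω).H2
  nearα : dist (pt (A.δ n) v) (pt (A.δ n) (vx (B.X k0 n (j + 1) ω).α)) ≤ A.δ n

/-- The wired labels of a state. -/
lemma X_W_sub (B : Base A r0) {k0 n : ℕ} {ω : Finset (ℤ × ℤ)} (hω : ω ⊆ (X0 A n).E) (j : ℕ) :
    (X0 A n).W ⊆ (B.X k0 n j ω).W ∧ (B.X k0 n j ω).W ⊆ (X0 A n).W ∪ (X0 A n).E := by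
  have h := Rules.st_W (B.rules k0 n) (X := X0 A n) hω j
  unfold Base.X
  rw [h]
  refine ⟨subset_union_left, union_subset subset_union_left ?_⟩
  exact fun e he => mem_union_right _ (hω (mem_inter.1 he).1)

/-- **The data of the state `j + 1` with target the barrier are regular and tied.** -/
theorem tied_win (hJ : IsJordanDomain D) (hab : a ≠ b) (hA : IsArcs D a b A₁ A₂) (B : Base A r0)
    (w : Win B) (hw : w.Side) {k0 : ℕ} (hk : B.qb.1 ≤ k0) {ρ : ℝ} (hρ : 0 < ρ) :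
    ∃ r > 0, ∀ P : Par B, cfat B.o P.BB ⊆ Metric.ball b r → w.M0 ≤ P.M →
      ∃ K1, ∀ K, K1 ≤ K → ∀ᶠ n in atTop, ∀ ω, ω ⊆ (X0 A n).E → ∀ j,
        Adm w n ρ k0 (j + 1) ω → ∃ Z v dd τ T, TW B P k0 K n j ω Z v dd τ T ∧
          ∀ u ∈ B.N n, w.l < dist (pt (A.δ n) v) (pt (A.δ n) u) := by
  classical
  have hDo := hJ.1
  have hDb := hJ.2.2.1
  obtain ⟨haD, hbD, -, hA1, hne⟩ := arcs_facts hJ hA
  have hl := w.l0
  -- distance of the cells from `b`
  set C0 : Finset Cell := insert B.qb (cells D B.o k0) with hC0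
  have hCD : ∀ q ∈ C0, cfat B.o q ⊆ D := by
    intro q hq
    rcases mem_insert.1 hq with h | h
    · rw [h]; exact (B.subQ 0 _ B.qb_mem).trans Set.inter_subset_left
    · exact ((mem_cells hDb).1 h).2
  obtain ⟨s, hs0, hs⟩ := exists_dist C0 hCD hbD
  obtain ⟨r1, hr1, hcore⟩ := core_state hJ hab hA w hw hk hρ
  refine ⟨min s (min r1 (w.l / 2)), lt_min hs0 (lt_min hr1 (by positivity)), fun P hP hM => ?_⟩
  have hBs : cfat B.o P.BB ⊆ Metric.ball b s := hP.trans (Metric.ball_subset_ball (min_le_left _ _))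
  have hBl : cfat B.o P.BB ⊆ Metric.ball b (w.l / 2) := hP.trans (Metric.ball_subset_ball
    ((min_le_right _ _).trans (min_le_right _ _)))
  obtain ⟨K0, hcoreK⟩ := hcore P (hP.trans (Metric.ball_subset_ball
    ((min_le_right _ _).trans (min_le_left _ _)))) hM
  obtain ⟨K2, hK2⟩ := exists_mesh (show 0 < min (ρ / 21) (w.l / 21) by positivity)
  obtain ⟨K3, hK3⟩ := exists_lev (B.Q P.M)
  refine ⟨K0 + K2 + K3 + (P.BB.1 + 1) + (k0 + 3) + (B.qb.1 + 3), fun K hK => ?_⟩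
  have hη := mesh_pos (K + 1)
  have hmK := hK2 (K + 1) (by omega)
  have hKρ : 21 * mesh (K + 1) ≤ ρ := by
    have := hmK.trans_le (min_le_left _ _)
    linarith
  have hKl : 21 * mesh (K + 1) < w.l := by
    have := hmK.trans_le (min_le_right _ _)
    linarith
  have hQMK : ∀ q ∈ B.Q P.M, q.1 < K := fun q hq => by have := hK3 q hq; omega
  have e1 : ∀ᶠ n in atTop, A.δ n < mesh (K + 1) / 5 :=
    A.lim.eventually_lt_const (by positivity)
  have e2 := star_free hDo hDb hA A B.o (C := {B.qb}) (fun q hq => by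
    rw [mem_singleton.1 hq]; exact hCD _ (mem_insert_self _ _))
  filter_upwards [e1, e2, B.hN P.M, B.conn, B.beta,
    reg_ev (B := B) hDb haD hbD (show 0 < 2 * w.l by positivity) k0,
    nfin (B := B) hbD (show 0 < 2 * w.l by positivity),
    Pool.Agent.Q1.M3.Pg.free_state B hDo hDb hA K P.M (fun q hq => (hQMK q hq).le)
      (show P.BB.1 ≤ K by omega) P.ball,
    hcoreK K (by omega),
    ok_state hJ hA P (k0 := k0) (show k0 < K by omega) hQMK (show P.BB.1 < K by omega)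
      (show 0 < 2 * w.l by positivity)] with n h1 h2 h3 h5 h6 hR0 hnf h8 hc0' hok0 ω hω j hAd
  have hδ := A.pos n
  have hm : 5 * A.δ n ≤ mesh (K + 1) := by linarith
  have hR := hR0 (j + 1) ω hω hAd.far
  have hfin := hnf k0 (j + 1) ω hω hAd.far
  have hcor := (hc0' ω hω j hAd).mem
  have hok := hok0 ω hω j hAd.far hcor
  have hgood := hAd.good
  obtain ⟨N', hN', hN'b⟩ := h3
  have hVq : Vn (A.δ n) B.o {B.qb} = verts (A.δ n) B.o B.qb := by
    unfold Vn; rw [singleton_biUnion]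
  rw [hVq] at h2
  have hqbM : B.qb ∈ B.Q P.M := qb_mem_Q B P.M
  have hQN : Vn (A.δ n) B.o (B.Q P.M) ⊆ B.N n := by rw [hN']; exact subset_union_left
  have hqbN : verts (A.δ n) B.o B.qb ⊆ B.N n := by
    rw [← hVq]
    exact (Vn_mono (singleton_subset_iff.2 hqbM)).trans hQN
  obtain ⟨Z, hZ⟩ := exists_stepD B hDb hω hfin hR
  obtain ⟨v, hv⟩ : ∃ v, v = tipv (B.F k0 n (B.X k0 n j ω).E) (lab (B.X k0 n (j + 1) ω).α) :=
    ⟨_, rfl⟩
  obtain ⟨dd, hdd⟩ : ∃ dd, dd = tipd (B.F k0 n (B.X k0 n j ω).E)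
    (lab (B.X k0 n (j + 1) ω).α) := ⟨_, rfl⟩
  rw [← hv] at hZ
  obtain ⟨q0, q1, hF⟩ := chain_state B hDb hω hfin h2 hqbN hZ
  set Y := B.X k0 n (j + 1) ω with hY
  have hgen : Gen2 K B.o (A.δ n) := Pool.Agent.H53.Q1.Base_gen2 B K n
  -- the direction
  have htd : vx Z.α - v = dd := by rw [hdd, (tip_v B hZ).2]
  have hdirs : dd ∈ dirs := by
    rw [← htd]
    have h9 := (pvf_step Z.α).1
    rw [hZ.vpv] at h9
    unfold IsUnit4 at h9
    unfold dirs
    simp only [mem_insert, mem_singleton]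
    rcases h9 with h | h | h | h <;> rw [h] <;> simp
  have hsd : (SDj B P k0 K n j ω).s = tsd (box (A.δ n) B.o K v) dd := by
    rw [hv, hdd]; rfl
  have hdir : Pool.Agent.H75.Perc.dir ((SDj B P k0 K n j ω).s.2 - 1) = dd := by
    rw [hsd]; exact tsd_dir hdirs
  have hs1 : (SDj B P k0 K n j ω).s.1 = box (A.δ n) B.o K v -
      (2 : ℤ) • Pool.Agent.H75.Perc.dir ((SDj B P k0 K n j ω).s.2 - 1) := by
    rw [hdir, hsd]; rfl
  have hs2 : Pool.Agent.H75.Perc.dir ((SDj B P k0 K n j ω).s.2 - 1) = vx Z.α - v := by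
    rw [hdir, htd]
  -- the families
  obtain ⟨f1, f2, f3, f4, f5⟩ := h8 k0 (j + 1) ω hω hfin ∅ (by simp) (by
    intro l hl
    obtain ⟨u, hu, -⟩ := mem_star.1 hl
    obtain ⟨q, hq, -⟩ := mem_Vn.1 hu
    exact absurd hq (notMem_empty _)) P.z (tsd (box (A.δ n) B.o K v) dd) Y (subset_refl _)
  have hV0 : Vn (A.δ n) B.o ∅ = ∅ := by unfold Vn; rw [biUnion_empty]
  rw [hV0, empty_union] at f3
  simp only [hV0, empty_union] at f3 f4 f5
  -- distances of the tip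
  have hvY : dist (pt (A.δ n) v) (pt (A.δ n) (vx Y.α)) ≤ A.δ n := by
    refine dist_of_star1 hδ hZ.mem1 ?_
    rw [← hZ.labY]; exact lab_star1 _
  have hfarα : ∀ z ∈ Sbar B, 2 * w.l ≤ dist (pt (A.δ n) (vx Y.α)) z := by
    rw [hY, B.X_α hω]
    exact hAd.far _ le_rfl
  have hbα := far_b hbD hfarα
  have hfarN : ∀ u ∈ B.N n, w.l < dist (pt (A.δ n) v) (pt (A.δ n) u) := by
    intro u hu
    have h11 := dist_triangle (pt (A.δ n) (vx Y.α)) (pt (A.δ n) v) (pt (A.δ n) u)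
    rw [dist_comm (pt (A.δ n) (vx Y.α)) (pt (A.δ n) v)] at h11
    rw [hN'] at hu
    rcases mem_union.1 hu with h | h
    · obtain ⟨q, hq, huq⟩ := mem_Vn.1 h
      have h12 := hfarα _ (mem_Sbar.2 ⟨P.M, q, hq, fat_sub_cfat _ _ ((mem_verts hδ).1 huq)⟩)
      linarith
    · have h12 := Metric.mem_ball.1 (hBl (fat_sub_cfat _ _ (P.ball (hN'b u h))))
      have h13 := dist_triangle (pt (A.δ n) (vx Y.α)) (pt (A.δ n) u) b
      linarith
  have hnear : ∀ u ∈ B.N n, ¬ NB 4 (box (A.δ n) B.o K v) (box (A.δ n) B.o K u) := by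
    intro u hu hnb
    have h10 := dist_of_NB hgen hnb
    push_cast at h10
    rw [dist_comm] at h10
    have h11 := hfarN u hu
    linarith
  have hBBq : ∀ q, q = B.qb ∨ q ∈ cells D B.o k0 → ¬ AdjC B.o q P.BB := by
    rintro q hq ⟨x, hx1, hx2⟩
    have h9 : q ∈ C0 := by
      rcases hq with h | h
      · rw [h]; exact mem_insert_self _ _
      · exact mem_insert_of_mem h
    have h10 := hs q h9 x (fat_sub_cfat _ _ hx1)
    have h11 := Metric.mem_ball.1 (hBs (fat_sub_cfat _ _ hx2))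
    linarith
  obtain ⟨τ, T, t1, t2, t3⟩ := tied_state B hDb hω hZ hF (d := SDj B P k0 K n j ω) hok hm rfl f5
    hs1 hs2 le_rfl (show k0 + 3 ≤ K by omega) (show B.qb.1 + 3 ≤ K by omega) hKρ hgood hBBq hqbM
    (Kv := B.N n) f3 f4
    (fun u hu u' hu' => (h5 u hu u' hu').mono (kapN_sub B hω (j + 1) hfin)) h6
    (fun u hu hnb => absurd hnb (hnear u hu))
  have hW : Z.W ⊆ Y.W := by
    rcases hZ.succ.st with ⟨h9, -⟩ | ⟨h9, -⟩
    · rw [h9]; exact subset_insert _ _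
    · rw [h9]
  have hE0 : Y.E ⊆ (X0 A n).E := B.X_E hω (j + 1)
  have hW0 := X_W_sub B (k0 := k0) hω (j + 1)
  refine ⟨Z, v, dd, τ, T, ?_, hfarN⟩
  refine ⟨hv, hdd, hZ, t1, t2, t3, hW, hdirs, by rw [← htd]; abel, ?_, ?_, ?_, ?_, ?_, ?_, ?_, ?_,
    hfin, ?_, ?_, ?_, hcor, hvY⟩
  · have hvE : star1 v ⊆ Z.E := fun l hl => hF.E0 l (star1_sub_star hF.v0 hl)
    refine fun g hg => mn_succ hZ.succ hZ.mem1 hvE ?_ t1.kp hg
    intro h
    exact hZ.notN (star1_sub_star h hZ.mem1)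
  · unfold Pool.Agent.H21.Q1.kp
    refine subset_antisymm ?_ (kapN_sub B hω (j + 1) hfin)
    refine inter_subset_inter (subset_refl _) (union_subset (hE0.trans subset_union_left) ?_)
    intro l hl
    rcases mem_union.1 (hW0.2 hl) with h | h
    · exact mem_union_right _ h
    · exact mem_union_left _ h
  · exact B.X_beta (j + 1)
  · exact hZ.EX.trans (B.X_E hω j)
  · obtain ⟨Q, hQ, ω', hω', h⟩ := hZ.aft
    rw [h]
    exact (X_W_sub B (k0 := k0) hω j).1.trans subset_union_left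
  · exact Pool.Agent.H42.Q1.inv_X B (j + 1) ω
  · exact invL_X B (j + 1) ω
  · intro h
    exact hfin (star1_sub_star h (lab_star1 _))
  · exact hsd
  · rw [hs1, hdir]
  · rw [hs1]
    have h9 : NB 1 (box (A.δ n) B.o K v) (box (A.δ n) B.o K v - dd) := by
      refine (NB.of_adj ⟨(SDj B P k0 K n j ω).s.2 - 1, ?_⟩).symm
      rw [hdir, sub_add_cancel]
    have h10 : NB 1 (box (A.δ n) B.o K v - dd) (box (A.δ n) B.o K v - (2 : ℤ) • dd) := by
      refine (NB.of_adj ⟨(SDj B P k0 K n j ω).s.2 - 1, ?_⟩).symm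
      rw [hdir, two_zsmul]; abel
    rw [hdir]
    exact (h9.trans h10).mono (by norm_num)

end

end Pool.Agent.H28.Q1
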